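import Pool.Agent.Helper4.GA.LastE
import Pool.Agent.Helper4.RC.Tails

set_option autoImplicit false

/-!
The mean error of the last string, over the restrictions.

Proof sketch. As in `main_num` (RC/MainNum.lean, the steps `h5`, `h6`): `rstbl_run` gives
`run (rstbl str r ρ c) = rstbl str r ρ (run c)`, so with `endSt_rstbl`
`endSt (run (rstbl str r ρ c)) q (t + 1) x = endSt (run c) q (t + 1) (lay (cut _ str) r ρ x)` (`cut` of RC/Prog.lean is
`fun θ i => str θ (Fin.castLE ht i)`). The mean of the square root is at most the square root of the mean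
(`mean_sqrt_le`), and `tails` bounds the mean of `lv`.
-/

namespace Helper4.GA

open Finset Helper4.RC

/-- The mean error of the last string. -/
noncomputable def errE (K n Λ : ℝ) (k k' r : ℕ) (δ : ℝ) : ℝ :=
  δ * (k * K * (2 * (2 * Λ) ^ k)) +
    n * K * √((1 / 2 ^ r) ^ k * (2 * (2 * Λ) ^ k) + 16 ^ k * (r * eps1 K n Λ k' δ) +
      δ * (2 * (2 * Λ) ^ k) ^ 2)

theorem rstbl_run {Θ : Type} {m w n : ℕ} (str : Θ → Fin n → ZMod 2) (k : ℕ) (ρ : Fin k → Θ × Θ)
    (c : ℕ → ZMod 2 → Instr m w) : rstbl str k ρ (run c) = run (rstbl str k ρ c) := by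
  induction k generalizing c with
  | zero => rfl
  | succ k ih => exact ih (fun j => ρ j.succ) (rstb (str (ρ 0).1) (str (ρ 0).2) c)

private lemma lastM_mean_sum {Ω : Type} [Fintype Ω] {ι : Type} (s : Finset ι) (f : ι → Ω → ℝ) :
    (mean fun ω => ∑ i ∈ s, f i ω) = ∑ i ∈ s, mean (f i) := by
  unfold mean
  rw [Finset.sum_comm, Finset.sum_div]

private lemma lastM_mean_add {Ω : Type} [Fintype Ω] (f g : Ω → ℝ) :
    (mean fun ω => f ω + g ω) = mean f + mean g := by
  unfold mean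
  rw [Finset.sum_add_distrib]
  ring

private lemma lastM_mean_const {Ω : Type} [Fintype Ω] [Nonempty Ω] (a : ℝ) :
    (mean fun _ : Ω => a) = a := by
  unfold mean
  rw [Finset.sum_const, Finset.card_univ, nsmul_eq_mul]
  have : (Fintype.card Ω : ℝ) ≠ 0 := Nat.cast_ne_zero.2 Fintype.card_ne_zero
  field_simp

private lemma lastM_lv_nonneg {n : ℕ} (k : ℕ) (g : (Fin n → ZMod 2) → ℝ) : 0 ≤ lv k g := by
  unfold lv
  refine Finset.sum_nonneg fun χ _ => ?_
  split_ifs
  · exact sq_nonneg _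
  · exact le_rfl

theorem last_mean {Θ : Type} [Fintype Θ] [Nonempty Θ] (m w n Λ N k k' r : ℕ) (hΛ : 1 ≤ Λ)
    (hk : 1 ≤ k) (hkk : k ≤ k')
    (hs : ∀ t ≤ n, ∀ (c : ℕ → ZMod 2 → Instr m w) (q : Fin m → Fin w),
      (bad (run c) q t Λ).card * 2 ^ N ≤ 2 ^ t)
    (hN : k' * (6 * (2 * Λ + n * (w ^ m) ^ 2)) ^ k' * (2 * n) ≤ 2 ^ N)
    (str : Θ → Fin n → ZMod 2) (δ : ℝ) (hδ : 0 ≤ δ) (hstr : Biased str δ)
    (c : ℕ → ZMod 2 → Instr m w) (q : Fin m → Fin w) :
    (mean fun ρ : Fin r → Θ × Θ => eb (rstbl str r ρ c) q n Λ k δ) ≤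
      errE ((w : ℝ) ^ m) n Λ k k' r δ := by
  classical
  have hcard : Fintype.card (Fin m → Fin w) = w ^ m := by simp
  have h5 : ∀ t ∈ range n, ∀ v : Fin m → Fin w,
      (mean fun ρ : Fin r → Θ × Θ => √(lv k (fun x : Fin (t + 1) → ZMod 2 =>
          ind (endSt (run (rstbl str r ρ c)) q (t + 1) x = v)) +
            δ * (2 * (2 * (Λ : ℝ)) ^ k) ^ 2)) ≤
        √((1 / 2 ^ r) ^ k * (2 * (2 * (Λ : ℝ)) ^ k) +
          16 ^ k * (r * eps1 ((w : ℝ) ^ m) n Λ k' δ) + δ * (2 * (2 * (Λ : ℝ)) ^ k) ^ 2) := by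
    intro t ht v
    have htn : t + 1 ≤ n := by
      have := mem_range.1 ht
      omega
    have ht1 := tails m w n Λ N k k' r hΛ hk hkk hs hN str δ hδ hstr c q (t + 1) htn v
    have hD : 0 ≤ δ * (2 * (2 * (Λ : ℝ)) ^ k) ^ 2 := mul_nonneg hδ (sq_nonneg _)
    refine (mean_sqrt_le fun ρ => add_nonneg (lastM_lv_nonneg _ _) hD).trans
      (Real.sqrt_le_sqrt ?_)
    rw [lastM_mean_add, lastM_mean_const]
    have ht2 : (mean fun ρ : Fin r → Θ × Θ => lv k fun x : Fin (t + 1) → ZMod 2 =>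
        ind (endSt (run (rstbl str r ρ c)) q (t + 1) x = v)) =
        mean fun ρ : Fin r → Θ × Θ => lv k fun x : Fin (t + 1) → ZMod 2 =>
        ind (endSt (run c) q (t + 1) (lay (cut htn str) r ρ x) = v) := by
      congr 1
      funext ρ
      congr 1
      funext x
      rw [← rstbl_run]
      have h := endSt_rstbl str r ρ (run c) q (t + 1) htn x
      unfold cut
      rw [h]
    rw [ht2]
    linarith
  unfold eb errE
  rw [lastM_mean_add, lastM_mean_const, lastM_mean_sum]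
  refine add_le_add le_rfl ?_
  calc ∑ t ∈ range n, mean (fun ρ : Fin r → Θ × Θ => ∑ v : Fin m → Fin w,
          √(lv k (fun x : Fin (t + 1) → ZMod 2 =>
          ind (endSt (run (rstbl str r ρ c)) q (t + 1) x = v)) +
            δ * (2 * (2 * (Λ : ℝ)) ^ k) ^ 2))
      ≤ ∑ t ∈ range n, ∑ v : Fin m → Fin w, √((1 / 2 ^ r) ^ k * (2 * (2 * (Λ : ℝ)) ^ k) +
          16 ^ k * (r * eps1 ((w : ℝ) ^ m) n Λ k' δ) + δ * (2 * (2 * (Λ : ℝ)) ^ k) ^ 2) := by
        refine Finset.sum_le_sum fun t ht => ?_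
        rw [lastM_mean_sum]
        exact Finset.sum_le_sum fun v _ => h5 t ht v
    _ = _ := by
        rw [Finset.sum_const, Finset.sum_const, Finset.card_univ, hcard, Finset.card_range,
          nsmul_eq_mul, nsmul_eq_mul]
        push_cast
        ring

end Helper4.GA
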