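import Pool.Agent.Helper4.GA.Cpl
import Pool.Agent.Helper4.RC.Sk

set_option autoImplicit false

/-!
The values of the test programs.

Proof sketch. Let `P = lt L s t r o`, `L = prg R φ`. (1) For `i > t`: `fut P (wz z) gt d i (some u) = nm z L d i u` (induction on `d`).
(2) For `t < n`: `fut P (wz z) gt (n - t) t (some u) = ind (u.1.1 = r ∧ (s → u.2.1 ≠ r)) * nt z L n t r o` (`n - t = (n - 1 - t) + 1`;
`fut .. none = 0`). (3) Before `t` the program acts as two runs of `L`: for `i + d ≤ t` the states after `d` steps from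
`some (u₁, u₂)`; so `tz z n P (some (u₀, u₀)) gt = ∑ y : Fin t → ZMod 2 × ZMod 2, pw (wz z) y *
(ind (a = r ∧ (s → a' ≠ r)) * nt z L n t r o)` with `a`, `a'` the first components of `endSt L u₀ t (fun i => (y i).1)` and
`endSt L u₀ t (fun i => (y i).2)`, i.e. `endSt R u₀.1 t ..` (the base program does not see the register). (Use
`fut_word`-like splitting: `fut P p G (t + d) 0 v = ∑ y : Fin t → Y, pw p y * fut P p G d t (endSt P v t y)`, by induction on `t`.)
For `s = True` this is `pd`; for `s = False` the marginal of the first components is uniform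
(`marg`, private in RC/RI.lean, copy it), which gives `pb`. `tz_acc`: for `t = n` the value `ga acc` at the end depends on the first run only.
`pd_zero`: `wz 0` is the uniform distribution of independent pairs: `pd 0 = Pr * (1 - Pr)`.
-/

namespace Helper4.GA

open Finset Helper4.RC

section

variable {Q O : Type}

private lemma sum2 (f : ZMod 2 → ℝ) : ∑ t, f t = f 0 + f 1 := Fin.sum_univ_two f

private lemma marg {Y : Type} [Fintype Y] (p : Y → ℝ) (π : Y → ZMod 2)
    (hπ : ∀ f : ZMod 2 → ℝ, ∑ a, p a * f (π a) = ∑ b, 1 / 2 * f b) (n : ℕ)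
    (g : (Fin n → ZMod 2) → ℝ) :
    ∑ y : Fin n → Y, pw p y * g (fun i => π (y i)) =
      ∑ x : Fin n → ZMod 2, pw (fun _ => 1 / 2) x * g x := by
  induction n with
  | zero =>
    rw [Fintype.sum_unique, Fintype.sum_unique]
    have h1 : pw p (default : Fin 0 → Y) = 1 := by simp [pw]
    have h2 : ∀ x : Fin 0 → ZMod 2, pw (fun _ : ZMod 2 => (1 / 2 : ℝ)) x = 1 := fun x => by
      simp [pw]
    rw [h1, h2]
    congr 2
    exact Subsingleton.elim _ _
  | succ n ih =>
    have hsn : ∀ (y : Fin n → Y) (a : Y), (fun i => π (sn y a i)) = sn (fun i => π (y i)) (π a) :=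
      fun y a => by
        funext i
        refine Fin.lastCases ?_ (fun j => ?_) i
        · rw [sn_last, sn_last]
        · rw [sn_castSucc, sn_castSucc]
    rw [sum_sn, sum_sn]
    simp only [pw_sn, hsn]
    calc ∑ y : Fin n → Y, ∑ a, pw p y * p a * g (sn (fun i => π (y i)) (π a))
        = ∑ a, p a * ∑ y : Fin n → Y, pw p y * g (sn (fun i => π (y i)) (π a)) := by
          rw [Finset.sum_comm]
          refine Finset.sum_congr rfl fun a _ => ?_
          rw [Finset.mul_sum]
          exact Finset.sum_congr rfl fun y _ => by ring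
      _ = ∑ a, p a * ∑ x : Fin n → ZMod 2, pw (fun _ => 1 / 2) x * g (sn x (π a)) := by
          refine Finset.sum_congr rfl fun a _ => ?_
          rw [ih fun x => g (sn x (π a))]
      _ = ∑ b, 1 / 2 * ∑ x : Fin n → ZMod 2, pw (fun _ => 1 / 2) x * g (sn x b) :=
          hπ fun b => ∑ x : Fin n → ZMod 2, pw (fun _ => 1 / 2) x * g (sn x b)
      _ = _ := by
          rw [Finset.sum_comm]
          refine Finset.sum_congr rfl fun b _ => ?_
          rw [Finset.mul_sum]
          exact Finset.sum_congr rfl fun y _ => by ring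

private lemma marg_fst (z : ℝ) (f : ZMod 2 → ℝ) :
    ∑ a, wz z a * f a.1 = ∑ b, 1 / 2 * f b := by
  rw [Fintype.sum_prod_type, sum2, sum2, sum2, sum2]
  simp [wz]
  ring

private lemma fut_split {Y V : Type} [Fintype Y] (P : ℕ → Y → V → V) (p : Y → ℝ) (G : V → ℝ)
    (v : V) (t : ℕ) : ∀ d : ℕ, fut P p G (t + d) 0 v =
      ∑ y : Fin t → Y, pw p y * fut P p G d t (endSt P v t y) := by
  induction t with
  | zero =>
    intro d
    rw [Fintype.sum_unique, Nat.zero_add]
    have h1 : pw p (default : Fin 0 → Y) = 1 := by simp [pw]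
    rw [h1, one_mul]
    rfl
  | succ t ih =>
    intro d
    rw [show t + 1 + d = t + (d + 1) by ring, ih (d + 1), sum_sn]
    refine Finset.sum_congr rfl fun y _ => ?_
    rw [fut_succ, Finset.mul_sum]
    refine Finset.sum_congr rfl fun a _ => ?_
    rw [pw_sn, endSt_sn, mul_assoc]

private lemma fut_none (L : ℕ → ZMod 2 → Q × O → Q × O) (s : Prop) (t : ℕ) (r : Q) (o : O)
    (p : ZMod 2 × ZMod 2 → ℝ) (d : ℕ) : ∀ i : ℕ, fut (lt L s t r o) p gt d i none = 0 := by
  induction d with
  | zero => exact fun _ => rfl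
  | succ d ih =>
    intro i
    rw [fut_succ]
    refine Finset.sum_eq_zero fun y _ => ?_
    have h : lt L s t r o i y none = none := rfl
    rw [h, ih, mul_zero]

private lemma fut_after (L : ℕ → ZMod 2 → Q × O → Q × O) (s : Prop) (t : ℕ) (r : Q) (o : O)
    (p : ZMod 2 × ZMod 2 → ℝ) (d : ℕ) : ∀ i : ℕ, t < i → ∀ u,
      fut (lt L s t r o) p gt d i (some u) = fut (cpl L) p df d i u := by
  induction d with
  | zero => exact fun _ _ _ => rfl
  | succ d ih =>
    intro i hi u
    rw [fut_succ, fut_succ]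
    refine Finset.sum_congr rfl fun y _ => ?_
    have h : lt L s t r o i y (some u) = some (cpl L i y u) := by
      show (if i < t then _ else if i = t then _ else some (cpl L i y u)) = _
      rw [if_neg (by omega), if_neg (by omega)]
    rw [h, ih (i + 1) (by omega)]

private lemma fut_at (z : ℝ) (L : ℕ → ZMod 2 → Q × O → Q × O) (s : Prop) (n t : ℕ) (ht : t < n)
    (r : Q) (o : O) (u : (Q × O) × (Q × O)) :
    fut (lt L s t r o) (wz z) gt (n - t) t (some u) =
      ind (u.1.1 = r ∧ (s → u.2.1 ≠ r)) * nt z L n t r o := by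
  rw [show n - t = (n - 1 - t) + 1 by omega, fut_succ]
  have h0 : ∀ y, lt L s t r o t y (some u) = (open Classical in
      if u.1.1 = r ∧ (s → u.2.1 ≠ r) then some (L t y.1 (r, o), L t y.2 (r, o)) else none) := by
    intro y
    show (if t < t then _ else if t = t then _ else some (cpl L t y u)) = _
    rw [if_neg (by omega), if_pos rfl]
  by_cases h : u.1.1 = r ∧ (s → u.2.1 ≠ r)
  · rw [ind_true h, one_mul]
    unfold nt nm
    refine Finset.sum_congr rfl fun y _ => ?_
    rw [h0, if_pos h, fut_after L s t r o (wz z) _ (t + 1) (by omega)]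
  · rw [ind_false h, zero_mul]
    refine Finset.sum_eq_zero fun y _ => ?_
    rw [h0, if_neg h, fut_none, mul_zero]

private lemma endSt_before (L : ℕ → ZMod 2 → Q × O → Q × O) (s : Prop) (t : ℕ) (r : Q) (o : O)
    (u : (Q × O) × (Q × O)) : ∀ (i : ℕ) (_ : i ≤ t) (y : Fin i → ZMod 2 × ZMod 2),
      endSt (lt L s t r o) (some u) i y =
        some (endSt L u.1 i (fun j => (y j).1), endSt L u.2 i (fun j => (y j).2)) := by
  intro i
  induction i with
  | zero => exact fun _ _ => rfl
  | succ i ih =>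
    intro hi y
    rw [endSt, ih (by omega)]
    show (if i < t then _ else _) = _
    rw [if_pos (by omega)]
    rfl

private lemma endSt_prg (R : ℕ → ZMod 2 → Q → Q) (φ : ℕ → ZMod 2 → Q → Equiv.Perm O)
    (u : Q × O) (i : ℕ) (y : Fin i → ZMod 2) : (endSt (prg R φ) u i y).1 = endSt R u.1 i y := by
  induction i with
  | zero => rfl
  | succ i ih =>
    rw [endSt]
    conv_rhs => rw [endSt]
    rw [← ih]
    rfl

private lemma tz_lt (z : ℝ) (R : ℕ → ZMod 2 → Q → Q) (φ : ℕ → ZMod 2 → Q → Equiv.Perm O)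
    (u₀ : Q × O) (s : Prop) (n t : ℕ) (ht : t < n) (r : Q) (o : O) :
    tz z n (lt (prg R φ) s t r o) (some (u₀, u₀)) gt =
      (∑ y : Fin t → ZMod 2 × ZMod 2, pw (wz z) y * ind (endSt R u₀.1 t (fun i => (y i).1) = r ∧
        (s → endSt R u₀.1 t (fun i => (y i).2) ≠ r))) * nt z (prg R φ) n t r o := by
  unfold tz
  have hn : n = t + (n - t) := by omega
  conv_lhs => rw [hn]
  rw [fut_split, Finset.sum_mul]
  refine Finset.sum_congr rfl fun y _ => ?_
  rw [endSt_before (prg R φ) s t r o (u₀, u₀) t le_rfl, fut_at z (prg R φ) s n t ht,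
    endSt_prg, endSt_prg, mul_assoc]

variable [Fintype Q] [Fintype O]

theorem tz_lt_false (z : ℝ) (R : ℕ → ZMod 2 → Q → Q) (φ : ℕ → ZMod 2 → Q → Equiv.Perm O)
    (u₀ : Q × O) (n t : ℕ) (ht : t < n) (r : Q) (o : O) :
    tz z n (lt (prg R φ) False t r o) (some (u₀, u₀)) gt =
      pb R u₀.1 t r * nt z (prg R φ) n t r o := by
  rw [tz_lt z R φ u₀ False n t ht r o]
  congr 1
  unfold pb Helper4.RC.dist
  rw [← marg (wz z) Prod.fst (marg_fst z) t fun x => ind (endSt R u₀.1 t x = r)]
  refine Finset.sum_congr rfl fun y _ => ?_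
  congr 1
  exact ind_congr ⟨fun h => h.1, fun h => ⟨h, False.elim⟩⟩

theorem tz_lt_true (z : ℝ) (R : ℕ → ZMod 2 → Q → Q) (φ : ℕ → ZMod 2 → Q → Equiv.Perm O)
    (u₀ : Q × O) (n t : ℕ) (ht : t < n) (r : Q) (o : O) :
    tz z n (lt (prg R φ) True t r o) (some (u₀, u₀)) gt =
      pd z R u₀.1 t r * nt z (prg R φ) n t r o := by
  rw [tz_lt z R φ u₀ True n t ht r o]
  congr 1
  unfold pd
  refine Finset.sum_congr rfl fun y _ => ?_
  congr 1
  exact ind_congr ⟨fun h => ⟨h.1, h.2 trivial⟩, fun h => ⟨h.1, fun _ => h.2⟩⟩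

theorem tz_acc (z : ℝ) (L : ℕ → ZMod 2 → Q × O → Q × O) (u₀ : Q × O) (n : ℕ)
    (acc : Q × O → ℝ) :
    tz z n (lt L False n u₀.1 u₀.2) (some (u₀, u₀)) (ga acc) =
      mean fun x : Fin n → ZMod 2 => acc (endSt L u₀ n x) := by
  unfold tz
  rw [fut_word, mean_eq,
    ← marg (wz z) Prod.fst (marg_fst z) n fun x => acc (endSt L u₀ n x)]
  refine Finset.sum_congr rfl fun y _ => ?_
  rw [endSt_before L False n u₀.1 u₀.2 (u₀, u₀) n le_rfl]
  rfl

omit [Fintype O] in
theorem pd_zero (R : ℕ → ZMod 2 → Q → Q) (q : Q) (t : ℕ) (r : Q) :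
    pd 0 R q t r = pb R q t r * (1 - pb R q t r) := by
  have hs : ∑ b : ZMod 2, (1 / 2 : ℝ) = 1 := by
    rw [sum2]
    norm_num
  have h1 : 1 - pb R q t r =
      ∑ x : Fin t → ZMod 2, pw (fun _ => (1 / 2 : ℝ)) x * (1 - ind (endSt R q t x = r)) := by
    unfold pb Helper4.RC.dist
    simp only [mul_sub, mul_one, Finset.sum_sub_distrib]
    rw [sum_pw hs t]
  have h2 : ∀ y : Fin t → ZMod 2 × ZMod 2, pw (wz 0) y =
      pw (fun _ => (1 / 2 : ℝ)) (fun i => (y i).1) * pw (fun _ => (1 / 2 : ℝ)) (fun i => (y i).2) := by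
    intro y
    unfold pw
    rw [← Finset.prod_mul_distrib]
    refine Finset.prod_congr rfl fun i _ => ?_
    unfold wz
    split_ifs <;> norm_num
  rw [h1]
  unfold pd pb Helper4.RC.dist
  rw [Finset.sum_mul_sum, ← Finset.sum_product', Finset.univ_product_univ,
    ← Equiv.sum_comp (Equiv.arrowProdEquivProdArrow (Fin t) (fun _ => ZMod 2) (fun _ => ZMod 2))]
  refine Finset.sum_congr rfl fun y _ => ?_
  rw [h2]
  show _ = pw (fun _ => (1 / 2 : ℝ)) (fun i => (y i).1) * ind (endSt R q t (fun i => (y i).1) = r) *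
    (pw (fun _ => (1 / 2 : ℝ)) (fun i => (y i).2) * (1 - ind (endSt R q t (fun i => (y i).2) = r)))
  by_cases ha : endSt R q t (fun i => (y i).1) = r
  · by_cases hb : endSt R q t (fun i => (y i).2) = r
    · rw [ind_false (fun h => h.2 hb), ind_true hb]
      ring
    · rw [ind_true ⟨ha, hb⟩, ind_true ha, ind_false hb]
      ring
  · rw [ind_false (fun h => ha h.1), ind_false ha]
    ring

end

end Helper4.GA
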