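import Pool.Agent.Helper4.GA.S1
import Pool.Agent.Helper4.RC.RI

set_option autoImplicit false

/-!
The sum of the tests of the second kind for truly random bits.

Proof sketch. `pd_le`: write `x = (y i).1`, `x' = (y i).2`; hybrid words `h_i = x'` before `i` and `x` from `i` on. If
`endSt x = r` and `endSt x' ≠ r` then for some `i < t`: `endSt h_i = r`, `endSt h_(i+1) ≠ r` (so `x i ≠ x' i`). The word `h_i`
is uniformly random and independent of the event `x i ≠ x' i`, which has probability `ε`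
(`wz (1 - 2 ε) (b, b') = 1/2 * (1 - ε or ε)`), so the probability of this event is
`ε * Pr [endSt y = r and endSt (y with the bit i flipped) ≠ r]`, and
`∑ i, Pr [..] = 2 * ri R q (fun _ => 1/2) t r` (`ri` resamples the bit `i`). Use `ri_bits`. (One can also do an induction on `t` for
`fut`-like expressions; any proof is fine. A sum formulation: for all `g`,
`∑ y, pw (wz z) y * (ind (g (fst y)) * ind (¬ g (snd y))) ≤ ε * ∑ i, ∑ x, (1/2)^t * ind (g x ∧ ¬ g (x + e_i))`, by induction on `t` over the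
first letter, for arbitrary predicates `g` on words.)
`S2_le`: `0 ≤ nt ≤ 1`, `t ≤ n`, and `S1_le`.
-/

namespace Helper4.GA

open Finset Helper4.RC

section hybrid

private lemma sum2 (f : ZMod 2 → ℝ) : ∑ t, f t = f 0 + f 1 := Fin.sum_univ_two f

private lemma marg {Y : Type} [Fintype Y] (p : Y → ℝ) (π : Y → ZMod 2)
    (hπ : ∀ f : ZMod 2 → ℝ, ∑ a, p a * f (π a) = ∑ b, 1 / 2 * f b) (n : ℕ)
    (g : (Fin n → ZMod 2) → ℝ) :
    ∑ y : Fin n → Y, pw p y * g (fun i => π (y i)) = ∑ x : Fin n → ZMod 2, (1 / 2) ^ n * g x := by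
  induction n with
  | zero =>
    rw [Fintype.sum_unique, Fintype.sum_unique]
    have h1 : pw p (default : Fin 0 → Y) = 1 := by simp [pw]
    rw [h1, pow_zero]
    congr 2
    exact Subsingleton.elim _ _
  | succ n ih =>
    have hsn : ∀ (y : Fin n → Y) (a : Y), (fun i => π (sn y a i)) = sn (fun i => π (y i)) (π a) :=
      fun y a => by
        funext i
        refine Fin.lastCases ?_ (fun j => ?_) i
        · rw [sn_last, sn_last]
        · rw [sn_castSucc, sn_castSucc]
    rw [sum_sn, sum_sn]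
    simp only [pw_sn, hsn]
    calc ∑ y : Fin n → Y, ∑ a, pw p y * p a * g (sn (fun i => π (y i)) (π a))
        = ∑ a, p a * ∑ y : Fin n → Y, pw p y * g (sn (fun i => π (y i)) (π a)) := by
          rw [Finset.sum_comm]
          refine Finset.sum_congr rfl fun a _ => ?_
          rw [Finset.mul_sum]
          exact Finset.sum_congr rfl fun y _ => by ring
      _ = ∑ a, p a * ∑ x : Fin n → ZMod 2, (1 / 2) ^ n * g (sn x (π a)) := by
          refine Finset.sum_congr rfl fun a _ => ?_
          rw [ih fun x => g (sn x (π a))]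
      _ = ∑ b, 1 / 2 * ∑ x : Fin n → ZMod 2, (1 / 2) ^ n * g (sn x b) :=
          hπ fun b => ∑ x : Fin n → ZMod 2, (1 / 2) ^ n * g (sn x b)
      _ = _ := by
          rw [Finset.sum_comm]
          refine Finset.sum_congr rfl fun b _ => ?_
          rw [Finset.mul_sum]
          exact Finset.sum_congr rfl fun y _ => by ring

private lemma marg_fst (z : ℝ) (f : ZMod 2 → ℝ) :
    ∑ a, wz z a * f a.1 = ∑ b, 1 / 2 * f b := by
  rw [Fintype.sum_prod_type, sum2, sum2, sum2, sum2]
  simp [wz]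
  ring

private lemma marg_snd (z : ℝ) (f : ZMod 2 → ℝ) :
    ∑ a, wz z a * f a.2 = ∑ b, 1 / 2 * f b := by
  rw [Fintype.sum_prod_type, sum2, sum2, sum2, sum2]
  simp [wz]
  ring

private lemma wz_nonneg {z : ℝ} (hz0 : -1 ≤ z) (hz1 : z ≤ 1) (y : ZMod 2 × ZMod 2) :
    0 ≤ wz z y := by
  unfold wz
  split_ifs <;> linarith

private lemma ind_le_hyb (P Q R : Prop) : ind (P ∧ ¬ R) ≤ ind (P ∧ ¬ Q) + ind (Q ∧ ¬ R) := by
  by_cases hP : P ∧ ¬ R
  · by_cases hQ : Q
    · rw [ind_true hP, ind_true (P := Q ∧ ¬ R) ⟨hQ, hP.2⟩]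
      have := ind_nonneg (P ∧ ¬ Q)
      linarith
    · rw [ind_true hP, ind_true (P := P ∧ ¬ Q) ⟨hP.1, hQ⟩]
      have := ind_nonneg (Q ∧ ¬ R)
      linarith
  · rw [ind_false hP]
    exact add_nonneg (ind_nonneg _) (ind_nonneg _)

/-- The probability that the first word has the property `g` and the second does not, against the
number of sensitive positions. -/
private lemma hyb {ε : ℝ} (h0 : 0 ≤ ε) (h1 : ε ≤ 1) (t : ℕ) : ∀ g : (Fin t → ZMod 2) → Prop,
    ∑ y : Fin t → ZMod 2 × ZMod 2, pw (wz (1 - 2 * ε)) y *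
      ind (g (fun i => (y i).1) ∧ ¬ g (fun i => (y i).2)) ≤
    ε * ∑ i : Fin t, ∑ x : Fin t → ZMod 2,
      (1 / 2) ^ t * ind (g x ∧ ¬ g (Function.update x i (x i + 1))) := by
  have hw : ∀ y, 0 ≤ wz (1 - 2 * ε) y := wz_nonneg (by linarith) (by linarith)
  induction t with
  | zero =>
    intro g
    have h2 : ∀ y : Fin 0 → ZMod 2 × ZMod 2, (fun i => (y i).1) = fun i => (y i).2 :=
      fun y => Subsingleton.elim _ _
    rw [Finset.univ_eq_empty (α := Fin 0), Finset.sum_empty, mul_zero]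
    refine (Finset.sum_eq_zero fun y _ => ?_).le
    rw [ind_false, mul_zero]
    rw [h2 y]
    exact fun h => h.2 h.1
  | succ t ih =>
    intro g
    have hsn1 : ∀ (y : Fin t → ZMod 2 × ZMod 2) (a : ZMod 2 × ZMod 2),
        (fun i => (sn y a i).1) = sn (fun i => (y i).1) a.1 := fun y a => by
      funext i
      refine Fin.lastCases ?_ (fun j => ?_) i
      · rw [sn_last, sn_last]
      · rw [sn_castSucc, sn_castSucc]
    have hsn2 : ∀ (y : Fin t → ZMod 2 × ZMod 2) (a : ZMod 2 × ZMod 2),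
        (fun i => (sn y a i).2) = sn (fun i => (y i).2) a.2 := fun y a => by
      funext i
      refine Fin.lastCases ?_ (fun j => ?_) i
      · rw [sn_last, sn_last]
      · rw [sn_castSucc, sn_castSucc]
    have hup1 : ∀ (x : Fin t → ZMod 2) (b c : ZMod 2) (i : Fin t),
        Function.update (sn x b) i.castSucc c = sn (Function.update x i c) b := fun x b c i => by
      funext j
      refine Fin.lastCases ?_ (fun j => ?_) j
      · rw [sn_last, Function.update_of_ne (Fin.castSucc_lt_last i).ne', sn_last]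
      · rw [sn_castSucc]
        by_cases hj : j = i
        · subst hj
          rw [Function.update_self, Function.update_self]
        · rw [Function.update_of_ne hj, Function.update_of_ne, sn_castSucc]
          intro h
          exact hj (Fin.castSucc_injective _ h)
    have hup2 : ∀ (x : Fin t → ZMod 2) (b c : ZMod 2),
        Function.update (sn x b) (Fin.last t) c = sn x c := fun x b c => by
      funext j
      refine Fin.lastCases ?_ (fun j => ?_) j
      · rw [sn_last, Function.update_self]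
      · rw [sn_castSucc, Function.update_of_ne (Fin.castSucc_lt_last j).ne, sn_castSucc]
    -- the left side
    have hL : ∑ y : Fin (t + 1) → ZMod 2 × ZMod 2, pw (wz (1 - 2 * ε)) y *
        ind (g (fun i => (y i).1) ∧ ¬ g (fun i => (y i).2)) ≤
        (∑ b, 1 / 2 * ∑ y : Fin t → ZMod 2 × ZMod 2, pw (wz (1 - 2 * ε)) y *
          ind (g (sn (fun i => (y i).1) b) ∧ ¬ g (sn (fun i => (y i).2) b))) +
        ∑ x : Fin t → ZMod 2, (1 / 2) ^ t * ∑ a, wz (1 - 2 * ε) a *
          ind (g (sn x a.1) ∧ ¬ g (sn x a.2)) := by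
      rw [sum_sn]
      simp only [pw_sn, hsn1, hsn2]
      calc ∑ y : Fin t → ZMod 2 × ZMod 2, ∑ a, pw (wz (1 - 2 * ε)) y * wz (1 - 2 * ε) a *
            ind (g (sn (fun i => (y i).1) a.1) ∧ ¬ g (sn (fun i => (y i).2) a.2))
          ≤ ∑ y : Fin t → ZMod 2 × ZMod 2, ∑ a, pw (wz (1 - 2 * ε)) y * wz (1 - 2 * ε) a *
            (ind (g (sn (fun i => (y i).1) a.1) ∧ ¬ g (sn (fun i => (y i).2) a.1)) +
              ind (g (sn (fun i => (y i).2) a.1) ∧ ¬ g (sn (fun i => (y i).2) a.2))) := by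
            refine Finset.sum_le_sum fun y _ => Finset.sum_le_sum fun a _ => ?_
            exact mul_le_mul_of_nonneg_left (ind_le_hyb _ _ _)
              (mul_nonneg (pw_nonneg hw y) (hw a))
        _ = (∑ a, wz (1 - 2 * ε) a * ∑ y : Fin t → ZMod 2 × ZMod 2, pw (wz (1 - 2 * ε)) y *
            ind (g (sn (fun i => (y i).1) a.1) ∧ ¬ g (sn (fun i => (y i).2) a.1))) +
            ∑ y : Fin t → ZMod 2 × ZMod 2, pw (wz (1 - 2 * ε)) y *
              ∑ a, wz (1 - 2 * ε) a *
                ind (g (sn (fun i => (y i).2) a.1) ∧ ¬ g (sn (fun i => (y i).2) a.2)) := by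
            simp only [mul_add, Finset.sum_add_distrib]
            congr 1
            · rw [Finset.sum_comm]
              refine Finset.sum_congr rfl fun a _ => ?_
              rw [Finset.mul_sum]
              exact Finset.sum_congr rfl fun y _ => by ring
            · refine Finset.sum_congr rfl fun y _ => ?_
              rw [Finset.mul_sum]
              exact Finset.sum_congr rfl fun a _ => by ring
        _ = _ := by
            congr 1
            · exact marg_fst (1 - 2 * ε) fun b => ∑ y : Fin t → ZMod 2 × ZMod 2,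
                pw (wz (1 - 2 * ε)) y *
                ind (g (sn (fun i => (y i).1) b) ∧ ¬ g (sn (fun i => (y i).2) b))
            · exact marg (wz (1 - 2 * ε)) Prod.snd (marg_snd _) t fun x => ∑ a,
                wz (1 - 2 * ε) a * ind (g (sn x a.1) ∧ ¬ g (sn x a.2))
    -- the right side
    have hR : ∑ i : Fin (t + 1), ∑ x : Fin (t + 1) → ZMod 2,
        (1 / 2 : ℝ) ^ (t + 1) * ind (g x ∧ ¬ g (Function.update x i (x i + 1))) =
        (∑ b, 1 / 2 * ∑ i : Fin t, ∑ x : Fin t → ZMod 2, (1 / 2) ^ t *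
          ind (g (sn x b) ∧ ¬ g (sn (Function.update x i (x i + 1)) b))) +
        ∑ x : Fin t → ZMod 2, (1 / 2) ^ t * ∑ b, 1 / 2 *
          ind (g (sn x b) ∧ ¬ g (sn x (b + 1))) := by
      rw [Fin.sum_univ_castSucc]
      simp only [sum_sn, hup1, hup2, sn_castSucc, sn_last]
      congr 1
      · calc ∑ i : Fin t, ∑ x : Fin t → ZMod 2, ∑ b, (1 / 2 : ℝ) ^ (t + 1) *
              ind (g (sn x b) ∧ ¬ g (sn (Function.update x i (x i + 1)) b))
            = ∑ i : Fin t, ∑ b, ∑ x : Fin t → ZMod 2, (1 / 2 : ℝ) ^ (t + 1) *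
              ind (g (sn x b) ∧ ¬ g (sn (Function.update x i (x i + 1)) b)) :=
              Finset.sum_congr rfl fun i _ => Finset.sum_comm
          _ = ∑ b, ∑ i : Fin t, ∑ x : Fin t → ZMod 2, (1 / 2 : ℝ) ^ (t + 1) *
              ind (g (sn x b) ∧ ¬ g (sn (Function.update x i (x i + 1)) b)) := Finset.sum_comm
          _ = _ := by
              refine Finset.sum_congr rfl fun b _ => ?_
              rw [Finset.mul_sum]
              refine Finset.sum_congr rfl fun i _ => ?_
              rw [Finset.mul_sum]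
              exact Finset.sum_congr rfl fun x _ => by ring
      · refine Finset.sum_congr rfl fun x _ => ?_
        rw [Finset.mul_sum]
        exact Finset.sum_congr rfl fun b _ => by ring
    have hG : ∀ x : Fin t → ZMod 2, ∑ a, wz (1 - 2 * ε) a *
        ind (g (sn x a.1) ∧ ¬ g (sn x a.2)) =
        ε * ∑ b, 1 / 2 * ind (g (sn x b) ∧ ¬ g (sn x (b + 1))) := fun x => by
      have e0 : ind (g (sn x 0) ∧ ¬ g (sn x 0)) = 0 := ind_false fun h => h.2 h.1
      have e1 : ind (g (sn x 1) ∧ ¬ g (sn x 1)) = 0 := ind_false fun h => h.2 h.1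
      have e2 : (1 : ZMod 2) + 1 = 0 := by decide
      have e3 : (0 : ZMod 2) ≠ 1 := by decide
      have e4 : (1 : ZMod 2) ≠ 0 := by decide
      rw [Fintype.sum_prod_type, sum2, sum2, sum2, sum2]
      simp only [e0, e1, e2, wz, if_neg e3, if_neg e4, mul_zero, zero_add, add_zero]
      ring
    refine hL.trans ?_
    rw [hR, mul_add]
    refine add_le_add ?_ (le_of_eq ?_)
    · rw [Finset.mul_sum]
      refine Finset.sum_le_sum fun b _ => ?_
      have := ih fun x => g (sn x b)
      calc 1 / 2 * _ ≤ 1 / 2 * _ := mul_le_mul_of_nonneg_left this (by norm_num)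
        _ = _ := by ring
    · rw [Finset.mul_sum]
      refine Finset.sum_congr rfl fun x _ => ?_
      rw [hG x]
      ring

end hybrid

section

variable {Q O : Type} [Fintype Q] [Fintype O]

theorem pd_le {ε : ℝ} (h0 : 0 ≤ ε) (h1 : ε ≤ 1) (R : ℕ → ZMod 2 → Q → Q) (q : Q)
    (t Λ N : ℕ) (hb : (bad R q t Λ).card * 2 ^ N ≤ 2 ^ t) (r : Q) :
    pd (1 - 2 * ε) R q t r ≤ 2 * ε * (Λ * pb R q t r + t / 2 ^ N) := by
  have hri := ri_bits R q t Λ N hb r
  have hh := hyb h0 h1 t fun x => endSt R q t x = r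
  have hS : ∑ i : Fin t, ∑ x : Fin t → ZMod 2, (1 / 2 : ℝ) ^ t *
      ind (endSt R q t x = r ∧ ¬ endSt R q t (Function.update x i (x i + 1)) = r) ≤
      2 * ri R q (fun _ => 1 / 2) t r := by
    unfold ri
    rw [Finset.mul_sum]
    refine Finset.sum_le_sum fun i _ => ?_
    rw [Finset.mul_sum]
    refine Finset.sum_le_sum fun x _ => ?_
    have hpw : pw (fun _ : ZMod 2 => (1 / 2 : ℝ)) x = (1 / 2) ^ t := by
      unfold pw
      rw [Finset.prod_const, Finset.card_univ, Fintype.card_fin]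
    rw [hpw]
    have h2 : 1 / 2 * ind (endSt R q t x = r ∧ endSt R q t (Function.update x i (x i + 1)) ≠ r) ≤
        ∑ a : ZMod 2, 1 / 2 *
          ind (endSt R q t x = r ∧ endSt R q t (Function.update x i a) ≠ r) :=
      Finset.single_le_sum (f := fun a : ZMod 2 => (1 / 2 : ℝ) *
          ind (endSt R q t x = r ∧ endSt R q t (Function.update x i a) ≠ r))
        (fun a _ => mul_nonneg (by norm_num) (ind_nonneg _)) (Finset.mem_univ (x i + 1))
    have h3 : (0 : ℝ) ≤ (1 / 2) ^ t := by positivity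
    have h4 := mul_le_mul_of_nonneg_left h2 h3
    calc (1 / 2 : ℝ) ^ t *
          ind (endSt R q t x = r ∧ ¬ endSt R q t (Function.update x i (x i + 1)) = r)
        = 2 * ((1 / 2 : ℝ) ^ t * (1 / 2 *
          ind (endSt R q t x = r ∧ endSt R q t (Function.update x i (x i + 1)) ≠ r))) := by ring
      _ ≤ _ := mul_le_mul_of_nonneg_left h4 (by norm_num)
  have hpd : pd (1 - 2 * ε) R q t r ≤ ε * (2 * ri R q (fun _ => 1 / 2) t r) := by
    unfold pd
    exact hh.trans (mul_le_mul_of_nonneg_left hS h0)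
  refine hpd.trans ?_
  unfold pb
  nlinarith

theorem S2_le {ε : ℝ} (h0 : 0 ≤ ε) (h1 : ε ≤ 1) (R : ℕ → ZMod 2 → Q → Q)
    (φ : ℕ → ZMod 2 → Q → Equiv.Perm O) (q : Q) (n Λ N : ℕ) (hΛ : ε * Λ ≤ 1 / 2)
    (hb : ∀ t ≤ n, (bad R q t Λ).card * 2 ^ N ≤ 2 ^ t) :
    ∑ t ∈ range n, ∑ r, ∑ o, pd (1 - 2 * ε) R q t r * nt (1 - 2 * ε) (prg R φ) n t r o ≤
      2 * ε * Λ * (2 * (Fintype.card O : ℝ) ^ 2 + n * Fintype.card O / 2 ^ N) +
        2 * ε * (n ^ 2 * Fintype.card Q * Fintype.card O / 2 ^ N) := by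
  have hS1 := S1_le h0 h1 R φ q n Λ N hΛ (hb n le_rfl)
  have hN0 : ∀ t r o, 0 ≤ nt (1 - 2 * ε) (prg R φ) n t r o :=
    fun t r o => nt_nonneg _ _ (by linarith) (by linarith) n t r o
  have hN1 : ∀ t r o, nt (1 - 2 * ε) (prg R φ) n t r o ≤ 1 :=
    fun t r o => nt_le_one _ _ (by linarith) (by linarith) n t r o
  have h2N : (0 : ℝ) < 2 ^ N := by positivity
  calc ∑ t ∈ range n, ∑ r, ∑ o, pd (1 - 2 * ε) R q t r * nt (1 - 2 * ε) (prg R φ) n t r o
      ≤ ∑ t ∈ range n, ∑ r, ∑ o, (2 * ε * Λ *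
          (pb R q t r * nt (1 - 2 * ε) (prg R φ) n t r o) + 2 * ε * (n / 2 ^ N)) := by
        refine Finset.sum_le_sum fun t ht => Finset.sum_le_sum fun r _ =>
          Finset.sum_le_sum fun o _ => ?_
        have ht' : t ≤ n := (Finset.mem_range.1 ht).le
        have e1 := pd_le h0 h1 R q t Λ N (hb t ht') r
        have e2 := mul_le_mul_of_nonneg_right e1 (hN0 t r o)
        refine e2.trans ?_
        have e3 : (t : ℝ) / 2 ^ N ≤ n / 2 ^ N := by
          apply div_le_div_of_nonneg_right _ h2N.le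
          exact_mod_cast ht'
        have e4 : (t : ℝ) / 2 ^ N * nt (1 - 2 * ε) (prg R φ) n t r o ≤ n / 2 ^ N * 1 :=
          mul_le_mul e3 (hN1 t r o) (hN0 t r o) (by positivity)
        have e5 := mul_le_mul_of_nonneg_left e4 (show 0 ≤ 2 * ε by linarith)
        calc 2 * ε * (Λ * pb R q t r + t / 2 ^ N) * nt (1 - 2 * ε) (prg R φ) n t r o
            = 2 * ε * Λ * (pb R q t r * nt (1 - 2 * ε) (prg R φ) n t r o) +
              2 * ε * (t / 2 ^ N * nt (1 - 2 * ε) (prg R φ) n t r o) := by ring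
          _ ≤ _ := by linarith
    _ = 2 * ε * Λ * (∑ t ∈ range n, ∑ r, ∑ o,
          pb R q t r * nt (1 - 2 * ε) (prg R φ) n t r o) +
          2 * ε * (n ^ 2 * Fintype.card Q * Fintype.card O / 2 ^ N) := by
        simp only [Finset.sum_add_distrib, ← Finset.mul_sum, Finset.sum_const, Finset.card_univ,
          Finset.card_range, nsmul_eq_mul]
        ring
    _ ≤ _ := by
        have e6 := mul_le_mul_of_nonneg_left hS1
          (show 0 ≤ 2 * ε * Λ from mul_nonneg (by linarith) (Nat.cast_nonneg _))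
        linarith

end

end Helper4.GA
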