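import Pool.Agent.Helper4.GA.TzStep
import Pool.Agent.Helper4.RC.Prog

set_option autoImplicit false

/-!
The hybrid argument over the levels of restrictions.

Proof sketch. Induction on `r` for all `P`, `z`. For `r + 1`: the mean over `ρ : Fin (r + 1) → Θ × Θ` is the mean
over `ab = ρ 0` of the mean over the rest (see `mean_cons`-like lemma in RC/Lay.lean, private; copy it) of
`tz z n (rstl str r ρ' (rst (str a) (str b) P)) q G`; by induction the inner mean is
`tz (1 - (1 - z)/2^r) n (rst (str a) (str b) P) q G` up to `r * ε`; and by `step2` with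
`z' = 1 - (1 - z)/2^r ∈ [0, 1]` the mean over `ab` is `tz ((1 + z')/2) n P q G` up to `ε`, with
`(1 + z')/2 = 1 - (1 - z)/2^(r+1)`.
-/

namespace Helper4.GA

open Finset Helper4.RC

section

variable {V Θ : Type} [Fintype V] [Fintype Θ] [Nonempty Θ]

/-- The mean over `r + 1` levels is an iterated mean. -/
private lemma hyb_mean_cons {Θ : Type} [Fintype Θ] {r : ℕ} (f : (Fin (r + 1) → Θ × Θ) → ℝ) :
    mean f = mean fun ab : Θ × Θ => mean fun ρ : Fin r → Θ × Θ =>
      f (Fin.cons (α := fun _ => Θ × Θ) ab ρ) := by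
  unfold mean
  have h := (Fin.consEquiv fun _ : Fin (r + 1) => Θ × Θ).sum_comp f
  rw [← h, Fintype.sum_prod_type, Finset.sum_div, Finset.sum_div]
  refine Finset.sum_congr rfl fun ab _ => ?_
  rw [div_div]
  congr 1
  simp only [Fintype.card_pi, Finset.prod_const, Finset.card_univ, Fintype.card_fin]
  push_cast
  ring

private lemma hyb_mean_sub_le {Θ : Type} [Fintype Θ] [Nonempty Θ] (f g : Θ → ℝ) (c : ℝ)
    (h : ∀ θ, |f θ - g θ| ≤ c) : |mean f - mean g| ≤ c := by
  have h0 : (0 : ℝ) < Fintype.card Θ := by exact_mod_cast Fintype.card_pos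
  unfold mean
  rw [← sub_div, abs_div, abs_of_pos h0, div_le_iff₀ h0, ← Finset.sum_sub_distrib]
  refine (Finset.abs_sum_le_sum_abs _ _).trans ?_
  refine (Finset.sum_le_sum fun x _ => h x).trans ?_
  simp [mul_comm]

theorem hyb (n k : ℕ) (hk : 1 ≤ k) (Q R : ℝ) (hQ : 1 ≤ Q) (hR : 0 ≤ R)
    (hKB : KB V (Fintype.card V) n Q R)
    (hN : k * (3 * (Q + 2 * n * Fintype.card V)) ^ k * R ≤ 1)
    (str : Θ → Fin n → ZMod 2) (δ : ℝ) (hδ : 0 ≤ δ) (hstr : Biased str δ) (r : ℕ)
    (P : ℕ → ZMod 2 × ZMod 2 → V → V) (q : V) (G : V → ℝ) (hG : ∀ v, |G v| ≤ 1)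
    (z : ℝ) (h0 : 0 ≤ z) (h1 : z ≤ 1) :
    |(mean fun ρ : Fin r → Θ × Θ => tz z n (rstl str r ρ P) q G) -
      tz (1 - (1 - z) / 2 ^ r) n P q G| ≤ r * eps2 (Fintype.card V) n Q k δ := by
  induction r generalizing P with
  | zero =>
    have h2 : (mean fun ρ : Fin 0 → Θ × Θ => tz z n (rstl str 0 ρ P) q G) = tz z n P q G := by
      unfold mean
      simp [rstl]
    rw [h2]
    simp
  | succ r ih =>
    have hp : (1 : ℝ) ≤ 2 ^ r := one_le_pow₀ (by norm_num)
    have hp0 : (0 : ℝ) < 2 ^ r := by positivity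
    set z' : ℝ := 1 - (1 - z) / 2 ^ r with hz'
    have h2 : (1 - z) / 2 ^ r ≤ 1 - z := div_le_self (by linarith) hp
    have h3 : 0 ≤ (1 - z) / 2 ^ r := div_nonneg (by linarith) hp0.le
    have hz'1 : 0 ≤ z' := by rw [hz']; linarith
    have hz'2 : z' ≤ 1 := by rw [hz']; linarith
    have h4 : (1 + z') / 2 = 1 - (1 - z) / 2 ^ (r + 1) := by
      rw [hz', pow_succ]
      field_simp
      ring
    have h5 := step2 P q G hG n k hk Q R hQ hR hKB hN str δ hδ hstr z' hz'1 hz'2
    rw [h4] at h5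
    have h6 : |(mean fun ab : Θ × Θ => mean fun ρ : Fin r → Θ × Θ =>
        tz z n (rstl str r ρ (rst (str ab.1) (str ab.2) P)) q G) -
        (mean fun ab : Θ × Θ => tz z' n (rst (str ab.1) (str ab.2) P) q G)| ≤
          r * eps2 (Fintype.card V) n Q k δ :=
      hyb_mean_sub_le _ _ _ fun ab => ih (rst (str ab.1) (str ab.2) P)
    rw [hyb_mean_cons]
    have h7 : (mean fun ab : Θ × Θ => mean fun ρ : Fin r → Θ × Θ =>
        tz z n (rstl str (r + 1) (Fin.cons (α := fun _ => Θ × Θ) ab ρ) P) q G) =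
        mean fun ab : Θ × Θ => mean fun ρ : Fin r → Θ × Θ =>
        tz z n (rstl str r ρ (rst (str ab.1) (str ab.2) P)) q G := rfl
    rw [h7]
    have h8 := abs_sub_le (mean fun ab : Θ × Θ => mean fun ρ : Fin r → Θ × Θ =>
        tz z n (rstl str r ρ (rst (str ab.1) (str ab.2) P)) q G)
        (mean fun ab : Θ × Θ => tz z' n (rst (str ab.1) (str ab.2) P) q G)
        (tz (1 - (1 - z) / 2 ^ (r + 1)) n P q G)
    push_cast
    linarith

end

end Helper4.GA
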