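import Pool.Agent.Helper4.GA.Src
import Pool.Agent.Helper4.GA.LastM
import Pool.Agent.Helper4.GA.LtVal
import Pool.Agent.Helper4.GA.TzHyb
import Pool.Agent.Helper4.GA.S2

set_option autoImplicit false

/-!
The error of the generator in terms of the parameters.
-/

namespace Helper4.GA

open Finset Helper4.RC

/-- The error of the generator. Here `K` is the number of base states, `v` the number of values of
the register, `KV` the number of states of the test programs. -/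
noncomputable def errG (K v KV n Λ N Qc ν : ℝ) (k k' kc r : ℕ) (δ : ℝ) : ℝ :=
  (r * eps2 KV n Qc kc δ) +
  2 * (K * v * ν) * (2 * v ^ 2 + n * v / N + n * K * v * (r * eps2 KV n Qc kc δ)) +
  2 * (2 * (1 / 2 ^ (r + 1)) * Λ * (2 * v ^ 2 + n * v / N) +
    2 * (1 / 2 ^ (r + 1)) * (n ^ 2 * K * v / N) + n * K * v * (r * eps2 KV n Qc kc δ)) +
  n * K * v * errE K n Λ k k' r δ

section mean

variable {Ω : Type} [Fintype Ω]

lemma mean_add' (f g : Ω → ℝ) : (mean fun ω => f ω + g ω) = mean f + mean g := by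
  unfold mean
  rw [Finset.sum_add_distrib]
  ring

lemma mean_sub' (f g : Ω → ℝ) : (mean fun ω => f ω - g ω) = mean f - mean g := by
  unfold mean
  rw [Finset.sum_sub_distrib]
  ring

lemma mean_smul' (c : ℝ) (f : Ω → ℝ) : (mean fun ω => c * f ω) = c * mean f := by
  unfold mean
  rw [← Finset.mul_sum, mul_div_assoc]

lemma mean_sum' {ι : Type} (s : Finset ι) (f : ι → Ω → ℝ) :
    (mean fun ω => ∑ i ∈ s, f i ω) = ∑ i ∈ s, mean (f i) := by
  unfold mean
  rw [Finset.sum_comm, Finset.sum_div]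

lemma abs_mean' (f : Ω → ℝ) : |mean f| ≤ mean fun ω => |f ω| := by
  unfold mean
  rw [abs_div, abs_of_nonneg (Nat.cast_nonneg (α := ℝ) (Fintype.card Ω))]
  gcongr
  exact Finset.abs_sum_le_sum_abs _ _

end mean

section

variable {Θ Ω : Type} [Fintype Θ] [Nonempty Θ] [Fintype Ω] [Nonempty Ω]

theorem asm (m w v n Λ N k k' kc r : ℕ) (hΛ : 1 ≤ Λ) (hk : 1 ≤ k) (hkk : k ≤ k')
    (hs : ∀ t ≤ n, ∀ (c : ℕ → ZMod 2 → Instr m w) (q : Fin m → Fin w),
      (bad (run c) q t Λ).card * 2 ^ N ≤ 2 ^ t)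
    (hN : k' * (6 * (2 * Λ + n * (w ^ m) ^ 2)) ^ k' * (2 * n) ≤ 2 ^ N)
    (hkc : 1 ≤ kc) (Qc Rc : ℝ) (hQc : 1 ≤ Qc) (hRc : 0 ≤ Rc)
    (hKB : KB (Option (((Fin m → Fin w) × Fin v) × ((Fin m → Fin w) × Fin v)))
      ((w ^ m * v) ^ 2 + 1) n Qc Rc)
    (hNc : kc * (3 * (Qc + 2 * n * ((w ^ m * v) ^ 2 + 1 : ℕ))) ^ kc * Rc ≤ 1)
    (hε : (1 / 2 ^ (r + 1) : ℝ) * Λ ≤ 1 / 2)
    (str : Θ → Fin n → ZMod 2) (δ : ℝ) (hδ : 0 ≤ δ) (hstr : Biased str δ)
    (Y : Ω → Fin n → ZMod 2) (ν : ℝ) (hν : 0 ≤ ν) (hY : Next Y ν)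
    (c : ℕ → ZMod 2 → Instr m w) (φ : ℕ → ZMod 2 → (Fin m → Fin w) → Equiv.Perm (Fin v))
    (u₀ : (Fin m → Fin w) × Fin v) (acc : (Fin m → Fin w) × Fin v → ℝ) (h0 : ∀ u, 0 ≤ acc u)
    (h1 : ∀ u, acc u ≤ 1) :
    |(mean fun ω : (Fin r → Θ × Θ) × (Θ × Ω) =>
        acc (endSt (prg (run c) φ) u₀ n (lay str r ω.1 (str ω.2.1 + Y ω.2.2)))) -
      mean fun x : Fin n → ZMod 2 => acc (endSt (prg (run c) φ) u₀ n x)| ≤
      errG ((w : ℝ) ^ m) v ((((w ^ m * v) ^ 2 + 1 : ℕ) : ℝ)) n Λ (2 ^ N) Qc ν k k' kc r δ := by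
  classical
  -- names
  obtain ⟨L, hL⟩ : ∃ L, L = prg (run c) φ := ⟨_, rfl⟩
  obtain ⟨η, hη⟩ : ∃ η : ℝ, η = r * eps2 (((w ^ m * v) ^ 2 + 1 : ℕ) : ℝ) n Qc kc δ := ⟨_, rfl⟩
  have hcQ : Fintype.card (Fin m → Fin w) = w ^ m := by simp
  have hcV : Fintype.card (Option (((Fin m → Fin w) × Fin v) × ((Fin m → Fin w) × Fin v))) =
      (w ^ m * v) ^ 2 + 1 := by
    simp only [Fintype.card_option, Fintype.card_prod, Fintype.card_fun, Fintype.card_fin]
    ring
  have hcQO : Fintype.card ((Fin m → Fin w) × Fin v) = w ^ m * v := by simp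
  -- the restricted programs
  have hrs : ∀ ρ : Fin r → Θ × Θ, rstbl str r ρ L =
      prg (run (rstbl str r ρ c)) (rstbl str r ρ φ) := fun ρ => by
    rw [hL, rstbl_prg, rstbl_run]
  have hend : ∀ (ρ : Fin r → Θ × Θ) (x : Fin n → ZMod 2), endSt L u₀ n (lay str r ρ x) =
      endSt (prg (run (rstbl str r ρ c)) (rstbl str r ρ φ)) u₀ n x := fun ρ x => by
    rw [endSt_rstbl_full, hrs]
  -- the hybrid argument for the test programs
  have hyb' : ∀ (P : ℕ → ZMod 2 × ZMod 2 →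
      Option (((Fin m → Fin w) × Fin v) × ((Fin m → Fin w) × Fin v)) →
      Option (((Fin m → Fin w) × Fin v) × ((Fin m → Fin w) × Fin v)))
      (G : Option (((Fin m → Fin w) × Fin v) × ((Fin m → Fin w) × Fin v)) → ℝ),
      (∀ v, |G v| ≤ 1) →
      |(mean fun ρ : Fin r → Θ × Θ => tz 0 n (rstl str r ρ P) (some (u₀, u₀)) G) -
        tz (1 - 2 * (1 / 2 ^ (r + 1))) n P (some (u₀, u₀)) G| ≤ η := by
    intro P G hG
    have h := hyb (V := Option (((Fin m → Fin w) × Fin v) × ((Fin m → Fin w) × Fin v)))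
      n kc hkc Qc Rc hQc hRc (by rw [hcV]; exact hKB) (by rw [hcV]; exact hNc) str δ hδ hstr r P
      (some (u₀, u₀)) G hG 0 le_rfl zero_le_one
    rw [hcV, ← hη] at h
    have e : (1 : ℝ) - (1 - 0) / 2 ^ r = 1 - 2 * (1 / 2 ^ (r + 1)) := by
      rw [pow_succ]
      field_simp
      ring
    rw [e] at h
    exact h
  have hG1 : ∀ u : Option (((Fin m → Fin w) × Fin v) × ((Fin m → Fin w) × Fin v)),
      |gt u| ≤ 1 := by
    intro u
    cases u with
    | none => simp [gt]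
    | some u =>
      unfold gt df
      rw [abs_of_nonneg (ind_nonneg _)]
      exact ind_le_one _
  have hG2 : ∀ u : Option (((Fin m → Fin w) × Fin v) × ((Fin m → Fin w) × Fin v)),
      |ga acc u| ≤ 1 := by
    intro u
    cases u with
    | none => simp [ga]
    | some u =>
      unfold ga
      rw [abs_of_nonneg (h0 _)]
      exact h1 _
  -- the means
  have hB : |(mean fun ρ : Fin r → Θ × Θ => mean fun x : Fin n → ZMod 2 =>
      acc (endSt (prg (run (rstbl str r ρ c)) (rstbl str r ρ φ)) u₀ n x)) -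
      mean fun x : Fin n → ZMod 2 => acc (endSt L u₀ n x)| ≤ η := by
    have h := hyb' (lt L False n u₀.1 u₀.2) (ga acc) hG2
    rw [tz_acc] at h
    have e : ∀ ρ : Fin r → Θ × Θ,
        tz 0 n (rstl str r ρ (lt L False n u₀.1 u₀.2)) (some (u₀, u₀)) (ga acc) =
        mean fun x : Fin n → ZMod 2 =>
          acc (endSt (prg (run (rstbl str r ρ c)) (rstbl str r ρ φ)) u₀ n x) := fun ρ => by
      rw [rstl_lt, tz_acc, hrs]
    simp only [e] at h
    exact h
  -- the fixed restrictions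
  have hA : ∀ ρ : Fin r → Θ × Θ,
      |(mean fun ω : Θ × Ω => acc (endSt (prg (run (rstbl str r ρ c)) (rstbl str r ρ φ)) u₀ n
          (str ω.1 + Y ω.2))) - mean fun x : Fin n → ZMod 2 =>
            acc (endSt (prg (run (rstbl str r ρ c)) (rstbl str r ρ φ)) u₀ n x)| ≤
      (∑ t ∈ range n, ∑ q, ∑ o, 2 * ((w : ℝ) ^ m * v * ν) *
        tz 0 n (rstl str r ρ (lt L False t q o)) (some (u₀, u₀)) gt) +
      (∑ t ∈ range n, ∑ q, ∑ o, 2 *
        tz 0 n (rstl str r ρ (lt L True t q o)) (some (u₀, u₀)) gt) +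
      n * (w : ℝ) ^ m * v * eb (rstbl str r ρ c) u₀.1 n Λ k δ := by
    intro ρ
    have heb : 0 ≤ eb (rstbl str r ρ c) u₀.1 n Λ k δ := by
      unfold eb
      refine add_nonneg (by positivity) (Finset.sum_nonneg fun t _ => Finset.sum_nonneg fun v _ =>
        Real.sqrt_nonneg _)
    have hNk : k * (6 * (2 * Λ + n * (w ^ m) ^ 2)) ^ k * (2 * n) ≤ 2 ^ N := by
      refine le_trans (Nat.mul_le_mul_right _ (Nat.mul_le_mul hkk ?_)) hN
      exact Nat.pow_le_pow_right (by omega) hkk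
    have h := fixed (run (rstbl str r ρ c)) (rstbl str r ρ φ) u₀ acc h0 h1 n
      (fun ω : Θ × Ω => str ω.1 + Y ω.2) ((w : ℝ) ^ m * v * ν)
      (eb (rstbl str r ρ c) u₀.1 n Λ k δ) heb (by positivity)
      (fun t u => by
        have h := H1_le str Y ν hν hY (prg (run (rstbl str r ρ c)) (rstbl str r ρ φ)) u₀ t u
        rw [hcQO] at h
        push_cast at h
        exact h)
      (fun t q => H2_le m w n Λ N k hΛ hk hs hNk str δ hδ hstr Y (rstbl str r ρ c) u₀.1 t q)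
    have hcO : Fintype.card (Fin v) = v := by simp
    rw [hcQ, hcO] at h
    push_cast at h
    refine h.trans (le_of_eq ?_)
    congr 1
    congr 1
    · refine Finset.sum_congr rfl fun t ht => Finset.sum_congr rfl fun q _ =>
        Finset.sum_congr rfl fun o _ => ?_
      rw [rstl_lt, hrs, tz_lt_false 0 _ _ u₀ n t (Finset.mem_range.1 ht) q o]
    · refine Finset.sum_congr rfl fun t ht => Finset.sum_congr rfl fun q _ =>
        Finset.sum_congr rfl fun o _ => ?_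
      rw [rstl_lt, hrs, tz_lt_true 0 _ _ u₀ n t (Finset.mem_range.1 ht) q o, pd_zero]
  -- the mean over the restrictions
  have hT1 : ∀ t < n, ∀ (q : Fin m → Fin w) (o : Fin v),
      (mean fun ρ : Fin r → Θ × Θ => tz 0 n (rstl str r ρ (lt L False t q o)) (some (u₀, u₀)) gt) ≤
      pb (run c) u₀.1 t q * nt (1 - 2 * (1 / 2 ^ (r + 1))) L n t q o + η := by
    intro t ht q o
    have h := (abs_le.1 (hyb' (lt L False t q o) gt hG1)).2
    rw [hL] at h ⊢
    rw [tz_lt_false _ _ _ u₀ n t ht q o] at h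
    linarith
  have hT2 : ∀ t < n, ∀ (q : Fin m → Fin w) (o : Fin v),
      (mean fun ρ : Fin r → Θ × Θ => tz 0 n (rstl str r ρ (lt L True t q o)) (some (u₀, u₀)) gt) ≤
      pd (1 - 2 * (1 / 2 ^ (r + 1))) (run c) u₀.1 t q *
        nt (1 - 2 * (1 / 2 ^ (r + 1))) L n t q o + η := by
    intro t ht q o
    have h := (abs_le.1 (hyb' (lt L True t q o) gt hG1)).2
    rw [hL] at h ⊢
    rw [tz_lt_true _ _ _ u₀ n t ht q o] at h
    linarith
  have hε0 : (0 : ℝ) ≤ 1 / 2 ^ (r + 1) := by positivity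
  have hε1 : (1 : ℝ) / 2 ^ (r + 1) ≤ 1 := by
    rw [div_le_one (by positivity)]
    exact one_le_pow₀ (by norm_num)
  have hcO : Fintype.card (Fin v) = v := by simp
  have hS1 := S1_le hε0 hε1 (run c) φ u₀.1 n Λ N hε (hs n le_rfl c u₀.1)
  have hS2 := S2_le hε0 hε1 (run c) φ u₀.1 n Λ N hε (fun t ht => hs t ht c u₀.1)
  rw [hcO, ← hL] at hS1
  rw [hcO, hcQ, ← hL] at hS2
  push_cast at hS2
  have hcount : ∀ a : ℝ, ∑ _t ∈ range n, ∑ _q : Fin m → Fin w, ∑ _o : Fin v, a =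
      n * (w : ℝ) ^ m * v * a := by
    intro a
    simp only [Finset.sum_const, Finset.card_range, Finset.card_univ, hcQ, hcO, nsmul_eq_mul]
    push_cast
    ring
  have hM1 : (mean fun ρ : Fin r → Θ × Θ => ∑ t ∈ range n, ∑ q, ∑ o,
      2 * ((w : ℝ) ^ m * v * ν) *
        tz 0 n (rstl str r ρ (lt L False t q o)) (some (u₀, u₀)) gt) ≤
      2 * ((w : ℝ) ^ m * v * ν) *
        (2 * (v : ℝ) ^ 2 + n * v / 2 ^ N + n * (w : ℝ) ^ m * v * η) := by
    simp only [mean_sum', mean_smul']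
    have hc0 : 0 ≤ 2 * ((w : ℝ) ^ m * v * ν) := by positivity
    calc ∑ t ∈ range n, ∑ q, ∑ o, 2 * ((w : ℝ) ^ m * v * ν) *
          (mean fun ρ : Fin r → Θ × Θ =>
            tz 0 n (rstl str r ρ (lt L False t q o)) (some (u₀, u₀)) gt)
        ≤ ∑ t ∈ range n, ∑ q, ∑ o, 2 * ((w : ℝ) ^ m * v * ν) *
          (pb (run c) u₀.1 t q * nt (1 - 2 * (1 / 2 ^ (r + 1))) L n t q o + η) :=
          Finset.sum_le_sum fun t ht => Finset.sum_le_sum fun q _ => Finset.sum_le_sum fun o _ =>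
            mul_le_mul_of_nonneg_left (hT1 t (Finset.mem_range.1 ht) q o) hc0
      _ = 2 * ((w : ℝ) ^ m * v * ν) * ((∑ t ∈ range n, ∑ q, ∑ o,
          pb (run c) u₀.1 t q * nt (1 - 2 * (1 / 2 ^ (r + 1))) L n t q o) +
            n * (w : ℝ) ^ m * v * η) := by
          simp only [← Finset.mul_sum, Finset.sum_add_distrib]
          rw [hcount η]
      _ ≤ _ := by
          apply mul_le_mul_of_nonneg_left _ hc0
          linarith
  have hM2 : (mean fun ρ : Fin r → Θ × Θ => ∑ t ∈ range n, ∑ q, ∑ o, 2 *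
        tz 0 n (rstl str r ρ (lt L True t q o)) (some (u₀, u₀)) gt) ≤
      2 * (2 * (1 / 2 ^ (r + 1)) * Λ * (2 * (v : ℝ) ^ 2 + n * v / 2 ^ N) +
        2 * (1 / 2 ^ (r + 1)) * (n ^ 2 * (w : ℝ) ^ m * v / 2 ^ N) + n * (w : ℝ) ^ m * v * η) := by
    simp only [mean_sum', mean_smul']
    calc ∑ t ∈ range n, ∑ q, ∑ o, 2 *
          (mean fun ρ : Fin r → Θ × Θ =>
            tz 0 n (rstl str r ρ (lt L True t q o)) (some (u₀, u₀)) gt)
        ≤ ∑ t ∈ range n, ∑ q, ∑ o, 2 *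
          (pd (1 - 2 * (1 / 2 ^ (r + 1))) (run c) u₀.1 t q *
            nt (1 - 2 * (1 / 2 ^ (r + 1))) L n t q o + η) :=
          Finset.sum_le_sum fun t ht => Finset.sum_le_sum fun q _ => Finset.sum_le_sum fun o _ =>
            mul_le_mul_of_nonneg_left (hT2 t (Finset.mem_range.1 ht) q o) (by norm_num)
      _ = 2 * ((∑ t ∈ range n, ∑ q, ∑ o, pd (1 - 2 * (1 / 2 ^ (r + 1))) (run c) u₀.1 t q *
            nt (1 - 2 * (1 / 2 ^ (r + 1))) L n t q o) + n * (w : ℝ) ^ m * v * η) := by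
          simp only [← Finset.mul_sum, Finset.sum_add_distrib]
          rw [hcount η]
      _ ≤ _ := by
          apply mul_le_mul_of_nonneg_left _ (by norm_num)
          linarith
  have hM3 := last_mean (Θ := Θ) m w n Λ N k k' r hΛ hk hkk hs hN str δ hδ hstr c u₀.1
  have hC : |(mean fun ρ : Fin r → Θ × Θ => mean fun ω : Θ × Ω =>
      acc (endSt (prg (run (rstbl str r ρ c)) (rstbl str r ρ φ)) u₀ n (str ω.1 + Y ω.2))) -
      mean fun ρ : Fin r → Θ × Θ => mean fun x : Fin n → ZMod 2 =>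
        acc (endSt (prg (run (rstbl str r ρ c)) (rstbl str r ρ φ)) u₀ n x)| ≤
      2 * ((w : ℝ) ^ m * v * ν) *
        (2 * (v : ℝ) ^ 2 + n * v / 2 ^ N + n * (w : ℝ) ^ m * v * η) +
      2 * (2 * (1 / 2 ^ (r + 1)) * Λ * (2 * (v : ℝ) ^ 2 + n * v / 2 ^ N) +
        2 * (1 / 2 ^ (r + 1)) * (n ^ 2 * (w : ℝ) ^ m * v / 2 ^ N) + n * (w : ℝ) ^ m * v * η) +
      n * (w : ℝ) ^ m * v * errE ((w : ℝ) ^ m) n Λ k k' r δ := by
    rw [← mean_sub']
    refine (abs_mean' _).trans ((mean_le_mean hA).trans ?_)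
    rw [mean_add', mean_add', mean_smul']
    refine add_le_add (add_le_add hM1 hM2) ?_
    exact mul_le_mul_of_nonneg_left hM3 (by positivity)
  have hD : (mean fun ω : (Fin r → Θ × Θ) × (Θ × Ω) =>
        acc (endSt (prg (run c) φ) u₀ n (lay str r ω.1 (str ω.2.1 + Y ω.2.2)))) =
      mean fun ρ : Fin r → Θ × Θ => mean fun ω : Θ × Ω =>
      acc (endSt (prg (run (rstbl str r ρ c)) (rstbl str r ρ φ)) u₀ n (str ω.1 + Y ω.2)) := by
    rw [mean_prod, ← hL]
    simp only [hend]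
  rw [hD, ← hL]
  have h9 := abs_sub_le (mean fun ρ : Fin r → Θ × Θ => mean fun ω : Θ × Ω =>
      acc (endSt (prg (run (rstbl str r ρ c)) (rstbl str r ρ φ)) u₀ n (str ω.1 + Y ω.2)))
    (mean fun ρ : Fin r → Θ × Θ => mean fun x : Fin n → ZMod 2 =>
        acc (endSt (prg (run (rstbl str r ρ c)) (rstbl str r ρ φ)) u₀ n x))
    (mean fun x : Fin n → ZMod 2 => acc (endSt L u₀ n x))
  unfold errG
  rw [← hη]
  linarith

end

end Helper4.GA
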