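import Pool.Agent.Helper4.GA.PotDefs

set_option autoImplicit false

/-!
Mean values over the input of the first copy.

Proof sketch. `mean_split`: `Fin n → ZMod 2` splits as the bit `i` and the rest: both sides are
`∑ x, ∑ b, ..`; e.g. `mean f = 1/2 * ∑ b, mean (fun x => f (Function.update x i b))` for every `f` (the map
`x ↦ x with the bit i changed` is a bijection of the two halves), and `g (update x i b) ((update x i b) i) = g x b`.
`mean_prefix`: induction on `t` for all `F`: `t = 0`: `pb R q 0 r = ind (q = r)`. Step: apply the induction hypothesis to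
`F' r x = F (R t (ez x t) r) x`, which does not depend on the bits before `t`; then `mean_split` for the bit `t`:
`mean (F' r) = ∑ b, 1/2 * mean (F (R t b r))`, and `∑ r, pb t r * ∑ b, 1/2 * g (R t b r) = ∑ r, pb (t + 1) r * g r`
(`dist_succ`, `sum_ind_eq`). `gx_upd`: `gx ε L x d i` depends only on the bits `x j`, `i ≤ j < i + d` (`fut_congr`).
`nm_mean`: induction on `d` for all `i`, `u` (`i + d ≤ n`): `wz (1 - 2 ε) (b, b + e) = 1/2 * pe ε e`,
`nm (d + 1) i u = ∑ b, 1/2 * ∑ e, pe ε e * nm d (i + 1) (cpl L i (b, b + e) u)`, and `mean_split` for the bit `i` with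
`g x b = ∑ e, pe ε e * gx ε L (ez x) d (i + 1) (cpl L i (b, b + e) u)`.
-/

namespace Helper4.GA

open Finset Helper4.RC

section

variable {Q O : Type}

private lemma avg_two (z b : ZMod 2) : ind (z = b) + ind (z + 1 = b) = 1 := by
  by_cases h : z = b
  · rw [ind_true h, ind_false, add_zero]
    subst h
    revert z
    decide
  · rw [ind_false h, ind_true, zero_add]
    revert z b
    decide

private lemma avg_upd {n : ℕ} (i : Fin n) (x : Fin n → ZMod 2) :
    x + Pi.single i 1 = Function.update x i (x i + 1) := by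
  funext j
  by_cases h : j = i
  · subst h
    rw [Pi.add_apply, Pi.single_eq_same, Function.update_self]
  · rw [Pi.add_apply, Pi.single_eq_of_ne h, Function.update_of_ne h, add_zero]

private lemma avg_half {n : ℕ} (i : Fin n) (f : (Fin n → ZMod 2) → ℝ)
    (hf : ∀ x c, f (Function.update x i c) = f x) (b : ZMod 2) :
    ∑ x, ind (x i = b) * f x = 1 / 2 * ∑ x, f x := by
  have h1 : ∑ x, ind (x i = b) * f x = ∑ x, ind (x i + 1 = b) * f x := by
    rw [← Equiv.sum_comp (Equiv.addRight (Pi.single i (1 : ZMod 2)))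
      fun x : Fin n → ZMod 2 => ind (x i = b) * f x]
    refine sum_congr rfl fun x _ => ?_
    have h0 : (Equiv.addRight (Pi.single i (1 : ZMod 2))) x = Function.update x i (x i + 1) :=
      avg_upd i x
    rw [h0, hf, Function.update_self]
  have h2 : ∑ x, ind (x i = b) * f x + ∑ x, ind (x i + 1 = b) * f x = ∑ x, f x := by
    rw [← sum_add_distrib]
    refine sum_congr rfl fun x _ => ?_
    rw [← add_mul, avg_two, one_mul]
  linarith

theorem mean_split {n : ℕ} (i : Fin n) (g : (Fin n → ZMod 2) → ZMod 2 → ℝ)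
    (hg : ∀ x b c, g (Function.update x i c) b = g x b) :
    (mean fun x => g x (x i)) = ∑ b, 1 / 2 * mean fun x => g x b := by
  have h1 : ∑ x, g x (x i) = ∑ b, ∑ x, ind (x i = b) * g x b := by
    rw [sum_comm]
    exact sum_congr rfl fun x _ => (sum_ind_eq (x i) fun b => g x b).symm
  unfold mean
  rw [h1, sum_div]
  refine sum_congr rfl fun b _ => ?_
  rw [avg_half i (fun x => g x b) (fun x c => hg x b c) b, mul_div_assoc]

private lemma avg_sum {Ω I : Type} [Fintype Ω] [Fintype I] (f : I → Ω → ℝ) :
    (mean fun ω => ∑ i, f i ω) = ∑ i, mean (f i) := by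
  unfold mean
  rw [sum_comm, sum_div]

private lemma avg_mul {Ω : Type} [Fintype Ω] (c : ℝ) (f : Ω → ℝ) :
    (mean fun ω => c * f ω) = c * mean f := by
  unfold mean
  rw [← mul_sum, mul_div_assoc]

private lemma avg_ez {n : ℕ} (x : Fin n → ZMod 2) {i : ℕ} (hi : i < n) :
    ez x i = x ⟨i, hi⟩ := dif_pos hi

private lemma avg_ez_upd {n : ℕ} (x : Fin n → ZMod 2) (j : Fin n) (c : ZMod 2) {i : ℕ}
    (hi : i ≠ j) : ez (Function.update x j c) i = ez x i := by
  unfold ez
  split_ifs with h
  · rw [Function.update_of_ne]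
    intro hh
    exact hi (congrArg Fin.val hh)
  · rfl

theorem mean_prefix [Fintype Q] (R : ℕ → ZMod 2 → Q → Q) (q : Q) {n : ℕ} (t : ℕ) (ht : t ≤ n)
    (F : Q → (Fin n → ZMod 2) → ℝ)
    (hF : ∀ (r : Q) (x : Fin n → ZMod 2) (i : Fin n) (c : ZMod 2), (i : ℕ) < t →
      F r (Function.update x i c) = F r x) :
    (mean fun x => F (st R q (ez x) t) x) = ∑ r, pb R q t r * mean (F r) := by
  induction t generalizing F with
  | zero =>
    have h1 : ∀ r, pb R q 0 r = ind (q = r) := fun r => dist_zero R q _ r
    simp only [h1]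
    rw [sum_ind_eq q fun r => mean (F r)]
    rfl
  | succ t ih =>
    have h1 := ih (by omega) (fun r x => F (R t (ez x t) r) x) (by
      intro r x i c hi
      show F (R t (ez (Function.update x i c) t) r) (Function.update x i c) = _
      rw [avg_ez_upd x i c (by omega), hF _ x i c (by omega)])
    have h2 : ∀ r, (mean fun x => F (R t (ez x t) r) x) =
        ∑ b, 1 / 2 * mean (F (R t b r)) := by
      intro r
      have h3 := mean_split (⟨t, by omega⟩ : Fin n) (fun x b => F (R t b r) x)
        (fun x b c => hF _ x _ c (Nat.lt_succ_self t))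
      rw [← h3]
      congr 1
      funext x
      rw [avg_ez x (by omega : t < n)]
    have h4 : (mean fun x => F (st R q (ez x) (t + 1)) x) =
        mean fun x => F (R t (ez x t) (st R q (ez x) t)) x := rfl
    rw [h4, h1]
    simp only [h2]
    have h5 : ∀ r, pb R q (t + 1) r =
        ∑ u, pb R q t u * ∑ b, 1 / 2 * ind (R t b u = r) := fun r => dist_succ R q _ t r
    simp only [h5, sum_mul]
    rw [sum_comm]
    refine sum_congr rfl fun u _ => ?_
    have h6 : ∀ r, (pb R q t u * ∑ b, 1 / 2 * ind (R t b u = r)) * mean (F r) =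
        ∑ b, pb R q t u * (1 / 2) * (ind (R t b u = r) * mean (F r)) := by
      intro r
      rw [mul_sum, sum_mul]
      exact sum_congr rfl fun b _ => by ring
    simp only [h6]
    rw [sum_comm, mul_sum]
    refine sum_congr rfl fun b _ => ?_
    rw [← mul_sum, sum_ind_eq (R t b u) fun r => mean (F r)]
    ring

theorem gx_upd (ε : ℝ) (L : ℕ → ZMod 2 → Q × O → Q × O) {n : ℕ} (x : Fin n → ZMod 2)
    (j : Fin n) (c : ZMod 2) (d i : ℕ) (hj : (j : ℕ) < i) (u : (Q × O) × (Q × O)) :
    gx ε L (ez (Function.update x j c)) d i u = gx ε L (ez x) d i u := by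
  unfold gx
  refine fut_congr (pe ε) df d i (fun k hk _ => ?_) u
  funext e u
  rw [avg_ez_upd x j c (by omega)]

theorem nm_mean (ε : ℝ) (L : ℕ → ZMod 2 → Q × O → Q × O) (n d : ℕ) :
    ∀ (i : ℕ), i + d ≤ n → ∀ u : (Q × O) × (Q × O),
      nm (1 - 2 * ε) L d i u = mean fun x : Fin n → ZMod 2 => gx ε L (ez x) d i u := by
  induction d with
  | zero =>
    intro i _ u
    show df u = mean fun _ : Fin n → ZMod 2 => df u
    unfold mean
    rw [sum_const, card_univ, nsmul_eq_mul]
    have : (Fintype.card (Fin n → ZMod 2) : ℝ) ≠ 0 := by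
      exact_mod_cast Fintype.card_ne_zero
    field_simp
  | succ d ih =>
    intro i hi u
    have h1 : nm (1 - 2 * ε) L (d + 1) i u =
        ∑ b, 1 / 2 * ∑ e, pe ε e * nm (1 - 2 * ε) L d (i + 1) (cpl L i (b, b + e) u) := by
      show ∑ y, wz (1 - 2 * ε) y * nm (1 - 2 * ε) L d (i + 1) (cpl L i y u) = _
      rw [Fintype.sum_prod_type]
      refine sum_congr rfl fun b _ => ?_
      rw [← Equiv.sum_comp (Equiv.addLeft b), mul_sum]
      refine sum_congr rfl fun e _ => ?_
      show wz (1 - 2 * ε) (b, b + e) * nm (1 - 2 * ε) L d (i + 1) (cpl L i (b, b + e) u) = _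
      have h2 : wz (1 - 2 * ε) (b, b + e) = 1 / 2 * pe ε e := by
        unfold wz pe
        by_cases he : e = 0
        · rw [if_pos he, if_pos (by rw [he, add_zero])]
          ring
        · rw [if_neg he, if_neg (fun h => he (by
            have h' : b + 0 = b + e := by rw [add_zero]; exact h
            exact (add_left_cancel h').symm))]
          ring
      rw [h2]
      ring
    have hin : i < n := by omega
    have h3 := mean_split (⟨i, hin⟩ : Fin n)
      (fun x b => ∑ e, pe ε e * gx ε L (ez x) d (i + 1) (cpl L i (b, b + e) u))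
      (fun x b c => sum_congr rfl fun e _ => by
        rw [gx_upd ε L x (⟨i, hin⟩ : Fin n) c d (i + 1) (Nat.lt_succ_self i)])
    have h4 : (mean fun x : Fin n → ZMod 2 => gx ε L (ez x) (d + 1) i u) =
        mean fun x => ∑ e, pe ε e *
          gx ε L (ez x) d (i + 1) (cpl L i (x ⟨i, hin⟩, x ⟨i, hin⟩ + e) u) := by
      congr 1
      funext x
      rw [← avg_ez x hin]
      rfl
    rw [h4, h3, h1]
    refine sum_congr rfl fun b _ => ?_
    congr 1
    rw [avg_sum]
    refine sum_congr rfl fun e _ => ?_
    rw [avg_mul, ih (i + 1) (by omega)]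

end

end Helper4.GA
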