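import Pool.Agent.Helper4.GA.ChScale

set_option autoImplicit false

/-!
The chain lemma: the cost inside a block of levels where the maximum is in `[m, 2 m)`.

Proof sketch. Let `M d = h d (top d)`, `P d = m ≤ M d ∧ M d < 2 * m`, live set `A ∧ P`. For `A (d + 1) u`,
`P (d + 1)` the cost `tau k h (d + 1) u` is at most the sum of
(1) `tau * ind (¬ P d) ≤ 2 * h (d + 1) u * ind (¬ P d) ≤ 4 m * ind (¬ P d)` (`tau_le`): at most one such step;
(2) for every `i ≤ lam`, `s = m / 2 ^ i`, the cost function of `scale_block`: these cover all steps inside the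
block with distance `M (d + 1) - h (d + 1) u > m / 2 ^ lam` (the distance is `< 2 m`);
(3) the steps inside the block (`P d`) with distance `≤ m / 2 ^ lam`: at most
`2 * m / 2 ^ lam + 2 * (M d - M (d + 1))` (`c.tau_le`).
By `ev_mono`, `ev_add`, `ev_sum` and `scale_block` (`m / s = 2 ^ i ≤ 2 ^ lam`) the part (2) costs at most
`(lam + 1) * ((144 Q + 34) m + 108 R 2 ^ lam)`; the parts (1) and (3) cost together at most `F d`, where
`F d = 4 m + 2 * d * m / 2 ^ lam + 2 * (2 m - M d)` at levels in the block and `0` at other levels (`ev_le`), and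
`F d ≤ 6 m + 2 n m / 2 ^ lam`, `m ≤ 1`.
-/

namespace Helper4.GA

open Finset Helper4.RC

private lemma scale_exists {m x : ℝ} (lam : ℕ) (h1 : m / 2 ^ lam < x) (h2 : x < 2 * m) :
    ∃ i ≤ lam, m / 2 ^ i < x ∧ x ≤ 2 * (m / 2 ^ i) := by
  classical
  have hex : ∃ i : ℕ, m / 2 ^ i < x := ⟨lam, h1⟩
  refine ⟨Nat.find hex, Nat.find_min' hex h1, Nat.find_spec hex, ?_⟩
  rcases Nat.eq_zero_or_pos (Nat.find hex) with h0 | h0
  · rw [h0, pow_zero, div_one]
    exact h2.le
  · have h3 := Nat.find_min hex (Nat.sub_lt h0 one_pos)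
    rw [not_lt] at h3
    obtain ⟨j, hj⟩ : ∃ j, Nat.find hex = j + 1 := ⟨Nat.find hex - 1, by omega⟩
    rw [hj] at h3 ⊢
    rw [Nat.add_sub_cancel] at h3
    refine h3.trans (le_of_eq ?_)
    rw [pow_succ]
    field_simp

theorem block {V : Type} [Fintype V] {w n : ℕ} {Q R : ℝ} (hQ : 0 ≤ Q) (hR : 0 ≤ R)
    (hKB : KB V w n Q R) {k : ℕ → V → V → ℝ} {A : ℕ → V → Prop} {h : ℕ → V → ℝ} {top : ℕ → V}
    (c : Ctx w k A h top) (m : ℝ) (hm0 : 0 < m) (hm : m ≤ 1) (lam : ℕ) : ∀ d ≤ n, ∀ u,
    ev k (fun d u => A d u ∧ m ≤ h d (top d) ∧ h d (top d) < 2 * m) (tau k h)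
      (fun _ _ => 0) d u ≤
      ((lam + 1) * (144 * Q + 34) + 6) * m +
        ((lam + 1) * (108 * R * 2 ^ lam) + 2 * n / 2 ^ lam) := by
  classical
  obtain ⟨P, hP⟩ : ∃ P : ℕ → Prop, P = fun d => m ≤ h d (top d) ∧ h d (top d) < 2 * m := ⟨_, rfl⟩
  obtain ⟨B, hB⟩ : ∃ B : ℕ → V → Prop,
      B = fun d u => A d u ∧ m ≤ h d (top d) ∧ h d (top d) < 2 * m := ⟨_, rfl⟩
  obtain ⟨f, hf⟩ : ∃ f : ℕ → ℕ → V → ℝ, f = fun i d u => tau k h d u *
      ind (m ≤ h (d - 1) (top (d - 1)) ∧ h (d - 1) (top (d - 1)) < 2 * m) *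
      ind (m / 2 ^ i < h d (top d) - h d u ∧ h d (top d) - h d u ≤ 2 * (m / 2 ^ i)) := ⟨_, rfl⟩
  obtain ⟨G, hG⟩ : ∃ G : ℕ → V → ℝ, G = fun d u => tau k h d u *
      ind (¬ P (d - 1) ∨ h d (top d) - h d u ≤ m / 2 ^ lam) := ⟨_, rfl⟩
  have htau : ∀ d u, 0 ≤ tau k h d u := tau_nonneg c.sto h
  have hBA : ∀ d u, B d u → A d u ∧ P d := by
    intro d u hu
    rw [hB] at hu
    rw [hP]
    exact hu
  have hfnn : ∀ i d u, 0 ≤ f i d u := by
    intro i d u
    rw [hf]
    exact mul_nonneg (mul_nonneg (htau d u) (ind_nonneg _)) (ind_nonneg _)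
  have hGnn : ∀ d u, 0 ≤ G d u := by
    intro d u
    rw [hG]
    exact mul_nonneg (htau d u) (ind_nonneg _)
  -- the cost of a step is covered
  have hcov : ∀ d u, B (d + 1) u → tau k h (d + 1) u ≤
      ∑ i ∈ range (lam + 1), f i (d + 1) u + G (d + 1) u := by
    intro d u hu
    have hu' := hBA _ _ hu
    have hsum0 : 0 ≤ ∑ i ∈ range (lam + 1), f i (d + 1) u :=
      Finset.sum_nonneg fun i _ => hfnn i _ _
    by_cases h1 : ¬ P (d + 1 - 1) ∨ h (d + 1) (top (d + 1)) - h (d + 1) u ≤ m / 2 ^ lam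
    · have h2 : G (d + 1) u = tau k h (d + 1) u := by
        rw [hG]
        show tau k h (d + 1) u * ind _ = _
        rw [ind_true h1, mul_one]
      linarith
    · rw [not_or, not_not, not_le] at h1
      obtain ⟨h1, h2⟩ := h1
      have h3 : h (d + 1) (top (d + 1)) - h (d + 1) u < 2 * m := by
        have h4 := hu'.2
        rw [hP] at h4
        have h5 := c.nonneg (d + 1) u
        linarith [h4.2]
      obtain ⟨i, hi, hi1, hi2⟩ := scale_exists lam h2 h3
      have h4 : f i (d + 1) u = tau k h (d + 1) u := by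
        rw [hP] at h1
        rw [hf]
        show tau k h (d + 1) u * ind _ * ind _ = _
        rw [ind_true h1, ind_true ⟨hi1, hi2⟩, mul_one, mul_one]
      have h5 : f i (d + 1) u ≤ ∑ i ∈ range (lam + 1), f i (d + 1) u :=
        Finset.single_le_sum (f := fun i => f i (d + 1) u) (fun i _ => hfnn i _ _)
          (Finset.mem_range.2 (by omega))
      have h6 := hGnn (d + 1) u
      linarith
  -- the scales
  have hsc : ∀ i ∈ range (lam + 1), ∀ d ≤ n, ∀ u, ev k B (f i) (fun _ _ => 0) d u ≤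
      (144 * Q + 34) * m + 108 * R * 2 ^ lam := by
    intro i hi d hd u
    have hi' : i ≤ lam := by
      have := Finset.mem_range.1 hi
      omega
    have h2i : (1 : ℝ) ≤ 2 ^ i := one_le_pow₀ (by norm_num)
    have h1 := scale_block hQ hR hKB c m (m / 2 ^ i) (by positivity)
      (div_le_self hm0.le h2i) hm d hd u
    have h2 : m / (m / 2 ^ i) = 2 ^ i := by
      field_simp
    rw [h2] at h1
    rw [hf, hB]
    refine h1.trans ?_
    have h3 : (2 : ℝ) ^ i ≤ 2 ^ lam := pow_le_pow_right₀ (by norm_num) hi'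
    have h4 : 108 * R * 2 ^ i ≤ 108 * R * 2 ^ lam := mul_le_mul_of_nonneg_left h3 (by positivity)
    linarith
  -- the remaining steps
  obtain ⟨F, hF⟩ : ∃ F : ℕ → V → ℝ, F = fun d _ =>
      if P d then 4 * m + 2 * d * (m / 2 ^ lam) + 2 * (2 * m - h d (top d)) else 0 := ⟨_, rfl⟩
  have hFP : ∀ d u, P d → F d u =
      4 * m + 2 * d * (m / 2 ^ lam) + 2 * (2 * m - h d (top d)) := by
    intro d u hd
    rw [hF]
    exact if_pos hd
  have hFN : ∀ d u, ¬ P d → F d u = 0 := by
    intro d u hd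
    rw [hF]
    exact if_neg hd
  have hP1 : ∀ d, P d → m ≤ h d (top d) := by
    intro d hd
    rw [hP] at hd
    exact hd.1
  have hP2 : ∀ d, P d → h d (top d) < 2 * m := by
    intro d hd
    rw [hP] at hd
    exact hd.2
  have hml : 0 < m / 2 ^ lam := by positivity
  have hF0 : ∀ d u, 0 ≤ F d u := by
    intro d u
    by_cases hd : P d
    · rw [hFP d u hd]
      have h1 := hP2 d hd
      have h2 : 0 ≤ 2 * (d : ℝ) * (m / 2 ^ lam) := by positivity
      linarith
    · rw [hFN d u hd]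
  have hGF : ∀ d ≤ n, ∀ u, ev k B G (fun _ _ => 0) d u ≤ F d u := by
    refine ev_le c.sto n F (fun u => hF0 _ _) (fun d _ u _ => hF0 _ _) ?_
    intro d _ u hu
    have hu' := hBA _ _ hu
    rw [hFP _ _ hu'.2]
    have hM2 := hP2 _ hu'.2
    by_cases hd : P d
    · have h1 : ∑ v, k d u v * F d v =
          4 * m + 2 * d * (m / 2 ^ lam) + 2 * (2 * m - h d (top d)) := by
        have h2 : ∀ v, F d v = 4 * m + 2 * d * (m / 2 ^ lam) + 2 * (2 * m - h d (top d)) :=
          fun v => hFP d v hd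
        simp only [h2]
        rw [← Finset.sum_mul, c.sto.sum_one, one_mul]
      rw [h1]
      have h3 := c.anti_succ d
      by_cases h4 : h (d + 1) (top (d + 1)) - h (d + 1) u ≤ m / 2 ^ lam
      · have h5 : G (d + 1) u ≤ 2 * (m / 2 ^ lam) + 2 * (h d (top d) - h (d + 1) (top (d + 1))) := by
          have h6 : G (d + 1) u ≤ tau k h (d + 1) u := by
            rw [hG]
            show tau k h (d + 1) u * ind _ ≤ _
            calc tau k h (d + 1) u * ind _ ≤ tau k h (d + 1) u * 1 :=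
                  mul_le_mul_of_nonneg_left (ind_le_one _) (htau _ _)
              _ = _ := mul_one _
          rcases c.tau_le d u with h7 | h7
          · linarith
          · exact absurd hu'.1 h7
        push_cast
        linarith
      · have h5 : G (d + 1) u = 0 := by
          rw [hG]
          show tau k h (d + 1) u * ind _ = _
          rw [ind_false, mul_zero]
          rw [not_or, not_not]
          exact ⟨hd, h4⟩
        rw [h5]
        push_cast
        linarith
    · have h1 : ∑ v, k d u v * F d v = 0 := by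
        refine Finset.sum_eq_zero fun v _ => ?_
        rw [hFN d v hd, mul_zero]
      rw [h1]
      have h2 : G (d + 1) u ≤ 4 * m := by
        have h6 : G (d + 1) u ≤ tau k h (d + 1) u := by
          rw [hG]
          show tau k h (d + 1) u * ind _ ≤ _
          calc tau k h (d + 1) u * ind _ ≤ tau k h (d + 1) u * 1 :=
                mul_le_mul_of_nonneg_left (ind_le_one _) (htau _ _)
            _ = _ := mul_one _
        have h7 := Helper4.GA.tau_le c.sto c.nonneg c.har hu'.1
        have h8 := c.top (d + 1) u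
        linarith
      have h3 : 0 ≤ 2 * ((d + 1 : ℕ) : ℝ) * (m / 2 ^ lam) := by positivity
      linarith
  have hFle : ∀ d ≤ n, ∀ u, F d u ≤ 6 * m + 2 * n / 2 ^ lam := by
    intro d hd u
    by_cases hPd : P d
    · rw [hFP d u hPd]
      have h1 := hP1 d hPd
      have h2 : 2 * (d : ℝ) * (m / 2 ^ lam) ≤ 2 * n / 2 ^ lam := by
        have h3 : (d : ℝ) ≤ n := by exact_mod_cast hd
        have h4 : m / 2 ^ lam ≤ 1 / 2 ^ lam := div_le_div_of_nonneg_right hm (by positivity)
        calc 2 * (d : ℝ) * (m / 2 ^ lam) ≤ 2 * n * (1 / 2 ^ lam) :=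
              mul_le_mul (by linarith) h4 hml.le (by positivity)
          _ = _ := by ring
      linarith
    · rw [hFN d u hPd]
      positivity
  intro d hd u
  rw [← hB]
  have h1 : ev k B (tau k h) (fun _ _ => 0) d u ≤
      ev k B (fun d u => ∑ i ∈ range (lam + 1), f i d u + G d u) (fun _ _ => 0 + 0) d u :=
    ev_mono c.sto d (fun d' _ u' hu' => hcov d' u' hu') (fun _ => by simp) (fun _ _ _ _ => by simp)
      d le_rfl u
  have h2 : ev k B (fun d u => ∑ i ∈ range (lam + 1), f i d u + G d u) (fun _ _ => 0 + 0) d u =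
      ev k B (fun d u => ∑ i ∈ range (lam + 1), f i d u) (fun _ _ => 0) d u +
        ev k B G (fun _ _ => 0) d u := ev_add d u
  have h3 : ev k B (fun d u => ∑ i ∈ range (lam + 1), f i d u) (fun _ _ => 0) d u =
      ∑ i ∈ range (lam + 1), ev k B (f i) (fun _ _ => 0) d u := ev_sum _ _ d u
  have h4 : ∑ i ∈ range (lam + 1), ev k B (f i) (fun _ _ => 0) d u ≤
      (lam + 1) * ((144 * Q + 34) * m + 108 * R * 2 ^ lam) := by
    refine (Finset.sum_le_sum fun i hi => hsc i hi d hd u).trans (le_of_eq ?_)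
    rw [Finset.sum_const, Finset.card_range, nsmul_eq_mul]
    push_cast
    ring
  have h5 := (hGF d hd u).trans (hFle d hd u)
  calc ev k B (tau k h) (fun _ _ => 0) d u
      ≤ (lam + 1) * ((144 * Q + 34) * m + 108 * R * 2 ^ lam) + (6 * m + 2 * n / 2 ^ lam) := by
        rw [h2, h3] at h1
        linarith
    _ = _ := by ring

end Helper4.GA
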