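import Pool.Agent.Helper4.GA.Ev

set_option autoImplicit false

/-!
The chain lemma: the definitions of the cost bounds.
-/

namespace Helper4.GA

open Finset Helper4.RC

/-- The cost bound for chains with at most `w` live states, up to the level `n`. -/
def KB (V : Type) [Fintype V] (w n : ℕ) (Q R : ℝ) : Prop :=
  ∀ (k : ℕ → V → V → ℝ) (A : ℕ → V → Prop) (h : ℕ → V → ℝ), IsSto k →
    (∀ d u, 0 ≤ h d u) → (∀ d u, h d u ≤ 1) → IsHar k A h → Live A w →
    ∀ d ≤ n, ∀ u, ev k A (tau k h) (fun _ _ => 0) d u ≤ Q * h d u + R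

/-- The cost bound for functions that vanish at the exits before the end. -/
def KS (V : Type) [Fintype V] (w n : ℕ) (Q R : ℝ) : Prop :=
  ∀ (k : ℕ → V → V → ℝ) (A : ℕ → V → Prop) (h : ℕ → V → ℝ), IsSto k →
    (∀ d u, 0 ≤ h d u) → (∀ d u, h d u ≤ 1) → IsHar k A h → Live A w →
    (∀ d u, ¬ A (d + 1) u → h (d + 1) u = 0) →
    ∀ d ≤ n, ∀ u, ev k A (tau k h) (fun _ _ => 0) d u ≤ Q * h d u + R

/-- The data of a chain with at most `w + 1` live states, a harmonic function that vanishes at the
exits before the end, and a state `top d` with the maximal value at every level `d`. -/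
structure Ctx {V : Type} [Fintype V] (w : ℕ) (k : ℕ → V → V → ℝ) (A : ℕ → V → Prop)
    (h : ℕ → V → ℝ) (top : ℕ → V) : Prop where
  sto : IsSto k
  nonneg : ∀ d u, 0 ≤ h d u
  le_one : ∀ d u, h d u ≤ 1
  har : IsHar k A h
  live : Live A (w + 1)
  exit : ∀ d u, ¬ A (d + 1) u → h (d + 1) u = 0
  top : ∀ d u, h d u ≤ h d (top d)

section

variable {V : Type} [Fintype V] {w : ℕ} {k : ℕ → V → V → ℝ} {A : ℕ → V → Prop}
  {h : ℕ → V → ℝ} {top : ℕ → V}

/-- The maximum is a nonincreasing function of the level. -/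
lemma Ctx.anti_succ (c : Ctx w k A h top) (d : ℕ) : h (d + 1) (top (d + 1)) ≤ h d (top d) := by
  by_cases hA : A (d + 1) (top (d + 1))
  · rw [c.har d _ hA]
    calc ∑ v, k d (top (d + 1)) v * h d v ≤ ∑ v, k d (top (d + 1)) v * h d (top d) :=
          Finset.sum_le_sum fun v _ => mul_le_mul_of_nonneg_left (c.top d v) (c.sto.nonneg _ _ _)
      _ = h d (top d) := by rw [← Finset.sum_mul, c.sto.sum_one, one_mul]
  · rw [c.exit d _ hA]
    exact c.nonneg _ _

lemma Ctx.anti (c : Ctx w k A h top) {d d' : ℕ} (hd : d ≤ d') :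
    h d' (top d') ≤ h d (top d) := by
  induction d', hd using Nat.le_induction with
  | base => exact le_rfl
  | succ d' _ ih => exact (c.anti_succ d').trans ih

/-- The cost of a step in terms of the distance to the maximum. -/
lemma Ctx.tau_le (c : Ctx w k A h top) (d : ℕ) (u : V) :
    tau k h (d + 1) u ≤ 2 * (h (d + 1) (top (d + 1)) - h (d + 1) u) +
      2 * (h d (top d) - h (d + 1) (top (d + 1))) ∨ ¬ A (d + 1) u := by
  by_cases hA : A (d + 1) u
  · left
    unfold tau
    calc ∑ v, k d u v * |h d v - h (d + 1) u|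
        ≤ ∑ v, k d u v * ((h d (top d) - h d v) + (h d (top d) - h (d + 1) u)) := by
          refine Finset.sum_le_sum fun v _ => mul_le_mul_of_nonneg_left ?_ (c.sto.nonneg _ _ _)
          have h1 := c.top d v
          have h2 := c.top (d + 1) u
          have h3 := c.anti_succ d
          rw [abs_le]
          constructor <;> linarith
      _ = 2 * h d (top d) - (∑ v, k d u v * h d v) - h (d + 1) u := by
          simp only [mul_add, mul_sub, Finset.sum_add_distrib, Finset.sum_sub_distrib,
            ← Finset.sum_mul, c.sto.sum_one]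
          ring
      _ = _ := by
          rw [← c.har d u hA]
          ring
  · exact Or.inr hA

end

end Helper4.GA
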