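import Pool.Agent.Helper4.GA.ChDefs

set_option autoImplicit false

/-!
The chain lemma: splitting a harmonic function by the level of the exit.

For `e ≤ n` let `he d u = ev k A 0 (fun d u => if d = e then h d u else 0) d u` (the part
of `h` that comes from the exits at the level `e`).
(a) `∑ e ∈ range (n + 1), he d u = h d u` for `d ≤ n` (induction on `d`; at a live state use `ev_live`, `har`).
(b) `he d u = 0` for `d < e`, and `he e u = 0` if `e ≥ 1` and `A e u` (induction on `d`).
(c) Let `k' d = k (d + e)`, `A' d = A (d + e)`, `h' d u = he (d + e) u`. `IsSto k'`, `0 ≤ h' ≤ 1` (`ev_nonneg`,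
`ev_le` with `F = 1`), `IsHar k' A' h'` (`ev_live`), `Live A' w`, and `h' (d + 1) u = 0` if
`¬ A' (d + 1) u` (`ev_exit`, `d + 1 + e ≠ e`). So `KS` gives
`ev k' A' (tau k' h') 0 d u ≤ Q * he (d + e) u + R` for `d ≤ n`.
(d) `ev k A (tau k he) 0 d u = 0` for `d ≤ e` (by (b) `tau k he (d + 1) u = 0` at the live states with
`d + 1 ≤ e`), and `ev k A (tau k he) 0 (d + e) u = ev k' A' (tau k' h') 0 d u` (induction on `d`).
(e) `tau k h (d + 1) u ≤ ∑ e ∈ range (n + 1), tau k he (d + 1) u` for `d + 1 ≤ n` (by (a)), so by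
`ev_mono`, `ev_sum`: `ev k A (tau k h) 0 d u ≤ ∑ e ∈ range (n + 1), ev k A (tau k he) 0 d u ≤
∑ e ∈ range (n + 1), (Q * he d u + R) = Q * h d u + (n + 1) * R`.
-/

namespace Helper4.GA

open Finset Helper4.RC

/-- The part of `h` that comes from the exits at the level `e`. -/
private noncomputable def hx {V : Type} [Fintype V] (k : ℕ → V → V → ℝ) (A : ℕ → V → Prop)
    (h : ℕ → V → ℝ) (e : ℕ) : ℕ → V → ℝ :=
  fun d u => ev k A (fun _ _ => 0) (fun d u => if d = e then h d u else 0) d u

section

variable {V : Type} [Fintype V] {k : ℕ → V → V → ℝ} {A : ℕ → V → Prop} {h : ℕ → V → ℝ}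

private lemma hx_zero (e : ℕ) (u : V) : hx k A h e 0 u = if 0 = e then h 0 u else 0 := by
  unfold hx
  rw [ev]

private lemma hx_live (e : ℕ) {d : ℕ} {u : V} (hA : A (d + 1) u) :
    hx k A h e (d + 1) u = ∑ v, k d u v * hx k A h e d v := by
  unfold hx
  rw [ev_live hA, zero_add]

private lemma hx_exit (e : ℕ) {d : ℕ} {u : V} (hA : ¬ A (d + 1) u) :
    hx k A h e (d + 1) u = if d + 1 = e then h (d + 1) u else 0 := by
  unfold hx
  rw [ev_exit hA]

private lemma hx_sum (hh : IsHar k A h) (n : ℕ) : ∀ d ≤ n, ∀ u : V,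
    ∑ e ∈ range (n + 1), hx k A h e d u = h d u := by
  intro d
  induction d with
  | zero =>
    intro _ u
    simp only [hx_zero]
    rw [Finset.sum_ite_eq, if_pos (Finset.mem_range.2 (Nat.succ_pos n))]
  | succ d ih =>
    intro hd u
    by_cases hA : A (d + 1) u
    · rw [hh d u hA]
      simp only [hx_live _ hA]
      rw [Finset.sum_comm]
      refine Finset.sum_congr rfl fun v _ => ?_
      rw [← Finset.mul_sum, ih (by omega) v]
    · simp only [hx_exit _ hA]
      rw [Finset.sum_ite_eq, if_pos (Finset.mem_range.2 (by omega))]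

private lemma hx_lt (e : ℕ) : ∀ d < e, ∀ u : V, hx k A h e d u = 0 := by
  intro d
  induction d with
  | zero =>
    intro hd u
    rw [hx_zero, if_neg (by omega)]
  | succ d ih =>
    intro hd u
    by_cases hA : A (d + 1) u
    · rw [hx_live _ hA]
      refine Finset.sum_eq_zero fun v _ => ?_
      rw [ih (by omega) v, mul_zero]
    · rw [hx_exit _ hA, if_neg (by omega)]

private lemma hx_nonneg (hk : IsSto k) (h0 : ∀ d u, 0 ≤ h d u) (e d : ℕ) (u : V) :
    0 ≤ hx k A h e d u := by
  unfold hx
  refine ev_nonneg hk (fun _ _ => le_rfl) (fun d u => ?_) d u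
  split_ifs
  · exact h0 d u
  · exact le_rfl

private lemma hx_le_one (hk : IsSto k) (h1 : ∀ d u, h d u ≤ 1) (e d : ℕ) (u : V) :
    hx k A h e d u ≤ 1 := by
  unfold hx
  refine ev_le hk d (fun _ _ => (1 : ℝ)) (fun u => ?_) (fun d _ u _ => ?_) (fun d _ u _ => ?_) d
    le_rfl u
  · split_ifs
    · exact h1 0 u
    · exact zero_le_one
  · split_ifs
    · exact h1 _ u
    · exact zero_le_one
  · simp only [mul_one]
    rw [hk.sum_one, zero_add]

private lemma hx_cost_zero (e : ℕ) : ∀ d ≤ e, ∀ u : V,
    ev k A (tau k (hx k A h e)) (fun _ _ => 0) d u = 0 := by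
  intro d
  induction d with
  | zero =>
    intro _ u
    rw [ev]
  | succ d ih =>
    intro hd u
    by_cases hA : A (d + 1) u
    · rw [ev_live hA]
      have e1 : ∀ v : V, hx k A h e d v = 0 := hx_lt e d (by omega)
      have e2 : hx k A h e (d + 1) u = 0 := by
        rw [hx_live _ hA]
        refine Finset.sum_eq_zero fun v _ => ?_
        rw [e1 v, mul_zero]
      have e3 : tau k (hx k A h e) (d + 1) u = 0 := by
        unfold tau
        refine Finset.sum_eq_zero fun v _ => ?_
        rw [e1 v, e2, sub_zero, abs_zero, mul_zero]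
      rw [e3, zero_add]
      refine Finset.sum_eq_zero fun v _ => ?_
      rw [ih (by omega) v, mul_zero]
    · rw [ev_exit hA]

private lemma hx_cost_shift (e : ℕ) : ∀ d, ∀ u : V,
    ev k A (tau k (hx k A h e)) (fun _ _ => 0) (d + e) u =
      ev (fun d => k (d + e)) (fun d => A (d + e))
        (tau (fun d => k (d + e)) (fun d => hx k A h e (d + e))) (fun _ _ => 0) d u := by
  intro d
  induction d with
  | zero =>
    intro u
    rw [Nat.zero_add, hx_cost_zero e e le_rfl u, ev]
  | succ d ih =>
    intro u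
    have hde : d + 1 + e = d + e + 1 := by omega
    by_cases hA : A (d + e + 1) u
    · have hA' : (fun d => A (d + e)) (d + 1) u := by
        dsimp only
        rw [hde]
        exact hA
      rw [ev_live hA', hde, ev_live hA]
      congr 1
      · unfold tau
        dsimp only
        rw [hde]
      · refine Finset.sum_congr rfl fun v _ => ?_
        rw [ih v]
    · have hA' : ¬ (fun d => A (d + e)) (d + 1) u := by
        dsimp only
        rw [hde]
        exact hA
      rw [ev_exit hA', hde, ev_exit hA]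

end

theorem kb_of_ks (V : Type) [Fintype V] (w n : ℕ) (Q R : ℝ) (hQ : 0 ≤ Q) (hR : 0 ≤ R)
    (h : KS V w n Q R) : KB V w n Q ((n + 1) * R) := by
  intro k A f hk h0 h1 hh hL d hd u
  have main : ∀ e, ∀ d ≤ n, ∀ u : V,
      ev k A (tau k (hx k A f e)) (fun _ _ => 0) d u ≤ Q * hx k A f e d u + R := by
    intro e d hd u
    by_cases hde : d < e
    · rw [hx_cost_zero e d hde.le u]
      have := hx_nonneg (A := A) hk h0 e d u
      positivity
    · obtain ⟨d', rfl⟩ : ∃ d', d = d' + e := ⟨d - e, by omega⟩
      rw [hx_cost_shift e d' u]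
      have hk' : IsSto (fun d => k (d + e)) :=
        ⟨fun d u v => hk.nonneg _ _ _, fun d u => hk.sum_one _ _⟩
      refine h (fun d => k (d + e)) (fun d => A (d + e)) (fun d => hx k A f e (d + e)) hk'
        (fun d u => hx_nonneg hk h0 e _ u) (fun d u => hx_le_one hk h1 e _ u) ?_ ?_ ?_ d'
        (by omega) u
      · intro d u hA
        have hde : d + 1 + e = d + e + 1 := by omega
        dsimp only at hA ⊢
        rw [hde] at hA ⊢
        exact hx_live e hA
      · intro d
        have hde : d + 1 + e = d + e + 1 := by omega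
        dsimp only
        rw [hde]
        exact hL (d + e)
      · intro d u hA
        have hde : d + 1 + e = d + e + 1 := by omega
        rw [hde] at hA ⊢
        rw [hx_exit e hA, if_neg (by omega)]
  have step : ev k A (tau k f) (fun _ _ => 0) d u ≤
      ev k A (fun d u => ∑ e ∈ range (n + 1), tau k (hx k A f e) d u) (fun _ _ => 0) d u := by
    refine ev_mono hk n (fun d hd u _ => ?_) (fun _ => le_rfl) (fun _ _ _ _ => le_rfl) d hd u
    unfold tau
    dsimp only
    rw [Finset.sum_comm]
    refine Finset.sum_le_sum fun v _ => ?_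
    rw [← Finset.mul_sum]
    refine mul_le_mul_of_nonneg_left ?_ (hk.nonneg _ _ _)
    rw [← hx_sum hh n d hd.le v, ← hx_sum hh n (d + 1) hd u, ← Finset.sum_sub_distrib]
    exact Finset.abs_sum_le_sum_abs _ _
  refine step.trans ?_
  rw [ev_sum]
  refine (Finset.sum_le_sum fun e _ => main e d hd u).trans ?_
  rw [Finset.sum_add_distrib, ← Finset.mul_sum, hx_sum hh n d hd u, Finset.sum_const,
    Finset.card_range, nsmul_eq_mul]
  push_cast
  exact le_rfl

end Helper4.GA
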