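import Pool.Agent.Helper4.GA.ChDefs

set_option autoImplicit false

/-!
The chain lemma: running to the top.

Proof sketch. Let `T d u = ev k A (tau k h) 0 d u` and `B d u = A d u ∧ 0 < h d u ∧ u ≠ top d`. `Live B w`:
if `A (d + 1) (top (d + 1))` then `B (d + 1)` is contained in the live states without the top; otherwise
`h (d + 1) (top (d + 1)) = 0`, so all `h (d + 1) u = 0` (`c.top`, `c.nonneg`) and `B (d + 1)` is empty.
`T = ev k B (tau k h) T` (`ev_split`) `= ev k B (tau k h) 0 + ev k B 0 T` (`ev_add`, `ev_congr`). The first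
term is at most `Q * h + R` (`KB`; `h` is harmonic on `B`). At the exits `(d, u)` of `B` with `d ≤ D`:
`T d u ≤ G * h d u + R₂`: for `d = 0` `T = 0`; if `¬ A d u` then `T = 0`; if `A d u` and `h d u = 0` then
`T d u ≤ 2 * d * h d u = 0` (`ev_tau_le`); if `u = top d` this is `hT`. So by `ev_mono`
`ev k B 0 T ≤ ev k B 0 (G * h + R₂) = G * h + R₂` (`ev_har` for `G * h + R₂`, harmonic as `∑ v, k d u v = 1`).
-/

namespace Helper4.GA

open Finset Helper4.RC

theorem top_lemma {V : Type} [Fintype V] {w n : ℕ} {Q R : ℝ} (hKB : KB V w n Q R)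
    {k : ℕ → V → V → ℝ} {A : ℕ → V → Prop} {h : ℕ → V → ℝ} {top : ℕ → V}
    (c : Ctx w k A h top) (G R₂ : ℝ) (hG : 0 ≤ G) (hR₂ : 0 ≤ R₂) (D : ℕ) (hD : D ≤ n)
    (hT : ∀ d ≤ D, ev k A (tau k h) (fun _ _ => 0) d (top d) ≤ G * h d (top d) + R₂) :
    ∀ d ≤ D, ∀ u, ev k A (tau k h) (fun _ _ => 0) d u ≤ (Q + G) * h d u + (R + R₂) := by
  intro d hd u
  let B : ℕ → V → Prop := fun d u => A d u ∧ 0 < h d u ∧ u ≠ top d
  have hBA : ∀ d u, B (d + 1) u → A (d + 1) u := fun d u hB => hB.1
  have hLB : Live B w := by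
    intro d
    by_cases hA : A (d + 1) (top (d + 1))
    · have h1 : ({u | B (d + 1) u} : Set V) ⊂ {u | A (d + 1) u} := by
        refine ⟨fun u hu => hu.1, fun hs => ?_⟩
        have h2 : B (d + 1) (top (d + 1)) := hs hA
        exact h2.2.2 rfl
      have h3 := Set.ncard_lt_ncard h1 (Set.toFinite _)
      have h4 : ({u | A (d + 1) u} : Set V).ncard ≤ w + 1 := c.live d
      have h5 : Nat.card {u // B (d + 1) u} = ({u | B (d + 1) u} : Set V).ncard := rfl
      rw [h5]
      omega
    · have h1 : IsEmpty {u // B (d + 1) u} := by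
        refine ⟨fun u => ?_⟩
        have h2 := c.top (d + 1) u.1
        rw [c.exit d _ hA] at h2
        exact absurd u.2.2.1 (not_lt.2 h2)
      rw [Nat.card_of_isEmpty]
      exact Nat.zero_le _
  have hhB : IsHar k B h := fun d u hB => c.har d u hB.1
  have h1 := hKB k B h c.sto c.nonneg c.le_one hhB hLB d (hd.trans hD) u
  have h2 : ev k A (tau k h) (fun _ _ => 0) d u =
      ev k B (tau k h) (ev k A (tau k h) (fun _ _ => 0)) d u := ev_split hBA d u
  have h3 : ev k B (tau k h) (ev k A (tau k h) (fun _ _ => 0)) d u =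
      ev k B (tau k h) (fun _ _ => 0) d u +
        ev k B (fun _ _ => 0) (ev k A (tau k h) (fun _ _ => 0)) d u := by
    rw [← ev_add]
    refine ev_congr (fun d u _ => ?_) (fun u => ?_) (fun d u _ => ?_) d u
    · rw [add_zero]
    · rw [zero_add]
    · rw [zero_add]
  have h4 : ev k B (fun _ _ => 0) (ev k A (tau k h) (fun _ _ => 0)) d u ≤
      ev k B (fun _ _ => 0) (fun d u => G * h d u + R₂) d u := by
    refine ev_mono c.sto D (fun d _ u _ => le_rfl) (fun u => ?_) (fun d hd' u hB => ?_) d hd u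
    · change (0 : ℝ) ≤ G * h 0 u + R₂
      exact add_nonneg (mul_nonneg hG (c.nonneg 0 u)) hR₂
    · by_cases hA : A (d + 1) u
      · by_cases hu : u = top (d + 1)
        · rw [hu]
          exact hT (d + 1) hd'
        · have h5 : h (d + 1) u = 0 := by
            by_contra hne
            exact hB ⟨hA, lt_of_le_of_ne (c.nonneg _ _) (Ne.symm hne), hu⟩
          have h6 := ev_tau_le c.sto c.nonneg c.har (d + 1) u
          rw [h5, mul_zero] at h6
          rw [h5, mul_zero, zero_add]
          exact h6.trans hR₂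
      · rw [ev_exit hA]
        exact add_nonneg (mul_nonneg hG (c.nonneg _ u)) hR₂
  have h5 : ev k B (fun _ _ => 0) (fun d u => G * h d u + R₂) d u = G * h d u + R₂ := by
    refine ev_har (h := fun d u => G * h d u + R₂) (fun d u hB => ?_) d u
    change G * h (d + 1) u + R₂ = ∑ v, k d u v * (G * h d v + R₂)
    rw [c.har d u hB.1]
    simp only [mul_add, Finset.sum_add_distrib, ← Finset.sum_mul, c.sto.sum_one, one_mul]
    rw [Finset.mul_sum]
    congr 1
    exact Finset.sum_congr rfl fun v _ => by ring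
  rw [h2, h3]
  calc ev k B (tau k h) (fun _ _ => 0) d u +
        ev k B (fun _ _ => 0) (ev k A (tau k h) (fun _ _ => 0)) d u
      ≤ (Q * h d u + R) + (G * h d u + R₂) := add_le_add h1 (h4.trans h5.le)
    _ = (Q + G) * h d u + (R + R₂) := by ring

end Helper4.GA
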