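import Pool.Agent.Helper4.GA.ChBlock
import Pool.Agent.Helper4.GA.ChTop

set_option autoImplicit false

/-!
The chain lemma: induction over the dyadic scales of the maximum.

Proof sketch. Given `k A h` as in `KS` and `u : V`, choose `top d` with the maximal value of `h d` (finite set);
this gives `Ctx w k A h top`. Let `M d = h d (top d)` (nonincreasing, `c.anti`),
`T d u = ev k A (tau k h) 0 d u`, `κ = (lam + 1) * (144 * Q + 34) + 6`,
`ρ = (lam + 1) * (108 * R * 2 ^ lam) + 2 * n / 2 ^ lam`. Claim, by induction on `j ≤ lam + 1`: for `d ≤ n` with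
`2 / 2 ^ j ≤ M d` and all `u`: `T d u ≤ j * (Q + κ) * h d u + j * (R + ρ)`. For `j = 0` there is no such level (`M d ≤ 1`).
Step: `m = 1 / 2 ^ j`, `G = j (Q + κ)`, `S = j (R + ρ)`; let `m ≤ M D`, `D ≤ n`. For `d ≤ D` we have `m ≤ M d`. If
`2 m ≤ M d` the bound of the induction hypothesis holds. Otherwise the level `d` is in the block `A_m = A ∧ m ≤ M ∧ M < 2 m` and
`T = ev k A_m (tau k h) T` (`ev_split`) `= ev k A_m (tau k h) 0 + ev k A_m 0 T` (`ev_add`), the first part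
is at most `κ m + ρ` (`block`), and at the exits of `A_m` at levels `≤ d`: `T = 0` (level `0` or not in `A`) or
`2 m ≤ M` and `T ≤ G h + S`; so the second part is at most `G h d u + S` (`ev_mono`, `ev_har` for `G h + S`). For
`u = top d` this is at most `(κ + G) * M d + (ρ + S)` (`m ≤ M d`). Now `top_lemma` (with `G := κ + G`, `R₂ := ρ + S`).
With `j = lam + 1`: for `1 / 2 ^ lam ≤ M d`, `T d u ≤ (lam + 1) (Q + κ) h d u + (lam + 1) (R + ρ)`; otherwise
`T d u ≤ 2 d h d u ≤ 2 n / 2 ^ lam` (`ev_tau_le`). Finally `(lam + 1) (Q + κ) ≤ (lam + 1) ^ 2 (145 Q + 40)` and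
`(lam + 1) (R + ρ) + 2 n / 2 ^ lam ≤ (lam + 1) ^ 2 * 109 * 2 ^ lam * R + 4 * (lam + 1) * n / 2 ^ lam`.
-/

namespace Helper4.GA

open Finset Helper4.RC

namespace ChLevels

section

variable {V : Type} [Fintype V] {w n : ℕ} {Q R : ℝ} {k : ℕ → V → V → ℝ} {A : ℕ → V → Prop}
  {h : ℕ → V → ℝ} {top : ℕ → V}

/-- One block: the cost at a level of the block `m ≤ M d < 2 m`. -/
private lemma blk (hQ : 0 ≤ Q) (hR : 0 ≤ R) (hKB : KB V w n Q R)
    (c : Ctx w k A h top) (m : ℝ) (hm0 : 0 < m) (hm : m ≤ 1) (lam : ℕ) (G S : ℝ)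
    (hG : 0 ≤ G) (hS : 0 ≤ S) (d : ℕ) (hd : d ≤ n) (hmd : m ≤ h d (top d))
    (ih : ∀ e ≤ d, 2 * m ≤ h e (top e) → ∀ u,
      ev k A (tau k h) (fun _ _ => 0) e u ≤ G * h e u + S) (u : V) :
    ev k A (tau k h) (fun _ _ => 0) d u ≤
      (((lam + 1) * (144 * Q + 34) + 6) * m +
        ((lam + 1) * (108 * R * 2 ^ lam) + 2 * n / 2 ^ lam)) + (G * h d u + S) := by
  have hsplit := ev_split (k := k) (A := A) (f := tau k h) (g := fun _ _ => (0 : ℝ))
    (B := fun d u => A d u ∧ m ≤ h d (top d) ∧ h d (top d) < 2 * m) (fun d u hB => hB.1) d u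
  have hadd := ev_add (k := k) (A := fun d u => A d u ∧ m ≤ h d (top d) ∧ h d (top d) < 2 * m)
    (f := tau k h) (f' := fun _ _ => (0 : ℝ)) (g := fun _ _ => (0 : ℝ))
    (g' := ev k A (tau k h) (fun _ _ => 0)) d u
  simp only [add_zero, zero_add] at hadd
  have hb := block hQ hR hKB c m hm0 hm lam d hd u
  have h2 : ev k (fun d u => A d u ∧ m ≤ h d (top d) ∧ h d (top d) < 2 * m) (fun _ _ => 0)
      (ev k A (tau k h) (fun _ _ => 0)) d u ≤ G * h d u + S := by
    have hhar : IsHar k (fun d u => A d u ∧ m ≤ h d (top d) ∧ h d (top d) < 2 * m)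
        (fun d u => G * h d u + S) := by
      intro e v hA
      simp only [mul_add, Finset.sum_add_distrib]
      rw [c.har e v hA.1, Finset.mul_sum, ← Finset.sum_mul, c.sto.sum_one, one_mul]
      congr 1
      refine Finset.sum_congr rfl fun x _ => by ring
    have hmono := ev_mono (k := k)
      (A := fun d u => A d u ∧ m ≤ h d (top d) ∧ h d (top d) < 2 * m)
      (f := fun _ _ => (0 : ℝ)) (f' := fun _ _ => (0 : ℝ))
      (g := ev k A (tau k h) (fun _ _ => 0)) (g' := fun d u => G * h d u + S) c.sto d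
      (fun _ _ _ _ => le_rfl)
      (fun v => by
        have h1 := mul_nonneg hG (c.nonneg 0 v)
        simp only [ev]
        linarith)
      (fun e he v hA => by
        have h1 := mul_nonneg hG (c.nonneg (e + 1) v)
        by_cases hAe : A (e + 1) v
        · have hM : m ≤ h (e + 1) (top (e + 1)) := hmd.trans (c.anti (by omega))
          have hM2 : 2 * m ≤ h (e + 1) (top (e + 1)) := by
            by_contra hcon
            exact hA ⟨hAe, hM, not_le.mp hcon⟩
          exact ih (e + 1) (by omega) hM2 v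
        · rw [ev_exit hAe]
          linarith) d le_rfl u
    rw [ev_har hhar] at hmono
    exact hmono
  rw [hsplit]
  have hadd' : ev k (fun d u => A d u ∧ m ≤ h d (top d) ∧ h d (top d) < 2 * m) (tau k h)
      (ev k A (tau k h) (fun _ _ => 0)) d u = _ := hadd
  rw [hadd']
  exact add_le_add hb h2

private lemma claim (hQ : 0 ≤ Q) (hR : 0 ≤ R) (hKB : KB V w n Q R)
    (c : Ctx w k A h top) (lam : ℕ) (K P : ℝ)
    (hK : K = (lam + 1) * (144 * Q + 34) + 6)
    (hP : P = (lam + 1) * (108 * R * 2 ^ lam) + 2 * n / 2 ^ lam) (j : ℕ) :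
    ∀ D ≤ n, 2 / 2 ^ j ≤ h D (top D) → ∀ u,
      ev k A (tau k h) (fun _ _ => 0) D u ≤ j * (Q + K) * h D u + j * (R + P) := by
  have hK0 : 0 ≤ K := by rw [hK]; positivity
  have hP0 : 0 ≤ P := by rw [hP]; positivity
  induction j with
  | zero =>
    intro D _ hM
    have h1 := c.le_one D (top D)
    norm_num at hM
    linarith
  | succ j ih =>
    intro D hD hM u
    have hpow : (0 : ℝ) < 2 ^ j := by positivity
    have hpow1 : (1 : ℝ) ≤ 2 ^ j := one_le_pow₀ (by norm_num)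
    have hm : (2 : ℝ) / 2 ^ (j + 1) = 1 / 2 ^ j := by
      rw [pow_succ]; field_simp
    rw [hm] at hM
    have hm2 : 2 * (1 / (2 : ℝ) ^ j) = 2 / 2 ^ j := by ring
    have hG : (0 : ℝ) ≤ j * (Q + K) := by positivity
    have hS : (0 : ℝ) ≤ j * (R + P) := by positivity
    have key := top_lemma hKB c (K + j * (Q + K)) (P + j * (R + P)) (by positivity)
      (by positivity) D hD (fun d hd => by
        have hMd : 1 / 2 ^ j ≤ h d (top d) := hM.trans (c.anti hd)
        have hb := blk hQ hR hKB c (1 / 2 ^ j) (by positivity)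
          (by rw [div_le_one hpow]; exact hpow1) lam (j * (Q + K)) (j * (R + P)) hG hS d
          (hd.trans hD) hMd (fun e he h2 v => ih e (he.trans (hd.trans hD)) (by rw [← hm2]; exact h2) v)
          (top d)
        rw [← hK, ← hP] at hb
        have h3 : K * (1 / 2 ^ j) ≤ K * h d (top d) := mul_le_mul_of_nonneg_left hMd hK0
        linarith [h3, hb]) D le_rfl u
    have e1 : ((j + 1 : ℕ) : ℝ) * (Q + K) * h D u + ((j + 1 : ℕ) : ℝ) * (R + P) =
        (Q + (K + j * (Q + K))) * h D u + (R + (P + j * (R + P))) := by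
      push_cast; ring
    rw [e1]
    exact key

end

end ChLevels

theorem ks_step (V : Type) [Fintype V] (w n : ℕ) (Q R : ℝ) (hQ : 0 ≤ Q) (hR : 0 ≤ R)
    (hKB : KB V w n Q R) (lam : ℕ) :
    KS V (w + 1) n (((lam : ℝ) + 1) ^ 2 * (145 * Q + 40))
      (((lam : ℝ) + 1) ^ 2 * 109 * 2 ^ lam * R + 4 * (lam + 1) * n / 2 ^ lam) := by
  intro k A h sto h0 h1 har live hex d hd u
  have hne : Nonempty V := ⟨u⟩
  have htop : ∀ d, ∃ t, ∀ v, h d v ≤ h d t := fun d => Finite.exists_max (h d)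
  choose top htop using htop
  have c : Ctx w k A h top := ⟨sto, h0, h1, har, live, hex, htop⟩
  obtain ⟨K, hK⟩ : ∃ K : ℝ, K = (lam + 1) * (144 * Q + 34) + 6 := ⟨_, rfl⟩
  obtain ⟨P, hP⟩ : ∃ P : ℝ, P = (lam + 1) * (108 * R * 2 ^ lam) + 2 * n / 2 ^ lam := ⟨_, rfl⟩
  have hl : (0 : ℝ) ≤ lam := Nat.cast_nonneg lam
  have hn : (0 : ℝ) ≤ n := Nat.cast_nonneg n
  have hpow : (0 : ℝ) < 2 ^ lam := by positivity
  have hpow1 : (1 : ℝ) ≤ 2 ^ lam := one_le_pow₀ (by norm_num)
  have hhu := h0 d u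
  have hx : (0 : ℝ) ≤ n / 2 ^ lam := by positivity
  have hRp : R ≤ R * 2 ^ lam := le_mul_of_one_le_right hR hpow1
  by_cases hM : 1 / 2 ^ lam ≤ h d (top d)
  · have hM' : (2 : ℝ) / 2 ^ (lam + 1) ≤ h d (top d) := by
      have : (2 : ℝ) / 2 ^ (lam + 1) = 1 / 2 ^ lam := by rw [pow_succ]; field_simp
      rw [this]; exact hM
    have hcl := ChLevels.claim hQ hR hKB c lam K P hK hP (lam + 1) d hd hM' u
    push_cast at hcl
    refine hcl.trans ?_
    refine add_le_add (mul_le_mul_of_nonneg_right ?_ hhu) ?_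
    · rw [hK]; nlinarith [mul_nonneg hl hQ, mul_nonneg hl hl]
    · rw [hP]
      have e1 : ((lam : ℝ) + 1) * (R + ((lam + 1) * (108 * R * 2 ^ lam) + 2 * n / 2 ^ lam)) =
          (lam + 1) * R + (lam + 1) ^ 2 * 108 * (R * 2 ^ lam) + 2 * (lam + 1) * (n / 2 ^ lam) := by
        ring
      have e2 : ((lam : ℝ) + 1) ^ 2 * 109 * 2 ^ lam * R + 4 * (lam + 1) * n / 2 ^ lam =
          (lam + 1) ^ 2 * 109 * (R * 2 ^ lam) + 4 * (lam + 1) * (n / 2 ^ lam) := by ring
      rw [e1, e2]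
      have hA : ((lam : ℝ) + 1) * R ≤ (lam + 1) ^ 2 * (R * 2 ^ lam) := by
        have h3 : ((lam : ℝ) + 1) ≤ (lam + 1) ^ 2 := by nlinarith
        exact mul_le_mul h3 hRp hR (by positivity)
      have hB : 0 ≤ (lam + 1) * ((n : ℝ) / 2 ^ lam) := by positivity
      linarith
  · have h2 := ev_tau_le (A := A) sto h0 har d u
    refine h2.trans ?_
    have h3 : h d u ≤ 1 / 2 ^ lam := (htop d u).trans (not_le.mp hM).le
    have hdn : (d : ℝ) ≤ n := by exact_mod_cast hd
    have h4 : 2 * (d : ℝ) * h d u ≤ 2 * n * (1 / 2 ^ lam) := by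
      have := mul_le_mul hdn h3 hhu hn
      linarith
    have h5 : 0 ≤ ((lam : ℝ) + 1) ^ 2 * (145 * Q + 40) * h d u := by positivity
    have h6 : 0 ≤ ((lam : ℝ) + 1) ^ 2 * 109 * 2 ^ lam * R := by positivity
    have h7 : 4 * ((lam : ℝ) + 1) * n / 2 ^ lam = 4 * (lam + 1) * (n / 2 ^ lam) := by ring
    have h8 : 2 * (n : ℝ) * (1 / 2 ^ lam) = 2 * (n / 2 ^ lam) := by ring
    have h9 : 0 ≤ (lam : ℝ) * (n / 2 ^ lam) := by positivity
    rw [h7]
    rw [h8] at h4
    linarith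

end Helper4.GA
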