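import Pool.Agent.Helper4.GA.ChDefs

set_option autoImplicit false

/-!
The chain lemma: one scale. `P` is a set of levels at which the maximum is in `[Mh - s/8, Mh]`; the
runs considered only make steps between levels in `P`, and only the costs of the steps with distance
to the maximum in `(s, 2 s]` are counted.

Proof sketch. (`c` in this sketch is the number `s` of the statement.) Let `q d u = Mh - h d u`, `K = 4 * Q * c + 3 * R`, `A1 d u = A d u ∧ P d ∧ P (d - 1)`, `f1` the
cost function of the statement, and `B d u = A1 d u ∧ c / 4 ≤ q d u ∧ q d u ≤ 4 * c`.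
(1) `Live B w`: for `B (d + 1) u` we have `P (d + 1)`, so `q (d + 1) (top (d + 1)) ≤ c / 8 < c / 4` and
`u ≠ top (d + 1)`, and `A (d + 1) (top (d + 1))`, as otherwise all values of `h` at this level are `0`
(`c.exit`, `c.top`) and `q (d + 1) u = Mh ≤ c / 8`. So `B (d + 1)` is a proper subset of the live states.
(2) Let `h' d u = (Mh - h d u) / 3` if `P d` and `0` otherwise: `0 ≤ h' ≤ 1`, harmonic on `B`
(`∑ v, k d u v = 1`; both levels are in `P`) and `tau k h' (d + 1) u = tau k h (d + 1) u / 3` on `B`. By `KB` and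
`ev_mul`, `ev_congr`: `ev k B (tau k h) 0 d u ≤ 3 * (Q * h' d u + R) ≤ K` if `B d u` (`q ≤ 4 c`), and it is
`0 ≤ K` otherwise (`d ≤ n`). Hence `ev k B f1 0 d u ≤ K` (`f1 ≤ tau`).
(3) Claim: if `d ≤ n` and `P d` then `F d u = ev k A1 f1 0 d u ≤ 4 * K * min 1 (q d u / c)` (strong
induction on `d`; `F d u = 0` if `¬ A1 d u` or `d = 0`, and `q ≥ 0` at levels in `P`). Let `A1 (d + 1) u`.
If `f1 (d + 1) u = 0`: `F (d + 1) u = ∑ v, k d u v * F d v ≤ ∑ v, k d u v * (4 K min 1 (q d v / c)) ≤
4 K min 1 (q (d + 1) u / c)`, as `∑ v, k d u v * q d v = q (d + 1) u`. Otherwise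
`c < h top - h u ≤ 2 c`, so `c < q (d + 1) u ≤ 17/8 c`; `B (d + 1) u`, and to show `F (d + 1) u ≤ 4 K`.
`F = ev k B f1 0 + ev k B 0 F` (`ev_split`, `ev_add`), the first part is at most `K`, and
`ev k B 0 F (d + 1) u ≤ K * (7/8 + q (d + 1) u / c) ≤ 3 K`: compare with the function
`K * (7/8 + q / c)` at levels in `P` (and `0` else), harmonic on `B`; at the exits `(d', v)`, `d' ≤ d`, of `B` at a
level in `P`: either `¬ A1 d' v` or `d' = 0` and `F = 0`, or `q < c/4` and `F ≤ 4 K q / c ≤ K (7/8 + q/c)`,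
or `q > 4 c` and `F ≤ 4 K ≤ K (7/8 + q/c)` (induction hypothesis). (As `B (d + 1) u`, one can write
`ev k B 0 F (d + 1) u = ∑ v, k d u v * ev k B 0 F d v` and use `ev_le` with `D = d`.)
(4) If `¬ P d` then `ev k A1 f1 0 d u = 0`.
-/

namespace Helper4.GA

open Finset Helper4.RC

private lemma sum_min_le {V : Type} [Fintype V] {a : V → ℝ} (h0 : ∀ v, 0 ≤ a v)
    (h1 : ∑ v, a v = 1) (x : V → ℝ) : ∑ v, a v * min 1 (x v) ≤ min 1 (∑ v, a v * x v) := by
  refine le_min ?_ ?_
  · calc ∑ v, a v * min 1 (x v) ≤ ∑ v, a v * 1 :=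
          Finset.sum_le_sum fun v _ => mul_le_mul_of_nonneg_left (min_le_left _ _) (h0 v)
      _ = 1 := by simp [h1]
  · exact Finset.sum_le_sum fun v _ => mul_le_mul_of_nonneg_left (min_le_right _ _) (h0 v)

private lemma ind_cases (p : Prop) : ind p = 0 ∨ p := by
  unfold ind
  by_cases hp : p
  · exact Or.inr hp
  · left
    rw [if_neg hp]

private lemma ind_le_one (p : Prop) : ind p ≤ 1 := by
  unfold ind
  split_ifs <;> norm_num

private lemma Ctx.sum_q {V : Type} [Fintype V] {w : ℕ} {k : ℕ → V → V → ℝ} {A : ℕ → V → Prop}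
    {h : ℕ → V → ℝ} {top : ℕ → V} (c : Ctx w k A h top) {d : ℕ} {u : V} (hA : A (d + 1) u)
    (Mh a b : ℝ) : ∑ v, k d u v * (a + b * (Mh - h d v)) = a + b * (Mh - h (d + 1) u) := by
  have h1 := c.har d u hA
  have h2 := c.sto.sum_one d u
  have e : ∀ v, k d u v * (a + b * (Mh - h d v)) = (a + b * Mh) * k d u v - b * (k d u v * h d v) :=
    fun v => by ring
  simp only [e, Finset.sum_sub_distrib, ← Finset.mul_sum]
  rw [h2, ← h1]
  ring

private lemma live_window {V : Type} [Fintype V] {w : ℕ} {k : ℕ → V → V → ℝ}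
    {A : ℕ → V → Prop} {h : ℕ → V → ℝ} {top : ℕ → V} (c : Ctx w k A h top) (P : ℕ → Prop)
    (s Mh : ℝ) (hs : 0 < s) (hP2 : ∀ d, P d → Mh ≤ h d (top d) + s / 8) (B : ℕ → V → Prop)
    (hB : ∀ d u, B (d + 1) u → A (d + 1) u ∧ P (d + 1) ∧ s / 4 ≤ Mh - h (d + 1) u) :
    Live B w := by
  intro d
  by_cases hne : ∃ u, B (d + 1) u
  · obtain ⟨u0, hu0⟩ := hne
    obtain ⟨_, hP, hq⟩ := hB d u0 hu0
    have htA : A (d + 1) (top (d + 1)) := by
      by_contra hA
      have h1 := c.exit d _ hA
      have h2 := hP2 _ hP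
      have h3 := c.top (d + 1) u0
      have h4 := c.nonneg (d + 1) u0
      linarith
    have htB : ¬ B (d + 1) (top (d + 1)) := by
      intro hb
      have h1 := (hB d _ hb).2.2
      have h2 := hP2 _ hP
      linarith
    have hlt : ({u | B (d + 1) u} : Set V).ncard < ({u | A (d + 1) u} : Set V).ncard := by
      refine Set.ncard_lt_ncard ?_ (Set.toFinite _)
      refine (Set.ssubset_iff_of_subset fun u hu => (hB d u hu).1).2 ⟨top (d + 1), htA, htB⟩
    have hle : ({u | A (d + 1) u} : Set V).ncard ≤ w + 1 := c.live d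
    have : ({u | B (d + 1) u} : Set V).ncard ≤ w := by omega
    exact this
  · have : IsEmpty {u // B (d + 1) u} := ⟨fun u => hne ⟨u.1, u.2⟩⟩
    rw [Nat.card_of_isEmpty]
    exact Nat.zero_le _

theorem one_scale {V : Type} [Fintype V] {w n : ℕ} {Q R : ℝ} (hQ : 0 ≤ Q) (hR : 0 ≤ R)
    (hKB : KB V w n Q R) {k : ℕ → V → V → ℝ} {A : ℕ → V → Prop} {h : ℕ → V → ℝ} {top : ℕ → V}
    (c : Ctx w k A h top) (P : ℕ → Prop) (s Mh : ℝ) (hs : 0 < s)
    (hP1 : ∀ d, P d → h d (top d) ≤ Mh) (hP2 : ∀ d, P d → Mh ≤ h d (top d) + s / 8)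
    (hMh : Mh ≤ 3) : ∀ d ≤ n, ∀ u,
    ev k (fun d u => A d u ∧ P d ∧ P (d - 1))
      (fun d u => tau k h d u *
        ind (s < h d (top d) - h d u ∧ h d (top d) - h d u ≤ 2 * s)) (fun _ _ => 0) d u ≤
      4 * (4 * Q * s + 3 * R) := by
  classical
  obtain ⟨K, hKdef⟩ : ∃ K : ℝ, K = 4 * Q * s + 3 * R := ⟨_, rfl⟩
  have hK : 0 ≤ K := by rw [hKdef]; positivity
  obtain ⟨A1, hA1⟩ : ∃ A1 : ℕ → V → Prop, A1 = fun d u => A d u ∧ P d ∧ P (d - 1) := ⟨_, rfl⟩
  obtain ⟨f1, hf1⟩ : ∃ f1 : ℕ → V → ℝ, f1 = fun d u => tau k h d u *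
        ind (s < h d (top d) - h d u ∧ h d (top d) - h d u ≤ 2 * s) := ⟨_, rfl⟩
  rw [← hKdef, ← hA1, ← hf1]
  have hA1' : ∀ d u, A1 (d + 1) u → A (d + 1) u ∧ P (d + 1) ∧ P d := by
    intro d u hu
    rw [hA1] at hu
    exact hu
  have hA1P : ∀ d u, A1 d u → P d := by
    intro d u hu
    rw [hA1] at hu
    exact hu.2.1
  have hf1le : ∀ d u, f1 d u ≤ tau k h d u := by
    intro d u
    rw [hf1]
    calc tau k h d u * ind (s < h d (top d) - h d u ∧ h d (top d) - h d u ≤ 2 * s)
        ≤ tau k h d u * 1 := mul_le_mul_of_nonneg_left (ind_le_one _) (tau_nonneg c.sto h d u)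
      _ = tau k h d u := mul_one _
  have hf1z : ∀ d u, f1 d u = 0 ∨ (s < h d (top d) - h d u ∧ h d (top d) - h d u ≤ 2 * s) := by
    intro d u
    rcases ind_cases (s < h d (top d) - h d u ∧ h d (top d) - h d u ≤ 2 * s) with h0 | h0
    · left
      rw [hf1]
      show tau k h d u * ind _ = 0
      rw [h0, mul_zero]
    · exact Or.inr h0
  have hq0 : ∀ d u, P d → 0 ≤ Mh - h d u := by
    intro d u hP
    have h1 := hP1 d hP
    have h2 := c.top d u
    linarith
  obtain ⟨B, hB⟩ : ∃ B : ℕ → V → Prop,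
      B = fun d u => A1 d u ∧ s / 4 ≤ Mh - h d u ∧ Mh - h d u ≤ 4 * s := ⟨_, rfl⟩
  have hB' : ∀ d u, B d u ↔ (A1 d u ∧ s / 4 ≤ Mh - h d u ∧ Mh - h d u ≤ 4 * s) := by
    intro d u
    rw [hB]
  have hlive : Live B w := by
    refine live_window c P s Mh hs hP2 B fun d u hu => ?_
    have h1 := (hB' _ _).1 hu
    exact ⟨(hA1' d u h1.1).1, (hA1' d u h1.1).2.1, h1.2.1⟩
  -- the auxiliary harmonic function
  obtain ⟨h', hh'⟩ : ∃ h' : ℕ → V → ℝ, h' = fun d u => if P d then (Mh - h d u) / 3 else 0 :=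
    ⟨_, rfl⟩
  have hh'P : ∀ d u, P d → h' d u = (Mh - h d u) / 3 := by
    intro d u hP
    rw [hh']
    exact if_pos hP
  have hh'N : ∀ d u, ¬ P d → h' d u = 0 := by
    intro d u hP
    rw [hh']
    exact if_neg hP
  have hKBB := hKB k B h' c.sto
    (by
      intro d u
      by_cases hP : P d
      · rw [hh'P d u hP]
        have := hq0 d u hP
        positivity
      · rw [hh'N d u hP])
    (by
      intro d u
      by_cases hP : P d
      · rw [hh'P d u hP]
        have := c.nonneg d u
        linarith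
      · rw [hh'N d u hP]
        norm_num)
    (by
      intro d u hu
      have h1 := hA1' d u ((hB' _ _).1 hu).1
      rw [hh'P _ _ h1.2.1]
      have h2 := c.sum_q h1.1 Mh 0 (1 / 3)
      have h3 : ∀ v, h' d v = 0 + 1 / 3 * (Mh - h d v) := fun v => by
        rw [hh'P d v h1.2.2]; ring
      simp only [h3]
      rw [h2]
      ring)
    hlive
  have htau : ∀ d u, B (d + 1) u → tau k h (d + 1) u = 3 * tau k h' (d + 1) u := by
    intro d u hu
    have h1 := hA1' d u ((hB' _ _).1 hu).1
    unfold tau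
    rw [Finset.mul_sum]
    refine Finset.sum_congr rfl fun v _ => ?_
    rw [hh'P _ _ h1.2.1, hh'P _ _ h1.2.2]
    have e : (Mh - h d v) / 3 - (Mh - h (d + 1) u) / 3 = -((h d v - h (d + 1) u) / 3) := by ring
    rw [e, abs_neg, abs_div, abs_of_pos (by norm_num : (0 : ℝ) < 3)]
    ring
  have hK1 : ∀ d ≤ n, ∀ u, ev k B f1 (fun _ _ => 0) d u ≤ K := by
    intro d hd u
    rcases d with _ | d
    · exact hK
    · by_cases hu : B (d + 1) u
      · have h1 : ev k B f1 (fun _ _ => 0) (d + 1) u ≤
            ev k B (tau k h) (fun _ _ => 0) (d + 1) u :=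
          ev_mono c.sto (d + 1) (fun d' _ u' _ => hf1le _ _) (fun _ => le_rfl)
            (fun _ _ _ _ => le_rfl) (d + 1) le_rfl u
        have h2 : ev k B (tau k h) (fun _ _ => 0) (d + 1) u =
            3 * ev k B (tau k h') (fun _ _ => 0) (d + 1) u := by
          rw [← ev_mul]
          exact ev_congr (fun d u hu => htau d u hu) (fun _ => by simp) (fun _ _ _ => by simp) _ _
        have h3 := hKBB (d + 1) hd u
        have h4 := (hB' _ _).1 hu
        rw [hh'P _ _ (hA1P _ _ h4.1)] at h3
        have h5 : Q * (Mh - h (d + 1) u) ≤ Q * (4 * s) := mul_le_mul_of_nonneg_left h4.2.2 hQ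
        rw [hKdef]
        rw [h2] at h1
        have h6 : Q * ((Mh - h (d + 1) u) / 3) = Q * (Mh - h (d + 1) u) / 3 := by ring
        rw [h6] at h3
        linarith
      · rw [ev_exit hu]
        exact hK
  have hF0 : ∀ u, ev k A1 f1 (fun _ _ => 0) 0 u = 0 := fun u => rfl
  have main : ∀ d, d ≤ n → P d → ∀ u, ev k A1 f1 (fun _ _ => 0) d u ≤
      4 * K * min 1 ((Mh - h d u) / s) := by
    intro d
    induction d using Nat.strong_induction_on with
    | _ d ih =>
    intro hd hP u
    have hmin0 : 0 ≤ 4 * K * min 1 ((Mh - h d u) / s) := by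
      have h1 := hq0 d u hP
      have h2 : 0 ≤ min 1 ((Mh - h d u) / s) := le_min zero_le_one (by positivity)
      positivity
    rcases d with _ | d
    · rw [hF0]
      exact hmin0
    by_cases hu : A1 (d + 1) u
    swap
    · rw [ev_exit hu]
      exact hmin0
    obtain ⟨huA, huP, huP'⟩ := hA1' d u hu
    rcases hf1z (d + 1) u with hz | hz
    · rw [ev_live hu, hz, zero_add]
      calc ∑ v, k d u v * ev k A1 f1 (fun _ _ => 0) d v
          ≤ ∑ v, k d u v * (4 * K * min 1 ((Mh - h d v) / s)) :=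
            Finset.sum_le_sum fun v _ => mul_le_mul_of_nonneg_left
              (ih d (Nat.lt_succ_self d) (by omega) huP' v) (c.sto.nonneg _ _ _)
        _ = 4 * K * ∑ v, k d u v * min 1 ((Mh - h d v) / s) := by
            rw [Finset.mul_sum]
            exact Finset.sum_congr rfl fun v _ => by ring
        _ ≤ 4 * K * min 1 (∑ v, k d u v * ((Mh - h d v) / s)) :=
            mul_le_mul_of_nonneg_left
              (sum_min_le (fun v => c.sto.nonneg d u v) (c.sto.sum_one d u) _) (by positivity)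
        _ = 4 * K * min 1 ((Mh - h (d + 1) u) / s) := by
            have h2 := c.sum_q huA Mh 0 (1 / s)
            have h3 : ∀ v, (Mh - h d v) / s = 0 + 1 / s * (Mh - h d v) := fun v => by ring
            have h4 : (0 : ℝ) + 1 / s * (Mh - h (d + 1) u) = (Mh - h (d + 1) u) / s := by ring
            simp only [h3]
            rw [h2, h4]
    · have hq1 : s < Mh - h (d + 1) u := by
        have := hP1 _ huP
        linarith [hz.1]
      have hq2 : Mh - h (d + 1) u ≤ 17 / 8 * s := by
        have := hP2 _ huP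
        linarith [hz.2]
      have hBu : B (d + 1) u := (hB' _ _).2 ⟨hu, by linarith, by linarith⟩
      have hmin1 : min 1 ((Mh - h (d + 1) u) / s) = 1 := by
        apply min_eq_left
        rw [le_div_iff₀ hs]
        linarith
      rw [hmin1, mul_one]
      have hsplit : ev k A1 f1 (fun _ _ => 0) (d + 1) u =
          ev k B f1 (fun _ _ => 0) (d + 1) u +
            ev k B (fun _ _ => 0) (ev k A1 f1 (fun _ _ => 0)) (d + 1) u := by
        rw [ev_split (B := B) (fun d u hb => ((hB' _ _).1 hb).1), ← ev_add]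
        exact ev_congr (fun _ _ _ => by simp) (fun _ => by simp) (fun _ _ _ => by simp) _ _
      obtain ⟨Φ, hΦ⟩ : ∃ Φ : ℕ → V → ℝ,
          Φ = fun d u => if P d then K * (7 / 8 + (Mh - h d u) / s) else 0 := ⟨_, rfl⟩
      have hΦP : ∀ d u, P d → Φ d u = K * (7 / 8 + (Mh - h d u) / s) := by
        intro d u hP
        rw [hΦ]
        exact if_pos hP
      have hΦN : ∀ d u, ¬ P d → Φ d u = 0 := by
        intro d u hP
        rw [hΦ]
        exact if_neg hP
      have hΦ0 : ∀ d u, 0 ≤ Φ d u := by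
        intro d u
        by_cases hP : P d
        · rw [hΦP d u hP]
          have := hq0 d u hP
          positivity
        · rw [hΦN d u hP]
      have hsum : ∀ d u, A1 (d + 1) u → ∑ v, k d u v * Φ d v = Φ (d + 1) u := by
        intro d u hu
        obtain ⟨huA, huP, huP'⟩ := hA1' d u hu
        have h2 := c.sum_q huA Mh (K * (7 / 8)) (K * (1 / s))
        have h3 : ∀ v, Φ d v = K * (7 / 8) + K * (1 / s) * (Mh - h d v) := fun v => by
          rw [hΦP d v huP']; ring
        simp only [h3]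
        rw [h2, hΦP _ _ huP]
        ring
      have hcomp := ev_le (k := k) (A := B) (f := fun _ _ => 0)
        (g := ev k A1 f1 (fun _ _ => 0)) c.sto d Φ
        (by
          intro v
          rw [hF0]
          exact hΦ0 _ _)
        (by
          intro d' hd' v hv
          by_cases hvA : A1 (d' + 1) v
          · have hvP := hA1P _ _ hvA
            have h1 := ih (d' + 1) (by omega) (by omega) hvP v
            have h2 : ¬ (s / 4 ≤ Mh - h (d' + 1) v ∧ Mh - h (d' + 1) v ≤ 4 * s) := by
              intro h3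
              exact hv ((hB' _ _).2 ⟨hvA, h3⟩)
            rw [hΦP _ _ hvP]
            refine h1.trans ?_
            by_cases h3 : s / 4 ≤ Mh - h (d' + 1) v
            · have h4 : 4 * s < Mh - h (d' + 1) v := by
                by_contra h5
                exact h2 ⟨h3, not_lt.1 h5⟩
              have h5 : 4 ≤ (Mh - h (d' + 1) v) / s := by
                rw [le_div_iff₀ hs]
                exact h4.le
              calc 4 * K * min 1 ((Mh - h (d' + 1) v) / s) ≤ 4 * K * 1 :=
                    mul_le_mul_of_nonneg_left (min_le_left _ _) (by positivity)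
                _ = K * 4 := by ring
                _ ≤ K * (7 / 8 + (Mh - h (d' + 1) v) / s) :=
                    mul_le_mul_of_nonneg_left (by linarith) hK
            · have h5 : (Mh - h (d' + 1) v) / s ≤ 1 / 4 := by
                rw [div_le_iff₀ hs]
                linarith
              calc 4 * K * min 1 ((Mh - h (d' + 1) v) / s)
                  ≤ 4 * K * ((Mh - h (d' + 1) v) / s) :=
                    mul_le_mul_of_nonneg_left (min_le_right _ _) (by positivity)
                _ = K * (4 * ((Mh - h (d' + 1) v) / s)) := by ring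
                _ ≤ K * (7 / 8 + (Mh - h (d' + 1) v) / s) :=
                    mul_le_mul_of_nonneg_left (by linarith) hK
          · rw [ev_exit hvA]
            exact hΦ0 _ _)
        (by
          intro d' hd' v hv
          rw [hsum d' v ((hB' _ _).1 hv).1]
          simp)
        d le_rfl
      have hpart2 : ev k B (fun _ _ => 0) (ev k A1 f1 (fun _ _ => 0)) (d + 1) u ≤ 3 * K := by
        rw [ev_live hBu, zero_add]
        calc ∑ v, k d u v * ev k B (fun _ _ => 0) (ev k A1 f1 (fun _ _ => 0)) d v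
            ≤ ∑ v, k d u v * Φ d v :=
              Finset.sum_le_sum fun v _ => mul_le_mul_of_nonneg_left (hcomp v) (c.sto.nonneg _ _ _)
          _ = Φ (d + 1) u := hsum d u hu
          _ = K * (7 / 8 + (Mh - h (d + 1) u) / s) := hΦP _ _ huP
          _ ≤ K * 3 := by
              refine mul_le_mul_of_nonneg_left ?_ hK
              have : (Mh - h (d + 1) u) / s ≤ 17 / 8 := by
                rw [div_le_iff₀ hs]
                exact hq2
              linarith
          _ = 3 * K := by ring
      have hpart1 := hK1 (d + 1) hd u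
      rw [hsplit]
      linarith
  intro d hd u
  by_cases hP : P d
  · refine (main d hd hP u).trans ?_
    calc 4 * K * min 1 ((Mh - h d u) / s) ≤ 4 * K * 1 :=
          mul_le_mul_of_nonneg_left (min_le_left _ _) (by positivity)
      _ = 4 * K := mul_one _
  · rcases d with _ | d
    · rw [hF0]
      positivity
    · rw [ev_exit fun hu => hP (hA1P _ _ hu)]
      positivity

end Helper4.GA
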