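import Pool.Agent.Helper4.GA.ChOne

set_option autoImplicit false

/-!
The chain lemma: all steps of one scale inside a block of levels where the maximum is in `[m, 2 m)`.

Proof sketch. Let `M d = h d (top d)` (nonincreasing in `d`, `c.anti`), `P d = m ≤ M d ∧ M d < 2 * m` (the block),
`a d = ⌊8 * (M d - m) / s⌋₊` (the number of the sub-block, nonincreasing in `d` on the block),
`J = ⌊8 * m / s⌋₊`, `a d ≤ J` on the block, `f` the cost function of the statement, `K = 4 * Q * s + 3 * R`.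
For `b : ℕ` let `P_b d = P d ∧ a d = b`; at these levels `Mh = m + (b + 1) * s / 8` satisfies
`M d ≤ Mh ≤ M d + s / 8`, and `Mh ≤ 3` (`M d ≤ 1`, if some level is in `P_b`; if none is, the cost is `0`); so by
`one_scale` `E_b d u = ev k (A ∧ P_b d ∧ P_b (d - 1)) f1 0 d u ≤ 4 * K` (`f1` the cost of `one_scale`, `d ≤ n`), and
`E_b ≥ 0`, `E_b (d + 1) u = 0` unless `A (d + 1) u`, `P_b (d + 1)`, `P_b d`.
Claim (`ev_le` with `F`): with `F d u = E_(a d) d u + 4 K (J - a d) + 4 s (J - a d) + 2 (2 m - M d)` at levels in the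
block and `F d u = 0` at the other levels, `ev k (A ∧ P) f 0 d u ≤ F d u` for `d ≤ n`. Check, for
`A (d + 1) u`, `P (d + 1)`: if `¬ P d` then `f (d + 1) u = 0` and `F d v = 0`. If `P d` and `a d = a (d + 1)`:
`E (d + 1) u = f (d + 1) u + ∑ v, k d u v * E d v` (`ev_live`), the other terms do not increase from `d + 1`
to `d` (`M d ≥ M (d + 1)`). If `P d` and `a d ≥ a (d + 1) + 1`: `E_(a (d + 1)) (d + 1) u = 0`, `f (d + 1) u ≤
2 * (2 s) + 2 * (M d - M (d + 1))` (`c.tau_le`, distance `≤ 2 s`), `F d v ≤ 4 K + 4 K (J - a d) + ..`, and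
`4 K (J - a d) + 4 K ≤ 4 K (J - a (d + 1))`, `4 s (J - a (d + 1)) - 4 s (J - a d) ≥ 4 s`.
Finally `F ≤ 4 K (1 + J) + 4 s J + 2 m ≤ 36 K m / s + 34 m` (`J ≤ 8 m / s`, `s ≤ m`)
`= (144 Q + 34) m + 108 R m / s`.
-/

namespace Helper4.GA

open Finset Helper4.RC

theorem scale_block {V : Type} [Fintype V] {w n : ℕ} {Q R : ℝ} (hQ : 0 ≤ Q) (hR : 0 ≤ R)
    (hKB : KB V w n Q R) {k : ℕ → V → V → ℝ} {A : ℕ → V → Prop} {h : ℕ → V → ℝ} {top : ℕ → V}
    (c : Ctx w k A h top) (m s : ℝ) (hs : 0 < s) (hsm : s ≤ m) (hm : m ≤ 1) : ∀ d ≤ n, ∀ u,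
    ev k (fun d u => A d u ∧ m ≤ h d (top d) ∧ h d (top d) < 2 * m)
      (fun d u => tau k h d u *
        ind (m ≤ h (d - 1) (top (d - 1)) ∧ h (d - 1) (top (d - 1)) < 2 * m) *
        ind (s < h d (top d) - h d u ∧ h d (top d) - h d u ≤ 2 * s)) (fun _ _ => 0) d u ≤
      (144 * Q + 34) * m + 108 * R * (m / s) := by
  classical
  have hm0 : 0 < m := lt_of_lt_of_le hs hsm
  obtain ⟨K, hKdef⟩ : ∃ K : ℝ, K = 4 * Q * s + 3 * R := ⟨_, rfl⟩
  have hK : 0 ≤ K := by rw [hKdef]; positivity
  obtain ⟨J, hJdef⟩ : ∃ J : ℝ, J = 8 * m / s := ⟨_, rfl⟩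
  have hJ : 0 ≤ J := by rw [hJdef]; positivity
  obtain ⟨M, hM⟩ : ∃ M : ℕ → ℝ, M = fun d => h d (top d) := ⟨_, rfl⟩
  obtain ⟨P, hP⟩ : ∃ P : ℕ → Prop, P = fun d => m ≤ M d ∧ M d < 2 * m := ⟨_, rfl⟩
  obtain ⟨a, ha⟩ : ∃ a : ℕ → ℕ, a = fun d => ⌊8 * (M d - m) / s⌋₊ := ⟨_, rfl⟩
  obtain ⟨f1, hf1⟩ : ∃ f1 : ℕ → V → ℝ, f1 = fun d u => tau k h d u *
        ind (s < h d (top d) - h d u ∧ h d (top d) - h d u ≤ 2 * s) := ⟨_, rfl⟩
  obtain ⟨f, hf⟩ : ∃ f : ℕ → V → ℝ, f = fun d u => tau k h d u * ind (P (d - 1)) *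
        ind (s < h d (top d) - h d u ∧ h d (top d) - h d u ≤ 2 * s) := ⟨_, rfl⟩
  obtain ⟨A1, hA1⟩ : ∃ A1 : ℕ → V → Prop, A1 = fun d u => A d u ∧ P d := ⟨_, rfl⟩
  have hgoal : ∀ d u, ev k (fun d u => A d u ∧ m ≤ h d (top d) ∧ h d (top d) < 2 * m)
      (fun d u => tau k h d u *
        ind (m ≤ h (d - 1) (top (d - 1)) ∧ h (d - 1) (top (d - 1)) < 2 * m) *
        ind (s < h d (top d) - h d u ∧ h d (top d) - h d u ≤ 2 * s)) (fun _ _ => 0) d u =
      ev k A1 f (fun _ _ => 0) d u := by
    intro d u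
    rw [hA1, hf, hP, hM]
  -- the numbers of the sub-blocks
  have hMm : ∀ d, P d → m ≤ M d ∧ M d < 2 * m := by
    intro d hd
    rw [hP] at hd
    exact hd
  have hM1 : ∀ d, M d ≤ 1 := by
    intro d
    rw [hM]
    exact c.le_one d (top d)
  have hanti : ∀ d, M (d + 1) ≤ M d := by
    intro d
    rw [hM]
    exact c.anti_succ d
  have ha1 : ∀ d, P d → (a d : ℝ) * s / 8 ≤ M d - m := by
    intro d hd
    have h1 : 0 ≤ 8 * (M d - m) / s := by
      have := (hMm d hd).1
      have h2 : 0 ≤ M d - m := by linarith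
      positivity
    have h2 : (a d : ℝ) ≤ 8 * (M d - m) / s := by
      rw [ha]
      exact Nat.floor_le h1
    rw [le_div_iff₀ hs] at h2
    linarith
  have ha2 : ∀ d, M d - m ≤ ((a d : ℝ) + 1) * s / 8 := by
    intro d
    have h2 : 8 * (M d - m) / s < (a d : ℝ) + 1 := by
      rw [ha]
      exact Nat.lt_floor_add_one _
    rw [div_lt_iff₀ hs] at h2
    linarith
  have haJ : ∀ d, P d → (a d : ℝ) ≤ J := by
    intro d hd
    rw [hJdef, le_div_iff₀ hs]
    have h1 := ha1 d hd
    have h2 := (hMm d hd).2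
    linarith
  have haanti : ∀ d, a (d + 1) ≤ a d := by
    intro d
    rw [ha]
    refine Nat.floor_le_floor ?_
    have := hanti d
    gcongr
  -- the costs of the sub-blocks
  obtain ⟨E, hE⟩ : ∃ E : ℕ → ℕ → V → ℝ, E = fun b => ev k
      (fun d u => A d u ∧ (P d ∧ a d = b) ∧ (P (d - 1) ∧ a (d - 1) = b)) f1 (fun _ _ => 0) :=
    ⟨_, rfl⟩
  have hf1n : ∀ d u, 0 ≤ f1 d u := by
    intro d u
    rw [hf1]
    exact mul_nonneg (tau_nonneg c.sto h d u) (ind_nonneg _)
  have hE0 : ∀ b d u, 0 ≤ E b d u := by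
    intro b d u
    rw [hE]
    exact ev_nonneg c.sto (fun d u => hf1n _ _) (fun _ _ => le_rfl) d u
  have hEK : ∀ d ≤ n, P d → ∀ u, E (a d) d u ≤ 4 * K := by
    intro d hd hPd u
    obtain ⟨b, hb⟩ : ∃ b : ℕ, b = a d := ⟨_, rfl⟩
    have hMh : m + ((b : ℝ) + 1) * s / 8 ≤ 3 := by
      have h1 := ha1 d hPd
      have h2 := hM1 d
      rw [← hb] at h1
      linarith
    have h1 := one_scale hQ hR hKB c (fun d => P d ∧ a d = b) s (m + ((b : ℝ) + 1) * s / 8) hs
      (by
        intro e he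
        have h3 := ha2 e
        rw [he.2] at h3
        rw [hM] at h3
        simp only at h3
        linarith)
      (by
        intro e he
        have h3 := ha1 e he.1
        rw [he.2] at h3
        rw [hM] at h3
        simp only at h3
        linarith) hMh d hd u
    rw [← hKdef] at h1
    rw [hE, ← hb, hf1]
    exact h1
  -- the bound
  obtain ⟨F, hF⟩ : ∃ F : ℕ → V → ℝ, F = fun d u => if P d then
      E (a d) d u + (4 * K * (J - a d) + 4 * s * (J - a d) + 2 * (2 * m - M d)) else 0 := ⟨_, rfl⟩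
  have hF1 : ∀ d u, P d → F d u =
      E (a d) d u + (4 * K * (J - a d) + 4 * s * (J - a d) + 2 * (2 * m - M d)) := by
    intro d u hd
    rw [hF]
    exact if_pos hd
  have hF2 : ∀ d u, ¬ P d → F d u = 0 := by
    intro d u hd
    rw [hF]
    exact if_neg hd
  have hFn : ∀ d u, 0 ≤ F d u := by
    intro d u
    by_cases hd : P d
    · rw [hF1 d u hd]
      have h1 := hE0 (a d) d u
      have h2 : 0 ≤ 4 * K * (J - a d) := mul_nonneg (by positivity) (by linarith [haJ d hd])
      have h3 : 0 ≤ 4 * s * (J - a d) := mul_nonneg (by positivity) (by linarith [haJ d hd])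
      have h4 := (hMm d hd).2
      linarith
    · rw [hF2 d u hd]
  have hmain : ∀ d ≤ n, ∀ u, ev k A1 f (fun _ _ => 0) d u ≤ F d u := by
    refine ev_le c.sto n F (fun u => hFn 0 u) (fun d _ u _ => hFn (d + 1) u) ?_
    intro d hd u hu
    rw [hA1] at hu
    obtain ⟨hAu, hPd1⟩ := hu
    by_cases hPd : P d
    · have hfd : f (d + 1) u = f1 (d + 1) u := by
        rw [hf, hf1]
        simp only [Nat.add_sub_cancel]
        rw [ind_true hPd, mul_one]
      rw [hF1 (d + 1) u hPd1, hfd]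
      have hsum : ∑ v, k d u v * F d v = ∑ v, k d u v * E (a d) d v +
          (4 * K * (J - a d) + 4 * s * (J - a d) + 2 * (2 * m - M d)) := by
        have h1 : ∀ v, k d u v * F d v = k d u v * E (a d) d v + k d u v *
            (4 * K * (J - a d) + 4 * s * (J - a d) + 2 * (2 * m - M d)) := by
          intro v
          rw [hF1 d v hPd]
          ring
        rw [Finset.sum_congr rfl fun v _ => h1 v, Finset.sum_add_distrib, ← Finset.sum_mul,
          c.sto.sum_one, one_mul]
      rw [hsum]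
      by_cases hab : a d = a (d + 1)
      · have hlive : E (a (d + 1)) (d + 1) u = f1 (d + 1) u + ∑ v, k d u v * E (a (d + 1)) d v := by
          rw [hE]
          exact ev_live ⟨hAu, ⟨hPd1, rfl⟩, ⟨hPd, hab⟩⟩
        rw [hlive, hab]
        have := hanti d
        linarith
      · have hlt : a (d + 1) + 1 ≤ a d := by
          have := haanti d
          omega
        have hlt' : (a (d + 1) : ℝ) + 1 ≤ a d := by exact_mod_cast hlt
        have h1 := hE0 (a (d + 1)) (d + 1) u
        have h2 : ∑ v, k d u v * E (a d) d v ≤ 4 * K := by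
          calc ∑ v, k d u v * E (a d) d v ≤ ∑ v, k d u v * (4 * K) :=
                Finset.sum_le_sum fun v _ => mul_le_mul_of_nonneg_left
                  (hEK d (by omega) hPd v) (c.sto.nonneg d u v)
            _ = 4 * K := by rw [← Finset.sum_mul, c.sto.sum_one, one_mul]
        have h3 : f1 (d + 1) u ≤ 4 * s + 2 * (M d - M (d + 1)) := by
          have h4 := hanti d
          rw [hf1]
          simp only
          by_cases hi : s < h (d + 1) (top (d + 1)) - h (d + 1) u ∧
              h (d + 1) (top (d + 1)) - h (d + 1) u ≤ 2 * s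
          · rw [ind_true hi, mul_one]
            rcases c.tau_le d u with h5 | h5
            · have h6 := hi.2
              rw [hM]
              simp only
              linarith
            · exact absurd hAu h5
          · rw [ind_false hi, mul_zero]
            linarith
        have h4 : 4 * K * (J - a d) + 4 * K ≤ 4 * K * (J - a (d + 1)) := by
          nlinarith
        have h5 : 4 * s * (J - a d) + 4 * s ≤ 4 * s * (J - a (d + 1)) := by
          nlinarith
        linarith
    · have hfd : f (d + 1) u = 0 := by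
        rw [hf]
        simp only [Nat.add_sub_cancel]
        rw [ind_false hPd, mul_zero, zero_mul]
      have hsum : ∑ v, k d u v * F d v = 0 := by
        refine Finset.sum_eq_zero fun v _ => ?_
        rw [hF2 d v hPd, mul_zero]
      rw [hfd, hsum, add_zero]
      exact hFn (d + 1) u
  intro d hd u
  rw [hgoal d u]
  have hms : 1 ≤ m / s := by
    rw [le_div_iff₀ hs]
    linarith
  have hsmul : s * (m / s) = m := by field_simp
  have hfin : 36 * K * (m / s) + 34 * m = (144 * Q + 34) * m + 108 * R * (m / s) := by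
    rw [hKdef]
    have : 36 * (4 * Q * s + 3 * R) * (m / s) = 144 * Q * (s * (m / s)) + 108 * R * (m / s) := by
      ring
    rw [this, hsmul]
    ring
  rw [← hfin]
  refine (hmain d hd u).trans ?_
  by_cases hPd : P d
  · rw [hF1 d u hPd]
    have h1 := hEK d hd hPd u
    have h2 := (hMm d hPd).1
    have h3 : (0 : ℝ) ≤ a d := Nat.cast_nonneg _
    have hJ8 : J = 8 * (m / s) := by rw [hJdef]; ring
    have h4 : 4 * K * (J - a d) ≤ 32 * K * (m / s) := by
      have h5 : 4 * K * (J - a d) ≤ 4 * K * J :=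
        mul_le_mul_of_nonneg_left (by linarith) (by positivity)
      rw [hJ8] at h5 ⊢
      linarith
    have h5 : 4 * s * (J - a d) ≤ 32 * m := by
      have h6 : 4 * s * (J - a d) ≤ 4 * s * J :=
        mul_le_mul_of_nonneg_left (by linarith) (by positivity)
      have h7 : 4 * s * J = 32 * m := by
        rw [hJ8]
        calc 4 * s * (8 * (m / s)) = 32 * (s * (m / s)) := by ring
          _ = 32 * m := by rw [hsmul]
      linarith
    have h6 : 4 * K ≤ 4 * K * (m / s) := by
      have : 4 * K * 1 ≤ 4 * K * (m / s) := mul_le_mul_of_nonneg_left hms (by positivity)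
      linarith
    linarith
  · rw [hF2 d u hPd]
    have h1 : 0 ≤ m / s := by positivity
    positivity

end Helper4.GA
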