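import Pool.Agent.Helper4.GA.ChLevels
import Pool.Agent.Helper4.GA.ChExit

set_option autoImplicit false

/-!
The chain lemma.

Proof sketch. Induction on `w`. `w = 0`: no state is live (`Nat.card = 0` for a finite type), so the cost is `0`
(`KB V 0 n 0 0`; use `ev_exit`); bounds with larger `Q`, `R` follow as `h ≥ 0` (monotonicity of `KB` in `Q`, `R`).
Step: let `C` be the constant for `w`, apply it with `2 * lam` instead of `lam`, then `ks_step` with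
`lam` and `kb_of_ks`. New constants: `Q' = (lam + 1) ^ 2 * (145 * C * (2 * lam + 1) ^ (2 * w) + 40) ≤
(145 * C * 4 ^ w + 40) * (lam + 1) ^ (2 * (w + 1))`, and
`R' = (n + 1) * ((lam + 1) ^ 2 * 109 * 2 ^ lam * (C * (n + 1) * (2 * lam + 1)) ^ C / 2 ^ (2 * lam) + 4 * (lam + 1) * n / 2 ^ lam)
≤ (n + 1) * (109 * (lam + 1) ^ 2 * (2 * C * (n + 1) * (lam + 1)) ^ C + 4 * (lam + 1) * n) / 2 ^ lam
≤ (C' * (n + 1) * (lam + 1)) ^ C' / 2 ^ lam` for `C' = 145 * C * 4 ^ w + 40 + 2 * C + 113` or so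
(every factor `n + 1`, `lam + 1`, `113`, `2 C (n + 1) (lam + 1)` is at most `X = C' (n + 1) (lam + 1)`, so the numerator is at
most `X ^ (C + 5) ≤ X ^ C'`).
-/

namespace Helper4.GA

open Finset Helper4.RC

private lemma kb_mono {V : Type} [Fintype V] {w n : ℕ} {Q R Q' R' : ℝ} (hQ : Q ≤ Q')
    (hR : R ≤ R') (h : KB V w n Q R) : KB V w n Q' R' := by
  intro k A f hk h0 h1 hh hL d hd u
  refine (h k A f hk h0 h1 hh hL d hd u).trans ?_
  exact add_le_add (mul_le_mul_of_nonneg_right hQ (h0 d u)) hR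

private lemma kb_zero (V : Type) [Fintype V] (n : ℕ) : KB V 0 n 0 0 := by
  intro k A f _ _ _ _ hL d _ u
  rw [zero_mul, zero_add]
  cases d with
  | zero => rw [ev]
  | succ d =>
    have hA : ¬ A (d + 1) u := by
      intro hA
      have h1 : Nat.card {u // A (d + 1) u} = 0 := Nat.le_zero.1 (hL d)
      have h2 : Nonempty {u // A (d + 1) u} := ⟨⟨u, hA⟩⟩
      have h3 : 0 < Nat.card {u // A (d + 1) u} := Nat.card_pos
      omega
    rw [ev_exit hA]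

private lemma chain_q (C w : ℕ) (lam : ℝ) (hl : 0 ≤ lam) :
    (lam + 1) ^ 2 * (145 * ((C : ℝ) * (2 * lam + 1) ^ (2 * w)) + 40) ≤
      ((145 * C * 4 ^ w + 2 * C + 153 : ℕ) : ℝ) * (lam + 1) ^ (2 * (w + 1)) := by
  have h1 : (2 * lam + 1) ^ (2 * w) ≤ 4 ^ w * (lam + 1) ^ (2 * w) := by
    have e : (4 : ℝ) ^ w * (lam + 1) ^ (2 * w) = (2 * (lam + 1)) ^ (2 * w) := by
      rw [mul_pow, pow_mul (2 : ℝ) 2 w]
      norm_num
    rw [e]
    exact pow_le_pow_left₀ (by linarith) (by linarith) _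
  have h2 : (1 : ℝ) ≤ (lam + 1) ^ (2 * w) := one_le_pow₀ (by linarith)
  have hC : (0 : ℝ) ≤ C := Nat.cast_nonneg C
  have e2 : (lam + 1) ^ (2 * (w + 1)) = (lam + 1) ^ 2 * (lam + 1) ^ (2 * w) := by
    rw [← pow_add]
    congr 1
    ring
  rw [e2]
  have e3 : ((145 * C * 4 ^ w + 2 * C + 153 : ℕ) : ℝ) * ((lam + 1) ^ 2 * (lam + 1) ^ (2 * w)) =
      (lam + 1) ^ 2 * (145 * (C * (4 ^ w * (lam + 1) ^ (2 * w))) +
        (2 * C + 153) * (lam + 1) ^ (2 * w)) := by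
    push_cast
    ring
  rw [e3]
  refine mul_le_mul_of_nonneg_left ?_ (by positivity)
  have h3 : (C : ℝ) * (2 * lam + 1) ^ (2 * w) ≤ C * (4 ^ w * (lam + 1) ^ (2 * w)) :=
    mul_le_mul_of_nonneg_left h1 hC
  have h4 : (40 : ℝ) ≤ (2 * C + 153) * (lam + 1) ^ (2 * w) := by
    calc (40 : ℝ) = 40 * 1 := by ring
      _ ≤ (2 * C + 153) * (lam + 1) ^ (2 * w) :=
        mul_le_mul (by linarith) h2 zero_le_one (by positivity)
  linarith

private lemma chain_r (C C' : ℕ) (hC : 1 ≤ C) (hC' : 2 * C + 113 ≤ C') (n : ℝ) (hn : 0 ≤ n)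
    (lam : ℕ) :
    (n + 1) * (((lam : ℝ) + 1) ^ 2 * 109 * 2 ^ lam *
        (((C : ℝ) * (n + 1) * (2 * lam + 1)) ^ C / 2 ^ (2 * lam)) + 4 * (lam + 1) * n / 2 ^ lam) ≤
      ((C' : ℝ) * (n + 1) * (lam + 1)) ^ C' / 2 ^ lam := by
  have hl : (0 : ℝ) ≤ lam := Nat.cast_nonneg lam
  have hp : (0 : ℝ) < 2 ^ lam := by positivity
  have hCr : (1 : ℝ) ≤ C := by exact_mod_cast hC
  have hCr' : 2 * (C : ℝ) + 113 ≤ C' := by exact_mod_cast hC'
  obtain ⟨Y, hY⟩ : ∃ Y : ℝ, Y = ((C : ℝ) * (n + 1) * (2 * lam + 1)) ^ C := ⟨_, rfl⟩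
  obtain ⟨X, hX⟩ : ∃ X : ℝ, X = (C' : ℝ) * (n + 1) * (lam + 1) := ⟨_, rfl⟩
  have e1 : (n + 1) * (((lam : ℝ) + 1) ^ 2 * 109 * 2 ^ lam *
        (((C : ℝ) * (n + 1) * (2 * lam + 1)) ^ C / 2 ^ (2 * lam)) + 4 * (lam + 1) * n / 2 ^ lam) =
      ((n + 1) * (((lam : ℝ) + 1) ^ 2 * 109 * Y + 4 * (lam + 1) * n)) / 2 ^ lam := by
    rw [← hY]
    have e : (2 : ℝ) ^ (2 * lam) = 2 ^ lam * 2 ^ lam := by rw [two_mul, pow_add]
    rw [e]
    field_simp
  rw [e1, ← hX]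
  refine div_le_div_of_nonneg_right ?_ hp.le
  have hn1 : (1 : ℝ) ≤ n + 1 := by linarith
  have hl1 : (1 : ℝ) ≤ (lam : ℝ) + 1 := by linarith
  have hnl : (1 : ℝ) ≤ (n + 1) * (lam + 1) := by nlinarith
  have hXe : X = C' * ((n + 1) * (lam + 1)) := by rw [hX]; ring
  have hC0 : (0 : ℝ) ≤ C' := Nat.cast_nonneg C'
  have hX113 : (113 : ℝ) ≤ X := by
    rw [hXe]
    nlinarith
  have hX1 : (1 : ℝ) ≤ X := by linarith
  have hXn : n + 1 ≤ X := by
    rw [hXe]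
    have h1 : (n + 1) * 1 ≤ (n + 1) * (lam + 1) := mul_le_mul_of_nonneg_left hl1 (by linarith)
    nlinarith
  have hXl : (lam : ℝ) + 1 ≤ X := by
    rw [hXe]
    have h1 : 1 * ((lam : ℝ) + 1) ≤ (n + 1) * (lam + 1) :=
      mul_le_mul_of_nonneg_right hn1 (by linarith)
    nlinarith
  have hXY : Y ≤ X ^ C := by
    rw [hY]
    refine pow_le_pow_left₀ (by positivity) ?_ C
    have h1 : (C : ℝ) * (n + 1) * (2 * lam + 1) ≤ C * (n + 1) * (2 * (lam + 1)) :=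
      mul_le_mul_of_nonneg_left (by linarith) (by positivity)
    have h2 : (C : ℝ) * (n + 1) * (2 * (lam + 1)) = (2 * C) * ((n + 1) * (lam + 1)) := by ring
    rw [hXe]
    have h3 : (2 * (C : ℝ)) * ((n + 1) * (lam + 1)) ≤ C' * ((n + 1) * (lam + 1)) :=
      mul_le_mul_of_nonneg_right (by linarith) (by linarith)
    linarith
  have hY0 : 0 ≤ Y := by rw [hY]; positivity
  have hXC : (1 : ℝ) ≤ X ^ C := one_le_pow₀ hX1
  have hX0 : (0 : ℝ) ≤ X := by linarith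
  have hl2 : ((lam : ℝ) + 1) ^ 2 ≤ X ^ 2 := pow_le_pow_left₀ (by linarith) hXl 2
  have h1 : ((lam : ℝ) + 1) ^ 2 * 109 * Y ≤ X ^ 2 * 109 * X ^ C :=
    mul_le_mul (mul_le_mul_of_nonneg_right hl2 (by norm_num)) hXY hY0 (by positivity)
  have h2 : 4 * ((lam : ℝ) + 1) * n ≤ 4 * X ^ 2 * X ^ C := by
    have h3 : ((lam : ℝ) + 1) * n ≤ X * X := mul_le_mul hXl (by linarith) hn hX0
    have h4 : X ^ 2 * 1 ≤ X ^ 2 * X ^ C := mul_le_mul_of_nonneg_left hXC (by positivity)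
    nlinarith
  have h5 : (n + 1) * (((lam : ℝ) + 1) ^ 2 * 109 * Y + 4 * (lam + 1) * n) ≤
      X * (X ^ 2 * 109 * X ^ C + 4 * X ^ 2 * X ^ C) :=
    mul_le_mul hXn (add_le_add h1 h2) (by positivity) hX0
  have h6 : X * (X ^ 2 * 109 * X ^ C + 4 * X ^ 2 * X ^ C) = 113 * X ^ (C + 3) := by ring
  have h7 : 113 * X ^ (C + 3) ≤ X * X ^ (C + 3) :=
    mul_le_mul_of_nonneg_right hX113 (by positivity)
  have h8 : X * X ^ (C + 3) = X ^ (C + 4) := by ring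
  have h9 : X ^ (C + 4) ≤ X ^ C' := pow_le_pow_right₀ hX1 (by omega)
  linarith

theorem chain (V : Type) [Fintype V] (w : ℕ) : ∃ C : ℕ, 1 ≤ C ∧ ∀ n lam : ℕ,
    KB V w n (C * ((lam : ℝ) + 1) ^ (2 * w))
      (((C : ℝ) * (n + 1) * (lam + 1)) ^ C / 2 ^ lam) := by
  induction w with
  | zero =>
    refine ⟨1, le_rfl, fun n lam => kb_mono ?_ ?_ (kb_zero V n)⟩
    · positivity
    · positivity
  | succ w ih =>
    obtain ⟨C, hC, h⟩ := ih
    refine ⟨145 * C * 4 ^ w + 2 * C + 153, by omega, fun n lam => ?_⟩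
    have h1 := h n (2 * lam)
    have h2 := ks_step V w n _ _ (by positivity) (by positivity) h1 lam
    have h3 := kb_of_ks V (w + 1) n _ _ (by positivity) (by positivity) h2
    have hn : (0 : ℝ) ≤ n := Nat.cast_nonneg n
    have hl : (0 : ℝ) ≤ lam := Nat.cast_nonneg lam
    have hq := chain_q C w lam hl
    have hr := chain_r C (145 * C * 4 ^ w + 2 * C + 153) hC (by
      generalize 145 * C * 4 ^ w = z
      omega) n hn lam
    refine kb_mono ?_ ?_ h3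
    · push_cast at hq ⊢
      exact hq
    · push_cast at hr ⊢
      exact hr

end Helper4.GA
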