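import Pool.Agent.Helper4.GA.CplDefs

set_option autoImplicit false

/-!
The coupling bounds differences of acceptance probabilities.

Proof sketch. Marginals of `wz z`: `∑ y, wz z y * f y.1 = ∑ b, 1 / 2 * f b`, and the same for `y.2` (private lemmas
`marg_fst`, `marg_snd` in RC/RI.lean, copy them). `vl_sub_le`: induction on `d` for all `i`, `u`. `d = 0`:
`|acc u.1 - acc u.2| ≤ ind (u.1 ≠ u.2)`. Step: if `asy u` then `vl (d + 1) i u.1 - vl (d + 1) i u.2 =
∑ y, wz z y * (vl d (i + 1) (L i y.1 u.1) - vl d (i + 1) (L i y.2 u.2))`, otherwise the same with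
`y.1` in both places; these are the two components of `cpl L i y u`. `nt_nonneg`, `nt_le_one`: `0 ≤ df ≤ 1`,
`fut_nonneg`, `fut_le`, `wz z y ≥ 0`, `∑ y, wz z y = 1`. `dv_le`: `wz 0 y = 1/4`, all terms of `nt 0` are `≥ 0`, take the
terms `y = (0, 1)` and `y = (1, 0)` and use `vl_sub_le` for both.
-/

namespace Helper4.GA

open Finset Helper4.RC

section

variable {Q O : Type}

private lemma sum2 (f : ZMod 2 → ℝ) : ∑ b, f b = f 0 + f 1 := by
  exact Fin.sum_univ_two f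

private lemma marg_fst (z : ℝ) (f : ZMod 2 → ℝ) :
    ∑ a, wz z a * f a.1 = ∑ b, 1 / 2 * f b := by
  rw [Fintype.sum_prod_type, sum2, sum2, sum2, sum2]
  simp [wz]
  ring

private lemma marg_snd (z : ℝ) (f : ZMod 2 → ℝ) :
    ∑ a, wz z a * f a.2 = ∑ b, 1 / 2 * f b := by
  rw [Fintype.sum_prod_type, sum2, sum2, sum2, sum2]
  simp [wz]
  ring

private lemma sum_wz (z : ℝ) : ∑ a, wz z a = 1 := by
  have h := marg_fst z fun _ => 1
  simp only [mul_one] at h
  rw [h, sum2]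
  norm_num

private lemma wz_nonneg {z : ℝ} (hz0 : -1 ≤ z) (hz1 : z ≤ 1) (y : ZMod 2 × ZMod 2) :
    0 ≤ wz z y := by
  unfold wz
  split_ifs <;> linarith

theorem vl_sub_le (L : ℕ → ZMod 2 → Q × O → Q × O) (acc : Q × O → ℝ) (h0 : ∀ u, 0 ≤ acc u)
    (h1 : ∀ u, acc u ≤ 1) (z : ℝ) (hz0 : -1 ≤ z) (hz1 : z ≤ 1) (d : ℕ) :
    ∀ (i : ℕ) (u : (Q × O) × (Q × O)), |vl L acc d i u.1 - vl L acc d i u.2| ≤ nm z L d i u := by
  induction d with
  | zero =>
    intro i u
    show |acc u.1 - acc u.2| ≤ ind (u.1 ≠ u.2)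
    by_cases h : u.1 = u.2
    · rw [h, sub_self, abs_zero]
      exact ind_nonneg _
    · rw [ind_true h, abs_le]
      have a1 := h0 u.1
      have a2 := h0 u.2
      have a3 := h1 u.1
      have a4 := h1 u.2
      constructor <;> linarith
  | succ d ih =>
    intro i u
    have key : vl L acc (d + 1) i u.1 - vl L acc (d + 1) i u.2 =
        ∑ y, wz z y * (vl L acc d (i + 1) (cpl L i y u).1 - vl L acc d (i + 1) (cpl L i y u).2) := by
      have e1 : vl L acc (d + 1) i u.1 = ∑ y, wz z y * vl L acc d (i + 1) (L i y.1 u.1) :=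
        (marg_fst z fun b => vl L acc d (i + 1) (L i b u.1)).symm
      by_cases h : asy u
      · have e2 : vl L acc (d + 1) i u.2 = ∑ y, wz z y * vl L acc d (i + 1) (L i y.2 u.2) :=
          (marg_snd z fun b => vl L acc d (i + 1) (L i b u.2)).symm
        rw [e1, e2, ← Finset.sum_sub_distrib]
        refine Finset.sum_congr rfl fun y _ => ?_
        have e3 : cpl L i y u = (L i y.1 u.1, L i y.2 u.2) := by
          unfold cpl
          rw [if_pos h]
        rw [e3]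
        ring
      · have e2 : vl L acc (d + 1) i u.2 = ∑ y, wz z y * vl L acc d (i + 1) (L i y.1 u.2) :=
          (marg_fst z fun b => vl L acc d (i + 1) (L i b u.2)).symm
        rw [e1, e2, ← Finset.sum_sub_distrib]
        refine Finset.sum_congr rfl fun y _ => ?_
        have e3 : cpl L i y u = (L i y.1 u.1, L i y.1 u.2) := by
          unfold cpl
          rw [if_neg h]
        rw [e3]
        ring
    rw [key]
    refine (Finset.abs_sum_le_sum_abs _ _).trans ?_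
    show _ ≤ ∑ y, wz z y * fut (cpl L) (wz z) df d (i + 1) (cpl L i y u)
    refine Finset.sum_le_sum fun y _ => ?_
    rw [abs_mul, abs_of_nonneg (wz_nonneg hz0 hz1 y)]
    exact mul_le_mul_of_nonneg_left (ih (i + 1) (cpl L i y u)) (wz_nonneg hz0 hz1 y)

theorem nm_nonneg (L : ℕ → ZMod 2 → Q × O → Q × O) (z : ℝ) (hz0 : -1 ≤ z) (hz1 : z ≤ 1)
    (d i : ℕ) (u : (Q × O) × (Q × O)) : 0 ≤ nm z L d i u :=
  fut_nonneg _ (wz_nonneg hz0 hz1) (fun _ => ind_nonneg _) d i u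

theorem nm_le_one (L : ℕ → ZMod 2 → Q × O → Q × O) (z : ℝ) (hz0 : -1 ≤ z) (hz1 : z ≤ 1)
    (d i : ℕ) (u : (Q × O) × (Q × O)) : nm z L d i u ≤ 1 :=
  fut_le _ (wz_nonneg hz0 hz1) (sum_wz z) (fun _ => ind_le_one _) d i u

theorem nt_nonneg (L : ℕ → ZMod 2 → Q × O → Q × O) (z : ℝ) (hz0 : -1 ≤ z) (hz1 : z ≤ 1)
    (n t : ℕ) (r : Q) (o : O) : 0 ≤ nt z L n t r o :=
  Finset.sum_nonneg fun y _ => mul_nonneg (wz_nonneg hz0 hz1 y) (nm_nonneg L z hz0 hz1 _ _ _)

theorem nt_le_one (L : ℕ → ZMod 2 → Q × O → Q × O) (z : ℝ) (hz0 : -1 ≤ z) (hz1 : z ≤ 1)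
    (n t : ℕ) (r : Q) (o : O) : nt z L n t r o ≤ 1 := by
  calc nt z L n t r o ≤ ∑ y, wz z y * 1 :=
        Finset.sum_le_sum fun y _ => mul_le_mul_of_nonneg_left (nm_le_one L z hz0 hz1 _ _ _)
          (wz_nonneg hz0 hz1 y)
    _ = 1 := by simp only [mul_one]; exact sum_wz z

theorem dv_le (L : ℕ → ZMod 2 → Q × O → Q × O) (acc : Q × O → ℝ) (h0 : ∀ u, 0 ≤ acc u)
    (h1 : ∀ u, acc u ≤ 1) (n t : ℕ) (r : Q) (o : O) :
    |vl L acc (n - 1 - t) (t + 1) (L t 0 (r, o)) - vl L acc (n - 1 - t) (t + 1) (L t 1 (r, o))| ≤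
      2 * nt 0 L n t r o := by
  have hn : ∀ u, 0 ≤ nm 0 L (n - 1 - t) (t + 1) u := fun u =>
    nm_nonneg L 0 (by norm_num) (by norm_num) _ _ _
  have a1 := vl_sub_le L acc h0 h1 0 (by norm_num) (by norm_num) (n - 1 - t) (t + 1)
    (L t 0 (r, o), L t 1 (r, o))
  have a2 := vl_sub_le L acc h0 h1 0 (by norm_num) (by norm_num) (n - 1 - t) (t + 1)
    (L t 1 (r, o), L t 0 (r, o))
  rw [abs_sub_comm] at a2
  have hnt : nt 0 L n t r o = 1 / 4 * (nm 0 L (n - 1 - t) (t + 1) (L t 0 (r, o), L t 0 (r, o)) +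
      nm 0 L (n - 1 - t) (t + 1) (L t 0 (r, o), L t 1 (r, o)) +
      (nm 0 L (n - 1 - t) (t + 1) (L t 1 (r, o), L t 0 (r, o)) +
      nm 0 L (n - 1 - t) (t + 1) (L t 1 (r, o), L t 1 (r, o)))) := by
    unfold nt
    rw [Fintype.sum_prod_type, sum2, sum2, sum2]
    simp only [wz]
    norm_num
    ring
  have b1 := hn (L t 0 (r, o), L t 0 (r, o))
  have b2 := hn (L t 1 (r, o), L t 1 (r, o))
  rw [hnt]
  simp only at a1 a2
  linarith

end

end Helper4.GA
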