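import Pool.Agent.Helper4.GA.TzDefs
import Pool.Agent.Helper4.RC.SensDefs

set_option autoImplicit false

/-!
Registers changed by permutations, the coupling of two runs, and test programs: the definitions.
-/

namespace Helper4.GA

open Finset Helper4.RC

section

variable {Q O : Type}

/-- The program with the base program `R` and a register changed by permutations that depend on
the step, the bit and the state of the base program. -/
def prg (R : ℕ → ZMod 2 → Q → Q) (φ : ℕ → ZMod 2 → Q → Equiv.Perm O) :
    ℕ → ZMod 2 → Q × O → Q × O :=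
  fun i b u => (R i b u.1, φ i b u.1 u.2)

/-- Two states with the same base state and different registers. -/
def asy (u : (Q × O) × (Q × O)) : Prop := u.1.1 = u.2.1 ∧ u.1.2 ≠ u.2.2

/-- The coupling: the second copy reads its own bit if `asy` holds, and the bit of the first copy
otherwise. -/
noncomputable def cpl (L : ℕ → ZMod 2 → Q × O → Q × O) :
    ℕ → ZMod 2 × ZMod 2 → (Q × O) × (Q × O) → (Q × O) × (Q × O) :=
  fun i y u => open Classical in
    if asy u then (L i y.1 u.1, L i y.2 u.2) else (L i y.1 u.1, L i y.1 u.2)

/-- The indicator of different states. -/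
noncomputable def df (u : (Q × O) × (Q × O)) : ℝ := ind (u.1 ≠ u.2)

/-- The probability that the coupled runs, with `z`-correlated bits, are different at the end. -/
noncomputable def nm (z : ℝ) (L : ℕ → ZMod 2 → Q × O → Q × O) (d i : ℕ)
    (u : (Q × O) × (Q × O)) : ℝ :=
  fut (cpl L) (wz z) df d i u

/-- The mean value of `acc` at the end for uniformly random bits. -/
noncomputable def vl (L : ℕ → ZMod 2 → Q × O → Q × O) (acc : Q × O → ℝ) (d i : ℕ)
    (u : Q × O) : ℝ :=
  fut L (fun _ => 1 / 2) acc d i u

/-- The weight of the step `t` at the state `(r, o)`: the mean probability that the two states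
after reading `z`-correlated bits at the step `t` are different at the end, time `n`. -/
noncomputable def nt (z : ℝ) (L : ℕ → ZMod 2 → Q × O → Q × O) (n t : ℕ) (r : Q) (o : O) : ℝ :=
  ∑ y : ZMod 2 × ZMod 2, wz z y * nm z L (n - 1 - t) (t + 1) (L t y.1 (r, o), L t y.2 (r, o))

/-- The probability of the base state `r` at the time `t`. -/
noncomputable def pb (R : ℕ → ZMod 2 → Q → Q) (q : Q) (t : ℕ) (r : Q) : ℝ :=
  dist R q (fun _ => 1 / 2) t r

/-- The probability that the first of two `z`-correlated runs is in `r` at the time `t` and the second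
is not. -/
noncomputable def pd (z : ℝ) (R : ℕ → ZMod 2 → Q → Q) (q : Q) (t : ℕ) (r : Q) : ℝ :=
  ∑ y : Fin t → ZMod 2 × ZMod 2, pw (wz z) y *
    ind (endSt R q t (fun i => (y i).1) = r ∧ endSt R q t (fun i => (y i).2) ≠ r)

/-- The test program for the step `t`, the state `(r, o)`: before the time `t` two runs of `L`; at the
time `t` the first run must have the base state `r` (and, if `s` holds, the second must not), the
states are replaced by `(r, o)` and each reads its own bit; then the coupled runs. -/
noncomputable def lt (L : ℕ → ZMod 2 → Q × O → Q × O) (s : Prop) (t : ℕ) (r : Q) (o : O) :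
    ℕ → ZMod 2 × ZMod 2 → Option ((Q × O) × (Q × O)) → Option ((Q × O) × (Q × O)) :=
  fun i y v => open Classical in
    match v with
    | none => none
    | some u =>
      if i < t then some (L i y.1 u.1, L i y.2 u.2)
      else if i = t then
        (if u.1.1 = r ∧ (s → u.2.1 ≠ r) then some (L i y.1 (r, o), L i y.2 (r, o)) else none)
      else some (cpl L i y u)

/-- The value of a test: `1` if the final states exist and are different. -/
noncomputable def gt (v : Option ((Q × O) × (Q × O))) : ℝ :=
  match v with
  | none => 0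
  | some u => df u

/-- The value of the first final state. -/
noncomputable def ga (acc : Q × O → ℝ) (v : Option ((Q × O) × (Q × O))) : ℝ :=
  match v with
  | none => 0
  | some u => acc u.1

lemma rstbl_prg {Θ : Type} {n : ℕ} (str : Θ → Fin n → ZMod 2) (k : ℕ) (ρ : Fin k → Θ × Θ)
    (R : ℕ → ZMod 2 → Q → Q) (φ : ℕ → ZMod 2 → Q → Equiv.Perm O) :
    rstbl str k ρ (prg R φ) = prg (rstbl str k ρ R) (rstbl str k ρ φ) := by
  induction k generalizing R φ with
  | zero => rfl
  | succ k ih =>
    exact ih (fun j => ρ j.succ) (rstb (str (ρ 0).1) (str (ρ 0).2) R)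
      (rstb (str (ρ 0).1) (str (ρ 0).2) φ)

lemma rst_lt {n : ℕ} (D T : Fin n → ZMod 2) (L : ℕ → ZMod 2 → Q × O → Q × O) (s : Prop) (t : ℕ)
    (r : Q) (o : O) : rst D T (lt L s t r o) = lt (rstb D T L) s t r o := rfl

lemma rstl_lt {Θ : Type} {n : ℕ} (str : Θ → Fin n → ZMod 2) (k : ℕ) (ρ : Fin k → Θ × Θ)
    (L : ℕ → ZMod 2 → Q × O → Q × O) (s : Prop) (t : ℕ) (r : Q) (o : O) :
    rstl str k ρ (lt L s t r o) = lt (rstbl str k ρ L) s t r o := by
  induction k generalizing L with
  | zero => rfl
  | succ k ih => exact ih (fun j => ρ j.succ) (rstb (str (ρ 0).1) (str (ρ 0).2) L)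

end

end Helper4.GA
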