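import Pool.Agent.Helper4.RC.Basic

set_option autoImplicit false

/-!
Costs of stopped runs of a chain with levels: definitions and basic rules.

The chain goes down: `k d u v` is the probability of the step from the state `u` at the level
`d + 1` to the state `v` at the level `d`. At a live state (`A (d + 1) u`) the cost `f (d + 1) u` is paid
and the run goes on, at the other states, and at the level `0`, the run stops and `g` is paid;
`ev k A f g d u` is the expected total cost from the state `u` at the level `d`.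

Hints. `ev_le`, `ev_split`, `ev_add`, `ev_mul`, `ev_har`, `ev_congr`: inductions on `d` (`ev_live`,
`ev_exit`, `Finset.sum_le_sum`, `Finset.mul_sum`). `ev_mono` and `ev_nonneg` follow from `ev_le` and `ev_live`.
`tau_le`: `|a - b| ≤ a + b` for `a, b ≥ 0`. `ev_tau_le`: `ev_le` with `F d u = 2 * d * h d u`.
-/

namespace Helper4.GA

open Finset Helper4.RC

section

variable {V : Type} [Fintype V]

/-- A stochastic kernel. -/
structure IsSto (k : ℕ → V → V → ℝ) : Prop where
  nonneg : ∀ d u v, 0 ≤ k d u v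
  sum_one : ∀ d u, ∑ v, k d u v = 1

/-- The expected cost of a run that is stopped when it is not live. -/
noncomputable def ev (k : ℕ → V → V → ℝ) (A : ℕ → V → Prop) (f g : ℕ → V → ℝ) : ℕ → V → ℝ
  | 0, u => g 0 u
  | d + 1, u => open Classical in
      if A (d + 1) u then f (d + 1) u + ∑ v, k d u v * ev k A f g d v else g (d + 1) u

/-- `h` is harmonic at the live states. -/
def IsHar (k : ℕ → V → V → ℝ) (A : ℕ → V → Prop) (h : ℕ → V → ℝ) : Prop :=
  ∀ d u, A (d + 1) u → h (d + 1) u = ∑ v, k d u v * h d v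

/-- The mean absolute change of `h` in one step. -/
noncomputable def tau (k : ℕ → V → V → ℝ) (h : ℕ → V → ℝ) : ℕ → V → ℝ
  | 0, _ => 0
  | d + 1, u => ∑ v, k d u v * |h d v - h (d + 1) u|

/-- At every level `d + 1` at most `w` states are live. -/
def Live (A : ℕ → V → Prop) (w : ℕ) : Prop := ∀ d, Nat.card {u // A (d + 1) u} ≤ w

variable {k : ℕ → V → V → ℝ} {A : ℕ → V → Prop} {f g f' g' h : ℕ → V → ℝ}

lemma ev_live {d : ℕ} {u : V} (hA : A (d + 1) u) :
    ev k A f g (d + 1) u = f (d + 1) u + ∑ v, k d u v * ev k A f g d v := by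
  rw [ev, if_pos hA]

lemma ev_exit {d : ℕ} {u : V} (hA : ¬ A (d + 1) u) : ev k A f g (d + 1) u = g (d + 1) u := by
  rw [ev, if_neg hA]

lemma ev_le (hk : IsSto k) (D : ℕ) (F : ℕ → V → ℝ) (h0 : ∀ u, g 0 u ≤ F 0 u)
    (hex : ∀ d < D, ∀ u, ¬ A (d + 1) u → g (d + 1) u ≤ F (d + 1) u)
    (hlv : ∀ d < D, ∀ u, A (d + 1) u → f (d + 1) u + ∑ v, k d u v * F d v ≤ F (d + 1) u) :
    ∀ d ≤ D, ∀ u, ev k A f g d u ≤ F d u := by
  intro d
  induction d with
  | zero =>
    intro _ u
    rw [ev]
    exact h0 u
  | succ d ih =>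
    intro hd u
    by_cases hA : A (d + 1) u
    · rw [ev_live hA]
      refine le_trans (add_le_add le_rfl (Finset.sum_le_sum fun v _ => ?_)) (hlv d hd u hA)
      exact mul_le_mul_of_nonneg_left (ih (by omega) v) (hk.nonneg d u v)
    · rw [ev_exit hA]
      exact hex d hd u hA

lemma ev_mono (hk : IsSto k) (D : ℕ)
    (hf : ∀ d < D, ∀ u, A (d + 1) u → f (d + 1) u ≤ f' (d + 1) u) (h0 : ∀ u, g 0 u ≤ g' 0 u)
    (hg : ∀ d < D, ∀ u, ¬ A (d + 1) u → g (d + 1) u ≤ g' (d + 1) u) :
    ∀ d ≤ D, ∀ u, ev k A f g d u ≤ ev k A f' g' d u := by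
  refine ev_le hk D (ev k A f' g') ?_ ?_ ?_
  · intro u
    rw [ev]
    exact h0 u
  · intro d hd u hA
    rw [ev_exit hA]
    exact hg d hd u hA
  · intro d hd u hA
    rw [ev_live hA]
    exact add_le_add (hf d hd u hA) le_rfl

lemma ev_nonneg (hk : IsSto k) (hf : ∀ d u, 0 ≤ f (d + 1) u) (hg : ∀ d u, 0 ≤ g d u) (d : ℕ)
    (u : V) : 0 ≤ ev k A f g d u := by
  induction d generalizing u with
  | zero =>
    rw [ev]
    exact hg 0 u
  | succ d ih =>
    by_cases hA : A (d + 1) u
    · rw [ev_live hA]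
      exact add_nonneg (hf d u) (Finset.sum_nonneg fun v _ => mul_nonneg (hk.nonneg d u v) (ih v))
    · rw [ev_exit hA]
      exact hg (d + 1) u

/-- Stopping earlier, and then paying the expected cost of the rest. -/
lemma ev_split {B : ℕ → V → Prop} (hBA : ∀ d u, B (d + 1) u → A (d + 1) u) (d : ℕ) (u : V) :
    ev k A f g d u = ev k B f (ev k A f g) d u := by
  induction d generalizing u with
  | zero => rw [ev, ev, ev]
  | succ d ih =>
    by_cases hB : B (d + 1) u
    · rw [ev_live (hBA d u hB), ev_live hB]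
      congr 1
      exact Finset.sum_congr rfl fun v _ => by rw [ih v]
    · rw [ev_exit hB]

lemma ev_add (d : ℕ) (u : V) :
    ev k A (fun d u => f d u + f' d u) (fun d u => g d u + g' d u) d u =
      ev k A f g d u + ev k A f' g' d u := by
  induction d generalizing u with
  | zero => rw [ev, ev, ev]
  | succ d ih =>
    by_cases hA : A (d + 1) u
    · rw [ev_live hA, ev_live hA, ev_live hA]
      have h1 : ∑ v, k d u v * ev k A (fun d u => f d u + f' d u) (fun d u => g d u + g' d u) d v =
          ∑ v, k d u v * ev k A f g d v + ∑ v, k d u v * ev k A f' g' d v := by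
        rw [← Finset.sum_add_distrib]
        exact Finset.sum_congr rfl fun v _ => by rw [ih v]; ring
      rw [h1]
      ring
    · rw [ev_exit hA, ev_exit hA, ev_exit hA]

lemma ev_mul (c : ℝ) (d : ℕ) (u : V) :
    ev k A (fun d u => c * f d u) (fun d u => c * g d u) d u = c * ev k A f g d u := by
  induction d generalizing u with
  | zero => rw [ev, ev]
  | succ d ih =>
    by_cases hA : A (d + 1) u
    · rw [ev_live hA, ev_live hA, mul_add, Finset.mul_sum]
      congr 1
      exact Finset.sum_congr rfl fun v _ => by rw [ih v]; ring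
    · rw [ev_exit hA, ev_exit hA]

lemma ev_sum {ι : Type} (s : Finset ι) (f : ι → ℕ → V → ℝ) (d : ℕ) (u : V) :
    ev k A (fun d u => ∑ i ∈ s, f i d u) (fun _ _ => 0) d u =
      ∑ i ∈ s, ev k A (f i) (fun _ _ => 0) d u := by
  induction d generalizing u with
  | zero =>
    simp only [ev]
    simp
  | succ d ih =>
    by_cases hA : A (d + 1) u
    · rw [ev_live hA]
      simp only [ev_live hA]
      rw [Finset.sum_add_distrib, Finset.sum_comm]
      congr 1
      refine Finset.sum_congr rfl fun v _ => ?_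
      rw [ih v, Finset.mul_sum]
    · rw [ev_exit hA]
      simp only [ev_exit hA]
      simp

lemma ev_congr (hf : ∀ d u, A (d + 1) u → f (d + 1) u = f' (d + 1) u)
    (h0 : ∀ u, g 0 u = g' 0 u) (hg : ∀ d u, ¬ A (d + 1) u → g (d + 1) u = g' (d + 1) u)
    (d : ℕ) (u : V) : ev k A f g d u = ev k A f' g' d u := by
  induction d generalizing u with
  | zero =>
    rw [ev, ev]
    exact h0 u
  | succ d ih =>
    by_cases hA : A (d + 1) u
    · rw [ev_live hA, ev_live hA, hf d u hA]
      congr 1
      exact Finset.sum_congr rfl fun v _ => by rw [ih v]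
    · rw [ev_exit hA, ev_exit hA]
      exact hg d u hA

/-- A harmonic function is the mean of its exit values. -/
lemma ev_har (hh : IsHar k A h) (d : ℕ) (u : V) : ev k A (fun _ _ => 0) h d u = h d u := by
  induction d generalizing u with
  | zero => rw [ev]
  | succ d ih =>
    by_cases hA : A (d + 1) u
    · rw [ev_live hA, hh d u hA, zero_add]
      exact Finset.sum_congr rfl fun v _ => by rw [ih v]
    · rw [ev_exit hA]

lemma tau_nonneg (hk : IsSto k) (h : ℕ → V → ℝ) (d : ℕ) (u : V) : 0 ≤ tau k h d u := by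
  cases d with
  | zero => exact le_rfl
  | succ d => exact Finset.sum_nonneg fun v _ => mul_nonneg (hk.nonneg d u v) (abs_nonneg _)

lemma tau_le (hk : IsSto k) (h0 : ∀ d u, 0 ≤ h d u) (hh : IsHar k A h) {d : ℕ} {u : V}
    (hA : A (d + 1) u) : tau k h (d + 1) u ≤ 2 * h (d + 1) u := by
  have h1 : ∀ v, k d u v * |h d v - h (d + 1) u| ≤ k d u v * h d v + k d u v * h (d + 1) u := by
    intro v
    rw [← mul_add]
    refine mul_le_mul_of_nonneg_left ?_ (hk.nonneg d u v)
    rw [abs_le]
    constructor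
    · linarith [h0 d v, h0 (d + 1) u]
    · linarith [h0 d v, h0 (d + 1) u]
  calc tau k h (d + 1) u = ∑ v, k d u v * |h d v - h (d + 1) u| := rfl
    _ ≤ ∑ v, (k d u v * h d v + k d u v * h (d + 1) u) := Finset.sum_le_sum fun v _ => h1 v
    _ = 2 * h (d + 1) u := by
      rw [Finset.sum_add_distrib, ← hh d u hA, ← Finset.sum_mul, hk.sum_one]
      ring

lemma ev_tau_le (hk : IsSto k) (h0 : ∀ d u, 0 ≤ h d u) (hh : IsHar k A h) (d : ℕ) (u : V) :
    ev k A (tau k h) (fun _ _ => 0) d u ≤ 2 * d * h d u := by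
  refine ev_le hk d (fun d u => 2 * d * h d u) ?_ ?_ ?_ d le_rfl u
  · intro u
    simp
  · intro d _ u _
    have h1 := h0 (d + 1) u
    positivity
  · intro d _ u hA
    have h1 : ∑ v, k d u v * (2 * (d : ℝ) * h d v) = 2 * d * h (d + 1) u := by
      rw [hh d u hA, Finset.mul_sum]
      exact Finset.sum_congr rfl fun v _ => by ring
    have h2 := tau_le hk h0 hh hA
    simp only [h1]
    push_cast
    linarith

end

end Helper4.GA
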