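import Pool.Agent.Helper4.GA.Tel
import Pool.Agent.Helper4.GA.Cpl

set_option autoImplicit false

/-!
The error of a source for a fixed program.

Proof sketch. `telescope` for `L = prg R φ`, `V = Q × O`; `|1/2 * (g (L t 0 u) - g (L t 1 u))| ≤ nt 0 L n t r o` for
`u = (r, o)` (`dv_le`). Let `b = |mean (ind (u_t = u) * sg)|`. `b ≤ lam` (`H1`), and `b ≤ mean (ind (u_t = (r, o))) ≤
mean (ind (first component of u_t = r)) ≤ pb R u₀.1 t r + e` (`H2`; the first component of `endSt L u₀ t y` is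
`endSt R u₀.1 t y`). With `p = pb R u₀.1 t r ∈ [0, 1]`: if `p ≥ 1/2` then `b ≤ lam ≤ 2 lam p`; if `p < 1/2` then
`b ≤ p + e ≤ 2 p (1 - p) + e`. So `b ≤ 2 lam p + 2 p (1 - p) + e`; multiply by `0 ≤ nt ≤ 1` and sum.
-/

namespace Helper4.GA

open Finset Helper4.RC

section

variable {Q O Ω : Type}

private lemma fixed_fst (R : ℕ → ZMod 2 → Q → Q) (φ : ℕ → ZMod 2 → Q → Equiv.Perm O) (u₀ : Q × O)
    (t : ℕ) (y : Fin t → ZMod 2) : (endSt (prg R φ) u₀ t y).1 = endSt R u₀.1 t y := by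
  induction t with
  | zero => rfl
  | succ t ih =>
    show R t (y (Fin.last t)) (endSt (prg R φ) u₀ t fun i => y i.castSucc).1 = _
    rw [ih]
    rfl

private lemma fixed_abs_mean [Fintype Ω] (f : Ω → ℝ) : |mean f| ≤ mean fun ω => |f ω| := by
  unfold mean
  rw [abs_div, Nat.abs_cast]
  exact div_le_div_of_nonneg_right (Finset.abs_sum_le_sum_abs _ _) (Nat.cast_nonneg _)

private lemma fixed_mean_mono [Fintype Ω] {f g : Ω → ℝ} (h : ∀ ω, f ω ≤ g ω) : mean f ≤ mean g := by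
  unfold mean
  exact div_le_div_of_nonneg_right (Finset.sum_le_sum fun ω _ => h ω) (Nat.cast_nonneg _)

private lemma fixed_abs_sg (a : ZMod 2) : |sg a| = 1 := by
  unfold sg
  split_ifs <;> simp

private lemma fixed_real {b lam p e N : ℝ} (he : 0 ≤ e) (hlam : 0 ≤ lam) (hb0 : 0 ≤ b)
    (hp0 : 0 ≤ p) (hp1 : p ≤ 1) (hN0 : 0 ≤ N) (hN1 : N ≤ 1) (h1 : b ≤ lam) (h2 : b ≤ p + e) :
    b * N ≤ 2 * lam * (p * N) + 2 * (p * (1 - p) * N) + e := by
  have hb : b ≤ 2 * lam * p + 2 * (p * (1 - p)) + e := by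
    rcases le_total (1 / 2) p with hp | hp
    · nlinarith [mul_nonneg hlam (by linarith : (0 : ℝ) ≤ p - 1 / 2),
        mul_nonneg hp0 (by linarith : (0 : ℝ) ≤ 1 - p)]
    · nlinarith [mul_nonneg hlam hp0, mul_nonneg hp0 (by linarith : (0 : ℝ) ≤ 1 / 2 - p)]
  calc b * N ≤ (2 * lam * p + 2 * (p * (1 - p)) + e) * N := mul_le_mul_of_nonneg_right hb hN0
    _ = 2 * lam * (p * N) + 2 * (p * (1 - p) * N) + e * N := by ring
    _ ≤ 2 * lam * (p * N) + 2 * (p * (1 - p) * N) + e := by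
      nlinarith [mul_nonneg he (by linarith : (0 : ℝ) ≤ 1 - N)]

variable [Fintype Q] [Fintype O] [Fintype Ω] [Nonempty Ω]

theorem fixed (R : ℕ → ZMod 2 → Q → Q) (φ : ℕ → ZMod 2 → Q → Equiv.Perm O) (u₀ : Q × O)
    (acc : Q × O → ℝ) (h0 : ∀ u, 0 ≤ acc u) (h1 : ∀ u, acc u ≤ 1) (n : ℕ)
    (X : Ω → Fin n → ZMod 2) (lam e : ℝ) (he : 0 ≤ e) (hlam : 0 ≤ lam)
    (H1 : ∀ (t : Fin n) (u : Q × O),
      |mean fun ω => ind (endSt (prg R φ) u₀ t (fun i => X ω (Fin.castLE t.2.le i)) = u) *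
        sg (X ω t)| ≤ lam)
    (H2 : ∀ (t : Fin n) (r : Q),
      |(mean fun ω => ind (endSt R u₀.1 t (fun i => X ω (Fin.castLE t.2.le i)) = r)) -
        pb R u₀.1 t r| ≤ e) :
    |(mean fun ω => acc (endSt (prg R φ) u₀ n (X ω))) -
      (mean fun x : Fin n → ZMod 2 => acc (endSt (prg R φ) u₀ n x))| ≤
    (∑ t ∈ range n, ∑ r, ∑ o, 2 * lam * (pb R u₀.1 t r * nt 0 (prg R φ) n t r o)) +
      (∑ t ∈ range n, ∑ r, ∑ o,
        2 * (pb R u₀.1 t r * (1 - pb R u₀.1 t r) * nt 0 (prg R φ) n t r o)) +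
      n * Fintype.card Q * Fintype.card O * e := by
  have hp0 : ∀ (t : ℕ) (r : Q), 0 ≤ pb R u₀.1 t r := fun t r =>
    dist_nonneg _ _ (fun _ => by norm_num) t r
  have hp1 : ∀ (t : ℕ) (r : Q), pb R u₀.1 t r ≤ 1 := fun t r =>
    dist_le_one _ _ (fun _ => by norm_num) (by simp) t r
  have hN0 : ∀ (t : ℕ) (r : Q) (o : O), 0 ≤ nt 0 (prg R φ) n t r o := fun t r o =>
    nt_nonneg _ 0 (by norm_num) (by norm_num) n t r o
  have hN1 : ∀ (t : ℕ) (r : Q) (o : O), nt 0 (prg R φ) n t r o ≤ 1 := fun t r o =>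
    nt_le_one _ 0 (by norm_num) (by norm_num) n t r o
  -- one step and one state
  have key : ∀ (t : Fin n) (r : Q) (o : O),
      |(mean fun ω => ind (endSt (prg R φ) u₀ t (fun i => X ω (Fin.castLE t.2.le i)) = (r, o)) *
        sg (X ω t)) * (1 / 2 * (fut (prg R φ) (fun _ => 1 / 2) acc (n - 1 - t) (t + 1)
          (prg R φ t 0 (r, o)) -
        fut (prg R φ) (fun _ => 1 / 2) acc (n - 1 - t) (t + 1) (prg R φ t 1 (r, o))))| ≤
      2 * lam * (pb R u₀.1 t r * nt 0 (prg R φ) n t r o) +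
        2 * (pb R u₀.1 t r * (1 - pb R u₀.1 t r) * nt 0 (prg R φ) n t r o) + e := by
    intro t r o
    have hd := dv_le (prg R φ) acc h0 h1 n t r o
    rw [abs_mul, abs_mul]
    have hd' : |(1 / 2 : ℝ)| * |fut (prg R φ) (fun _ => 1 / 2) acc (n - 1 - t) (t + 1)
          (prg R φ t 0 (r, o)) -
        fut (prg R φ) (fun _ => 1 / 2) acc (n - 1 - t) (t + 1) (prg R φ t 1 (r, o))| ≤
        nt 0 (prg R φ) n t r o := by
      rw [abs_of_pos (by norm_num : (0 : ℝ) < 1 / 2)]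
      have : |fut (prg R φ) (fun _ => 1 / 2) acc (n - 1 - t) (t + 1) (prg R φ t 0 (r, o)) -
        fut (prg R φ) (fun _ => 1 / 2) acc (n - 1 - t) (t + 1) (prg R φ t 1 (r, o))| ≤
          2 * nt 0 (prg R φ) n t r o := hd
      linarith
    refine (mul_le_mul_of_nonneg_left hd' (abs_nonneg _)).trans ?_
    refine fixed_real he hlam (abs_nonneg _) (hp0 t r) (hp1 t r) (hN0 t r o) (hN1 t r o)
      (H1 t (r, o)) ?_
    have hm : |mean fun ω => ind (endSt (prg R φ) u₀ t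
        (fun i => X ω (Fin.castLE t.2.le i)) = (r, o)) * sg (X ω t)| ≤
        mean fun ω => ind (endSt R u₀.1 t (fun i => X ω (Fin.castLE t.2.le i)) = r) := by
      refine (fixed_abs_mean _).trans (fixed_mean_mono fun ω => ?_)
      rw [abs_mul, fixed_abs_sg, mul_one, abs_of_nonneg (ind_nonneg _)]
      refine ind_mono fun h => ?_
      rw [← fixed_fst R φ u₀, h]
    have h3 := H2 t r
    rw [abs_le] at h3
    linarith [h3.2]
  rw [telescope]
  have hs : |∑ t : Fin n, ∑ u : Q × O,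
      (mean fun ω => ind (endSt (prg R φ) u₀ t (fun i => X ω (Fin.castLE t.2.le i)) = u) *
        sg (X ω t)) * (1 / 2 * (fut (prg R φ) (fun _ => 1 / 2) acc (n - 1 - t) (t + 1)
          (prg R φ t 0 u) -
        fut (prg R φ) (fun _ => 1 / 2) acc (n - 1 - t) (t + 1) (prg R φ t 1 u)))| ≤
      ∑ t : Fin n, ∑ u : Q × O, (2 * lam * (pb R u₀.1 t u.1 * nt 0 (prg R φ) n t u.1 u.2) +
        2 * (pb R u₀.1 t u.1 * (1 - pb R u₀.1 t u.1) * nt 0 (prg R φ) n t u.1 u.2) + e) := by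
    refine (Finset.abs_sum_le_sum_abs _ _).trans (Finset.sum_le_sum fun t _ => ?_)
    exact (Finset.abs_sum_le_sum_abs _ _).trans (Finset.sum_le_sum fun u _ => key t u.1 u.2)
  refine hs.trans (le_of_eq ?_)
  rw [Finset.sum_range, Finset.sum_range, ← Finset.sum_add_distrib]
  have hc : (n : ℝ) * Fintype.card Q * Fintype.card O * e =
      ∑ _t : Fin n, (Fintype.card Q * Fintype.card O * e : ℝ) := by
    rw [Finset.sum_const, Finset.card_univ, Fintype.card_fin, nsmul_eq_mul]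
    ring
  rw [hc, ← Finset.sum_add_distrib]
  refine Finset.sum_congr rfl fun t _ => ?_
  rw [Fintype.sum_prod_type]
  simp only [Finset.sum_add_distrib, Finset.sum_const, Finset.card_univ, nsmul_eq_mul]
  ring

end

end Helper4.GA
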