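import Pool.Agent.Helper4.RC.Basic

set_option autoImplicit false

/-!
Mean values of functions of the state after some more letters.

Hints. `fut_nonneg`, `fut_le`, `fut_abs_sub_le`, `fut_congr`: inductions on `d`. `dist_fut`: induction on `d` for all `t`:
`∑ v, dist L q p t v * fut L p G (d + 1) t v = ∑ v, dist L q p (t + 1) v * fut L p G d (t + 1) v`
(`dist_succ`, `sum_ind_eq`, exchange of sums). `fut_eq`: `t = 0` of `dist_fut` (`dist_zero`), and the definition of
`dist`; `tz_fut` restates it with words. `mean_eq`: `Fintype.card (Fin n → ZMod 2) = 2 ^ n`. `fut_shift`: the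
first letters of the program do not matter: induction on `d`.
-/

namespace Helper4.GA

open Finset Helper4.RC

section

variable {Y V : Type} [Fintype Y]

/-- The mean value of `G` at the state after `d` further independent letters with the distribution
`p`, from the state `v` at the time `i`. -/
noncomputable def fut (L : ℕ → Y → V → V) (p : Y → ℝ) (G : V → ℝ) : ℕ → ℕ → V → ℝ
  | 0, _, v => G v
  | d + 1, i, v => ∑ y, p y * fut L p G d (i + 1) (L i y v)

lemma fut_succ (L : ℕ → Y → V → V) (p : Y → ℝ) (G : V → ℝ) (d i : ℕ) (v : V) :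
    fut L p G (d + 1) i v = ∑ y, p y * fut L p G d (i + 1) (L i y v) := rfl

lemma fut_nonneg (L : ℕ → Y → V → V) {p : Y → ℝ} (hp : ∀ y, 0 ≤ p y) {G : V → ℝ}
    (hG : ∀ v, 0 ≤ G v) (d : ℕ) : ∀ (i : ℕ) (v : V), 0 ≤ fut L p G d i v := by
  induction d with
  | zero => exact fun _ v => hG v
  | succ d ih =>
    intro i v
    rw [fut_succ]
    exact Finset.sum_nonneg fun y _ => mul_nonneg (hp y) (ih _ _)

lemma fut_le (L : ℕ → Y → V → V) {p : Y → ℝ} (hp : ∀ y, 0 ≤ p y) (hs : ∑ y, p y = 1)
    {G : V → ℝ} {B : ℝ} (hG : ∀ v, G v ≤ B) (d : ℕ) : ∀ (i : ℕ) (v : V), fut L p G d i v ≤ B := by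
  induction d with
  | zero => exact fun _ v => hG v
  | succ d ih =>
    intro i v
    rw [fut_succ]
    calc ∑ y, p y * fut L p G d (i + 1) (L i y v) ≤ ∑ y, p y * B :=
          Finset.sum_le_sum fun y _ => mul_le_mul_of_nonneg_left (ih _ _) (hp y)
      _ = B := by rw [← Finset.sum_mul, hs, one_mul]

lemma fut_add (L : ℕ → Y → V → V) (p : Y → ℝ) (G G' : V → ℝ) (d : ℕ) : ∀ (i : ℕ) (v : V),
    fut L p (fun v => G v + G' v) d i v = fut L p G d i v + fut L p G' d i v := by
  induction d with
  | zero => exact fun _ _ => rfl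
  | succ d ih =>
    intro i v
    rw [fut_succ, fut_succ, fut_succ, ← Finset.sum_add_distrib]
    exact Finset.sum_congr rfl fun y _ => by rw [ih]; ring

/-- Only the letters from the time `i` on matter. -/
lemma fut_congr {L L' : ℕ → Y → V → V} (p : Y → ℝ) (G : V → ℝ) (d : ℕ) : ∀ (i : ℕ),
    (∀ j, i ≤ j → j < i + d → L j = L' j) → ∀ v : V, fut L p G d i v = fut L' p G d i v := by
  induction d with
  | zero => exact fun _ _ _ => rfl
  | succ d ih =>
    intro i h v
    rw [fut_succ, fut_succ]
    refine Finset.sum_congr rfl fun y _ => ?_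
    rw [h i le_rfl (by omega), ih (i + 1) (fun j h1 h2 => h j (by omega) (by omega))]

lemma dist_fut [Fintype V] (L : ℕ → Y → V → V) (q : V) (p : Y → ℝ) (G : V → ℝ) (d : ℕ) :
    ∀ t : ℕ, ∑ v, dist L q p t v * fut L p G d t v = ∑ v, dist L q p (t + d) v * G v := by
  induction d with
  | zero => exact fun _ => rfl
  | succ d ih =>
    intro t
    have h2 := ih (t + 1)
    rw [show t + 1 + d = t + (d + 1) by ring] at h2
    rw [← h2]
    symm
    calc ∑ v, dist L q p (t + 1) v * fut L p G d (t + 1) v
        = ∑ v, ∑ u, dist L q p t u * ∑ a, p a * (ind (L t a u = v) * fut L p G d (t + 1) v) := by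
          refine Finset.sum_congr rfl fun v _ => ?_
          rw [dist_succ, Finset.sum_mul]
          refine Finset.sum_congr rfl fun u _ => ?_
          rw [mul_assoc, Finset.sum_mul]
          congr 1
          exact Finset.sum_congr rfl fun a _ => by ring
      _ = ∑ u, dist L q p t u * ∑ a, p a * ∑ v, ind (L t a u = v) * fut L p G d (t + 1) v := by
          rw [Finset.sum_comm]
          refine Finset.sum_congr rfl fun u _ => ?_
          rw [← Finset.mul_sum]
          congr 1
          rw [Finset.sum_comm]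
          exact Finset.sum_congr rfl fun a _ => by rw [Finset.mul_sum]
      _ = ∑ u, dist L q p t u * fut L p G (d + 1) t u := by
          refine Finset.sum_congr rfl fun u _ => ?_
          rw [fut_succ]
          congr 1
          exact Finset.sum_congr rfl fun a _ => by rw [sum_ind_eq]

lemma fut_eq [Fintype V] (L : ℕ → Y → V → V) (q : V) (p : Y → ℝ) (G : V → ℝ) (n : ℕ) :
    fut L p G n 0 q = ∑ v, dist L q p n v * G v := by
  have h := dist_fut L q p G n 0
  rw [Nat.zero_add] at h
  rw [← h]
  simp only [Helper4.RC.dist_zero]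
  exact (sum_ind_eq q _).symm

/-- The mean value as a sum over words. -/
lemma fut_word (L : ℕ → Y → V → V) (q : V) (p : Y → ℝ) (G : V → ℝ) (n : ℕ) :
    fut L p G n 0 q = ∑ y : Fin n → Y, pw p y * G (endSt L q n y) := by
  have key : ∀ (n i : ℕ) (v : V), fut L p G n i v
      = ∑ y : Fin n → Y, pw p y * G (endSt (fun j => L (j + i)) v n y) := by
    intro n
    induction n with
    | zero =>
      intro i v
      simp [pw, endSt, fut]
    | succ n ih =>
      intro i v
      rw [fut_succ, sum_cn]
      refine Finset.sum_congr rfl fun a _ => ?_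
      rw [ih, Finset.mul_sum]
      refine Finset.sum_congr rfl fun y _ => ?_
      rw [pw_cn, endSt_cn, mul_assoc, Nat.zero_add]
      have e : (fun j => L (j + (i + 1))) = fun j => L (j + 1 + i) := by
        funext j
        congr 1
        ring
      rw [e]
  exact key n 0 q

/-- The mean value over uniformly random bits. -/
lemma mean_eq {n : ℕ} (f : (Fin n → ZMod 2) → ℝ) :
    mean f = ∑ x : Fin n → ZMod 2, pw (fun _ => (1 / 2 : ℝ)) x * f x := by
  unfold mean
  have h : (Fintype.card (Fin n → ZMod 2) : ℝ) = 2 ^ n := by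
    rw [Fintype.card_fun, Fintype.card_fin, ZMod.card]
    norm_num
  rw [h, div_eq_inv_mul, Finset.mul_sum]
  refine Finset.sum_congr rfl fun x _ => ?_
  congr 1
  unfold pw
  rw [Finset.prod_const, Finset.card_univ, Fintype.card_fin]
  rw [one_div, inv_pow]

/-- The mean value of `G` at the end, over uniformly random bits. -/
lemma mean_fut (L : ℕ → ZMod 2 → V → V) (q : V) (G : V → ℝ) (n : ℕ) :
    (mean fun x : Fin n → ZMod 2 => G (endSt L q n x)) = fut L (fun _ => 1 / 2) G n 0 q := by
  rw [mean_eq, fut_word]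

end

end Helper4.GA
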