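import Pool.Agent.Helper4.GA.Fut
import Pool.Agent.Helper4.RC.GrowDefs

set_option autoImplicit false

/-!
One nontrivial letter followed by trivial letters, if there is only one trivial letter `κ₀`.

Proof sketch. As `κ₀` is the only trivial letter, `IsLetters.sum_triv` gives `m κ₀ = p` (`sum_ind_eq`-like) and
`H L m nt v (d + 1) t a = H L m nt v d (t + 1) (stp L m t κ₀ a)`; by induction on `d`:
`H L m nt v d t a = |∑ u, a u * fut L p (fun x => ind (x = v)) d t u|` (exchange of sums,
`∑ x, ind (L t y u = x) * g x = g (L t y u)`). For `a = row L m i κ u`, `nt κ`: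
`∑ x, row L m i κ u x * g x = ∑ y, m κ y * g (L i y u)` with `g = fut .. (T - 1 - i) (i + 1)`, and this is
`∑ y, m κ y * (g (L i y u) - fut .. (T - i) i u)` as `∑ y, m κ y = 0`; use `|m κ y| ≤ p y`.
`tq_le_two`: `0 ≤ fut ≤ 1` (`fut_nonneg`, `fut_le`).
-/

namespace Helper4.GA

open Finset Helper4.RC

section

variable {Y V K : Type} [Fintype Y] [Fintype V] [Fintype K]

/-- The mean absolute change of the probability of the final state `v` at the time `T`, in the
step at the time `i` from the state `u`. -/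
noncomputable def tq (L : ℕ → Y → V → V) (p : Y → ℝ) (v : V) (T i : ℕ) (u : V) : ℝ :=
  ∑ y, p y * |fut L p (fun x => ind (x = v)) (T - 1 - i) (i + 1) (L i y u) -
    fut L p (fun x => ind (x = v)) (T - i) i u|

private lemma H_sum_eq (L : ℕ → Y → V → V) {p : Y → ℝ} {m : K → Y → ℝ} {nt : K → Prop}
    (h : IsLetters p m nt) (κ₀ : K) (hκ : ∀ κ, nt κ ↔ κ ≠ κ₀) (v : V) (d : ℕ) :
    ∀ (t : ℕ) (a : V → ℝ),
      H L m nt v d t a = |∑ u, a u * fut L p (fun x => ind (x = v)) d t u| := by
  have hind : ∀ κ, ind (¬ nt κ) = ind (κ₀ = κ) := by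
    intro κ
    refine ind_congr ?_
    rw [hκ κ, not_not]
    exact eq_comm
  have hm : ∀ y, m κ₀ y = p y := by
    intro y
    rw [← h.sum_triv y]
    simp only [hind]
    exact (sum_ind_eq κ₀ fun κ => m κ y).symm
  induction d with
  | zero =>
    intro t a
    have h1 : ∑ u, a u * ind (u = v) = a v := by
      rw [← sum_ind_eq v a]
      refine Finset.sum_congr rfl fun u _ => ?_
      rw [ind_congr (eq_comm : u = v ↔ v = u), mul_comm]
    simp only [H, fut]
    rw [h1]
  | succ d ih =>
    intro t a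
    have h2 : ∀ g : V → ℝ, ∑ w, stp L m t κ₀ a w * g w = ∑ u, a u * ∑ y, p y * g (L t y u) := by
      intro g
      unfold stp
      simp only [Finset.sum_mul]
      rw [Finset.sum_comm]
      refine Finset.sum_congr rfl fun u _ => ?_
      have h3 : ∀ w, a u * (∑ y, m κ₀ y * ind (L t y u = w)) * g w =
          a u * ∑ y, p y * (ind (L t y u = w) * g w) := by
        intro w
        rw [mul_assoc, Finset.sum_mul]
        congr 1
        refine Finset.sum_congr rfl fun y _ => ?_
        rw [hm y, mul_assoc]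
      simp only [h3]
      rw [← Finset.mul_sum, Finset.sum_comm]
      congr 1
      refine Finset.sum_congr rfl fun y _ => ?_
      rw [← Finset.mul_sum, sum_ind_eq]
    simp only [H, hind]
    rw [sum_ind_eq κ₀ fun κ => H L m nt v d (t + 1) (stp L m t κ a), ih, h2]
    simp only [fut_succ]

theorem H_row_le (L : ℕ → Y → V → V) {p : Y → ℝ} {m : K → Y → ℝ} {nt : K → Prop}
    (h : IsLetters p m nt) (κ₀ : K) (hκ : ∀ κ, nt κ ↔ κ ≠ κ₀) {T i : ℕ} (v : V) {κ : K}
    (hnt : nt κ) (u : V) :
    H L m nt v (T - 1 - i) (i + 1) (row L m i κ u) ≤ tq L p v T i u := by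
  rw [H_sum_eq L h κ₀ hκ]
  unfold tq
  generalize fut L p (fun x => ind (x = v)) (T - i) i u = C
  generalize fut L p (fun x => ind (x = v)) (T - 1 - i) (i + 1) = g
  have h1 : ∑ w, row L m i κ u w * g w = ∑ y, m κ y * (g (L i y u) - C) := by
    have h2 : ∑ y, m κ y * (g (L i y u) - C) = ∑ y, m κ y * g (L i y u) := by
      simp only [mul_sub, Finset.sum_sub_distrib]
      rw [← Finset.sum_mul, h.sum_zero κ hnt, zero_mul, sub_zero]
    rw [h2]
    unfold row
    simp only [Finset.sum_mul]
    rw [Finset.sum_comm]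
    refine Finset.sum_congr rfl fun y _ => ?_
    simp only [mul_assoc]
    rw [← Finset.mul_sum, sum_ind_eq]
  rw [h1]
  refine (Finset.abs_sum_le_sum_abs _ _).trans (Finset.sum_le_sum fun y _ => ?_)
  rw [abs_mul]
  exact mul_le_mul_of_nonneg_right (h.abs_le κ hnt y) (abs_nonneg _)

theorem tq_nonneg (L : ℕ → Y → V → V) {p : Y → ℝ} (hp : ∀ y, 0 ≤ p y) (v : V) (T i : ℕ)
    (u : V) : 0 ≤ tq L p v T i u :=
  Finset.sum_nonneg fun y _ => mul_nonneg (hp y) (abs_nonneg _)

theorem tq_le_two (L : ℕ → Y → V → V) {p : Y → ℝ} (hp : ∀ y, 0 ≤ p y) (hs : ∑ y, p y = 1)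
    (v : V) (T i : ℕ) (u : V) : tq L p v T i u ≤ 2 := by
  have h0 : ∀ d j w, 0 ≤ fut L p (fun x => ind (x = v)) d j w := fun d j w =>
    fut_nonneg L hp (fun x => ind_nonneg _) d j w
  have h1 : ∀ d j w, fut L p (fun x => ind (x = v)) d j w ≤ 1 := fun d j w =>
    fut_le L hp hs (fun x => ind_le_one _) d j w
  calc tq L p v T i u ≤ ∑ y, p y * 2 := by
        refine Finset.sum_le_sum fun y _ => mul_le_mul_of_nonneg_left ?_ (hp y)
        rw [abs_le]
        have a1 := h0 (T - 1 - i) (i + 1) (L i y u)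
        have a2 := h1 (T - 1 - i) (i + 1) (L i y u)
        have a3 := h0 (T - i) i u
        have a4 := h1 (T - i) i u
        constructor <;> linarith
    _ = 2 := by rw [← Finset.sum_mul, hs, one_mul]

end

end Helper4.GA
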