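import Pool.Agent.Helper4.GA.GrowT
import Pool.Agent.Helper4.RC.GrowA

set_option autoImplicit false

/-!
Growth of the sums of absolute values, from the chain lemma.

Proof sketch. Compare `Pool/Agent/Helper4/RC/Growth.lean`. `W 0 t v = dist t v` (`W_zero_eq` there, private; copy it).
Induction on `j`, with `A = (c Q)^j`, `B = c (Q + 2 n card V)`, `β = j B^j R`: by `W_succ_le`, `H_row_le` and
`∑ κ, ind (nt κ) ≤ c`: `W (j + 1) t v ≤ ∑ i ∈ range t, ∑ u, W j i u * (c * tq L p v t i u) ≤
c (A ∑ ∑ dist i u * tq + β ∑ ∑ tq) ≤ c A (Q * dist t v + R) + c β (2 n card V)` (`sum_tq_le`, `tq_le_two`), and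
`c A R ≤ B^(j+1) R` (`A ≤ B^j`, `c ≤ B` as `1 ≤ Q`), `c (2 n card V) β ≤ j B^(j+1) R`.
-/

namespace Helper4.GA

open Finset Helper4.RC

section

variable {Y V K : Type} [Fintype Y] [Fintype V] [Fintype K]

omit [Fintype V] in
private lemma W_nonneg (L : ℕ → Y → V → V) (q : V) (m : K → Y → ℝ) (nt : K → Prop) (j t : ℕ)
    (v : V) : 0 ≤ W L q m nt j t v := by
  unfold W
  refine Finset.sum_nonneg fun χ _ => ?_
  split_ifs
  · exact abs_nonneg _
  · exact le_refl _

omit [Fintype K] in
private lemma not_nt_of_cnt {nt : K → Prop} {t : ℕ} {χ : Fin t → K} (hχ : cnt nt χ = 0)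
    (i : Fin t) : ¬ nt (χ i) := by
  intro hn
  have h1 : ∀ i ∈ (Finset.univ : Finset (Fin t)), nind (nt (χ i)) = 0 :=
    Finset.sum_eq_zero_iff.mp hχ
  have h2 := h1 i (Finset.mem_univ i)
  rw [nind_true hn] at h2
  exact one_ne_zero h2

omit [Fintype V] in
private lemma vec_nonneg (L : ℕ → Y → V → V) (q : V) {p : Y → ℝ} {m : K → Y → ℝ}
    {nt : K → Prop} (h : IsLetters p m nt) {t : ℕ} {χ : Fin t → K} (hχ : cnt nt χ = 0) (v : V) :
    0 ≤ vec L q m χ v := by
  unfold vec
  refine Finset.sum_nonneg fun y _ => mul_nonneg ?_ (ind_nonneg _)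
  exact Finset.prod_nonneg fun i _ => h.nonneg _ (not_nt_of_cnt hχ i) _

omit [Fintype K] in
private lemma prod_ind {nt : K → Prop} {t : ℕ} (χ : Fin t → K) :
    ∏ i, ind (¬ nt (χ i)) = if cnt nt χ = 0 then 1 else 0 := by
  split_ifs with hχ
  · exact Finset.prod_eq_one fun i _ => ind_true (not_nt_of_cnt hχ i)
  · have h1 : ∃ i ∈ (Finset.univ : Finset (Fin t)), nind (nt (χ i)) ≠ 0 := by
      by_contra hcon
      push Not at hcon
      exact hχ (Finset.sum_eq_zero_iff.mpr hcon)
    obtain ⟨i, hi, hne⟩ := h1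
    refine Finset.prod_eq_zero hi (ind_false ?_)
    intro hn
    exact hne (nind_false hn)

omit [Fintype V] in
private lemma W_zero_eq (L : ℕ → Y → V → V) (q : V) {p : Y → ℝ} {m : K → Y → ℝ}
    {nt : K → Prop} (h : IsLetters p m nt) (t : ℕ) (v : V) :
    W L q m nt 0 t v = dist L q p t v := by
  classical
  have h1 : W L q m nt 0 t v =
      ∑ χ : Fin t → K, ∑ y : Fin t → Y,
        (∏ i, ind (¬ nt (χ i)) * m (χ i) (y i)) * ind (endSt L q t y = v) := by
    unfold W
    refine Finset.sum_congr rfl fun χ _ => ?_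
    have h2 : ∀ y : Fin t → Y, (∏ i, ind (¬ nt (χ i)) * m (χ i) (y i)) *
        ind (endSt L q t y = v) = (if cnt nt χ = 0 then 1 else 0) *
          (mw m χ y * ind (endSt L q t y = v)) := by
      intro y
      rw [Finset.prod_mul_distrib, prod_ind, mul_assoc]
      rfl
    simp only [h2, ← Finset.mul_sum]
    split_ifs with hχ
    · rw [abs_of_nonneg (vec_nonneg L q h hχ v), one_mul]
      rfl
    · rw [zero_mul]
  rw [h1, Finset.sum_comm]
  unfold Helper4.RC.dist
  refine Finset.sum_congr rfl fun y _ => ?_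
  rw [← Finset.sum_mul]
  congr 1
  unfold pw
  simp only [← h.sum_triv]
  rw [Finset.prod_univ_sum, Fintype.piFinset_univ]

theorem growthK (L : ℕ → Y → V → V) (q : V) {p : Y → ℝ} {m : K → Y → ℝ} {nt : K → Prop}
    (h : IsLetters p m nt) (κ₀ : K) (hκ : ∀ κ, nt κ ↔ κ ≠ κ₀) (n : ℕ) (Q R c : ℝ) (hQ : 1 ≤ Q)
    (hR : 0 ≤ R) (hc1 : 1 ≤ c) (hc : ∑ κ, ind (nt κ) ≤ c) (hKB : KB V (Fintype.card V) n Q R)
    (j : ℕ) : ∀ t ≤ n, ∀ v, W L q m nt j t v ≤
      (c * Q) ^ j * dist L q p t v + j * (c * (Q + 2 * n * Fintype.card V)) ^ j * R := by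
  have hR1 := h.p_nonneg
  induction j with
  | zero =>
    intro t _ v
    rw [W_zero_eq L q h]
    simp
  | succ j ih =>
    intro t ht v
    have hnV : (0 : ℝ) ≤ n * Fintype.card V := by positivity
    have hc0 : (0 : ℝ) ≤ c := by linarith
    have hQ0 : (0 : ℝ) ≤ Q := by linarith
    obtain ⟨A, hA⟩ : ∃ A : ℝ, A = (c * Q) ^ j := ⟨_, rfl⟩
    obtain ⟨B, hB⟩ : ∃ B : ℝ, B = c * (Q + 2 * n * Fintype.card V) := ⟨_, rfl⟩
    have hA0 : 0 ≤ A := by rw [hA]; positivity
    have hB0 : 0 ≤ B := by rw [hB]; positivity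
    obtain ⟨β, hβ⟩ : ∃ β : ℝ, β = j * B ^ j * R := ⟨_, rfl⟩
    have hβ0 : 0 ≤ β := by rw [hβ]; positivity
    have hD0 : ∀ i u, 0 ≤ tq L p v t i u := fun i u => tq_nonneg L h.p_nonneg v t i u
    have hD2 : ∀ i u, tq L p v t i u ≤ 2 := fun i u => tq_le_two L h.p_nonneg h.p_sum v t i u
    have hri' : ∑ i ∈ range t, ∑ u, dist L q p i u * tq L p v t i u ≤
        Q * dist L q p t v + R := sum_tq_le L q h.p_nonneg h.p_sum n hKB t ht v
    have hDs : ∑ i ∈ range t, ∑ u, tq L p v t i u ≤ 2 * n * Fintype.card V := by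
      calc ∑ i ∈ range t, ∑ u, tq L p v t i u ≤ ∑ _i ∈ range t, ∑ _u : V, (2 : ℝ) :=
            Finset.sum_le_sum fun i _ => Finset.sum_le_sum fun u _ => hD2 i u
        _ = t * (Fintype.card V * 2) := by simp
        _ ≤ n * (Fintype.card V * 2) := by
            have : (t : ℝ) ≤ n := by exact_mod_cast ht
            exact mul_le_mul_of_nonneg_right this (by positivity)
        _ = 2 * n * Fintype.card V := by ring
    have step1 : W L q m nt (j + 1) t v ≤
        ∑ i ∈ range t, ∑ u, (A * dist L q p i u + β) * (c * tq L p v t i u) := by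
      refine (W_succ_le L q m nt j t v).trans ?_
      refine Finset.sum_le_sum fun i hi => Finset.sum_le_sum fun u _ => ?_
      have hin : i ≤ n := (Finset.mem_range.mp hi).le.trans ht
      have e1 : ∑ κ, ind (nt κ) * H L m nt v (t - 1 - i) (i + 1) (row L m i κ u) ≤
          c * tq L p v t i u := by
        have e2 : ∑ κ, ind (nt κ) * H L m nt v (t - 1 - i) (i + 1) (row L m i κ u) ≤
            ∑ κ, ind (nt κ) * tq L p v t i u := by
          refine Finset.sum_le_sum fun κ _ => ?_
          by_cases hk : nt κ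
          · exact mul_le_mul_of_nonneg_left (H_row_le L h κ₀ hκ v hk u) (ind_nonneg _)
          · rw [ind_false hk, zero_mul, zero_mul]
        refine e2.trans ?_
        rw [← Finset.sum_mul]
        exact mul_le_mul_of_nonneg_right hc (hD0 i u)
      have e4 : 0 ≤ c * tq L p v t i u := mul_nonneg hc0 (hD0 i u)
      calc W L q m nt j i u *
            ∑ κ, ind (nt κ) * H L m nt v (t - 1 - i) (i + 1) (row L m i κ u)
          ≤ W L q m nt j i u * (c * tq L p v t i u) :=
            mul_le_mul_of_nonneg_left e1 (W_nonneg L q m nt j i u)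
        _ ≤ (A * dist L q p i u + β) * (c * tq L p v t i u) := by
            refine mul_le_mul_of_nonneg_right ?_ e4
            have := ih i hin u
            rw [hA, hβ, hB]
            exact this
    have step2 : ∑ i ∈ range t, ∑ u, (A * dist L q p i u + β) * (c * tq L p v t i u) =
        c * (A * ∑ i ∈ range t, ∑ u, dist L q p i u * tq L p v t i u +
          β * ∑ i ∈ range t, ∑ u, tq L p v t i u) := by
      simp only [Finset.mul_sum, ← Finset.sum_add_distrib]
      refine Finset.sum_congr rfl fun i _ => Finset.sum_congr rfl fun u _ => ?_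
      ring
    have step3 : c * (A * ∑ i ∈ range t, ∑ u, dist L q p i u * tq L p v t i u +
          β * ∑ i ∈ range t, ∑ u, tq L p v t i u) ≤
        c * (A * (Q * dist L q p t v + R) + β * (2 * n * Fintype.card V)) := by
      refine mul_le_mul_of_nonneg_left ?_ hc0
      exact add_le_add (mul_le_mul_of_nonneg_left hri' hA0)
        (mul_le_mul_of_nonneg_left hDs hβ0)
    have hAB : A ≤ B ^ j := by
      rw [hA, hB]
      refine pow_le_pow_left₀ (by positivity) ?_ j
      refine mul_le_mul_of_nonneg_left ?_ hc0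
      linarith
    have h2c : c ≤ B := by
      rw [hB]
      have : c * 1 ≤ c * (Q + 2 * n * Fintype.card V) := by
        refine mul_le_mul_of_nonneg_left ?_ hc0
        linarith
      linarith
    have h2n : c * (2 * n * Fintype.card V) ≤ B := by
      rw [hB]
      refine mul_le_mul_of_nonneg_left ?_ hc0
      linarith
    have f1 : c * A * R ≤ B * B ^ j * R := by
      refine mul_le_mul_of_nonneg_right ?_ hR
      exact mul_le_mul h2c hAB hA0 hB0
    have f2 : c * (2 * n * Fintype.card V) * β ≤ B * β := mul_le_mul_of_nonneg_right h2n hβ0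
    calc W L q m nt (j + 1) t v
        ≤ c * (A * (Q * dist L q p t v + R) + β * (2 * n * Fintype.card V)) :=
          (step1.trans step2.le).trans step3
      _ = A * (c * Q) * dist L q p t v + (c * A * R +
            c * (2 * n * Fintype.card V) * β) := by ring
      _ ≤ A * (c * Q) * dist L q p t v + (B * B ^ j * R + B * β) :=
          add_le_add_right (add_le_add f1 f2) _
      _ = (c * Q) ^ (j + 1) * dist L q p t v +
            ((j + 1 : ℕ) : ℝ) * (c * (Q + 2 * n * Fintype.card V)) ^ (j + 1) * R := by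
          rw [← hB, hβ, hA]
          push_cast
          ring

end

end Helper4.GA
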