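import Pool.Agent.Helper4.GA.GrowH
import Pool.Agent.Helper4.GA.ChDefs

set_option autoImplicit false

/-!
The total variation of the probability of a final state, from the chain lemma.

Proof sketch. Levels `d` = number of remaining steps: `k d u w = ∑ y, p y * ind (L (T - 1 - d) y u = w)` (`IsSto`),
`A = fun _ _ => True` (`Live A (card V)`), `hc 0 u = ind (u = v)`, `hc (d + 1) u = ∑ w, k d u w * hc d w`, so
`IsHar k A hc`, `0 ≤ hc ≤ 1`. For `d ≤ T`: `hc d u = fut L p (fun x => ind (x = v)) d (T - d) u` (induction on `d`,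
`sum_ind_eq`; `T - 1 - d = T - (d + 1)`, `T - (d + 1) + 1 = T - d`), and
`tau k hc (d + 1) u = tq L p v T (T - 1 - d) u` for `d < T`. `KB` at the level `T ≤ n` and the state `q` says
`ev k A (tau k hc) 0 T q ≤ Q * hc T q + R`, and `hc T q = fut .. T 0 q = dist L q p T v` (`fut_eq`).
Claim: for `d ≤ T`: `∑ u, dist L q p (T - d) u * ev k A (tau k hc) 0 d u =
∑ i ∈ Ico (T - d) T, ∑ u, dist L q p i u * tq L p v T i u` (induction on `d`, `ev_live`, `dist_succ`); for `d = T`,
`dist_zero` and `sum_ind_eq` this is the sum of the theorem.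
-/

namespace Helper4.GA

open Finset Helper4.RC

section

variable {Y V : Type} [Fintype Y] [Fintype V]

namespace GrowT

/-- The kernel of the chain. -/
private noncomputable def kk (L : ℕ → Y → V → V) (p : Y → ℝ) (T : ℕ) (d : ℕ) (u w : V) : ℝ :=
  ∑ y, p y * ind (L (T - 1 - d) y u = w)

/-- The probability of the final state. -/
private noncomputable def hc (L : ℕ → Y → V → V) (p : Y → ℝ) (T : ℕ) (v : V) : ℕ → V → ℝ
  | 0, u => ind (u = v)
  | d + 1, u => ∑ w, kk L p T d u w * hc L p T v d w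

private lemma kk_sum (L : ℕ → Y → V → V) (p : Y → ℝ) (T d : ℕ) (u : V) (g : V → ℝ) :
    ∑ w, kk L p T d u w * g w = ∑ y, p y * g (L (T - 1 - d) y u) := by
  unfold kk
  simp only [Finset.sum_mul, mul_assoc]
  rw [Finset.sum_comm]
  refine Finset.sum_congr rfl fun y _ => ?_
  rw [← Finset.mul_sum, sum_ind_eq]

private lemma kk_sto (L : ℕ → Y → V → V) {p : Y → ℝ} (hp : ∀ y, 0 ≤ p y) (hs : ∑ y, p y = 1)
    (T : ℕ) : IsSto (kk L p T) := by
  refine ⟨fun d u w => Finset.sum_nonneg fun y _ => mul_nonneg (hp y) (ind_nonneg _), ?_⟩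
  intro d u
  have h := kk_sum L p T d u (fun _ => 1)
  simp only [mul_one] at h
  rw [h, hs]

private lemma hc_nonneg (L : ℕ → Y → V → V) {p : Y → ℝ} (hp : ∀ y, 0 ≤ p y) (hs : ∑ y, p y = 1)
    (T : ℕ) (v : V) (d : ℕ) : ∀ u, 0 ≤ hc L p T v d u := by
  induction d with
  | zero => exact fun u => ind_nonneg _
  | succ d ih =>
    intro u
    exact Finset.sum_nonneg fun w _ => mul_nonneg ((kk_sto L hp hs T).nonneg d u w) (ih w)

private lemma hc_le_one (L : ℕ → Y → V → V) {p : Y → ℝ} (hp : ∀ y, 0 ≤ p y) (hs : ∑ y, p y = 1)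
    (T : ℕ) (v : V) (d : ℕ) : ∀ u, hc L p T v d u ≤ 1 := by
  induction d with
  | zero => exact fun u => ind_le_one _
  | succ d ih =>
    intro u
    calc hc L p T v (d + 1) u = ∑ w, kk L p T d u w * hc L p T v d w := rfl
      _ ≤ ∑ w, kk L p T d u w * 1 :=
          Finset.sum_le_sum fun w _ =>
            mul_le_mul_of_nonneg_left (ih w) ((kk_sto L hp hs T).nonneg d u w)
      _ = 1 := by
          simp only [mul_one]
          exact (kk_sto L hp hs T).sum_one d u

private lemma hc_fut (L : ℕ → Y → V → V) (p : Y → ℝ) (T : ℕ) (v : V) (d : ℕ) (hd : d ≤ T) :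
    ∀ u, hc L p T v d u = fut L p (fun x => ind (x = v)) d (T - d) u := by
  induction d with
  | zero => exact fun u => rfl
  | succ d ih =>
    intro u
    have h1 : hc L p T v (d + 1) u = ∑ w, kk L p T d u w * hc L p T v d w := rfl
    have e1 : T - (d + 1) + 1 = T - d := by omega
    have e2 : T - 1 - d = T - (d + 1) := by omega
    rw [h1, kk_sum, fut_succ, e1, e2]
    exact Finset.sum_congr rfl fun y _ => by rw [ih (by omega)]

private lemma tau_eq (L : ℕ → Y → V → V) (p : Y → ℝ) (T : ℕ) (v : V) {d : ℕ} (hd : d < T)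
    (u : V) : tau (kk L p T) (hc L p T v) (d + 1) u = tq L p v T (T - (d + 1)) u := by
  have h1 : tau (kk L p T) (hc L p T v) (d + 1) u =
      ∑ w, kk L p T d u w * |hc L p T v d w - hc L p T v (d + 1) u| := rfl
  have e1 : T - (d + 1) + 1 = T - d := by omega
  have e2 : T - 1 - d = T - (d + 1) := by omega
  have e3 : T - 1 - (T - (d + 1)) = d := by omega
  have e4 : T - (T - (d + 1)) = d + 1 := by omega
  rw [h1, kk_sum]
  unfold tq
  rw [e1, e2, e3, e4, hc_fut L p T v (d + 1) hd]
  exact Finset.sum_congr rfl fun y _ => by rw [hc_fut L p T v d (by omega)]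

private lemma claim (L : ℕ → Y → V → V) (q : V) (p : Y → ℝ) (T : ℕ) (v : V) (d : ℕ)
    (hd : d ≤ T) :
    ∑ u, dist L q p (T - d) u *
        ev (kk L p T) (fun _ _ => True) (tau (kk L p T) (hc L p T v)) (fun _ _ => 0) d u =
      ∑ i ∈ Ico (T - d) T, ∑ u, dist L q p i u * tq L p v T i u := by
  induction d with
  | zero => simp [ev]
  | succ d ih =>
    have e1 : T - (d + 1) + 1 = T - d := by omega
    rw [Finset.sum_eq_sum_Ico_succ_bot (by omega : T - (d + 1) < T), e1, ← ih (by omega)]
    have h1 : ∀ u, ev (kk L p T) (fun _ _ => True) (tau (kk L p T) (hc L p T v))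
        (fun _ _ => 0) (d + 1) u = tq L p v T (T - (d + 1)) u + ∑ w, kk L p T d u w *
          ev (kk L p T) (fun _ _ => True) (tau (kk L p T) (hc L p T v)) (fun _ _ => 0) d w := by
      intro u
      rw [ev_live trivial, tau_eq L p T v (by omega) u]
    simp only [h1]
    simp only [mul_add, Finset.sum_add_distrib]
    congr 1
    generalize ev (kk L p T) (fun _ _ => True) (tau (kk L p T) (hc L p T v)) (fun _ _ => 0) d = E
    have h2 : ∀ w, dist L q p (T - d) w = ∑ u, dist L q p (T - (d + 1)) u * kk L p T d u w := by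
      intro w
      have e2 : T - 1 - d = T - (d + 1) := by omega
      rw [← e1, dist_succ]
      unfold kk
      rw [e2]
    simp only [h2, Finset.sum_mul, Finset.mul_sum]
    rw [Finset.sum_comm]
    exact Finset.sum_congr rfl fun w _ => Finset.sum_congr rfl fun u _ => by ring

end GrowT

theorem sum_tq_le (L : ℕ → Y → V → V) (q : V) {p : Y → ℝ} (hp : ∀ y, 0 ≤ p y)
    (hs : ∑ y, p y = 1) (n : ℕ) {Q R : ℝ} (hKB : KB V (Fintype.card V) n Q R) (T : ℕ)
    (hT : T ≤ n) (v : V) :
    ∑ i ∈ range T, ∑ u, dist L q p i u * tq L p v T i u ≤ Q * dist L q p T v + R := by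
  have h1 := hKB (GrowT.kk L p T) (fun _ _ => True) (GrowT.hc L p T v) (GrowT.kk_sto L hp hs T)
    (fun d u => GrowT.hc_nonneg L hp hs T v d u) (fun d u => GrowT.hc_le_one L hp hs T v d u)
    (fun d u _ => rfl)
    (fun d => by
      rw [← Nat.card_eq_fintype_card]
      exact Nat.card_le_card_of_injective _ Subtype.val_injective) T hT q
  have h2 := GrowT.claim L q p T v T le_rfl
  simp only [Nat.sub_self] at h2
  simp only [Helper4.RC.dist_zero] at h2
  rw [sum_ind_eq] at h2
  rw [Finset.range_eq_Ico, ← h2]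
  have h3 : GrowT.hc L p T v T q = dist L q p T v := by
    rw [GrowT.hc_fut L p T v T le_rfl, Nat.sub_self, fut_eq]
    rw [← sum_ind_eq v (fun u => dist L q p T u)]
    refine Finset.sum_congr rfl fun u _ => ?_
    rw [mul_comm]
    congr 1
    exact ind_congr eq_comm
  rw [← h3]
  exact h1

end

end Helper4.GA
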