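import Pool.Agent.Helper4.RC.FKDefs

set_option autoImplicit false

/-!
The generator of Impagliazzo, Nisan and Wigderson with small bias steps: the definitions
(compare `Pool/Agent/Helper12/GR/Gen.lean`).
-/

namespace Helper4.GA

/-- The bit `t < 2 ^ k` of the output for the seed `w 0, ..., w (2 k)`. The seed for the second
half is the seed for the first half plus `b, b a, b a ^ 2, ...`, where `a = w 0`, `b = w 1`. -/
noncomputable def inw {F : Type} [Field F] [Algebra (ZMod 2) F] :
    ℕ → (ℕ → F) → ℕ → ZMod 2
  | 0, w, _ => Algebra.trace (ZMod 2) F (w 0)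
  | k + 1, w, t => if t < 2 ^ k then inw k (fun j => w (j + 2)) t
      else inw k (fun j => w (j + 2) + w 1 * w 0 ^ j) (t - 2 ^ k)

/-- The `2 ^ k` output bits for the seed `w`. -/
noncomputable def inwOut {F : Type} [Field F] [Algebra (ZMod 2) F] (k : ℕ)
    (w : Fin (2 * k + 1) → F) : Fin (2 ^ k) → ZMod 2 :=
  fun t => inw k (fun j => if h : j < 2 * k + 1 then w ⟨j, h⟩ else 0) t

end Helper4.GA
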