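import Pool.Agent.Helper4.GA.InwStep

set_option autoImplicit false

/-!
The next bit of the generator is nearly independent of the state of a program before it.

Proof sketch. Induction on `k`, for all `L`, `q`, `t < 2 ^ k`, `v`: let
`a k L q t v = mean over w of ind (endSt L q t (first t bits) = v) * sg (bit t)`; claim `|a| ≤ k * card V * lam` if
`2 k - 1 ≤ lam * card F` (prove it with `lam` fixed and `(2 * k + 1) / card F ≤ lam`, monotone in `k`).
It is convenient to work with `u k w t = endSt L q t (fun i => inw k w i)` for sequences `w`, and means over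
`w : Fin (2 * k + 1) → F` extended by `0`; `inw k w` depends only on `w j`, `j < 2 * k + 1` (see `tOp_congr`,
`Pt_succ` in Helper12/GR/Gen.lean: `Fin (2 (k + 1) + 1) → F` is `F × F × (Fin (2 k + 1) → F)`).
`k = 0`: `t = 0`, the state is `q` and `mean_sg_trace` gives `0`. `k + 1`, `t < 2 ^ k`: the bits `≤ t` are those of the seed
`w' = (w (j + 2))`, uniformly random; induction. `t ≥ 2 ^ k`, `t' = t - 2 ^ k`: with `f_p w' = ind (state after the
first half = p)` and `g_p w'' = ind (state of the program L (· + 2 ^ k) from p after t' bits of w'' = v) * sg (bit t' of w'')`: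
`a = ∑ p, mean (f_p w' * g_p (w' + step))`, and `step_mix` (`N = 2 k + 1`): each term is `mean f_p * mean g_p` up to
`(2 k + 1) / card F`; `∑ p, mean f_p * |mean g_p| ≤ k * card V * lam` (`∑ p, f_p = 1`), the errors sum up to `card V * lam`.
-/

namespace Helper4.GA

open Finset Helper4.RC

namespace InwNext

section meanLemmas

variable {Ω : Type} [Fintype Ω]

lemma mean_sum {I : Type} (s : Finset I) (f : I → Ω → ℝ) :
    (mean fun ω => ∑ i ∈ s, f i ω) = ∑ i ∈ s, mean (f i) := by
  unfold mean
  rw [Finset.sum_comm, Finset.sum_div]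

lemma mean_equiv {Ω' : Type} [Fintype Ω'] (e : Ω ≃ Ω') (f : Ω' → ℝ) :
    (mean fun x => f (e x)) = mean f := by
  unfold mean
  rw [Equiv.sum_comp e f, Fintype.card_congr e]

lemma mean_prod {Ω' : Type} [Fintype Ω'] (f : Ω × Ω' → ℝ) :
    mean f = mean fun x => mean fun y => f (x, y) := by
  unfold mean
  rw [Fintype.sum_prod_type, Fintype.card_prod, Nat.cast_mul, ← Finset.sum_div, div_div,
    mul_comm (Fintype.card Ω : ℝ)]

lemma mean_const [Nonempty Ω] (a : ℝ) : (mean fun _ : Ω => a) = a := by
  unfold mean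
  rw [Finset.sum_const, Finset.card_univ, nsmul_eq_mul, mul_div_assoc, mul_div_left_comm, div_self,
    mul_one]
  exact_mod_cast Fintype.card_ne_zero

lemma mean_nonneg {f : Ω → ℝ} (h : ∀ x, 0 ≤ f x) : 0 ≤ mean f :=
  div_nonneg (Finset.sum_nonneg fun x _ => h x) (Nat.cast_nonneg _)

/-- The mean value over the vectors of length `n + 1`. -/
lemma mean_cons {S : Type} [Fintype S] {n : ℕ} (f : (Fin (n + 1) → S) → ℝ) :
    mean f = mean fun a : S => mean fun w : Fin n → S => f (Fin.cons a w) := by
  rw [← mean_equiv (Fin.consEquiv fun _ : Fin (n + 1) => S) f, mean_prod]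
  rfl

end meanLemmas

section prog

variable {Y V : Type}

/-- The state after the first `n` letters of a sequence. -/
def st (L : ℕ → Y → V → V) (q : V) (n : ℕ) (s : ℕ → Y) : V := endSt L q n fun i => s i

lemma st_zero (L : ℕ → Y → V → V) (q : V) (s : ℕ → Y) : st L q 0 s = q := rfl

lemma st_succ (L : ℕ → Y → V → V) (q : V) (n : ℕ) (s : ℕ → Y) :
    st L q (n + 1) s = L n (s n) (st L q n s) := by
  unfold st
  rw [endSt]
  rfl

lemma st_congr (L : ℕ → Y → V → V) (q : V) (n : ℕ) {s s' : ℕ → Y} (h : ∀ i < n, s i = s' i) :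
    st L q n s = st L q n s' := by
  unfold st
  congr 1
  funext i
  exact h i i.2

lemma st_add (L : ℕ → Y → V → V) (q : V) (m n : ℕ) (s : ℕ → Y) :
    st L q (m + n) s = st (fun i => L (i + m)) (st L q m s) n fun i => s (i + m) := by
  induction n with
  | zero => rfl
  | succ n ih =>
    rw [← Nat.add_assoc, st_succ, ih, st_succ, Nat.add_comm n m]

end prog

section seeds

variable {F : Type} [Field F]

/-- Extension by zero. -/
def ext {N : ℕ} (w : Fin N → F) : ℕ → F := fun j => if h : j < N then w ⟨j, h⟩ else 0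

lemma ext_zero {n : ℕ} (a b : F) (w : Fin n → F) :
    ext (Fin.cons a (Fin.cons b w) : Fin (n + 1 + 1) → F) 0 = a := by
  simp [ext]

lemma ext_one {n : ℕ} (a b : F) (w : Fin n → F) :
    ext (Fin.cons a (Fin.cons b w) : Fin (n + 1 + 1) → F) 1 = b := by
  unfold ext
  rw [dif_pos (by omega)]
  have : (⟨1, by omega⟩ : Fin (n + 1 + 1)) = Fin.succ 0 := rfl
  rw [this, Fin.cons_succ, Fin.cons_zero]

lemma ext_two {n : ℕ} (a b : F) (w : Fin n → F) (j : ℕ) :
    ext (Fin.cons a (Fin.cons b w) : Fin (n + 1 + 1) → F) (j + 2) = ext w j := by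
  unfold ext
  by_cases hj : j < n
  · rw [dif_pos (by omega), dif_pos hj]
    have : (⟨j + 2, by omega⟩ : Fin (n + 1 + 1)) = Fin.succ (Fin.succ ⟨j, hj⟩) := rfl
    rw [this, Fin.cons_succ, Fin.cons_succ]
  · rw [dif_neg (by omega), dif_neg hj]

lemma inw_congr [Algebra (ZMod 2) F] (k : ℕ) : ∀ {w w' : ℕ → F} (t : ℕ),
    (∀ j < 2 * k + 1, w j = w' j) → inw k w t = inw k w' t := by
  induction k with
  | zero =>
    intro w w' t h
    simp only [inw]
    rw [h 0 (by omega)]
  | succ k ih =>
    intro w w' t h
    simp only [inw]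
    rw [ih (w := fun j => w (j + 2)) (w' := fun j => w' (j + 2)) t (fun j hj => h _ (by omega)),
      ih (w := fun j => w (j + 2) + w 1 * w 0 ^ j) (w' := fun j => w' (j + 2) + w' 1 * w' 0 ^ j) _
        (fun j hj => by rw [h (j + 2) (by omega), h 0 (by omega), h 1 (by omega)])]

lemma inw_lt [Algebra (ZMod 2) F] (k : ℕ) (a b : F) (w : Fin (2 * k + 1) → F) (t : ℕ)
    (ht : t < 2 ^ k) :
    inw (k + 1) (ext (Fin.cons a (Fin.cons b w) : Fin (2 * k + 1 + 1 + 1) → F)) t =
      inw k (ext w) t := by
  rw [inw, if_pos ht]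
  apply inw_congr
  intro j _
  exact ext_two a b w j

lemma inw_ge [Algebra (ZMod 2) F] (k : ℕ) (a b : F) (w : Fin (2 * k + 1) → F) (t : ℕ) :
    inw (k + 1) (ext (Fin.cons a (Fin.cons b w) : Fin (2 * k + 1 + 1 + 1) → F)) (t + 2 ^ k) =
      inw k (ext fun j : Fin (2 * k + 1) => w j + b * a ^ (j : ℕ)) t := by
  rw [inw, if_neg (by omega), Nat.add_sub_cancel]
  apply inw_congr
  intro j hj
  rw [ext_two, ext_zero, ext_one]
  simp [ext, hj]

end seeds

section main

variable (F : Type) [Field F] [Fintype F] [Algebra (ZMod 2) F] {V : Type} [Fintype V]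

/-- The quantity to be estimated. -/
noncomputable def a (k : ℕ) (L : ℕ → ZMod 2 → V → V) (q : V) (t : ℕ) (v : V) : ℝ :=
  mean fun w : Fin (2 * k + 1) → F =>
    ind (st L q t (inw k (ext w)) = v) * sg (inw k (ext w) t)

lemma abs_sg (x : ZMod 2) : |sg x| = 1 := by
  unfold sg
  split_ifs <;> norm_num

lemma abs_ind_sg (P : Prop) (x : ZMod 2) : |ind P * sg x| ≤ 1 := by
  rw [abs_mul, abs_sg, mul_one, abs_of_nonneg (ind_nonneg P)]
  exact ind_le_one P

lemma a_le (lam : ℝ) (k : ℕ) : (2 * (k : ℝ) - 1) / Fintype.card F ≤ lam → 0 ≤ lam →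
    ∀ (L : ℕ → ZMod 2 → V → V) (q : V) (t : ℕ) (_ : t < 2 ^ k) (v : V),
      |a F k L q t v| ≤ k * Fintype.card V * lam := by
  have hq : (0 : ℝ) < Fintype.card F := by exact_mod_cast Fintype.card_pos
  induction k with
  | zero =>
    intro _ _ L q t ht v
    have ht0 : t = 0 := by
      rw [pow_zero] at ht
      omega
    subst ht0
    have h : a F 0 L q 0 v = 0 := by
      unfold a
      change (mean fun w : Fin 1 → F =>
        ind (st L q 0 (inw 0 (ext w)) = v) * sg (inw 0 (ext w) 0)) = 0
      rw [← mean_equiv (Equiv.funUnique (Fin 1) F).symm]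
      have e : ∀ x : F, ind (st L q 0 (inw 0 (ext ((Equiv.funUnique (Fin 1) F).symm x))) = v) *
          sg (inw 0 (ext ((Equiv.funUnique (Fin 1) F).symm x)) 0) =
          ind (q = v) * sg (Algebra.trace (ZMod 2) F x) := by
        intro x
        rw [st_zero]
        congr 2
      simp only [e]
      have : (mean fun x : F => ind (q = v) * sg (Algebra.trace (ZMod 2) F x)) =
          ind (q = v) * mean fun x : F => sg (Algebra.trace (ZMod 2) F x) := by
        unfold mean
        rw [← Finset.mul_sum, mul_div_assoc]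
      rw [this, mean_sg_trace, mul_zero]
    rw [h]
    simp
  | succ k ih =>
    intro hlam hlam0 L q t ht v
    have hlam' : (2 * (k : ℝ) - 1) / Fintype.card F ≤ lam := by
      refine le_trans ?_ hlam
      apply div_le_div_of_nonneg_right _ hq.le
      push_cast
      linarith
    have hN : (((2 * k + 1 : ℕ) : ℝ)) / Fintype.card F ≤ lam := by
      refine le_trans (le_of_eq ?_) hlam
      push_cast
      ring
    have hcard : (0 : ℝ) ≤ Fintype.card V := Nat.cast_nonneg _
    have key : a F (k + 1) L q t v = mean fun p : (F × F) × (Fin (2 * k + 1) → F) =>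
        ind (st L q t (inw (k + 1)
          (ext (Fin.cons p.1.1 (Fin.cons p.1.2 p.2) : Fin (2 * k + 1 + 1 + 1) → F))) = v) *
        sg (inw (k + 1)
          (ext (Fin.cons p.1.1 (Fin.cons p.1.2 p.2) : Fin (2 * k + 1 + 1 + 1) → F)) t) := by
      unfold a
      change (mean fun w : Fin (2 * k + 1 + 1 + 1) → F =>
        ind (st L q t (inw (k + 1) (ext w)) = v) * sg (inw (k + 1) (ext w) t)) = _
      rw [mean_cons, mean_prod, mean_prod]
      congr 1
      funext x
      rw [mean_cons]
    rcases Nat.lt_or_ge t (2 ^ k) with h | h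
    · have : a F (k + 1) L q t v = a F k L q t v := by
        rw [key, mean_prod]
        have e : ∀ (x : F × F), (mean fun y : Fin (2 * k + 1) → F =>
            ind (st L q t (inw (k + 1)
              (ext (Fin.cons x.1 (Fin.cons x.2 y) : Fin (2 * k + 1 + 1 + 1) → F))) = v) *
            sg (inw (k + 1)
              (ext (Fin.cons x.1 (Fin.cons x.2 y) : Fin (2 * k + 1 + 1 + 1) → F)) t)) =
            a F k L q t v := by
          intro x
          unfold a
          congr 1
          funext y
          rw [inw_lt k x.1 x.2 y t h, st_congr L q t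
            (s := inw (k + 1)
              (ext (Fin.cons x.1 (Fin.cons x.2 y) : Fin (2 * k + 1 + 1 + 1) → F)))
            (s' := inw k (ext y)) (fun i hi => inw_lt k x.1 x.2 y i (by omega))]
        simp only [e]
        exact mean_const _
      rw [this]
      refine (ih hlam' hlam0 L q t h v).trans ?_
      push_cast
      nlinarith [mul_nonneg hcard hlam0]
    · obtain ⟨t', rfl⟩ : ∃ t', t = 2 ^ k + t' := ⟨t - 2 ^ k, by omega⟩
      have ht' : t' < 2 ^ k := by
        rw [pow_succ] at ht
        omega
      set L' : ℕ → ZMod 2 → V → V := fun i => L (i + 2 ^ k) with hL'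
      set f : V → (Fin (2 * k + 1) → F) → ℝ := fun p w => ind (st L q (2 ^ k) (inw k (ext w)) = p)
        with hf
      set g : V → (Fin (2 * k + 1) → F) → ℝ := fun p w =>
        ind (st L' p t' (inw k (ext w)) = v) * sg (inw k (ext w) t') with hg
      have key2 : a F (k + 1) L q (2 ^ k + t') v = ∑ p : V,
          mean fun r : (F × F) × (Fin (2 * k + 1) → F) =>
            f p r.2 * g p fun j => r.2 j + r.1.2 * r.1.1 ^ (j : ℕ) := by
        rw [key, ← mean_sum]
        congr 1
        funext r
        obtain ⟨⟨x, y⟩, w⟩ := r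
        simp only [hf, hg]
        rw [sum_ind_eq (st L q (2 ^ k) (inw k (ext w))) fun p =>
          ind (st L' p t' (inw k (ext fun j : Fin (2 * k + 1) => w j + y * x ^ (j : ℕ))) = v) *
            sg (inw k (ext fun j : Fin (2 * k + 1) => w j + y * x ^ (j : ℕ)) t')]
        rw [st_add]
        have e1 : st L q (2 ^ k) (inw (k + 1)
            (ext (Fin.cons x (Fin.cons y w) : Fin (2 * k + 1 + 1 + 1) → F))) =
            st L q (2 ^ k) (inw k (ext w)) :=
          st_congr L q (2 ^ k) fun i hi => inw_lt k x y w i hi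
        have e2 : (fun i => inw (k + 1)
            (ext (Fin.cons x (Fin.cons y w) : Fin (2 * k + 1 + 1 + 1) → F)) (i + 2 ^ k)) =
            inw k (ext fun j : Fin (2 * k + 1) => w j + y * x ^ (j : ℕ)) := by
          funext i
          exact inw_ge k x y w i
        rw [e1, e2, Nat.add_comm (2 ^ k) t', inw_ge k x y w t']
      have hfn : ∀ p w, |f p w| ≤ 1 := by
        intro p w
        rw [abs_of_nonneg (ind_nonneg _)]
        exact ind_le_one _
      have hgn : ∀ p w, |g p w| ≤ 1 := fun p w => abs_ind_sg _ _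
      have hf0 : ∀ p, 0 ≤ mean (f p) := fun p => mean_nonneg fun w => ind_nonneg _
      have hsum : ∑ p, mean (f p) = 1 := by
        rw [← mean_sum]
        have : ∀ w : Fin (2 * k + 1) → F, ∑ p, f p w = 1 := fun w => sum_ind _
        simp only [this]
        exact mean_const _
      have hterm : ∀ p, |mean fun r : (F × F) × (Fin (2 * k + 1) → F) =>
            f p r.2 * g p fun j => r.2 j + r.1.2 * r.1.1 ^ (j : ℕ)| ≤
            mean (f p) * (k * Fintype.card V * lam) + lam := by
        intro p
        have h1 := step_mix F (2 * k + 1) (f p) (g p) (hfn p) (hgn p)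
        have h2 : |mean (g p)| ≤ k * Fintype.card V * lam := ih hlam' hlam0 L' p t' ht' v
        have h3 : |mean (f p) * mean (g p)| ≤ mean (f p) * (k * Fintype.card V * lam) := by
          rw [abs_mul, abs_of_nonneg (hf0 p)]
          exact mul_le_mul_of_nonneg_left h2 (hf0 p)
        have h4 := abs_add_le ((mean fun r : (F × F) × (Fin (2 * k + 1) → F) =>
          f p r.2 * g p fun j => r.2 j + r.1.2 * r.1.1 ^ (j : ℕ)) - mean (f p) * mean (g p))
          (mean (f p) * mean (g p))
        rw [sub_add_cancel] at h4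
        linarith
      rw [key2]
      refine (Finset.abs_sum_le_sum_abs _ _).trans ?_
      refine (Finset.sum_le_sum fun p _ => hterm p).trans ?_
      rw [Finset.sum_add_distrib, ← Finset.sum_mul, hsum, Finset.sum_const, Finset.card_univ,
        nsmul_eq_mul]
      push_cast
      linarith

end main

end InwNext

section

variable (F : Type) [Field F] [Fintype F] [Algebra (ZMod 2) F] {V : Type} [Fintype V]

theorem inw_next (k : ℕ) (L : ℕ → ZMod 2 → V → V) (q : V) (t : Fin (2 ^ k)) (v : V) :
    |mean fun w : Fin (2 * k + 1) → F =>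
      ind (endSt L q t (fun i => inwOut k w (Fin.castLE t.2.le i)) = v) * sg (inwOut k w t)| ≤
      k * Fintype.card V * ((2 * k + 1) / Fintype.card F) := by
  have hq : (0 : ℝ) < Fintype.card F := by exact_mod_cast Fintype.card_pos
  have h := InwNext.a_le F (V := V) ((2 * k + 1) / Fintype.card F) k
    (div_le_div_of_nonneg_right (by linarith) hq.le) (by positivity) L q t t.2 v
  exact h

end

end Helper4.GA
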