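import Pool.Agent.Helper4.GA.InwDefs
import Pool.Agent.Helper4.RC.Explicit

set_option autoImplicit false

/-!
The small bias steps of the generator are good expanders.

Proof sketch. For `N ≥ 1` and `w : Fin N → F` let `sg (∑ j, Tr (c j * w j))`, `c : Fin N → F`, be the characters of
`Fin N → F` (`e_c(w)`, multiplicative in `w`, symmetric, mean over `w` is `0` for `c ≠ 0`: `Explicit.sum_sg_trace`).
For `c ≠ 0`: `|mean over (a, b) of e_c (fun j => b * a ^ j)| ≤ N / card F`: it is the fraction of the `a` with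
`∑ j, c j * a ^ j = 0` (for other `a` the mean over `b` is `0`), at most `N - 1` roots.
Expansion: `f w = ∑ c, fh c * e_c(w)` with `fh c = mean (f * e_c)`, `∑ c, fh c ^ 2 = mean (f ^ 2) ≤ 1`; then
`mean over w, (a, b) of f w * g (w + step) = ∑ c, fh c * gh c * mean (e_c step)`, the term `c = 0` is `mean f * mean g`, and
the others are at most `N / card F * ∑ c, |fh c * gh c| ≤ N / card F` (Cauchy-Schwarz).
(A similar statement for operators is proved in Pool/Agent/Helper12/GR, files Spec.lean, Fool.lean, Loop.lean.)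
`inw_zero`: the trace is surjective, so its values are balanced.
-/

namespace Helper4.GA

open Finset Helper4.RC

namespace InwStep

section chars

variable {F : Type} [Field F] [Algebra (ZMod 2) F]

/-- The characters. -/
noncomputable def ch {N : ℕ} (c x : Fin N → F) : ℝ :=
  sg (Algebra.trace (ZMod 2) F (∑ j, c j * x j))

lemma ch_add_right {N : ℕ} (c x y : Fin N → F) : ch c (x + y) = ch c x * ch c y := by
  unfold ch
  rw [← Explicit.sg_add', ← map_add, ← Finset.sum_add_distrib]
  congr 2
  exact Finset.sum_congr rfl fun j _ => by rw [Pi.add_apply, mul_add]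

lemma ch_add_left {N : ℕ} (c d x : Fin N → F) : ch (c + d) x = ch c x * ch d x := by
  unfold ch
  rw [← Explicit.sg_add', ← map_add, ← Finset.sum_add_distrib]
  congr 2
  exact Finset.sum_congr rfl fun j _ => by rw [Pi.add_apply, add_mul]

lemma ch_zero_left {N : ℕ} (x : Fin N → F) : ch 0 x = 1 := by
  unfold ch
  simp [Explicit.sg_zero']

lemma ch_zero_right {N : ℕ} (c : Fin N → F) : ch c 0 = 1 := by
  unfold ch
  simp [Explicit.sg_zero']

lemma add_self' {N : ℕ} (x : Fin N → F) : x + x = 0 := by
  have : CharP F 2 := charP_of_injective_algebraMap (algebraMap (ZMod 2) F).injective 2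
  ext j
  simp only [Pi.add_apply, Pi.zero_apply]
  exact CharTwo.add_self_eq_zero _

lemma eq_of_add_eq_zero {N : ℕ} {x y : Fin N → F} (h : x + y = 0) : x = y := by
  have h2 := add_self' (F := F) y
  exact add_right_cancel (h.trans h2.symm)

variable [Fintype F]

lemma exists_ch {N : ℕ} (x : Fin N → F) (hx : x ≠ 0) : ∃ c₀ : Fin N → F, ch c₀ x = -1 := by
  classical
  obtain ⟨j, hj⟩ : ∃ j, x j ≠ 0 := by
    by_contra hno
    push Not at hno
    exact hx (funext hno)
  have : FiniteDimensional (ZMod 2) F := Module.Finite.of_finite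
  obtain ⟨b, hb⟩ := Algebra.trace_surjective (ZMod 2) F 1
  refine ⟨fun i => if i = j then b * (x j)⁻¹ else 0, ?_⟩
  unfold ch
  have h : ∑ i, (if i = j then b * (x j)⁻¹ else 0) * x i = b := by
    rw [Finset.sum_eq_single j]
    · rw [if_pos rfl, mul_assoc, inv_mul_cancel₀ hj, mul_one]
    · intro i _ hi
      rw [if_neg hi, zero_mul]
    · intro h
      exact absurd (Finset.mem_univ _) h
  rw [h, hb]
  simp [sg]

lemma sum_ch {N : ℕ} (x : Fin N → F) (hx : x ≠ 0) : ∑ c : Fin N → F, ch c x = 0 := by
  obtain ⟨c₀, h0⟩ := exists_ch x hx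
  have h : ∑ c : Fin N → F, ch (c + c₀) x = ∑ c : Fin N → F, ch c x :=
    Equiv.sum_comp (Equiv.addRight c₀) fun c : Fin N → F => ch c x
  have h2 : ∑ c : Fin N → F, ch (c + c₀) x = - ∑ c : Fin N → F, ch c x := by
    rw [← Finset.sum_neg_distrib]
    apply Finset.sum_congr rfl
    intro c _
    rw [ch_add_left, h0]
    ring
  rw [h2] at h
  linarith

/-- The unnormalised Fourier coefficients. -/
noncomputable def ft {N : ℕ} (f : (Fin N → F) → ℝ) (c : Fin N → F) : ℝ := ∑ x, ch c x * f x

/-- The correlation with a shift is a sum over the characters. -/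
lemma corr {N : ℕ} (f g : (Fin N → F) → ℝ) (s : Fin N → F) :
    ∑ c, ft f c * ft g c * ch c s =
      (Fintype.card (Fin N → F) : ℝ) * ∑ x, f x * g (x + s) := by
  classical
  have h1 : ∀ c : Fin N → F, ft f c * ft g c * ch c s =
      ∑ x, ∑ y, ch c (x + y + s) * (f x * g y) := by
    intro c
    unfold ft
    rw [Finset.sum_mul_sum, Finset.sum_mul]
    apply Finset.sum_congr rfl
    intro x _
    rw [Finset.sum_mul]
    apply Finset.sum_congr rfl
    intro y _
    rw [ch_add_right, ch_add_right]
    ring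
  simp only [h1]
  rw [Finset.sum_comm, Finset.mul_sum]
  apply Finset.sum_congr rfl
  intro x _
  rw [Finset.sum_comm, Finset.sum_eq_single (x + s)]
  · rw [← Finset.sum_mul]
    congr 1
    have h0 : x + (x + s) + s = 0 := by
      rw [← add_assoc, add_self' x, zero_add, add_self']
    simp only [h0, ch_zero_right]
    simp
  · intro y _ hy
    rw [← Finset.sum_mul, sum_ch, zero_mul]
    intro h0
    apply hy
    have h2 : x + s + y = 0 := by
      rw [← h0]
      abel
    exact (eq_of_add_eq_zero h2).symm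
  · intro h
    exact absurd (Finset.mem_univ _) h

lemma sum_ft_sq {N : ℕ} (f : (Fin N → F) → ℝ) (hf : ∀ w, |f w| ≤ 1) :
    ∑ c, ft f c ^ 2 ≤ (Fintype.card (Fin N → F) : ℝ) ^ 2 := by
  have h := corr f f 0
  simp only [ch_zero_right, mul_one, add_zero] at h
  have h1 : ∑ c, ft f c ^ 2 = ∑ c, ft f c * ft f c := Finset.sum_congr rfl fun c _ => by ring
  rw [h1, h, sq]
  apply mul_le_mul_of_nonneg_left _ (Nat.cast_nonneg _)
  calc ∑ x, f x * f x ≤ ∑ _x : Fin N → F, (1 : ℝ) := by
        apply Finset.sum_le_sum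
        intro x _
        have := abs_le.1 (hf x)
        nlinarith [this.1, this.2]
    _ = Fintype.card (Fin N → F) := by simp

open Polynomial in
lemma be_le {N : ℕ} (c : Fin N → F) (hc : c ≠ 0) :
    |∑ e : F × F, ch c (fun j => e.2 * e.1 ^ (j : ℕ))| ≤
      (N : ℝ) / Fintype.card F * (Fintype.card (F × F) : ℝ) := by
  classical
  have hq : (0 : ℝ) < Fintype.card F := by exact_mod_cast Fintype.card_pos
  obtain ⟨j0, hj0⟩ : ∃ j, c j ≠ 0 := by
    by_contra hno
    push Not at hno
    exact hc (funext hno)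
  set P : F[X] := ∑ i : Fin N, C (c i) * X ^ (i : ℕ) with hP
  have hcoef : P.coeff (j0 : ℕ) = c j0 := by
    rw [hP, finsetSum_coeff, Finset.sum_eq_single j0]
    · simp
    · intro i _ hi
      rw [coeff_C_mul, coeff_X_pow, if_neg, mul_zero]
      intro h
      exact hi (Fin.ext h).symm
    · intro h
      exact absurd (Finset.mem_univ _) h
  have hP0 : P ≠ 0 := by
    intro h
    rw [h, coeff_zero] at hcoef
    exact hj0 hcoef.symm
  have hdeg : P.natDegree ≤ N := by
    rw [hP]
    apply natDegree_sum_le_of_forall_le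
    intro i _
    exact (natDegree_C_mul_X_pow_le _ _).trans i.2.le
  have hev : ∀ a : F, P.eval a = ∑ i : Fin N, c i * a ^ (i : ℕ) := by
    intro a
    rw [hP, eval_finsetSum]
    simp
  have hroots : (Finset.univ.filter fun a : F => P.eval a = 0).card ≤ N := by
    have hsub : (Finset.univ.filter fun a : F => P.eval a = 0) ⊆ P.roots.toFinset := by
      intro a ha
      rw [Finset.mem_filter] at ha
      rw [Multiset.mem_toFinset, mem_roots hP0, IsRoot]
      exact ha.2
    calc _ ≤ P.roots.toFinset.card := Finset.card_le_card hsub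
      _ ≤ Multiset.card P.roots := Multiset.toFinset_card_le _
      _ ≤ P.natDegree := card_roots' _
      _ ≤ N := hdeg
  have hch : ∀ a b : F, ch c (fun j => b * a ^ (j : ℕ)) =
      sg (Algebra.trace (ZMod 2) F (b * P.eval a)) := by
    intro a b
    unfold ch
    rw [hev, Finset.mul_sum]
    congr 2
    exact Finset.sum_congr rfl fun i _ => by ring
  have hin : ∀ a : F, ∑ b : F, ch c (fun j => b * a ^ (j : ℕ)) =
      if P.eval a = 0 then (Fintype.card F : ℝ) else 0 := by
    intro a
    split_ifs with h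
    · simp only [hch, h, mul_zero, map_zero, Explicit.sg_zero']
      simp
    · simp only [hch]
      exact Explicit.sum_sg_trace _ h
  rw [Fintype.sum_prod_type]
  simp only [hin]
  rw [← Finset.sum_filter, Finset.sum_const, nsmul_eq_mul, Fintype.card_prod, Nat.cast_mul]
  rw [abs_of_nonneg (by positivity)]
  have h3 : ((Finset.univ.filter fun a : F => P.eval a = 0).card : ℝ) ≤ N := by
    exact_mod_cast hroots
  calc ((Finset.univ.filter fun a : F => P.eval a = 0).card : ℝ) * (Fintype.card F : ℝ)
      ≤ (N : ℝ) * (Fintype.card F : ℝ) := by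
        apply mul_le_mul_of_nonneg_right h3 hq.le
    _ = (N : ℝ) / (Fintype.card F : ℝ) * ((Fintype.card F : ℝ) * (Fintype.card F : ℝ)) := by
        field_simp

end chars

end InwStep

section

variable (F : Type) [Field F] [Fintype F] [Algebra (ZMod 2) F]

open InwStep in
theorem step_mix (N : ℕ) (f g : (Fin N → F) → ℝ) (hf : ∀ w, |f w| ≤ 1) (hg : ∀ w, |g w| ≤ 1) :
    |(mean fun p : (F × F) × (Fin N → F) => f p.2 * g fun j => p.2 j + p.1.2 * p.1.1 ^ (j : ℕ)) -
      mean f * mean g| ≤ N / Fintype.card F := by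
  classical
  have hK : (0 : ℝ) < (Fintype.card (Fin N → F) : ℝ) := by exact_mod_cast Fintype.card_pos
  have hQ : (0 : ℝ) < (Fintype.card (F × F) : ℝ) := by exact_mod_cast Fintype.card_pos
  have hq : (0 : ℝ) < (Fintype.card F : ℝ) := by exact_mod_cast Fintype.card_pos
  set K : ℝ := (Fintype.card (Fin N → F) : ℝ) with hKd
  set Q : ℝ := (Fintype.card (F × F) : ℝ) with hQd
  set q : ℝ := (Fintype.card F : ℝ) with hqd
  set be : (Fin N → F) → ℝ := fun c => ∑ e : F × F, ch c (fun j => e.2 * e.1 ^ (j : ℕ)) with hbe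
  have hbe0 : be 0 = Q := by
    simp only [hbe, ch_zero_left]
    simp [hQd]
  have h1 : K ^ 2 * Q * (mean fun p : (F × F) × (Fin N → F) =>
      f p.2 * g fun j => p.2 j + p.1.2 * p.1.1 ^ (j : ℕ)) = ∑ c, ft f c * ft g c * be c := by
    unfold mean
    rw [Fintype.card_prod, Nat.cast_mul, ← hKd, ← hQd, Fintype.sum_prod_type]
    have h2 : ∀ e : F × F, K * ∑ x : Fin N → F, f x * g (fun j => x j + e.2 * e.1 ^ (j : ℕ)) =
        ∑ c, ft f c * ft g c * ch c (fun j => e.2 * e.1 ^ (j : ℕ)) := by
      intro e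
      rw [corr f g (fun j : Fin N => e.2 * e.1 ^ (j : ℕ))]
      rfl
    have h3 : K * ∑ e : F × F, ∑ x : Fin N → F, f x * g (fun j => x j + e.2 * e.1 ^ (j : ℕ)) =
        ∑ c, ft f c * ft g c * be c := by
      rw [Finset.mul_sum, Finset.sum_congr rfl fun e _ => h2 e, Finset.sum_comm]
      apply Finset.sum_congr rfl
      intro c _
      rw [hbe, Finset.mul_sum]
    rw [← h3]
    field_simp
  have h0 : ft f 0 * ft g 0 = K ^ 2 * (mean f * mean g) := by
    unfold ft mean
    simp only [ch_zero_left, one_mul]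
    rw [← hKd]
    field_simp
  have h4 : K ^ 2 * Q * ((mean fun p : (F × F) × (Fin N → F) =>
      f p.2 * g fun j => p.2 j + p.1.2 * p.1.1 ^ (j : ℕ)) - mean f * mean g) =
      ∑ c ∈ Finset.univ.erase (0 : Fin N → F), ft f c * ft g c * be c := by
    rw [mul_sub, h1, ← Finset.add_sum_erase Finset.univ _ (Finset.mem_univ (0 : Fin N → F)),
      hbe0, h0]
    ring
  have h5 : |∑ c ∈ Finset.univ.erase (0 : Fin N → F), ft f c * ft g c * be c| ≤
      K ^ 2 * Q * (N / q) := by
    calc |∑ c ∈ Finset.univ.erase (0 : Fin N → F), ft f c * ft g c * be c|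
        ≤ ∑ c ∈ Finset.univ.erase (0 : Fin N → F), |ft f c * ft g c * be c| :=
          Finset.abs_sum_le_sum_abs _ _
      _ ≤ ∑ c ∈ Finset.univ.erase (0 : Fin N → F),
            (ft f c ^ 2 + ft g c ^ 2) / 2 * (N / q * Q) := by
          apply Finset.sum_le_sum
          intro c hc
          rw [abs_mul]
          apply mul_le_mul _ (be_le c (Finset.ne_of_mem_erase hc)) (abs_nonneg _) (by positivity)
          rw [abs_le]
          constructor <;> nlinarith [sq_nonneg (ft f c + ft g c), sq_nonneg (ft f c - ft g c)]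
      _ ≤ ∑ c, (ft f c ^ 2 + ft g c ^ 2) / 2 * (N / q * Q) := by
          apply Finset.sum_le_sum_of_subset_of_nonneg (Finset.erase_subset _ _)
          intro c _ _
          positivity
      _ = (∑ c, ft f c ^ 2 + ∑ c, ft g c ^ 2) / 2 * (N / q * Q) := by
          rw [← Finset.sum_mul, ← Finset.sum_div, Finset.sum_add_distrib]
      _ ≤ (K ^ 2 + K ^ 2) / 2 * (N / q * Q) := by
          have hf2 := sum_ft_sq f hf
          have hg2 := sum_ft_sq g hg
          apply mul_le_mul_of_nonneg_right _ (by positivity)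
          rw [← hKd] at hf2 hg2
          linarith
      _ = K ^ 2 * Q * (N / q) := by ring
  rw [← h4, abs_mul, abs_of_pos (by positivity)] at h5
  exact le_of_mul_le_mul_left h5 (by positivity)

theorem mean_sg_trace : (mean fun a : F => sg (Algebra.trace (ZMod 2) F a)) = 0 := by
  have h := Explicit.sum_sg_trace (1 : F) one_ne_zero
  simp only [mul_one] at h
  unfold mean
  rw [h, zero_div]

end

end Helper4.GA
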