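import Pool.Agent.Helper4.GA.CplDefs
import Pool.Agent.Helper4.RC.LastStep
import Pool.Agent.Helper4.RC.Prog

set_option autoImplicit false

/-!
The last small bias string, shifted by a fixed string.

Proof sketch. Let `c' i b = c i (b + ez y i)`: `endSt (run c') q t x = endSt (run c) q t (fun i => x i + y (castLE i))`
(induction on `t`). `last_step` (RC/LastStep.lean) for `run c'`, `n := t`, `acc = ind (· = v)`, the strings
`fun θ i => str θ (Fin.castLE ht i)` (`biased_castLE` in RC/Lay.lean), `k`, `Λ`, `N` (`hN` is monotone in `n`;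
`Fintype.card (Fin m → Fin w) = w ^ m`): the true mean for `run c'` is the one for `run c` (shift `x` by `y`:
`Equiv.sum_comp (Equiv.addRight _)`), which is `pb (run c) q t v` (definition of `dist`, `pw (1/2) = 1/2^t`). The weights do not
change: for `g' x = g (fun i => x i + y i)` one has `fc g' χ = ± fc g χ`, so `lv k g' = lv k g`. The sum over `s < t` in
`last_step` is at most the sum over `s < n` in `eb`.
-/

namespace Helper4.GA

open Finset Helper4.RC

/-- The error of the last string for the cascade program `c`. -/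
noncomputable def eb {m w : ℕ} (c : ℕ → ZMod 2 → Instr m w) (q : Fin m → Fin w) (n Λ k : ℕ)
    (δ : ℝ) : ℝ :=
  δ * (k * (w : ℝ) ^ m * (2 * (2 * (Λ : ℝ)) ^ k)) +
    ∑ t ∈ range n, ∑ v, √(lv k (fun x : Fin (t + 1) → ZMod 2 =>
      ind (endSt (run c) q (t + 1) x = v)) + δ * (2 * (2 * (Λ : ℝ)) ^ k) ^ 2)

private lemma lastE_sg_add (s t : ZMod 2) : sg (s + t) = sg s * sg t := by
  have h10 : (1 : ZMod 2) ≠ 0 := by decide
  have h11 : (1 : ZMod 2) + 1 = 0 := by decide
  rcases SkAux.zc s with rfl | rfl <;> rcases SkAux.zc t with rfl | rfl <;> simp [sg, h10, h11]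

private lemma lastE_end {m w n : ℕ} (c : ℕ → ZMod 2 → Instr m w) (y : Fin n → ZMod 2)
    (q : Fin m → Fin w) (t : ℕ) : ∀ (ht : t ≤ n) (x : Fin t → ZMod 2),
      endSt (run fun i b => c i (b + ez y i)) q t x =
        endSt (run c) q t (fun i => x i + y (Fin.castLE ht i)) := by
  induction t with
  | zero => intro _ _; rfl
  | succ t ih =>
    intro ht x
    have htn : t < n := ht
    have h1 := ih (Nat.le_of_succ_le ht) fun i => x i.castSucc
    have hy : ez y t = y (Fin.castLE ht (Fin.last t)) := by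
      unfold ez
      rw [dif_pos htn]
      rfl
    rw [endSt, endSt]
    have h2 : (endSt (run fun i b => c i (b + ez y i)) q t fun i => x i.castSucc) =
        endSt (run c) q t (fun i : Fin t => x i.castSucc + y (Fin.castLE ht i.castSucc)) := h1
    rw [h2]
    show (c t (x (Fin.last t) + ez y t)).act _ =
      (c t (x (Fin.last t) + y (Fin.castLE ht (Fin.last t)))).act _
    rw [hy]

private lemma lastE_mw {t : ℕ} (χ y z : Fin t → ZMod 2) :
    mw (fun κ y => e2 κ y / 2) χ (fun i => y i + z i) =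
      (∏ i, e2 (χ i) (z i)) * mw (fun κ y => e2 κ y / 2) χ y := by
  unfold mw
  rw [← Finset.prod_mul_distrib]
  refine Finset.prod_congr rfl fun i _ => ?_
  show e2 (χ i) (y i + z i) / 2 = e2 (χ i) (z i) * (e2 (χ i) (y i) / 2)
  have h : e2 (χ i) (y i + z i) = e2 (χ i) (y i) * e2 (χ i) (z i) := by
    unfold e2
    rw [mul_add, lastE_sg_add]
  rw [h]
  ring

private lemma lastE_sum {t : ℕ} {f g : (Fin t → ZMod 2) → ℝ} (z : Fin t → ZMod 2)
    (h : ∀ x, f x = g (fun i => x i + z i)) : ∑ x, f x = ∑ x, g x := by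
  have h1 := Equiv.sum_comp (Equiv.addRight z) g
  exact (Finset.sum_congr rfl fun x _ => h x).trans h1

private lemma lastE_fc {t : ℕ} (g : (Fin t → ZMod 2) → ℝ) (z χ : Fin t → ZMod 2) :
    fc (fun x => g fun i => x i + z i) χ = (∏ i, e2 (χ i) (z i)) * fc g χ := by
  unfold fc
  rw [Finset.mul_sum]
  have hz : ∀ i : Fin t, z i + z i = 0 := fun i => CharTwo.add_self_eq_zero _
  refine lastE_sum z fun x => ?_
  show mw (fun κ y => e2 κ y / 2) χ x * g (fun i => x i + z i) =
    (∏ i, e2 (χ i) (z i)) * (mw (fun κ y => e2 κ y / 2) χ (fun i => x i + z i) *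
      g (fun i => x i + z i))
  have h := lastE_mw χ (fun i => x i + z i) z
  have h2 : (fun i => (x i + z i) + z i) = x := by
    funext i
    rw [add_assoc, hz, add_zero]
  rw [h2] at h
  rw [h]
  ring

private lemma lastE_e2_sq (a b : ZMod 2) : e2 a b ^ 2 = 1 := by
  rw [← sq_abs]
  unfold e2
  rw [SkAux.abs_sg]
  norm_num

private lemma lastE_lv {t : ℕ} (k : ℕ) (g : (Fin t → ZMod 2) → ℝ) (z : Fin t → ZMod 2) :
    lv k (fun x => g fun i => x i + z i) = lv k g := by
  unfold lv
  refine Finset.sum_congr rfl fun χ _ => ?_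
  have h : (fc (fun x => g fun i => x i + z i) χ) ^ 2 = (fc g χ) ^ 2 := by
    rw [lastE_fc, mul_pow, ← Finset.prod_pow]
    simp only [lastE_e2_sq, Finset.prod_const_one, one_mul]
  rw [h]

private lemma lastE_mean {m w : ℕ} (c : ℕ → ZMod 2 → Instr m w) (q : Fin m → Fin w) (t : ℕ)
    (z : Fin t → ZMod 2) (v : Fin m → Fin w) :
    (mean fun x : Fin t → ZMod 2 => ind (endSt (run c) q t (fun i => x i + z i) = v)) =
      pb (run c) q t v := by
  have hcard : (Fintype.card (Fin t → ZMod 2) : ℝ) = 2 ^ t := by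
    rw [Fintype.card_fun, Fintype.card_fin, ZMod.card]
    push_cast
    rfl
  have hpw : ∀ y : Fin t → ZMod 2, pw (fun _ : ZMod 2 => (1 / 2 : ℝ)) y = 1 / 2 ^ t := by
    intro y
    unfold pw
    rw [Finset.prod_const, Finset.card_univ, Fintype.card_fin, div_pow, one_pow]
  unfold mean pb RC.dist
  simp only [hpw]
  rw [hcard, ← Finset.mul_sum]
  rw [lastE_sum (f := fun x : Fin t → ZMod 2 => ind (endSt (run c) q t (fun i => x i + z i) = v))
    (g := fun x : Fin t → ZMod 2 => ind (endSt (run c) q t x = v)) z fun x => rfl]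
  ring

theorem last_shift {Θ : Type} [Fintype Θ] [Nonempty Θ] (m w n Λ N k : ℕ) (hΛ : 1 ≤ Λ)
    (hk : 1 ≤ k)
    (hs : ∀ t ≤ n, ∀ (c : ℕ → ZMod 2 → Instr m w) (q : Fin m → Fin w),
      (bad (run c) q t Λ).card * 2 ^ N ≤ 2 ^ t)
    (hN : k * (6 * (2 * Λ + n * (w ^ m) ^ 2)) ^ k * (2 * n) ≤ 2 ^ N)
    (str : Θ → Fin n → ZMod 2) (δ : ℝ) (hδ : 0 ≤ δ) (hstr : Biased str δ)
    (c : ℕ → ZMod 2 → Instr m w) (q : Fin m → Fin w) (y : Fin n → ZMod 2) (t : ℕ) (ht : t ≤ n)
    (v : Fin m → Fin w) :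
    |(mean fun θ => ind (endSt (run c) q t
        (fun i => str θ (Fin.castLE ht i) + y (Fin.castLE ht i)) = v)) - pb (run c) q t v| ≤
      eb c q n Λ k δ := by
  obtain ⟨L, hL⟩ : ∃ L : ℕ → ZMod 2 → Instr m w, L = fun i b => c i (b + ez y i) := ⟨_, rfl⟩
  have hend : ∀ (s : ℕ) (hs : s ≤ n) (x : Fin s → ZMod 2), endSt (run L) q s x =
      endSt (run c) q s (fun i => x i + y (Fin.castLE hs i)) := by
    intro s hs x
    rw [hL]
    exact lastE_end c y q s hs x
  have hcard : Fintype.card (Fin m → Fin w) = w ^ m := by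
    rw [Fintype.card_fun, Fintype.card_fin, Fintype.card_fin]
  have hN' : k * (6 * (2 * Λ + t * Fintype.card (Fin m → Fin w) ^ 2)) ^ k * (2 * t) ≤ 2 ^ N := by
    rw [hcard]
    refine le_trans ?_ hN
    gcongr
  have hacc : ∀ u : Fin m → Fin w, |(ind (u = v) : ℝ)| ≤ 1 := by
    intro u
    unfold ind
    split_ifs <;> norm_num
  have h := last_step (run L) q (fun u => ind (u = v)) hacc t Λ N k hΛ hk
    (fun s hst => hs s (hst.trans ht) L q) hN'
    (fun θ (i : Fin t) => str θ (Fin.castLE ht i)) δ hδ (biased_castLE ht hstr)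
  simp only [hend t ht] at h
  rw [lastE_mean c q t (fun i => y (Fin.castLE ht i)) v] at h
  refine h.trans ?_
  unfold eb
  rw [hcard]
  push_cast
  refine add_le_add le_rfl ?_
  have hterm : ∀ s ∈ range t, (∑ u, √(lv k (fun x : Fin (s + 1) → ZMod 2 =>
      ind (endSt (run L) q (s + 1) x = u)) + δ * (2 * (2 * (Λ : ℝ)) ^ k) ^ 2)) =
      ∑ u, √(lv k (fun x : Fin (s + 1) → ZMod 2 =>
      ind (endSt (run c) q (s + 1) x = u)) + δ * (2 * (2 * (Λ : ℝ)) ^ k) ^ 2) := by
    intro s hst
    have hs1 : s + 1 ≤ n := by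
      have := Finset.mem_range.1 hst
      omega
    refine Finset.sum_congr rfl fun u _ => ?_
    have h1 : (fun x : Fin (s + 1) → ZMod 2 => (ind (endSt (run L) q (s + 1) x = u) : ℝ)) =
        fun x => (fun x' : Fin (s + 1) → ZMod 2 => (ind (endSt (run c) q (s + 1) x' = u) : ℝ))
          (fun i => x i + y (Fin.castLE hs1 i)) := by
      funext x
      rw [hend (s + 1) hs1]
    rw [h1]
    have h2 := lastE_lv k (fun x' : Fin (s + 1) → ZMod 2 =>
      (ind (endSt (run c) q (s + 1) x' = u) : ℝ)) (fun i => y (Fin.castLE hs1 i))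
    rw [show lv k (fun x => (fun x' : Fin (s + 1) → ZMod 2 =>
      (ind (endSt (run c) q (s + 1) x' = u) : ℝ)) (fun i => x i + y (Fin.castLE hs1 i))) =
      lv k (fun x' : Fin (s + 1) → ZMod 2 =>
      (ind (endSt (run c) q (s + 1) x' = u) : ℝ)) from h2]
  rw [Finset.sum_congr rfl hterm]
  refine Finset.sum_le_sum_of_subset_of_nonneg (Finset.range_mono ht) fun s _ _ => ?_
  exact Finset.sum_nonneg fun u _ => Real.sqrt_nonneg _

end Helper4.GA
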