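import Pool.Agent.Helper4.GA.ParW
import Pool.Agent.Helper4.GA.Chain
import Pool.Agent.Helper4.GA.InwNext
import Pool.Agent.Helper4.RC.Main

set_option autoImplicit false

/-!
The main theorems for registers changed by permutations.
-/

namespace Helper4.GA

open Finset Helper4.RC

/-- The generator with `r` levels of restrictions applied to the sum of a small bias string and an
output of the generator of Impagliazzo, Nisan and Wigderson satisfies the test `f` with the same
probability as a uniformly random string, up to `ε`. -/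
def Fooled2 (F F' : Type) [Field F] [Fintype F] [Algebra (ZMod 2) F] [Field F'] [Fintype F']
    [Algebra (ZMod 2) F'] (k r : ℕ) (ε : ℝ) (f : (Fin (2 ^ k) → ZMod 2) → Prop) : Prop :=
  |(mean fun ω : (Fin r → (F × F) × (F × F)) × ((F × F) × (Fin (2 * k + 1) → F')) =>
      ind (f (lay (powStr F (2 ^ k)) r ω.1 (powStr F (2 ^ k) ω.2.1 + inwOut k ω.2.2)))) -
    mean fun x : Fin (2 ^ k) → ZMod 2 => ind (f x)| ≤ ε

/-- The main theorem for cascades of reset registers with one more register changed by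
permutations. -/
theorem main_reg (m w v : ℕ) (hw : 1 ≤ w) : ∃ C₀ : ℕ, ∀ C k s L : ℕ, C₀ ≤ C → 1 ≤ L → k + s ≤ L →
    ∀ (F : Type) [Field F] [Fintype F] [Algebra (ZMod 2) F]
      (F' : Type) [Field F'] [Fintype F'] [Algebra (ZMod 2) F'],
    2 ^ (C * L * (Nat.log 2 L + 1)) ≤ Fintype.card F →
    2 ^ (C * (Nat.log 2 L + 1 + s)) ≤ Fintype.card F' →
    ∀ (c : ℕ → ZMod 2 → Instr m w) (φ : ℕ → ZMod 2 → (Fin m → Fin w) → Equiv.Perm (Fin v))
      (u₀ : (Fin m → Fin w) × Fin v) (A : Set ((Fin m → Fin w) × Fin v)),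
      Fooled2 F F' k (C * (Nat.log 2 L + 1 + s)) ((1 / 2) ^ s) fun x =>
        endSt (prg (run c) φ) u₀ (2 ^ k) x ∈ A := by
  classical
  rcases Nat.eq_zero_or_pos v with hv | hv
  · refine ⟨0, ?_⟩
    intro C k s L _ _ _ F _ _ _ F' _ _ _ _ _ c φ u₀ A
    subst hv
    exact u₀.2.elim0
  · obtain ⟨C', h₀⟩ := sens_all m
    obtain ⟨Cc, hCc1, hCc⟩ := chain
      (Option (((Fin m → Fin w) × Fin v) × ((Fin m → Fin w) × Fin v))) ((w ^ m * v) ^ 2 + 1)
    obtain ⟨C₀, hC₀⟩ := paramsW m w v (C' + 1) Cc hw hv (by omega) hCc1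
    refine ⟨C₀, ?_⟩
    intro C k s L hCC hL hks F _ _ _ F' _ _ _ hF hF' c φ u₀ A
    obtain ⟨δ, hδdef⟩ : ∃ δ : ℝ, δ = ((2 ^ k : ℕ) : ℝ) / Fintype.card F := ⟨_, rfl⟩
    have hδ : 0 ≤ δ := by rw [hδdef]; positivity
    have hcard : (0 : ℝ) < Fintype.card F := by exact_mod_cast Fintype.card_pos
    have hδ2 : δ * 2 ^ (C * L * (Nat.log 2 L + 1)) ≤ 2 ^ k := by
      rw [hδdef, div_mul_eq_mul_div, div_le_iff₀ hcard]
      push_cast
      apply mul_le_mul_of_nonneg_left _ (by positivity)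
      exact_mod_cast hF
    have hcard' : (0 : ℝ) < Fintype.card F' := by exact_mod_cast Fintype.card_pos
    obtain ⟨ν, hνdef⟩ : ∃ ν : ℝ, ν = k * ((2 * k + 1) / Fintype.card F') := ⟨_, rfl⟩
    have hν : 0 ≤ ν := by rw [hνdef]; positivity
    have hν2 : ν * 2 ^ (C * (Nat.log 2 L + 1 + s)) ≤ k * (2 * k + 1) := by
      rw [hνdef, ← mul_div_assoc, div_mul_eq_mul_div, div_le_iff₀ hcard']
      apply mul_le_mul_of_nonneg_left _ (by positivity)
      exact_mod_cast hF'
    obtain ⟨N, k₁, k₂, kc, lam, P⟩ := hC₀ C hCC L k s hL hks δ hδ hδ2 ν hν hν2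
    have hN1 := P.one_le_N
    have hbias : Biased (powStr F (2 ^ k)) δ := by
      rw [hδdef]
      exact biased_powStr F (2 ^ k)
    have hs : ∀ t ≤ 2 ^ k, ∀ (c : ℕ → ZMod 2 → Instr m w) (q : Fin m → Fin w),
        (bad (run c) q t ((C' + 1) * N ^ (C' + 1))).card * 2 ^ N ≤ 2 ^ t := by
      intro t ht c q
      have hN2 := P.le_N
      refine le_trans ?_ (h₀ N t w hN1 (by omega) c q)
      apply Nat.mul_le_mul_right
      apply Finset.card_le_card
      apply bad_anti
      exact Nat.mul_le_mul (by omega) (Nat.pow_le_pow_right hN1 (by omega))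
    have hΛ : 1 ≤ (C' + 1) * N ^ (C' + 1) := Nat.one_le_iff_ne_zero.2 (by positivity)
    have hY : Next (fun w : Fin (2 * k + 1) → F' => inwOut k w) ν := by
      intro V _ L q t v
      have h := inw_next F' k L q t v
      rw [hνdef]
      refine h.trans (le_of_eq ?_)
      ring
    have hQ1 : (1 : ℝ) ≤ (Cc : ℝ) * ((lam : ℝ) + 1) ^ (2 * ((w ^ m * v) ^ 2 + 1)) := by
      have h1 : (1 : ℝ) ≤ Cc := by exact_mod_cast hCc1
      have h2 : (1 : ℝ) ≤ ((lam : ℝ) + 1) ^ (2 * ((w ^ m * v) ^ 2 + 1)) :=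
        one_le_pow₀ (by linarith [Nat.cast_nonneg (α := ℝ) lam])
      nlinarith
    unfold Fooled2
    have key := asm m w v (2 ^ k) ((C' + 1) * N ^ (C' + 1)) N k₁ k₂ kc
      (C * (Nat.log 2 L + 1 + s)) hΛ P.one_le_k P.le hs P.hN P.one_le_kc
      ((Cc : ℝ) * ((lam : ℝ) + 1) ^ (2 * ((w ^ m * v) ^ 2 + 1)))
      (((Cc : ℝ) * ((2 ^ k : ℕ) + 1) * (lam + 1)) ^ Cc / 2 ^ lam) hQ1 (by positivity)
      (hCc (2 ^ k) lam) P.hNc P.hε (powStr F (2 ^ k)) δ hδ hbias
      (fun w : Fin (2 * k + 1) → F' => inwOut k w) ν hν hY c φ u₀ (fun u => ind (u ∈ A))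
      (fun u => ind_nonneg _) (fun u => ind_le_one _)
    exact key.trans P.err

/-- The main theorem for group-free programs of width `w` with a register changed by
permutations. -/
theorem main_width2 (w v : ℕ) : ∃ C₀ : ℕ, ∀ C k s L : ℕ, C₀ ≤ C → 1 ≤ L → k + s ≤ L →
    ∀ (F : Type) [Field F] [Fintype F] [Algebra (ZMod 2) F]
      (F' : Type) [Field F'] [Fintype F'] [Algebra (ZMod 2) F'],
    2 ^ (C * L * (Nat.log 2 L + 1)) ≤ Fintype.card F →
    2 ^ (C * (Nat.log 2 L + 1 + s)) ≤ Fintype.card F' →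
    ∀ (f : ℕ → ZMod 2 → Function.End (Fin w)), GroupFree f →
    ∀ (φ : ℕ → ZMod 2 → Fin w → Equiv.Perm (Fin v)) (u₀ : Fin w × Fin v)
      (A : Set (Fin w × Fin v)),
      Fooled2 F F' k (C * (Nat.log 2 L + 1 + s)) ((1 / 2) ^ s) fun x =>
        endSt (prg (fun i b => f i b) φ) u₀ (2 ^ k) x ∈ A := by
  classical
  have hfinE : Finite (Function.End (Fin w)) := inferInstanceAs (Finite (Fin w → Fin w))
  have hS : ∀ N : Set (Function.End (Fin w)), ∃ C₀ : ℕ,
      (∀ g ∈ Submonoid.closure N, ∃ k : ℕ, g ^ (k + 1) = g ^ k) →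
      ∀ C k s L : ℕ, C₀ ≤ C → 1 ≤ L → k + s ≤ L →
      ∀ (F : Type) [Field F] [Fintype F] [Algebra (ZMod 2) F]
        (F' : Type) [Field F'] [Fintype F'] [Algebra (ZMod 2) F'],
      2 ^ (C * L * (Nat.log 2 L + 1)) ≤ Fintype.card F →
      2 ^ (C * (Nat.log 2 L + 1 + s)) ≤ Fintype.card F' →
      ∀ (a : ℕ → ZMod 2 → (Submonoid.closure N)ᵐᵒᵖ)
        (φ : ℕ → ZMod 2 → Fin w → Equiv.Perm (Fin v)) (u₀ : Fin w × Fin v)
        (A : Set (Fin w × Fin v)),
        Fooled2 F F' k (C * (Nat.log 2 L + 1 + s)) ((1 / 2) ^ s) fun x =>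
          endSt (prg (fun i b => (a i b).unop.1) φ) u₀ (2 ^ k) x ∈ A := by
    intro N
    by_cases hN : ∀ g ∈ Submonoid.closure N, ∃ k : ℕ, g ^ (k + 1) = g ^ k
    · have hfin : Finite (Submonoid.closure N)ᵐᵒᵖ :=
        Finite.of_equiv (Submonoid.closure N) MulOpposite.opEquiv
      obtain ⟨w', hw', m, c, q, out, hout⟩ := kr (Submonoid.closure N)ᵐᵒᵖ (by
        intro x
        obtain ⟨k, hk⟩ := hN x.unop.1 x.unop.2
        refine ⟨k, ?_⟩
        apply MulOpposite.unop_injective
        apply Subtype.ext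
        simpa using hk)
      obtain ⟨C₀, hC₀⟩ := main_reg m w' v hw'
      refine ⟨C₀, fun _ => ?_⟩
      intro C k s L hCC hL hks F _ _ _ F' _ _ _ hF hF' a φ u₀ A
      obtain ⟨g, hg⟩ : ∃ g : (Fin m → Fin w') → Fin w, g = fun S => (out S).unop.1 u₀.1 :=
        ⟨_, rfl⟩
      have hend : ∀ (t : ℕ) (x : Fin t → ZMod 2), ∃ l : List (Submonoid.closure N)ᵐᵒᵖ,
          (endSt (prg (run fun i b => c (a i b)) fun i b S => φ i b (g S)) (q, u₀.2) t x).1 =
            l.foldl (fun s b => (c b).act s) q ∧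
          endSt (prg (fun i b => (a i b).unop.1) φ) u₀ t x =
            (g (endSt (prg (run fun i b => c (a i b)) fun i b S => φ i b (g S))
              (q, u₀.2) t x).1,
            (endSt (prg (run fun i b => c (a i b)) fun i b S => φ i b (g S))
              (q, u₀.2) t x).2) := by
        intro t
        induction t with
        | zero =>
          intro x
          refine ⟨[], rfl, ?_⟩
          have h1 : g q = u₀.1 := by
            have h2 := hout []
            rw [List.foldl_nil] at h2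
            rw [hg]
            show (out q).unop.1 u₀.1 = u₀.1
            rw [h2]
            rfl
          show u₀ = (g q, u₀.2)
          rw [h1]
        | succ t ih =>
          intro x
          obtain ⟨l, h1, h2⟩ := ih fun i => x i.castSucc
          refine ⟨l ++ [a t (x (Fin.last t))], ?_, ?_⟩
          · rw [List.foldl_append, ← h1]
            rfl
          · rw [endSt, h2, endSt]
            obtain ⟨Z, hZ⟩ : ∃ Z, Z = endSt (prg (run fun i b => c (a i b))
              fun i b S => φ i b (g S)) (q, u₀.2) t fun i => x i.castSucc := ⟨_, rfl⟩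
            rw [← hZ] at h1 ⊢
            show ((a t (x (Fin.last t))).unop.1 (g Z.1), φ t (x (Fin.last t)) (g Z.1) Z.2) =
              (g ((c (a t (x (Fin.last t)))).act Z.1), φ t (x (Fin.last t)) (g Z.1) Z.2)
            have h3 : (a t (x (Fin.last t))).unop.1 (g Z.1) =
                g ((c (a t (x (Fin.last t)))).act Z.1) := by
              have h4 := hout (l ++ [a t (x (Fin.last t))])
              have h5 := hout l
              rw [List.foldl_append, ← h1] at h4
              rw [← h1] at h5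
              rw [hg]
              show (a t (x (Fin.last t))).unop.1 ((out Z.1).unop.1 u₀.1) =
                (out ((c (a t (x (Fin.last t)))).act Z.1)).unop.1 u₀.1
              have h6 : out ((c (a t (x (Fin.last t)))).act Z.1) =
                  (l ++ [a t (x (Fin.last t))]).prod := h4
              rw [h6, h5, List.prod_append]
              simp only [List.prod_cons, List.prod_nil, mul_one]
              rfl
            rw [h3]
      have key := hC₀ C k s L hCC hL hks F F' hF hF' (fun i b => c (a i b))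
        (fun i b S => φ i b (g S)) (q, u₀.2) {u | (g u.1, u.2) ∈ A}
      have hiff : ∀ x : Fin (2 ^ k) → ZMod 2,
          (endSt (prg (fun i b => (a i b).unop.1) φ) u₀ (2 ^ k) x ∈ A) ↔
          (endSt (prg (run fun i b => c (a i b)) fun i b S => φ i b (g S)) (q, u₀.2) (2 ^ k) x ∈
            {u : (Fin m → Fin w') × Fin v | (g u.1, u.2) ∈ A}) := by
        intro x
        obtain ⟨l, -, h2⟩ := hend (2 ^ k) x
        rw [h2]
        rfl
      simp only [hiff]
      exact key
    · exact ⟨0, fun h => absurd h hN⟩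
  choose C₀ hC₀ using hS
  obtain ⟨B, hB⟩ := Finite.exists_le C₀
  refine ⟨B, ?_⟩
  intro C k s L hBC hL hks F _ _ _ F' _ _ _ hF hF' f hf φ u₀ A
  obtain ⟨N, hN⟩ : ∃ N : Set (Function.End (Fin w)), N = {g | ∃ i b, g = f i b} := ⟨_, rfl⟩
  have hmem : ∀ i b, f i b ∈ Submonoid.closure N := fun i b =>
    Submonoid.subset_closure (by rw [hN]; exact ⟨i, b, rfl⟩)
  have hf' : ∀ g ∈ Submonoid.closure N, ∃ k : ℕ, g ^ (k + 1) = g ^ k := by
    rw [hN]
    exact hf
  exact hC₀ N hf' C k s L (le_trans (hB N) hBC) hL hks F F' hF hF'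
    (fun i b => MulOpposite.op ⟨f i b, hmem i b⟩) φ u₀ A

end Helper4.GA
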