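import Pool.Agent.Helper4.GA.TzStep

set_option autoImplicit false

/-!
The parameters for the test programs, for large `L`.

Proof sketch. `KV`, `Cc` are constants, `lam = L ^ 3`, `kc = 30 * L`, `h = Nat.log 2 L + 1` (`L < 2 ^ h`), `n ≤ 2 ^ L`,
`Qc = Cc * (lam + 1) ^ (2 * KV)`. There is a constant `a` with `3 * Qc ≤ 2 ^ (a * h)` (`lam + 1 ≤ 2 L ^ 3 ≤ 2 ^ (1 + 3 h)`,
`3 * Cc ≤ 2 ^ (2 + Cc)`), e.g. `a = 2 + Cc + 8 * KV`. Let `C = 60 * a + 20`.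
(1) For large `L`: `3 * (Qc + 2 * n * KV) ≤ 2 ^ (2 * L)` (`2 ^ (a h) ≤ (2 L) ^ a` is polynomial), so
`kc * (..) ^ kc ≤ 2 ^ L * 2 ^ (60 * L ^ 2)`, and `(Cc * (n + 1) * (lam + 1)) ^ Cc ≤ (2 ^ (3 * L)) ^ Cc`; the product is at most
`2 ^ (L + 60 L ^ 2 + 3 Cc L) ≤ 2 ^ (L ^ 3) = 2 ^ lam` for large `L`.
(2) `(3 Qc) ^ kc ≤ 2 ^ (30 a L h)`; `δ * (2 * (3 Qc) ^ kc) ^ 2 ≤ δ * 2 ^ (2 + 60 a L h) ≤ n * 2 ^ (2 + 60 a L h - C L h) ≤ 2 ^ (-17 L)` (real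
numbers; `C L h ≥ 60 a L h + 20 L`, `n ≤ 2 ^ L`, `2 ≤ 2 L`); `(2/3) ^ (30 L) ≤ 2 ^ (-17 L)` (`(2/3)^30 ≤ 2^(-17)`). So the square root is at most
`√(2 * 2 ^ (-17 L)) ≤ 2 ^ (-8 L)`, `n * KV * 2 ^ (-8 L) ≤ KV * 2 ^ (-7 L)`, and the first term is at most
`kc * KV * 2 ^ (-17 L)`; the sum is at most `2 ^ (-6 L)` for large `L` (`KV + 1 ≤ 2 ^ L`, `30 L KV ≤ 2 ^ L`).
-/

namespace Helper4.GA

open Helper4.RC

private lemma two_pow_le {a b : ℕ} (h : a ≤ b) : (2 : ℕ) ^ a ≤ 2 ^ b :=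
  Nat.pow_le_pow_right (by norm_num) h

/-- `3 Q` is at most `2 ^ (a h)`. -/
private lemma q_part (KV Cc L g : ℕ) (hL : 1 ≤ L) (hg : L < 2 ^ g) (hg1 : 1 ≤ g) :
    3 * (Cc * (L ^ 3 + 1) ^ (2 * KV)) ≤ 2 ^ ((2 + Cc + 8 * KV) * g) := by
  have h1 : L ^ 3 + 1 ≤ 2 ^ (4 * g) := by
    have h2 : L ^ 3 + 1 ≤ 2 ^ 1 * L ^ 3 := by
      have : 1 ≤ L ^ 3 := Nat.one_le_pow _ _ hL
      omega
    calc L ^ 3 + 1 ≤ 2 ^ 1 * L ^ 3 := h2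
      _ ≤ 2 ^ 1 * (2 ^ g) ^ 3 := Nat.mul_le_mul_left _ (Nat.pow_le_pow_left hg.le 3)
      _ = 2 ^ (1 + g * 3) := by rw [← pow_mul, ← pow_add]
      _ ≤ 2 ^ (4 * g) := two_pow_le (by omega)
  have h2 : (L ^ 3 + 1) ^ (2 * KV) ≤ 2 ^ (8 * KV * g) := by
    calc (L ^ 3 + 1) ^ (2 * KV) ≤ (2 ^ (4 * g)) ^ (2 * KV) := Nat.pow_le_pow_left h1 _
      _ = 2 ^ (8 * KV * g) := by rw [← pow_mul]; congr 1; ring
  have h3 : Cc ≤ 2 ^ Cc := Nat.lt_two_pow_self.le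
  calc 3 * (Cc * (L ^ 3 + 1) ^ (2 * KV)) ≤ 2 ^ 2 * (2 ^ Cc * 2 ^ (8 * KV * g)) :=
        Nat.mul_le_mul (by norm_num) (Nat.mul_le_mul h3 h2)
    _ = 2 ^ (2 + (Cc + 8 * KV * g)) := by rw [← pow_add, ← pow_add]
    _ ≤ 2 ^ ((2 + Cc + 8 * KV) * g) := two_pow_le (by nlinarith)

/-- `3 Q ≤ 2 ^ L` for large `L`. -/
private lemma q_le (KV Cc : ℕ) : ∃ L₀ : ℕ, ∀ L : ℕ, L₀ ≤ L → 1 ≤ L →
    3 * (Cc * (L ^ 3 + 1) ^ (2 * KV)) ≤ 2 ^ L := by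
  obtain ⟨a, ha⟩ : ∃ a : ℕ, a = 3 * Cc * 2 ^ (2 * KV) := ⟨_, rfl⟩
  have h := tendsto_pow_const_div_const_pow_of_one_lt (3 * (2 * KV)) (r := (2 : ℝ)) (by norm_num)
  have h2 : ∀ᶠ n : ℕ in Filter.atTop, (n : ℝ) ^ (3 * (2 * KV)) / 2 ^ n < 1 / ((a : ℝ) + 1) :=
    h.eventually_lt_const (by positivity)
  obtain ⟨L₀, h3⟩ := Filter.eventually_atTop.1 h2
  refine ⟨L₀, fun L hL hL1 => ?_⟩
  have h4 := h3 L hL
  rw [div_lt_div_iff₀ (by positivity) (by positivity)] at h4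
  have h5 : ((a * (L ^ 3) ^ (2 * KV) : ℕ) : ℝ) ≤ ((2 ^ L : ℕ) : ℝ) := by
    push_cast
    rw [← pow_mul]
    have h6 : 0 ≤ (L : ℝ) ^ (3 * (2 * KV)) := by positivity
    nlinarith
  have h7 : a * (L ^ 3) ^ (2 * KV) ≤ 2 ^ L := by exact_mod_cast h5
  refine le_trans ?_ h7
  have h8 : L ^ 3 + 1 ≤ 2 * L ^ 3 := by
    have : 1 ≤ L ^ 3 := Nat.one_le_pow _ _ hL1
    omega
  calc 3 * (Cc * (L ^ 3 + 1) ^ (2 * KV)) ≤ 3 * (Cc * (2 * L ^ 3) ^ (2 * KV)) :=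
        Nat.mul_le_mul_left _ (Nat.mul_le_mul_left _ (Nat.pow_le_pow_left h8 _))
    _ = a * (L ^ 3) ^ (2 * KV) := by rw [ha, mul_pow]; ring

/-- The first condition, in natural numbers. -/
private lemma nat_part {KV Cc L n Q : ℕ} (hL1 : 1 ≤ L) (hLK : 6 * KV ≤ L)
    (hLc : 96 + 7 * Cc ≤ L) (hn : n ≤ 2 ^ L) (hQ : 3 * Q ≤ 2 ^ L) :
    30 * L * (3 * (Q + 2 * n * KV)) ^ (30 * L) * ((Cc * (n + 1) * (L ^ 3 + 1)) ^ Cc) ≤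
      2 ^ (L ^ 3) := by
  have hL2 : L < 2 ^ L := Nat.lt_two_pow_self
  have h1 : 3 * (Q + 2 * n * KV) ≤ 2 ^ (3 * L) := by
    have e1 : n * (6 * KV) ≤ 2 ^ L * 2 ^ L := Nat.mul_le_mul hn (by omega)
    have e2 : (2 : ℕ) ^ L * 2 ^ L + 2 ^ L ≤ 2 ^ (3 * L) := by
      have e3 : (2 : ℕ) ^ (3 * L) = 2 ^ L * 2 ^ L * 2 ^ L := by
        rw [← pow_add, ← pow_add]; congr 1; ring
      have e4 : 2 ≤ (2 : ℕ) ^ L := by
        calc 2 = 2 ^ 1 := rfl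
          _ ≤ 2 ^ L := two_pow_le hL1
      rw [e3]
      nlinarith [Nat.zero_le ((2 : ℕ) ^ L)]
    calc 3 * (Q + 2 * n * KV) = n * (6 * KV) + 3 * Q := by ring
      _ ≤ 2 ^ L * 2 ^ L + 2 ^ L := Nat.add_le_add e1 hQ
      _ ≤ 2 ^ (3 * L) := e2
  have h2 : 30 * L ≤ 2 ^ (6 * L) := by
    calc 30 * L ≤ 2 ^ 5 * 2 ^ L := Nat.mul_le_mul (by norm_num) hL2.le
      _ = 2 ^ (5 + L) := (pow_add _ _ _).symm
      _ ≤ 2 ^ (6 * L) := two_pow_le (by omega)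
  have h3 : Cc * (n + 1) * (L ^ 3 + 1) ≤ 2 ^ (7 * L) := by
    have e1 : Cc ≤ 2 ^ L := by omega
    have e2 : n + 1 ≤ 2 ^ (2 * L) := by
      have : 1 ≤ 2 ^ L := Nat.one_le_two_pow
      calc n + 1 ≤ 2 ^ L * 2 := by omega
        _ = 2 ^ (L + 1) := (pow_succ _ _).symm
        _ ≤ 2 ^ (2 * L) := two_pow_le (by omega)
    have e3 : L ^ 3 + 1 ≤ 2 ^ (4 * L) := by
      have h2 : L ^ 3 + 1 ≤ 2 ^ 1 * L ^ 3 := by
        have : 1 ≤ L ^ 3 := Nat.one_le_pow _ _ hL1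
        omega
      calc L ^ 3 + 1 ≤ 2 ^ 1 * L ^ 3 := h2
        _ ≤ 2 ^ 1 * (2 ^ L) ^ 3 := Nat.mul_le_mul_left _ (Nat.pow_le_pow_left hL2.le 3)
        _ = 2 ^ (1 + L * 3) := by rw [← pow_mul, ← pow_add]
        _ ≤ 2 ^ (4 * L) := two_pow_le (by omega)
    calc Cc * (n + 1) * (L ^ 3 + 1) ≤ 2 ^ L * 2 ^ (2 * L) * 2 ^ (4 * L) :=
          Nat.mul_le_mul (Nat.mul_le_mul e1 e2) e3
      _ = 2 ^ (7 * L) := by rw [← pow_add, ← pow_add]; congr 1; ring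
  calc 30 * L * (3 * (Q + 2 * n * KV)) ^ (30 * L) * ((Cc * (n + 1) * (L ^ 3 + 1)) ^ Cc)
      ≤ 2 ^ (6 * L) * (2 ^ (3 * L)) ^ (30 * L) * (2 ^ (7 * L)) ^ Cc :=
        Nat.mul_le_mul (Nat.mul_le_mul h2 (Nat.pow_le_pow_left h1 _)) (Nat.pow_le_pow_left h3 _)
    _ = 2 ^ (6 * L + 3 * L * (30 * L) + 7 * L * Cc) := by
        rw [← pow_mul, ← pow_mul, ← pow_add, ← pow_add]
    _ ≤ 2 ^ (L ^ 3) := by
        apply two_pow_le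
        have e2 : L ≤ L ^ 2 := Nat.le_self_pow (by norm_num) _
        have e3 : (96 + 7 * Cc) * L ^ 2 ≤ L ^ 3 := by
          calc (96 + 7 * Cc) * L ^ 2 ≤ L * L ^ 2 := Nat.mul_le_mul_right _ hLc
            _ = L ^ 3 := by ring
        have e4 : 7 * L * Cc ≤ 7 * Cc * L ^ 2 := by nlinarith
        nlinarith

/-- The second condition. -/
private lemma real_part {KV n Q δ t : ℝ} {kc : ℕ} (ht0 : 0 < t) (ht : t ≤ 1 / 4)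
    (hK0 : 0 ≤ KV) (hn0 : 0 ≤ n) (hnt : n * t ≤ 1) (hKt : KV * t ≤ 1 / 2)
    (hkt : (kc : ℝ) * t ≤ 1) (hQ : 1 ≤ Q) (hδ : 0 ≤ δ)
    (hT : δ * (2 * (3 * Q) ^ kc) ^ 2 ≤ t ^ 17) (h23 : (2 / 3 : ℝ) ^ kc ≤ t ^ 17) :
    eps2 KV n Q kc δ ≤ t ^ 6 := by
  have ht1 : t ≤ 1 := by linarith
  have hX1 : (1 : ℝ) ≤ 2 * (3 * Q) ^ kc := by
    have : (1 : ℝ) ≤ (3 * Q) ^ kc := one_le_pow₀ (by linarith)
    linarith
  unfold eps2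
  have h1 : δ * (kc * KV * (2 * (3 * Q) ^ kc)) ≤ t ^ 15 := by
    have e1 : 2 * (3 * Q) ^ kc ≤ (2 * (3 * Q) ^ kc) ^ 2 := by nlinarith
    have hk0 : (0 : ℝ) ≤ kc := Nat.cast_nonneg _
    calc δ * (kc * KV * (2 * (3 * Q) ^ kc)) ≤ δ * (kc * KV * (2 * (3 * Q) ^ kc) ^ 2) :=
          mul_le_mul_of_nonneg_left (mul_le_mul_of_nonneg_left e1 (by positivity)) hδ
      _ = kc * KV * (δ * (2 * (3 * Q) ^ kc) ^ 2) := by ring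
      _ ≤ kc * KV * t ^ 17 := mul_le_mul_of_nonneg_left hT (by positivity)
      _ = (kc * t) * (KV * t) * t ^ 15 := by ring
      _ ≤ 1 * 1 * t ^ 15 := by
          apply mul_le_mul_of_nonneg_right _ (by positivity)
          exact mul_le_mul hkt (by linarith) (by positivity) (by norm_num)
      _ = t ^ 15 := by ring
  have h2 : √((2 / 3) ^ kc + δ * (2 * (3 * Q) ^ kc) ^ 2) ≤ t ^ 8 := by
    apply Real.sqrt_le_iff.2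
    refine ⟨by positivity, ?_⟩
    have e1 : (0 : ℝ) ≤ t ^ 16 := by positivity
    calc (2 / 3 : ℝ) ^ kc + δ * (2 * (3 * Q) ^ kc) ^ 2 ≤ t ^ 17 + t ^ 17 := add_le_add h23 hT
      _ = (2 * t) * t ^ 16 := by ring
      _ ≤ 1 * t ^ 16 := mul_le_mul_of_nonneg_right (by linarith) e1
      _ = (t ^ 8) ^ 2 := by ring
  have h3 : n * KV * √((2 / 3) ^ kc + δ * (2 * (3 * Q) ^ kc) ^ 2) ≤ 1 / 2 * t ^ 6 := by
    calc n * KV * √((2 / 3) ^ kc + δ * (2 * (3 * Q) ^ kc) ^ 2) ≤ n * KV * t ^ 8 :=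
          mul_le_mul_of_nonneg_left h2 (by positivity)
      _ = (n * t) * (KV * t) * t ^ 6 := by ring
      _ ≤ 1 * (1 / 2) * t ^ 6 := by
          apply mul_le_mul_of_nonneg_right _ (by positivity)
          exact mul_le_mul hnt hKt (by positivity) (by norm_num)
      _ = 1 / 2 * t ^ 6 := by ring
  have h4 : t ^ 15 ≤ 1 / 2 * t ^ 6 := by
    have e1 : t ^ 9 ≤ 1 / 2 := by
      calc t ^ 9 ≤ t ^ 1 := pow_le_pow_of_le_one ht0.le ht1 (by norm_num)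
        _ ≤ 1 / 2 := by linarith
    calc t ^ 15 = t ^ 9 * t ^ 6 := by ring
      _ ≤ 1 / 2 * t ^ 6 := mul_le_mul_of_nonneg_right e1 (by positivity)
  linarith

theorem paramsC (KV Cc : ℕ) (hKV : 1 ≤ KV) (hCc : 1 ≤ Cc) : ∃ C L₀ : ℕ, ∀ L : ℕ, L₀ ≤ L → 1 ≤ L →
    ∀ n : ℕ, 1 ≤ n → n ≤ 2 ^ L → ∀ δ : ℝ, 0 ≤ δ → δ * 2 ^ (C * L * (Nat.log 2 L + 1)) ≤ n →
    ∃ kc lam : ℕ, 1 ≤ kc ∧
      (kc : ℝ) * (3 * ((Cc : ℝ) * ((lam : ℝ) + 1) ^ (2 * KV) + 2 * n * (KV : ℕ))) ^ kc *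
        (((Cc : ℝ) * (n + 1) * (lam + 1)) ^ Cc / 2 ^ lam) ≤ 1 ∧
      eps2 KV n ((Cc : ℝ) * ((lam : ℝ) + 1) ^ (2 * KV)) kc δ ≤ (1 / 2) ^ (6 * L) := by
  obtain ⟨L₁, hL₁⟩ := q_le KV Cc
  refine ⟨60 * (2 + Cc + 8 * KV) + 20, L₁ + 6 * KV + (96 + 7 * Cc), ?_⟩
  intro L hL hL1 n hn1 hn δ hδ hδn
  obtain ⟨Q, hQ⟩ : ∃ Q : ℕ, Q = Cc * (L ^ 3 + 1) ^ (2 * KV) := ⟨_, rfl⟩
  obtain ⟨g, hg⟩ : ∃ g : ℕ, g = Nat.log 2 L + 1 := ⟨_, rfl⟩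
  obtain ⟨a, ha⟩ : ∃ a : ℕ, a = 2 + Cc + 8 * KV := ⟨_, rfl⟩
  have hLg : L < 2 ^ g := by rw [hg]; exact Nat.lt_pow_succ_log_self (by norm_num) L
  have hg1 : 1 ≤ g := by omega
  have hQL : 3 * Q ≤ 2 ^ L := by rw [hQ]; exact hL₁ L (by omega) hL1
  have hQa : 3 * Q ≤ 2 ^ (a * g) := by rw [hQ, ha]; exact q_part KV Cc L g hL1 hLg hg1
  have hQ1 : 1 ≤ Q := by
    rw [hQ]
    exact Nat.mul_le_mul hCc (Nat.one_le_pow _ _ (by omega))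
  have hQr : (Cc : ℝ) * (((L ^ 3 : ℕ) : ℝ) + 1) ^ (2 * KV) = (Q : ℝ) := by
    rw [hQ]; push_cast; ring
  refine ⟨30 * L, L ^ 3, by omega, ?_, ?_⟩
  · rw [hQr]
    have key := nat_part (KV := KV) (Cc := Cc) (L := L) (n := n) (Q := Q) hL1 (by omega)
      (by omega) hn hQL
    have key2 : ((30 * L * (3 * (Q + 2 * n * KV)) ^ (30 * L) *
        ((Cc * (n + 1) * (L ^ 3 + 1)) ^ Cc) : ℕ) : ℝ) ≤ ((2 ^ (L ^ 3) : ℕ) : ℝ) := by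
      exact_mod_cast key
    push_cast at key2
    push_cast
    rw [mul_div_assoc']
    rw [div_le_one (by positivity)]
    exact key2
  · rw [hQr]
    have e6 : ((1 : ℝ) / 2) ^ (6 * L) = ((1 / 2) ^ L) ^ 6 := by rw [← pow_mul, mul_comm]
    rw [e6]
    obtain ⟨t, ht⟩ : ∃ t : ℝ, t = (1 / 2) ^ L := ⟨_, rfl⟩
    rw [← ht]
    have ht0 : 0 < t := by rw [ht]; positivity
    have hinv : (2 : ℝ) ^ L * t = 1 := by
      rw [ht, ← mul_pow]; norm_num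
    have ht4 : t ≤ 1 / 4 := by
      rw [ht]
      calc (1 / 2 : ℝ) ^ L ≤ (1 / 2) ^ 2 :=
            pow_le_pow_of_le_one (by norm_num) (by norm_num) (by omega)
        _ = 1 / 4 := by norm_num
    have hL2 : L < 2 ^ L := Nat.lt_two_pow_self
    have hnt : (n : ℝ) * t ≤ 1 := by
      rw [← hinv]
      apply mul_le_mul_of_nonneg_right _ ht0.le
      exact_mod_cast hn
    have hKt : (KV : ℝ) * t ≤ 1 / 2 := by
      have h1 : ((2 * KV : ℕ) : ℝ) ≤ ((2 ^ L : ℕ) : ℝ) := by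
        exact_mod_cast (by omega : 2 * KV ≤ 2 ^ L)
      push_cast at h1
      have h2 : 2 * (KV : ℝ) * t ≤ 1 := by
        rw [← hinv]
        exact mul_le_mul_of_nonneg_right h1 ht0.le
      linarith
    have hkt : ((30 * L : ℕ) : ℝ) * t ≤ 1 := by
      rw [← hinv]
      apply mul_le_mul_of_nonneg_right _ ht0.le
      have h1 : 30 * L ≤ 2 ^ L := by
        have h2 : 8 ≤ L := by omega
        obtain ⟨b, rfl⟩ : ∃ b, L = 8 + b := ⟨L - 8, by omega⟩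
        have h3 : b < 2 ^ b := Nat.lt_two_pow_self
        have h4 : 1 ≤ 2 ^ b := Nat.one_le_two_pow
        rw [pow_add]
        norm_num
        omega
      exact_mod_cast h1
    have hQar : (3 : ℝ) * Q ≤ 2 ^ (a * g) := by exact_mod_cast hQa
    have hT : δ * (2 * (3 * (Q : ℝ)) ^ (30 * L)) ^ 2 ≤ t ^ 17 := by
      obtain ⟨z, hz⟩ : ∃ z : ℕ, z = a * L * g := ⟨_, rfl⟩
      have h1 : (3 * (Q : ℝ)) ^ (30 * L) ≤ 2 ^ (30 * z) := by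
        calc (3 * (Q : ℝ)) ^ (30 * L) ≤ (2 ^ (a * g)) ^ (30 * L) :=
              pow_le_pow_left₀ (by positivity) hQar _
          _ = 2 ^ (30 * z) := by rw [← pow_mul, hz]; congr 1; ring
      have h2 : (2 * (3 * (Q : ℝ)) ^ (30 * L)) ^ 2 ≤ 2 ^ (2 + 60 * z) := by
        calc (2 * (3 * (Q : ℝ)) ^ (30 * L)) ^ 2 ≤ (2 * 2 ^ (30 * z)) ^ 2 :=
              pow_le_pow_left₀ (by positivity) (by linarith) 2
          _ = 2 ^ (2 + 60 * z) := by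
              rw [mul_pow, ← pow_mul, pow_add]; congr 2; ring
      have hzg : (60 * (2 + Cc + 8 * KV) + 20) * L * (Nat.log 2 L + 1) = 60 * z + 20 * L * g := by
        rw [← ha, ← hg, hz]; ring
      rw [hzg] at hδn
      have hLg2 : 20 * L ≤ 20 * L * g := Nat.le_mul_of_pos_right _ hg1
      have h3 : δ * (2 * (3 * (Q : ℝ)) ^ (30 * L)) ^ 2 * 2 ^ (17 * L + L) ≤ 2 ^ L := by
        calc δ * (2 * (3 * (Q : ℝ)) ^ (30 * L)) ^ 2 * 2 ^ (17 * L + L)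
            ≤ δ * 2 ^ (2 + 60 * z) * 2 ^ (17 * L + L) := by
              apply mul_le_mul_of_nonneg_right _ (by positivity)
              exact mul_le_mul_of_nonneg_left h2 hδ
          _ = δ * 2 ^ (2 + 60 * z + (17 * L + L)) := by
              rw [mul_assoc, ← pow_add]
          _ ≤ δ * 2 ^ (60 * z + 20 * L * g) := by
              apply mul_le_mul_of_nonneg_left _ hδ
              exact pow_le_pow_right₀ (by norm_num) (by omega)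
          _ ≤ n := hδn
          _ ≤ 2 ^ L := by exact_mod_cast hn
      have h4 : δ * (2 * (3 * (Q : ℝ)) ^ (30 * L)) ^ 2 * 2 ^ (17 * L) ≤ 1 := by
        rw [pow_add, ← mul_assoc] at h3
        have h5 : (0 : ℝ) < 2 ^ L := by positivity
        exact le_of_mul_le_mul_right (by linarith) h5
      have h5 : (2 : ℝ) ^ (17 * L) * t ^ 17 = 1 := by
        rw [mul_comm 17 L, pow_mul, ← mul_pow, hinv, one_pow]
      calc δ * (2 * (3 * (Q : ℝ)) ^ (30 * L)) ^ 2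
          = δ * (2 * (3 * (Q : ℝ)) ^ (30 * L)) ^ 2 * ((2 : ℝ) ^ (17 * L) * t ^ 17) := by
            rw [h5, mul_one]
        _ = δ * (2 * (3 * (Q : ℝ)) ^ (30 * L)) ^ 2 * 2 ^ (17 * L) * t ^ 17 := by ring
        _ ≤ 1 * t ^ 17 := mul_le_mul_of_nonneg_right h4 (by positivity)
        _ = t ^ 17 := one_mul _
    have h23 : (2 / 3 : ℝ) ^ (30 * L) ≤ t ^ 17 := by
      have h1 : (2 / 3 : ℝ) ^ 30 ≤ (1 / 2) ^ 17 := by norm_num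
      calc (2 / 3 : ℝ) ^ (30 * L) = ((2 / 3) ^ 30) ^ L := pow_mul _ _ _
        _ ≤ ((1 / 2) ^ 17) ^ L := pow_le_pow_left₀ (by positivity) h1 L
        _ = t ^ 17 := by rw [ht, ← pow_mul, ← pow_mul, mul_comm]
    have hQ1r : (1 : ℝ) ≤ Q := by exact_mod_cast hQ1
    exact real_part ht0 ht4 (Nat.cast_nonneg _) (Nat.cast_nonneg _) hnt hKt hkt hQ1r hδ hT h23

end Helper4.GA
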