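import Pool.Agent.Helper4.GA.ParA
import Pool.Agent.Helper4.GA.ParC
import Pool.Agent.Helper4.GA.Asm

set_option autoImplicit false

/-!
The parameters of the generator, for large `L`.

Proof sketch. All of `m w v Cs Cc` are constants; write `K = w ^ m`, `KV = (K v)^2 + 1`, `n = 2 ^ k₀ ≤ 2 ^ L`, `h = Nat.log 2 L + 1`
(`L < 2 ^ h`), `N = (4 L) ^ 3`, `Λ = Cs * N ^ Cs ≤ 2 ^ (a h)` for a constant `a` (`4 L ≤ 2 ^ (2 + h)`).
(1) `paramsN m Cs` at `4 L`: `n, w ≤ 2 ^ (4 L)` (large `L`), `r ≤ 2 ^ L`, `Nat.log 2 (4 L) + 1 = h + 2 ≤ 3 h`, so the conditions follow from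
`C ≥ 12 * C_A`; it gives `k`, `k'` and `errT ≤ (1/2) ^ (4 L)`, so `errE ≤ errT ≤ (1/2) ^ (4 L)` (`errT = r * eps1 + errE`, `eps1 ≥ 0`).
(2) `paramsC KV Cc` at `L` gives `kc`, `lam` and `eps2 ≤ (1/2) ^ (6 L)`; `η = r * eps2 ≤ 2 ^ (-5 L)`.
(3) `(1 / 2 ^ (r + 1)) * Λ ≤ 2 ^ (a h - r - 1)`, `r ≥ C (h + s)`.
(4) `errG` (real numbers, large `L`, large `C`, `k₀ + s ≤ L`): `η ≤ 2 ^ (-5 L)`; `n v / 2 ^ N ≤ 1`, `n K v η ≤ K v 2 ^ (-4 L) ≤ 1`, so the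
second term is at most `2 K v ν (2 v^2 + 2)`, and `ν ≤ L (2 L + 1) / 2 ^ (C (h + s)) ≤ 3 * 2 ^ (2 h) / 2 ^ (C (h + s))`, so it is at most
`(1/2) ^ s / 8` if `2 K v * 3 * (2 v^2 + 2) * 8 ≤ 2 ^ (C - 2)`; the third term is at most
`4 * 2 ^ (-r) Λ (2 v^2 + 1) + 4 * 2 ^ (-r) * n^2 K v / 2 ^ N + 2 n K v η`, similarly at most `3 * (1/2) ^ s / 8` (`n^2 K v / 2 ^ N ≤ 1`);
the last term is at most `K v 2 ^ L 2 ^ (-4 L) ≤ (1/2) ^ s / 8`, as `s ≤ L`.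
-/

namespace Helper4.GA

open Helper4.RC

/-- What the parameters have to satisfy. -/
structure Par (m w v Cs Cc k₀ s r : ℕ) (δ ν : ℝ) (N k k' kc lam : ℕ) : Prop where
  one_le_N : 1 ≤ N
  le_N : 2 ^ k₀ + 1 ≤ 2 ^ N
  one_le_k : 1 ≤ k
  le : k ≤ k'
  hN : k' * (6 * (2 * (Cs * N ^ Cs) + 2 ^ k₀ * (w ^ m) ^ 2)) ^ k' * (2 * 2 ^ k₀) ≤ 2 ^ N
  one_le_kc : 1 ≤ kc
  hNc : (kc : ℝ) * (3 * ((Cc : ℝ) * ((lam : ℝ) + 1) ^ (2 * ((w ^ m * v) ^ 2 + 1)) +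
    2 * (2 ^ k₀ : ℕ) * ((w ^ m * v) ^ 2 + 1 : ℕ))) ^ kc *
      (((Cc : ℝ) * ((2 ^ k₀ : ℕ) + 1) * (lam + 1)) ^ Cc / 2 ^ lam) ≤ 1
  hε : (1 / 2 ^ (r + 1) : ℝ) * (Cs * N ^ Cs : ℕ) ≤ 1 / 2
  err : errG ((w : ℝ) ^ m) v (((w ^ m * v) ^ 2 + 1 : ℕ) : ℝ) (2 ^ k₀ : ℕ) (Cs * N ^ Cs : ℕ) (2 ^ N)
    ((Cc : ℝ) * ((lam : ℝ) + 1) ^ (2 * ((w ^ m * v) ^ 2 + 1))) ν k k' kc r δ ≤ (1 / 2) ^ s

private lemma parG_sum {K v n Λ N' η ν p e σ : ℝ} (hKv : 0 ≤ K * v * ν)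
    (h1 : η ≤ σ / 8) (h2 : n * v / N' ≤ 1) (h3 : n * K * v * η ≤ 1)
    (h3' : n * K * v * η ≤ σ / 64) (h4 : 2 * (K * v * ν) * (2 * v ^ 2 + 2) ≤ σ / 8)
    (hpΛ : 0 ≤ p * Λ) (h5 : p * Λ * (2 * v ^ 2 + 1) ≤ σ / 64)
    (h6 : p * (n ^ 2 * K * v / N') ≤ σ / 64) (h7 : n * K * v * e ≤ σ / 8) (hσ : 0 ≤ σ) :
    η + 2 * (K * v * ν) * (2 * v ^ 2 + n * v / N' + n * K * v * η) +
      2 * (p * Λ * (2 * v ^ 2 + n * v / N') + p * (n ^ 2 * K * v / N') + n * K * v * η) +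
      n * K * v * e ≤ σ := by
  have a1 : 2 * (K * v * ν) * (2 * v ^ 2 + n * v / N' + n * K * v * η) ≤
      2 * (K * v * ν) * (2 * v ^ 2 + 2) := mul_le_mul_of_nonneg_left (by linarith) (by linarith)
  have a2 : p * Λ * (2 * v ^ 2 + n * v / N') ≤ p * Λ * (2 * v ^ 2 + 1) :=
    mul_le_mul_of_nonneg_left (by linarith) hpΛ
  linarith

private lemma parG_lam {Cs L h : ℕ} (hLh : L < 2 ^ h) (hh : 1 ≤ h) :
    Cs * ((4 * L) ^ 3) ^ Cs ≤ 2 ^ (10 * Cs * h) := by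
  have h1 : 4 * L ≤ 2 ^ (2 + h) := by
    rw [pow_add]
    have : (2 : ℕ) ^ 2 = 4 := by norm_num
    rw [this]
    exact Nat.mul_le_mul_left _ hLh.le
  calc Cs * ((4 * L) ^ 3) ^ Cs ≤ 2 ^ Cs * ((2 ^ (2 + h)) ^ 3) ^ Cs :=
        Nat.mul_le_mul Nat.lt_two_pow_self.le
          (Nat.pow_le_pow_left (Nat.pow_le_pow_left h1 3) Cs)
    _ = 2 ^ (Cs + (2 + h) * 3 * Cs) := by rw [← pow_mul, ← pow_mul, ← pow_add, mul_assoc]
    _ ≤ 2 ^ (10 * Cs * h) := Nat.pow_le_pow_right (by norm_num) (by nlinarith)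

theorem paramsG (m w v Cs Cc : ℕ) (hw : 1 ≤ w) (hv : 1 ≤ v) (hCs : 1 ≤ Cs) (hCc : 1 ≤ Cc) :
    ∃ C L₀ : ℕ, ∀ L : ℕ, L₀ ≤ L → 1 ≤ L → ∀ k₀ s r : ℕ, k₀ + s ≤ L →
    C * (Nat.log 2 L + 1 + s) ≤ r → r ≤ 2 ^ L →
    ∀ δ : ℝ, 0 ≤ δ → δ * 2 ^ (C * L * (Nat.log 2 L + 1)) ≤ 2 ^ k₀ →
    ∀ ν : ℝ, 0 ≤ ν → ν * 2 ^ (C * (Nat.log 2 L + 1 + s)) ≤ k₀ * (2 * k₀ + 1) →
    ∃ N k k' kc lam : ℕ, Par m w v Cs Cc k₀ s r δ ν N k k' kc lam := by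
  obtain ⟨CA, LA, hA⟩ := paramsN m Cs hCs
  obtain ⟨CC, LC, hC⟩ := paramsC ((w ^ m * v) ^ 2 + 1) Cc (by omega) hCc
  obtain ⟨c0, hc0⟩ : ∃ c0 : ℕ, c0 = 48 * (w ^ m * v) * (2 * v ^ 2 + 2) := ⟨_, rfl⟩
  obtain ⟨c1, hc1⟩ : ∃ c1 : ℕ, c1 = 2 * v ^ 2 + 1 := ⟨_, rfl⟩
  refine ⟨12 * CA + CC + c0 + (10 * Cs + c1 + 6) + 3, LA + LC + w ^ m * v + w + 3, ?_⟩
  obtain ⟨C, hCdef⟩ : ∃ C : ℕ, C = 12 * CA + CC + c0 + (10 * Cs + c1 + 6) + 3 := ⟨_, rfl⟩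
  rw [← hCdef]
  intro L hL hL1 k₀ s r hks hCr hr δ hδ hδn ν hν hνn
  obtain ⟨h, hh⟩ : ∃ h : ℕ, h = Nat.log 2 L + 1 := ⟨_, rfl⟩
  have hh1 : 1 ≤ h := by omega
  have hLh : L < 2 ^ h := by
    rw [hh]
    exact Nat.lt_pow_succ_log_self (by norm_num) L
  rw [← hh] at hCr hδn hνn
  have hL3 : 3 ≤ L := by omega
  have hkL : k₀ ≤ L := by omega
  have hsL : s ≤ L := by omega
  have hlog : Nat.log 2 (4 * L) + 1 ≤ 3 * h := by
    have e1 : 4 * L = L * 2 * 2 := by ring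
    rw [e1, Nat.log_mul_base (by norm_num) (by omega), Nat.log_mul_base (by norm_num) (by omega)]
    omega
  have hp2 : ∀ {a b : ℕ}, a ≤ b → (2 : ℕ) ^ a ≤ 2 ^ b := fun h => Nat.pow_le_pow_right (by norm_num) h
  have hk1 : 1 ≤ 2 ^ k₀ := Nat.one_le_two_pow
  -- the first application
  have hCA : 12 * CA ≤ C := by omega
  have hCC : CC ≤ C := by omega
  have hCh : C * h + C * s ≤ r := by
    have e : C * (h + s) = C * h + C * s := by ring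
    omega
  obtain ⟨k, k', hk, hkk, hsize, herrT⟩ := hA (4 * L) (by omega) (by omega) (2 ^ k₀) w r hk1 hw
    (hp2 (by omega)) ((Nat.lt_two_pow_self (n := w)).le.trans (hp2 (by omega)))
    (by
      refine (Nat.mul_le_mul_left CA hlog).trans ?_
      have e1 : CA * (3 * h) ≤ C * h := by
        calc CA * (3 * h) = (3 * CA) * h := by ring
          _ ≤ C * h := Nat.mul_le_mul_right _ (by omega)
      omega)
    (hr.trans (hp2 (by omega))) δ hδ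
    (by
      push_cast
      refine le_trans (mul_le_mul_of_nonneg_left ?_ hδ) hδn
      refine pow_le_pow_right₀ (by norm_num) ?_
      calc CA * (4 * L) * (Nat.log 2 (4 * L) + 1) ≤ CA * (4 * L) * (3 * h) :=
            Nat.mul_le_mul_left _ hlog
        _ = 12 * CA * L * h := by ring
        _ ≤ C * L * h := Nat.mul_le_mul_right _ (Nat.mul_le_mul_right _ hCA))
  obtain ⟨kc, lam, hkc, hNc, heps⟩ := hC L (by omega) hL1 (2 ^ k₀) hk1 (hp2 hkL) δ hδ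
    (by
      push_cast
      rw [← hh]
      refine le_trans (mul_le_mul_of_nonneg_left ?_ hδ) hδn
      refine pow_le_pow_right₀ (by norm_num) ?_
      exact Nat.mul_le_mul_right _ (Nat.mul_le_mul_right _ hCC))
  have hlam := parG_lam (Cs := Cs) hLh hh1
  obtain ⟨Λ, hΛ⟩ : ∃ Λ : ℕ, Λ = Cs * ((4 * L) ^ 3) ^ Cs := ⟨_, rfl⟩
  rw [← hΛ] at hlam hsize herrT
  have hN3 : 3 * L ≤ (4 * L) ^ 3 := by
    calc 3 * L ≤ 4 * L := by omega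
      _ ≤ (4 * L) ^ 3 := Nat.le_self_pow (by norm_num) _
  -- exponents
  have hex1 : 10 * Cs * h + c1 + 6 + s ≤ r := by
    have e1 : (10 * Cs + c1 + 6) * h ≤ C * h := Nat.mul_le_mul_right _ (by omega)
    have e2 : (10 * Cs + c1 + 6) * h = 10 * Cs * h + c1 * h + 6 * h := by ring
    have e3 : c1 ≤ c1 * h := Nat.le_mul_of_pos_right _ (by omega)
    have e4 : s ≤ C * s := Nat.le_mul_of_pos_left _ (by omega)
    omega
  have hex2 : c0 + 2 * h + s ≤ C * (h + s) := by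
    have e0 : C * (h + s) = C * h + C * s := by ring
    have e1 : (c0 + 2) * h ≤ C * h := Nat.mul_le_mul_right _ (by omega)
    have e2 : (c0 + 2) * h = c0 * h + 2 * h := by ring
    have e3 : c0 ≤ c0 * h := Nat.le_mul_of_pos_right _ (by omega)
    have e4 : s ≤ C * s := Nat.le_mul_of_pos_left _ (by omega)
    omega
  refine ⟨(4 * L) ^ 3, k, k', kc, lam, ?_, ?_, hk, hkk, ?_, hkc, hNc, ?_, ?_⟩
  · omega
  · calc 2 ^ k₀ + 1 ≤ 2 ^ k₀ + 2 ^ k₀ := by omega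
      _ = 2 ^ (k₀ + 1) := by ring
      _ ≤ 2 ^ ((4 * L) ^ 3) := hp2 (by omega)
  · rw [← hΛ]
    exact hsize
  · rw [← hΛ]
    have e1 : (Λ : ℝ) ≤ 2 ^ r := by
      have e2 : Λ ≤ 2 ^ r := hlam.trans (hp2 (by omega))
      exact_mod_cast e2
    have e3 : (0 : ℝ) < 2 ^ r := by positivity
    rw [pow_succ, div_mul_eq_mul_div, one_mul, div_le_div_iff₀ (by positivity) (by norm_num)]
    linarith
  -- the error
  rw [← hΛ]
  obtain ⟨Qc, hQc⟩ : ∃ Qc : ℝ, Qc = (Cc : ℝ) * ((lam : ℝ) + 1) ^ (2 * ((w ^ m * v) ^ 2 + 1)) :=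
    ⟨_, rfl⟩
  rw [← hQc] at heps ⊢
  have hQc0 : 0 ≤ Qc := by rw [hQc]; positivity
  obtain ⟨KV, hKV⟩ : ∃ KV : ℝ, KV = (((w ^ m * v) ^ 2 + 1 : ℕ) : ℝ) := ⟨_, rfl⟩
  have hKV0 : 0 ≤ KV := by rw [hKV]; positivity
  rw [← hKV] at heps ⊢
  obtain ⟨n, hn⟩ : ∃ n : ℝ, n = ((2 ^ k₀ : ℕ) : ℝ) := ⟨_, rfl⟩
  have hn0 : 0 ≤ n := by rw [hn]; positivity
  rw [← hn] at heps herrT ⊢
  obtain ⟨K, hK⟩ : ∃ K : ℝ, K = (w : ℝ) ^ m := ⟨_, rfl⟩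
  have hK1 : 1 ≤ K := by
    rw [hK]
    exact one_le_pow₀ (by exact_mod_cast hw)
  rw [← hK] at herrT ⊢
  obtain ⟨t, ht⟩ : ∃ t : ℝ, t = (1 / 2) ^ L := ⟨_, rfl⟩
  obtain ⟨E, hE⟩ : ∃ E : ℝ, E = 2 ^ L := ⟨_, rfl⟩
  obtain ⟨σ, hσ⟩ : ∃ σ : ℝ, σ = (1 / 2) ^ s := ⟨_, rfl⟩
  have hEt : E * t = 1 := by
    rw [hE, ht, ← mul_pow]
    norm_num
  have ht0 : 0 < t := by rw [ht]; positivity
  have hE0 : 0 < E := by rw [hE]; positivity
  have hσ0 : 0 < σ := by rw [hσ]; positivity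
  have ht8 : t ≤ 1 / 8 := by
    rw [ht]
    calc (1 / 2 : ℝ) ^ L ≤ (1 / 2) ^ 3 := pow_le_pow_of_le_one (by norm_num) (by norm_num) hL3
      _ = 1 / 8 := by norm_num
  have htσ : t ≤ σ := by
    rw [ht, hσ]
    exact pow_le_pow_of_le_one (by norm_num) (by norm_num) hsL
  have hnE : n ≤ E := by
    rw [hn, hE]
    exact_mod_cast hp2 hkL
  have hv0 : (0 : ℝ) ≤ v := Nat.cast_nonneg v
  have hKvE : K * v ≤ E := by
    have e1 : w ^ m * v ≤ 2 ^ L := Nat.lt_two_pow_self.le.trans (hp2 (by omega))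
    rw [hK, hE]
    exact_mod_cast e1
  have hvE : (v : ℝ) ≤ E := by
    refine le_trans ?_ hKvE
    nlinarith
  have hKv0 : 0 ≤ K * v := mul_nonneg (by linarith) hv0
  have hnKv : n * K * v ≤ E * E := by
    rw [mul_assoc]
    exact mul_le_mul hnE hKvE hKv0 hE0.le
  have hnKv0 : 0 ≤ n * K * v := by
    rw [mul_assoc]
    exact mul_nonneg hn0 hKv0
  obtain ⟨η, hη⟩ : ∃ η : ℝ, η = r * eps2 KV n Qc kc δ := ⟨_, rfl⟩
  have hη5 : η ≤ t ^ 5 := by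
    have e1 : (r : ℝ) ≤ E := by
      rw [hE]
      exact_mod_cast hr
    have e2 : eps2 KV n Qc kc δ ≤ t ^ 6 := by
      rw [ht, ← pow_mul, mul_comm L 6]
      exact heps
    rw [hη]
    calc (r : ℝ) * eps2 KV n Qc kc δ ≤ r * t ^ 6 :=
          mul_le_mul_of_nonneg_left e2 (Nat.cast_nonneg r)
      _ ≤ E * t ^ 6 := mul_le_mul_of_nonneg_right e1 (by positivity)
      _ = (E * t) * t ^ 5 := by ring
      _ = t ^ 5 := by rw [hEt, one_mul]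
  have ht2 : t ^ 2 ≤ 1 / 64 := by nlinarith
  have ht3 : t ^ 3 ≤ σ / 64 := by
    calc t ^ 3 = t * t ^ 2 := by ring
      _ ≤ σ * (1 / 64) := mul_le_mul htσ ht2 (by positivity) hσ0.le
      _ = σ / 64 := by ring
  have ht1 : t ≤ 1 := by linarith
  have hnKvη : n * K * v * η ≤ t ^ 3 := by
    calc n * K * v * η ≤ n * K * v * t ^ 5 := mul_le_mul_of_nonneg_left hη5 hnKv0
      _ ≤ E * E * t ^ 5 := mul_le_mul_of_nonneg_right hnKv (by positivity)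
      _ = (E * t) * (E * t) * t ^ 3 := by ring
      _ = t ^ 3 := by rw [hEt]; ring
  have herrE : errE K n Λ k k' r δ ≤ t ^ 4 := by
    have e1 : errT K n Λ k k' r δ = r * eps1 K n Λ k' δ + errE K n Λ k k' r δ := by
      unfold errT errE
      ring
    have e2 : 0 ≤ eps1 K n Λ k' δ := by
      unfold eps1
      have hΛ0 : (0 : ℝ) ≤ Λ := Nat.cast_nonneg Λ
      positivity
    have e3 : 0 ≤ (r : ℝ) * eps1 K n Λ k' δ := mul_nonneg (Nat.cast_nonneg r) e2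
    have e4 : errT K n Λ k k' r δ ≤ t ^ 4 := by
      rw [ht, ← pow_mul, mul_comm L 4]
      exact herrT
    linarith
  obtain ⟨N', hN'⟩ : ∃ N' : ℝ, N' = 2 ^ ((4 * L) ^ 3) := ⟨_, rfl⟩
  have hN'0 : 0 < N' := by rw [hN']; positivity
  have hEN : E ^ 3 ≤ N' := by
    rw [hE, hN', ← pow_mul]
    exact pow_le_pow_right₀ (by norm_num) (by omega)
  have hE1 : 1 ≤ E := by
    rw [hE]
    exact one_le_pow₀ (by norm_num)
  rw [← hN']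
  obtain ⟨p, hp⟩ : ∃ p : ℝ, p = 2 * (1 / 2 ^ (r + 1)) := ⟨_, rfl⟩
  have hpr : p = 1 / 2 ^ r := by
    rw [hp, pow_succ]
    field_simp
  have hp0 : 0 ≤ p := by rw [hpr]; positivity
  have hσs : σ * 2 ^ s = 1 := by
    rw [hσ, ← mul_pow]
    norm_num
  -- `p * x ≤ σ / 64` for `x * 64 * 2 ^ s ≤ 2 ^ r`
  have hpx : ∀ x : ℝ, x * (64 * 2 ^ s) ≤ 2 ^ r → p * x ≤ σ / 64 := by
    intro x hx
    rw [hpr, div_mul_eq_mul_div, one_mul, div_le_div_iff₀ (by positivity) (by norm_num)]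
    have e1 : (0 : ℝ) < 2 ^ s := by positivity
    calc x * 64 = σ * (x * (64 * 2 ^ s)) := by
          have : x * 64 = x * 64 * (σ * 2 ^ s) := by rw [hσs, mul_one]
          rw [this]
          ring
      _ ≤ σ * 2 ^ r := mul_le_mul_of_nonneg_left hx hσ0.le
  have hmain := parG_sum (K := K) (v := v) (n := n) (Λ := Λ) (N' := N') (η := η) (ν := ν) (p := p)
    (e := errE K n Λ k k' r δ) (σ := σ) (mul_nonneg hKv0 hν) ?_ ?_ ?_ ?_ ?_ ?_ ?_ ?_ ?_ hσ0.le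
  · unfold errG
    rw [← hη, ← hp, ← hσ]
    exact hmain
  · calc η ≤ t ^ 5 := hη5
      _ = t ^ 3 * t ^ 2 := by ring
      _ ≤ σ / 64 * 1 := mul_le_mul ht3 (by linarith) (by positivity) (by positivity)
      _ ≤ σ / 8 := by linarith
  · rw [div_le_one hN'0]
    refine le_trans ?_ hEN
    calc n * v ≤ E * E := mul_le_mul hnE hvE hv0 hE0.le
      _ = E ^ 2 := by ring
      _ ≤ E ^ 3 := pow_le_pow_right₀ hE1 (by norm_num)
  · refine hnKvη.trans ?_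
    exact pow_le_one₀ ht0.le ht1
  · exact hnKvη.trans ht3
  · -- the term with `ν`
    have e1 : ν * 2 ^ (C * (h + s)) ≤ 3 * 2 ^ (2 * h) := by
      refine hνn.trans ?_
      have a1 : k₀ * (2 * k₀ + 1) ≤ 3 * 2 ^ (2 * h) := by
        have a2 : k₀ ≤ 2 ^ h := by omega
        have a3 : 1 ≤ 2 ^ h := Nat.one_le_two_pow
        calc k₀ * (2 * k₀ + 1) ≤ 2 ^ h * (3 * 2 ^ h) := Nat.mul_le_mul a2 (by omega)
          _ = 3 * 2 ^ (2 * h) := by rw [two_mul, pow_add]; ring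
      exact_mod_cast a1
    have e2 : 48 * (K * v) * (2 * (v : ℝ) ^ 2 + 2) * 2 ^ (2 * h) * 2 ^ s ≤
        2 ^ (C * (h + s)) := by
      have a1 : 48 * (w ^ m * v) * (2 * v ^ 2 + 2) * 2 ^ (2 * h) * 2 ^ s ≤ 2 ^ (C * (h + s)) := by
        rw [← hc0]
        calc c0 * 2 ^ (2 * h) * 2 ^ s ≤ 2 ^ c0 * 2 ^ (2 * h) * 2 ^ s :=
              Nat.mul_le_mul_right _ (Nat.mul_le_mul_right _ Nat.lt_two_pow_self.le)
          _ = 2 ^ (c0 + 2 * h + s) := by rw [pow_add, pow_add]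
          _ ≤ 2 ^ (C * (h + s)) := hp2 hex2
      rw [hK]
      exact_mod_cast a1
    obtain ⟨B, hB⟩ : ∃ B : ℝ, B = (K * v) * (2 * (v : ℝ) ^ 2 + 2) := ⟨_, rfl⟩
    have e3 : 16 * B * 2 ^ s * ν ≤ 1 := by
      have a1 : 16 * B * 2 ^ s * ν * (3 * 2 ^ (2 * h)) ≤ 1 * (3 * 2 ^ (2 * h)) := by
        calc 16 * B * 2 ^ s * ν * (3 * 2 ^ (2 * h)) =
              ν * (48 * (K * v) * (2 * (v : ℝ) ^ 2 + 2) * 2 ^ (2 * h) * 2 ^ s) := by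
                rw [hB]
                ring
          _ ≤ ν * 2 ^ (C * (h + s)) := mul_le_mul_of_nonneg_left e2 hν
          _ ≤ 3 * 2 ^ (2 * h) := e1
          _ = 1 * (3 * 2 ^ (2 * h)) := by ring
      exact le_of_mul_le_mul_right a1 (by positivity)
    have e4 : 2 * (K * v * ν) * (2 * (v : ℝ) ^ 2 + 2) * 8 = 16 * B * ν := by
      rw [hB]
      ring
    have e5 : 16 * B * ν = σ * (16 * B * 2 ^ s * ν) := by
      have : 16 * B * ν = 16 * B * ν * (σ * 2 ^ s) := by rw [hσs, mul_one]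
      rw [this]
      ring
    have e6 : σ * (16 * B * 2 ^ s * ν) ≤ σ * 1 := mul_le_mul_of_nonneg_left e3 hσ0.le
    linarith
  · exact mul_nonneg hp0 (Nat.cast_nonneg Λ)
  · rw [mul_assoc]
    refine hpx _ ?_
    have a1 : Λ * (2 * v ^ 2 + 1) * (64 * 2 ^ s) ≤ 2 ^ r := by
      rw [← hc1]
      calc Λ * c1 * (64 * 2 ^ s) ≤ 2 ^ (10 * Cs * h) * 2 ^ c1 * (2 ^ 6 * 2 ^ s) :=
            Nat.mul_le_mul (Nat.mul_le_mul hlam Nat.lt_two_pow_self.le) (by norm_num)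
        _ = 2 ^ (10 * Cs * h + c1 + 6 + s) := by rw [pow_add, pow_add, pow_add]; ring
        _ ≤ 2 ^ r := hp2 hex1
    exact_mod_cast a1
  · refine hpx _ ?_
    have a1 : n ^ 2 * K * v / N' ≤ 1 := by
      rw [div_le_one hN'0]
      refine le_trans ?_ hEN
      calc n ^ 2 * K * v = n * (n * K * v) := by ring
        _ ≤ E * (E * E) := mul_le_mul hnE hnKv hnKv0 hE0.le
        _ = E ^ 3 := by ring
    have a2 : (64 : ℝ) * 2 ^ s ≤ 2 ^ r := by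
      have a3 : 64 * 2 ^ s ≤ 2 ^ r := by
        calc 64 * 2 ^ s = 2 ^ (6 + s) := by rw [pow_add]; norm_num
          _ ≤ 2 ^ r := hp2 (by omega)
      exact_mod_cast a3
    calc n ^ 2 * K * v / N' * (64 * 2 ^ s) ≤ 1 * (64 * 2 ^ s) :=
          mul_le_mul_of_nonneg_right a1 (by positivity)
      _ ≤ 2 ^ r := by rw [one_mul]; exact a2
  · calc n * K * v * errE K n Λ k k' r δ ≤ n * K * v * t ^ 4 :=
          mul_le_mul_of_nonneg_left herrE hnKv0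
      _ ≤ E * E * t ^ 4 := mul_le_mul_of_nonneg_right hnKv (by positivity)
      _ = (E * t) * (E * t) * (t * t) := by ring
      _ = t * t := by rw [hEt]; ring
      _ ≤ σ * (1 / 8) := mul_le_mul htσ ht8 ht0.le hσ0.le
      _ = σ / 8 := by ring

end Helper4.GA
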