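import Pool.Agent.Helper4.GA.ParG
import Pool.Agent.Helper4.RC.ParamsC

set_option autoImplicit false

/-!
The parameters of the generator, for all `L ≥ 1` and all large constants `C`.

Proof sketch. As `params'` in RC/ParamsC.lean: let `C₁`, `L₀` be the constants of `paramsG`,
`exists_sq_le_two_pow C₁ L₀` gives `P₀`; `C₀ = 2 ^ P₀`; for `C ≥ C₀` let `p = Nat.log 2 C`, `P = p + 1`, so `C < 2 ^ P`,
`C₁ * (1 + P) ^ 2 ≤ C`. Apply `paramsG` at `L + P` with `r = C * (l + s)`, `l = Nat.log 2 L + 1`: `l' = Nat.log 2 (L + P) + 1 ≤ (P + 1) * l`,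
`C₁ * (l' + s) ≤ C₁ * (P + 1) * (l + s) ≤ C * (l + s)`; `C * (l + s) ≤ 2 ^ P * (2 L) ≤ 2 ^ (L + P)` (`l ≤ L`, `s ≤ L`, `2 L ≤ 2 ^ L`);
`C₁ * (L + P) * l' ≤ C₁ (P + 1)^2 L l ≤ C * L * l`; for `ν` the same with `C₁ * (l' + s) ≤ C * (l + s)`.
-/

namespace Helper4.GA

open Helper4.RC

theorem paramsW (m w v Cs Cc : ℕ) (hw : 1 ≤ w) (hv : 1 ≤ v) (hCs : 1 ≤ Cs) (hCc : 1 ≤ Cc) :
    ∃ C₀ : ℕ, ∀ C : ℕ, C₀ ≤ C → ∀ L k₀ s : ℕ, 1 ≤ L → k₀ + s ≤ L →
    ∀ δ : ℝ, 0 ≤ δ → δ * 2 ^ (C * L * (Nat.log 2 L + 1)) ≤ 2 ^ k₀ →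
    ∀ ν : ℝ, 0 ≤ ν → ν * 2 ^ (C * (Nat.log 2 L + 1 + s)) ≤ k₀ * (2 * k₀ + 1) →
    ∃ N k k' kc lam : ℕ,
      Par m w v Cs Cc k₀ s (C * (Nat.log 2 L + 1 + s)) δ ν N k k' kc lam := by
  obtain ⟨C₁, L₀, h⟩ := paramsG m w v Cs Cc hw hv hCs hCc
  obtain ⟨P₀, hP₀, hP⟩ := exists_sq_le_two_pow C₁ L₀
  refine ⟨2 ^ P₀, ?_⟩
  intro C hC L k₀ s hL hks δ hδ hδ2 ν hν hν2
  have hC1 : 1 ≤ C := le_trans (Nat.one_le_two_pow) hC
  set p : ℕ := Nat.log 2 C with hp
  set P : ℕ := p + 1 with hPdef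
  have hCP : C < 2 ^ P := Nat.lt_pow_succ_log_self (by norm_num) C
  have hpC : 2 ^ p ≤ C := Nat.pow_log_le_self 2 (by omega)
  have hp0 : P₀ ≤ p := (Nat.le_log_iff_pow_le (by norm_num) (by omega)).2 hC
  have hquad : C₁ * (1 + P) ^ 2 ≤ C := by
    have := hP p hp0
    have e : 1 + P = 2 + p := by omega
    rw [e]
    exact le_trans this hpC
  set l : ℕ := Nat.log 2 L + 1 with hl
  have hLl : L < 2 ^ l := Nat.lt_pow_succ_log_self (by norm_num) L
  have hl1 : 1 ≤ l := by omega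
  have hlL : l ≤ L := by
    have := Nat.log_lt_self 2 (x := L) (by omega)
    omega
  set l' : ℕ := Nat.log 2 (L + P) + 1 with hl'
  have hl'le : l' ≤ (P + 1) * l := by
    have h1 : L + P < 2 ^ (P + l) := by
      have h2 : P < 2 ^ P := Nat.lt_two_pow_self
      have h3 : L + P ≤ (P + 1) * L := by nlinarith
      calc L + P ≤ (P + 1) * L := h3
        _ ≤ 2 ^ P * L := Nat.mul_le_mul_right _ h2
        _ < 2 ^ P * 2 ^ l := by
          apply Nat.mul_lt_mul_of_pos_left hLl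
          positivity
        _ = 2 ^ (P + l) := by ring
    have h4 : Nat.log 2 (L + P) < P + l := Nat.log_lt_of_lt_pow (by omega) h1
    have h5 : P + l ≤ (P + 1) * l := by nlinarith
    omega
  have hL'le : L + P ≤ (P + 1) * L := by nlinarith
  have hr : C₁ * (l' + s) ≤ C * (l + s) := by
    calc C₁ * (l' + s) ≤ C₁ * ((P + 1) * l + (P + 1) * s) := by
          apply Nat.mul_le_mul_left
          have : s ≤ (P + 1) * s := Nat.le_mul_of_pos_left _ (by omega)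
          omega
      _ = C₁ * ((P + 1) * (l + s)) := by ring
      _ ≤ C₁ * ((1 + P) ^ 2 * (l + s)) := by
        apply Nat.mul_le_mul_left
        apply Nat.mul_le_mul_right
        nlinarith
      _ = C₁ * (1 + P) ^ 2 * (l + s) := by ring
      _ ≤ C * (l + s) := Nat.mul_le_mul_right _ hquad
  refine h (L + P) (by omega) (by omega) k₀ s (C * (l + s)) (by omega) hr ?_ δ hδ ?_ ν hν ?_
  · have h2L : l + s ≤ 2 ^ L := by
      have h3 : ∀ n : ℕ, 1 ≤ n → 2 * n ≤ 2 ^ n := by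
        intro n hn
        induction n, hn using Nat.le_induction with
        | base => norm_num
        | succ n hn ih =>
          have e : 2 ^ (n + 1) = 2 * 2 ^ n := by ring
          omega
      have h4 := h3 L hL
      omega
    calc C * (l + s) ≤ 2 ^ P * 2 ^ L := Nat.mul_le_mul hCP.le h2L
      _ = 2 ^ (L + P) := by ring
  · refine le_trans ?_ hδ2
    apply mul_le_mul_of_nonneg_left _ hδ
    apply pow_le_pow_right₀ (by norm_num)
    calc C₁ * (L + P) * l' ≤ C₁ * ((P + 1) * L) * ((P + 1) * l) :=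
          Nat.mul_le_mul (Nat.mul_le_mul_left _ hL'le) hl'le
      _ = C₁ * (1 + P) ^ 2 * (L * l) := by ring
      _ ≤ C * (L * l) := Nat.mul_le_mul_right _ hquad
      _ = C * L * l := by ring
  · refine le_trans ?_ hν2
    apply mul_le_mul_of_nonneg_left _ hν
    exact pow_le_pow_right₀ (by norm_num) hr

end Helper4.GA
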