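import Pool.Agent.Helper4.GA.CplDefs

set_option autoImplicit false

/-!
The potential, for a fixed input of the first copy: the definitions.
-/

namespace Helper4.GA

open Finset Helper4.RC

section

variable {Q O : Type}

/-- The distribution of a bit that is `1` with probability `ε`. -/
noncomputable def pe (ε : ℝ) (e : ZMod 2) : ℝ := if e = 0 then 1 - ε else ε

/-- The probability that the coupled runs are different at the end, if the first copy reads
`x` and the second copy, where it reads its own bit, reads `x i + e i` with `e i = 1` with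
probability `ε`. -/
noncomputable def gx (ε : ℝ) (L : ℕ → ZMod 2 → Q × O → Q × O) (x : ℕ → ZMod 2) (d i : ℕ)
    (u : (Q × O) × (Q × O)) : ℝ :=
  fut (fun i e u => cpl L i (x i, x i + e) u) (pe ε) df d i u

variable [Fintype O]

/-- The potential at the time `i` for the base state `s` of the second copy. -/
noncomputable def psi (ε : ℝ) (R : ℕ → ZMod 2 → Q → Q) (φ : ℕ → ZMod 2 → Q → Equiv.Perm O)
    (q : Q) (x : ℕ → ZMod 2) (n i : ℕ) (s : Q) : ℝ :=
  ∑ o₁, ∑ o₂, gx ε (prg R φ) x (n - i) i ((st R q x i, o₁), (s, o₂))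

/-- The potential of the state of the first copy, and the square of the number of values of the
register after the end. -/
noncomputable def pa (ε : ℝ) (R : ℕ → ZMod 2 → Q → Q) (φ : ℕ → ZMod 2 → Q → Equiv.Perm O)
    (q : Q) (x : ℕ → ZMod 2) (n i : ℕ) : ℝ :=
  if i ≤ n then psi ε R φ q x n i (st R q x i) else (Fintype.card O : ℝ) ^ 2

/-- The weight of the step `i` for the input `x`. -/
noncomputable def dx (ε : ℝ) (R : ℕ → ZMod 2 → Q → Q) (φ : ℕ → ZMod 2 → Q → Equiv.Perm O)
    (q : Q) (x : ℕ → ZMod 2) (n i : ℕ) : ℝ :=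
  ∑ o, gx ε (prg R φ) x (n - 1 - i) (i + 1)
    (prg R φ i (x i) (st R q x i, o), prg R φ i (x i + 1) (st R q x i, o))

end

end Helper4.GA
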