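import Pool.Agent.Helper4.GA.PotDefs

set_option autoImplicit false

/-!
The potential: the steps.

Proof sketch. Equal states stay equal: `gx ε L x d i (u, u) = 0` (`cpl` with `¬ asy`, `df (u, u) = 0`).
`psi_off`: if the base states are different the coupling reads the same bit in both copies, whatever `e` is
(`∑ e, pe ε e = 1`), so `gx (d + 1) i ((r, o₁), (s, o₂)) = gx d (i + 1) ((R i (x i) r, φ i (x i) r o₁), (R i (x i) s, φ i (x i) s o₂))`;
sum over `o₁, o₂` with `Equiv.sum_comp` for the two permutations; `st R q x (i + 1) = R i (x i) (st R q x i)`,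
`n - i = (n - (i + 1)) + 1`. `psi_end`: `gx 0 n (u₁, u₂) = df = 1`. `psi_on`: for `o₁ ≠ o₂` (`asy`) the step reads `(x i, x i + e)`:
`gx (d + 1) i ((r, o₁), (r, o₂)) = (1 - ε) * gx d (i + 1) (same letter) + ε * gx d (i + 1) (L i (x i) (r, o₁), L i (x i + 1) (r, o₂))`;
for `o₁ = o₂` it is `0`. Sum over all `o₁, o₂`: the terms with the same letter for `o₁ = o₂` are `0`, so the first sum is
`psi (i + 1) (R i (x i) r)`; the second sum over `o₁ ≠ o₂` is the sum over all pairs minus the diagonal,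
`psi (i + 1) (R i (x i + 1) r) - dx i` (permutations again). `psi_self_le`: `gx ≤ 1` and `psi_nonneg`: `0 ≤ gx`.
-/

namespace Helper4.GA

open Finset Helper4.RC

section

variable {Q O : Type} [Fintype O]

lemma pe_nonneg {ε : ℝ} (h0 : 0 ≤ ε) (h1 : ε ≤ 1) (e : ZMod 2) : 0 ≤ pe ε e := by
  unfold pe
  split_ifs <;> linarith

lemma sum_pe (ε : ℝ) (f : ZMod 2 → ℝ) : ∑ e, pe ε e * f e = (1 - ε) * f 0 + ε * f 1 := by
  have h : ∑ e : ZMod 2, pe ε e * f e = pe ε 0 * f 0 + pe ε 1 * f 1 :=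
    Fin.sum_univ_two (fun e : Fin 2 => pe ε e * f e)
  have h1 : pe ε 0 = 1 - ε := if_pos rfl
  have h2 : pe ε 1 = ε := if_neg (by decide)
  rw [h, h1, h2]

private lemma sum_pe_const (ε c : ℝ) : ∑ e, pe ε e * c = c := by
  rw [sum_pe ε fun _ => c]
  ring

omit [Fintype O] in
lemma gx_nonneg {ε : ℝ} (h0 : 0 ≤ ε) (h1 : ε ≤ 1) (L : ℕ → ZMod 2 → Q × O → Q × O)
    (x : ℕ → ZMod 2) (d i : ℕ) (u : (Q × O) × (Q × O)) : 0 ≤ gx ε L x d i u :=
  fut_nonneg (G := df) _ (pe_nonneg h0 h1) (fun v => ind_nonneg (v.1 ≠ v.2)) d i u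

omit [Fintype O] in
lemma gx_le_one {ε : ℝ} (h0 : 0 ≤ ε) (h1 : ε ≤ 1) (L : ℕ → ZMod 2 → Q × O → Q × O)
    (x : ℕ → ZMod 2) (d i : ℕ) (u : (Q × O) × (Q × O)) : gx ε L x d i u ≤ 1 :=
  fut_le (G := df) _ (pe_nonneg h0 h1) (by simpa using sum_pe_const ε 1)
    (fun v => ind_le_one (v.1 ≠ v.2)) d i u

omit [Fintype O] in
private lemma gx_succ (ε : ℝ) (L : ℕ → ZMod 2 → Q × O → Q × O) (x : ℕ → ZMod 2) (d i : ℕ)
    (u : (Q × O) × (Q × O)) :
    gx ε L x (d + 1) i u = ∑ e, pe ε e * gx ε L x d (i + 1) (cpl L i (x i, x i + e) u) := rfl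

omit [Fintype O] in
private lemma gx_off (ε : ℝ) (L : ℕ → ZMod 2 → Q × O → Q × O) (x : ℕ → ZMod 2) (d i : ℕ)
    {u : (Q × O) × (Q × O)} (h : ¬ asy u) :
    gx ε L x (d + 1) i u = gx ε L x d (i + 1) (L i (x i) u.1, L i (x i) u.2) := by
  rw [gx_succ]
  have h1 : ∀ e : ZMod 2, cpl L i (x i, x i + e) u = (L i (x i) u.1, L i (x i) u.2) :=
    fun e => if_neg h
  simp only [h1]
  exact sum_pe_const _ _

omit [Fintype O] in
private lemma gx_on (ε : ℝ) (L : ℕ → ZMod 2 → Q × O → Q × O) (x : ℕ → ZMod 2) (d i : ℕ)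
    {u : (Q × O) × (Q × O)} (h : asy u) :
    gx ε L x (d + 1) i u = (1 - ε) * gx ε L x d (i + 1) (L i (x i) u.1, L i (x i) u.2) +
      ε * gx ε L x d (i + 1) (L i (x i) u.1, L i (x i + 1) u.2) := by
  rw [gx_succ]
  have h1 : ∀ e : ZMod 2, cpl L i (x i, x i + e) u = (L i (x i) u.1, L i (x i + e) u.2) :=
    fun e => if_pos h
  simp only [h1]
  rw [sum_pe ε fun e => gx ε L x d (i + 1) (L i (x i) u.1, L i (x i + e) u.2), add_zero]

omit [Fintype O] in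
private lemma not_asy_self (u : Q × O) : ¬ asy (u, u) := fun h => h.2 rfl

omit [Fintype O] in
lemma gx_self (ε : ℝ) (L : ℕ → ZMod 2 → Q × O → Q × O) (x : ℕ → ZMod 2) (d : ℕ) :
    ∀ (i : ℕ) (u : Q × O), gx ε L x d i (u, u) = 0 := by
  induction d with
  | zero =>
    intro i u
    exact ind_false (fun h => h rfl)
  | succ d ih =>
    intro i u
    rw [gx_off ε L x d i (not_asy_self u)]
    exact ih (i + 1) (L i (x i) u)

theorem psi_off (ε : ℝ) (R : ℕ → ZMod 2 → Q → Q) (φ : ℕ → ZMod 2 → Q → Equiv.Perm O)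
    (q : Q) (x : ℕ → ZMod 2) {n i : ℕ} (hi : i < n) {s : Q} (hs : s ≠ st R q x i) :
    psi ε R φ q x n i s = psi ε R φ q x n (i + 1) (R i (x i) s) := by
  unfold psi
  have hn : n - i = (n - (i + 1)) + 1 := by omega
  have h1 : ∀ o₁ o₂ : O, gx ε (prg R φ) x (n - i) i ((st R q x i, o₁), (s, o₂)) =
      gx ε (prg R φ) x (n - (i + 1)) (i + 1)
        ((st R q x (i + 1), φ i (x i) (st R q x i) o₁), (R i (x i) s, φ i (x i) s o₂)) := by
    intro o₁ o₂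
    rw [hn]
    exact gx_off ε (prg R φ) x _ i (fun h => hs h.1.symm)
  simp only [h1]
  rw [Equiv.sum_comp (φ i (x i) (st R q x i)) (fun o₁ => ∑ o₂,
    gx ε (prg R φ) x (n - (i + 1)) (i + 1)
        ((st R q x (i + 1), o₁), (R i (x i) s, φ i (x i) s o₂)))]
  refine sum_congr rfl fun o₁ _ => ?_
  exact Equiv.sum_comp (φ i (x i) s) (fun o₂ => gx ε (prg R φ) x (n - (i + 1)) (i + 1)
        ((st R q x (i + 1), o₁), (R i (x i) s, o₂)))

theorem psi_end (ε : ℝ) (R : ℕ → ZMod 2 → Q → Q) (φ : ℕ → ZMod 2 → Q → Equiv.Perm O)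
    (q : Q) (x : ℕ → ZMod 2) {n : ℕ} {s : Q} (hs : s ≠ st R q x n) :
    psi ε R φ q x n n s = (Fintype.card O : ℝ) ^ 2 := by
  unfold psi
  have h1 : ∀ o₁ o₂ : O, gx ε (prg R φ) x (n - n) n ((st R q x n, o₁), (s, o₂)) = 1 := by
    intro o₁ o₂
    rw [Nat.sub_self]
    exact ind_true (fun h => hs (congrArg Prod.fst h).symm)
  simp only [h1, sum_const, card_univ, nsmul_eq_mul, mul_one]
  ring

theorem psi_on (ε : ℝ) (R : ℕ → ZMod 2 → Q → Q) (φ : ℕ → ZMod 2 → Q → Equiv.Perm O)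
    (q : Q) (x : ℕ → ZMod 2) {n i : ℕ} (hi : i < n) :
    psi ε R φ q x n i (st R q x i) =
      (1 - ε) * psi ε R φ q x n (i + 1) (st R q x (i + 1)) +
        ε * (psi ε R φ q x n (i + 1) (R i (x i + 1) (st R q x i)) - dx ε R φ q x n i) := by
  classical
  set r : Q := st R q x i with hr
  have hn : n - i = (n - (i + 1)) + 1 := by omega
  have hn2 : n - 1 - i = n - (i + 1) := by omega
  set g : (Q × O) × (Q × O) → ℝ := gx ε (prg R φ) x (n - (i + 1)) (i + 1) with hg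
  -- one term
  have h1 : ∀ o₁ o₂ : O, gx ε (prg R φ) x (n - i) i ((r, o₁), (r, o₂)) =
      (1 - ε) * g ((R i (x i) r, φ i (x i) r o₁), (R i (x i) r, φ i (x i) r o₂)) +
        ε * (g ((R i (x i) r, φ i (x i) r o₁), (R i (x i + 1) r, φ i (x i + 1) r o₂)) -
          if o₂ = o₁ then
            g ((R i (x i) r, φ i (x i) r o₁), (R i (x i + 1) r, φ i (x i + 1) r o₂)) else 0) := by
    intro o₁ o₂
    rw [hn]
    by_cases h : o₂ = o₁
    · subst h
      rw [if_pos rfl, sub_self, mul_zero, add_zero, gx_off ε (prg R φ) x _ i (not_asy_self _)]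
      have h2 : g ((R i (x i) r, φ i (x i) r o₂), (R i (x i) r, φ i (x i) r o₂)) = 0 :=
        gx_self ε _ x _ _ _
      rw [h2, mul_zero]
      exact h2
    · rw [if_neg h, sub_zero]
      exact gx_on ε (prg R φ) x _ i ⟨rfl, fun h' => h h'.symm⟩
  have h2 : psi ε R φ q x n i r = ∑ o₁, ∑ o₂,
      ((1 - ε) * g ((R i (x i) r, φ i (x i) r o₁), (R i (x i) r, φ i (x i) r o₂)) +
        ε * (g ((R i (x i) r, φ i (x i) r o₁), (R i (x i + 1) r, φ i (x i + 1) r o₂)) -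
          if o₂ = o₁ then
            g ((R i (x i) r, φ i (x i) r o₁), (R i (x i + 1) r, φ i (x i + 1) r o₂)) else 0)) := by
    unfold psi
    exact sum_congr rfl fun o₁ _ => sum_congr rfl fun o₂ _ => h1 o₁ o₂
  have h3 : ∀ b : ZMod 2, ∑ o₁, ∑ o₂, g ((R i (x i) r, φ i (x i) r o₁), (R i b r, φ i b r o₂)) =
      psi ε R φ q x n (i + 1) (R i b r) := by
    intro b
    unfold psi
    have h4 : ∀ o₁ : O, ∑ o₂, g ((R i (x i) r, φ i (x i) r o₁), (R i b r, φ i b r o₂)) =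
        ∑ o₂, g ((R i (x i) r, φ i (x i) r o₁), (R i b r, o₂)) := fun o₁ =>
      Equiv.sum_comp (φ i b r) fun o₂ => g ((R i (x i) r, φ i (x i) r o₁), (R i b r, o₂))
    simp only [h4]
    exact Equiv.sum_comp (φ i (x i) r) fun o₁ => ∑ o₂, g ((R i (x i) r, o₁), (R i b r, o₂))
  have h5 : dx ε R φ q x n i =
      ∑ o, g ((R i (x i) r, φ i (x i) r o), (R i (x i + 1) r, φ i (x i + 1) r o)) := by
    unfold dx
    rw [hn2]
    rfl
  rw [h2]
  simp only [sum_add_distrib, ← mul_sum, sum_sub_distrib, sum_ite_eq', mem_univ, if_true]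
  rw [h3 (x i), h3 (x i + 1), h5]
  rfl

theorem psi_nonneg {ε : ℝ} (h0 : 0 ≤ ε) (h1 : ε ≤ 1) (R : ℕ → ZMod 2 → Q → Q)
    (φ : ℕ → ZMod 2 → Q → Equiv.Perm O) (q : Q) (x : ℕ → ZMod 2) (n i : ℕ) (s : Q) :
    0 ≤ psi ε R φ q x n i s :=
  sum_nonneg fun _ _ => sum_nonneg fun _ _ => gx_nonneg h0 h1 _ _ _ _ _

theorem psi_le {ε : ℝ} (h0 : 0 ≤ ε) (h1 : ε ≤ 1) (R : ℕ → ZMod 2 → Q → Q)
    (φ : ℕ → ZMod 2 → Q → Equiv.Perm O) (q : Q) (x : ℕ → ZMod 2) (n i : ℕ) (s : Q) :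
    psi ε R φ q x n i s ≤ (Fintype.card O : ℝ) ^ 2 := by
  unfold psi
  calc _ ≤ ∑ _o₁ : O, ∑ _o₂ : O, (1 : ℝ) :=
        sum_le_sum fun _ _ => sum_le_sum fun _ _ => gx_le_one h0 h1 _ _ _ _ _
    _ = (Fintype.card O : ℝ) ^ 2 := by
        simp only [sum_const, card_univ, nsmul_eq_mul, mul_one]
        ring

end

end Helper4.GA
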