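import Pool.Agent.Helper4.RC.Basic

set_option autoImplicit false

/-!
The potential lemma: the part about real numbers.

Proof sketch. Let `x⁺ = max x 0`, `P = ∑ j ∈ range (n + 1), (a (j + 1) - a j)⁺`,
`M = ∑ j ∈ range (n + 1), (a j - a (j + 1))⁺`; `P - M = a (n + 1) - a 0 ≤ K`. By `h1` and `d ≥ 0`, for `i < n`:
`(a i - a (i + 1))⁺ ≤ ε * ∑ j ∈ Ico (i + 1) (n + 1), ind (s j i) * (a (j + 1) - a j)⁺`, and
`(a n - a (n + 1))⁺ = 0`. Exchange the sums: `M ≤ ε * ∑ j ∈ range (n + 1), (a (j + 1) - a j)⁺ *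
∑ i ∈ range j, ind (s j i) ≤ ε Λ P ≤ P / 2` (for `j ≤ n` the indices `i < n` with `i + 1 ≤ j` are those in `range j`).
So `P ≤ 2 K`. Sum `h1` over `i < n`: `ε * ∑ d i = a n - a 0 + ε * ∑ ∑ .. ≤ K + ε Λ P ≤ 2 K`.
-/

namespace Helper4.GA

open Finset Helper4.RC

theorem pot_real (n Λ : ℕ) (ε K : ℝ) (a d : ℕ → ℝ) (s : ℕ → ℕ → Prop) (hε : 0 ≤ ε)
    (hΛ : ε * Λ ≤ 1 / 2)
    (h1 : ∀ i < n, ε * d i =
      a (i + 1) - a i + ε * ∑ j ∈ Ico (i + 1) (n + 1), ind (s j i) * (a (j + 1) - a j))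
    (hd : ∀ i < n, 0 ≤ d i) (hs : ∀ j ≤ n, ∑ i ∈ range j, ind (s j i) ≤ Λ)
    (ha0 : 0 ≤ a 0) (han : a n ≤ a (n + 1)) (haK : a (n + 1) ≤ K) :
    ε * ∑ i ∈ range n, d i ≤ 2 * K := by
  have hpm : ∀ j, max (a (j + 1) - a j) 0 - max (a j - a (j + 1)) 0 = a (j + 1) - a j := by
    intro j
    rcases le_total (a j) (a (j + 1)) with h | h
    · rw [max_eq_left (by linarith), max_eq_right (by linarith)]; ring
    · rw [max_eq_right (by linarith), max_eq_left (by linarith)]; ring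
  have hT : ∀ i, ε * ∑ j ∈ Ico (i + 1) (n + 1), ind (s j i) * (a (j + 1) - a j) ≤
      ε * ∑ j ∈ Ico (i + 1) (n + 1), ind (s j i) * max (a (j + 1) - a j) 0 := by
    intro i
    refine mul_le_mul_of_nonneg_left (sum_le_sum fun j _ => ?_) hε
    exact mul_le_mul_of_nonneg_left (le_max_left _ _) (ind_nonneg _)
  have hT0 : ∀ i, 0 ≤ ε * ∑ j ∈ Ico (i + 1) (n + 1), ind (s j i) * max (a (j + 1) - a j) 0 := by
    intro i
    exact mul_nonneg hε (sum_nonneg fun j _ => mul_nonneg (ind_nonneg _) (le_max_right _ _))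
  have hex : ∑ i ∈ range n, ∑ j ∈ Ico (i + 1) (n + 1), ind (s j i) * max (a (j + 1) - a j) 0 =
      ∑ j ∈ range (n + 1), ∑ i ∈ range j, ind (s j i) * max (a (j + 1) - a j) 0 := by
    refine sum_comm' fun i j => ?_
    simp only [mem_range, mem_Ico]
    omega
  have hΛP : ∑ i ∈ range n, ∑ j ∈ Ico (i + 1) (n + 1), ind (s j i) * max (a (j + 1) - a j) 0 ≤
      Λ * ∑ j ∈ range (n + 1), max (a (j + 1) - a j) 0 := by
    rw [hex, mul_sum]
    refine sum_le_sum fun j hj => ?_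
    rw [← sum_mul]
    exact mul_le_mul_of_nonneg_right (hs j (Nat.lt_succ_iff.mp (mem_range.mp hj)))
      (le_max_right _ _)
  have hP0 : 0 ≤ ∑ j ∈ range (n + 1), max (a (j + 1) - a j) 0 :=
    sum_nonneg fun j _ => le_max_right _ _
  have hhalf : ε * ∑ i ∈ range n, ∑ j ∈ Ico (i + 1) (n + 1),
      ind (s j i) * max (a (j + 1) - a j) 0 ≤
      1 / 2 * ∑ j ∈ range (n + 1), max (a (j + 1) - a j) 0 := by
    refine (mul_le_mul_of_nonneg_left hΛP hε).trans ?_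
    rw [← mul_assoc]
    exact mul_le_mul_of_nonneg_right hΛ hP0
  have hM : ∑ j ∈ range (n + 1), max (a j - a (j + 1)) 0 ≤
      ε * ∑ i ∈ range n, ∑ j ∈ Ico (i + 1) (n + 1), ind (s j i) * max (a (j + 1) - a j) 0 := by
    rw [sum_range_succ, max_eq_right (by linarith), add_zero, mul_sum]
    refine sum_le_sum fun i hi => max_le ?_ (hT0 i)
    have e1 := h1 i (mem_range.mp hi)
    have e2 := mul_nonneg hε (hd i (mem_range.mp hi))
    have e3 := hT i
    linarith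
  have htel : ∑ j ∈ range (n + 1), max (a (j + 1) - a j) 0 -
      ∑ j ∈ range (n + 1), max (a j - a (j + 1)) 0 = a (n + 1) - a 0 := by
    rw [← sum_sub_distrib, sum_congr rfl fun j _ => hpm j]
    exact sum_range_sub a (n + 1)
  have hsum : ε * ∑ i ∈ range n, d i ≤ a n - a 0 +
      ε * ∑ i ∈ range n, ∑ j ∈ Ico (i + 1) (n + 1), ind (s j i) * max (a (j + 1) - a j) 0 := by
    rw [mul_sum, mul_sum, ← sum_range_sub a n, ← sum_add_distrib]
    refine sum_le_sum fun i hi => ?_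
    have e1 := h1 i (mem_range.mp hi)
    have e3 := hT i
    linarith
  linarith

end Helper4.GA
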