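import Pool.Agent.Helper4.GA.PotPsi
import Pool.Agent.Helper4.GA.PotReal

set_option autoImplicit false

/-!
The potential lemma: for an input whose base run has at most `Λ` sensitive positions at every time,
the total weight of the steps is bounded.

Proof sketch. Write `a j = pa ε R φ q x n j`. Claim: for `i < j ≤ n` (downward induction on `j`):
`psi j (st R q (flp x {i}) j) = a j + ∑ j' ∈ Ico j (n + 1), ind (sen R q x j' i) * (a (j' + 1) - a j')`. If
`¬ sen R q x j i` the state is `st R q x j`, and no later time is sensitive (`not_sen_of_le`), so the sum is `0`.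
If `sen R q x j i` and `j < n`: `psi_off`, `R j (x j) (st R q (flp x {i}) j) = st R q (flp x {i}) (j + 1)`
(`flp x {i} j = x j` for `j ≠ i`), the induction hypothesis, and `Finset.sum_eq_sum_Ico_succ_bot`; if `j = n`: `psi_end`
(`a (n + 1) = (card O)^2`). For `j = i + 1`: `st R q (flp x {i}) (i + 1) = R i (x i + 1) (st R q x i)` (the flipped sequence
agrees with `x` before `i`, `st_congr`). With `psi_on`: `ε * dx i = a (i + 1) - a i + ε * ∑ j ∈ Ico (i + 1) (n + 1), ..`.
Now `pot_real` with `K = (card O)^2`, `s j i = sen R q x j i`: `∑ i ∈ range j, ind (sen R q x j i) = card (sens R q x j) ≤ Λ`.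
-/

namespace Helper4.GA

open Finset Helper4.RC

section

variable {Q O : Type} [Fintype O]

theorem dx_nonneg {ε : ℝ} (h0 : 0 ≤ ε) (h1 : ε ≤ 1) (R : ℕ → ZMod 2 → Q → Q)
    (φ : ℕ → ZMod 2 → Q → Equiv.Perm O) (q : Q) (x : ℕ → ZMod 2) (n i : ℕ) :
    0 ≤ dx ε R φ q x n i :=
  sum_nonneg fun _ _ => gx_nonneg h0 h1 _ _ _ _ _

theorem dx_le {ε : ℝ} (h0 : 0 ≤ ε) (h1 : ε ≤ 1) (R : ℕ → ZMod 2 → Q → Q)
    (φ : ℕ → ZMod 2 → Q → Equiv.Perm O) (q : Q) (x : ℕ → ZMod 2) (n i : ℕ) :
    dx ε R φ q x n i ≤ Fintype.card O := by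
  unfold dx
  calc _ ≤ ∑ _o : O, (1 : ℝ) := sum_le_sum fun _ _ => gx_le_one h0 h1 _ _ _ _ _
    _ = Fintype.card O := by
        simp only [sum_const, card_univ, nsmul_eq_mul, mul_one]

private lemma pa_of_le (ε : ℝ) (R : ℕ → ZMod 2 → Q → Q) (φ : ℕ → ZMod 2 → Q → Equiv.Perm O)
    (q : Q) (x : ℕ → ZMod 2) {n i : ℕ} (hi : i ≤ n) :
    pa ε R φ q x n i = psi ε R φ q x n i (st R q x i) := if_pos hi

private lemma pa_end (ε : ℝ) (R : ℕ → ZMod 2 → Q → Q) (φ : ℕ → ZMod 2 → Q → Equiv.Perm O)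
    (q : Q) (x : ℕ → ZMod 2) (n : ℕ) :
    pa ε R φ q x n (n + 1) = (Fintype.card O : ℝ) ^ 2 := if_neg (by omega)

/-- No sensitivity at the time `j`. -/
private lemma psi_flip_off (ε : ℝ) (R : ℕ → ZMod 2 → Q → Q)
    (φ : ℕ → ZMod 2 → Q → Equiv.Perm O) (q : Q) (x : ℕ → ZMod 2) {n i j : ℕ} (hij : i < j)
    (hj : j ≤ n) (h : ¬ sen R q x j i) :
    psi ε R φ q x n j (st R q (flp x {i}) j) = pa ε R φ q x n j +
      ∑ j' ∈ Ico j (n + 1), ind (sen R q x j' i) *
        (pa ε R φ q x n (j' + 1) - pa ε R φ q x n j') := by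
  have h1 : st R q (flp x {i}) j = st R q x j := not_not.1 h
  have h2 : ∑ j' ∈ Ico j (n + 1), ind (sen R q x j' i) *
      (pa ε R φ q x n (j' + 1) - pa ε R φ q x n j') = 0 := by
    refine sum_eq_zero fun j' hj' => ?_
    rw [ind_false (not_sen_of_le hij (mem_Ico.1 hj').1 h), zero_mul]
  rw [h1, h2, add_zero, pa_of_le ε R φ q x hj]

private lemma psi_flip (ε : ℝ) (R : ℕ → ZMod 2 → Q → Q)
    (φ : ℕ → ZMod 2 → Q → Equiv.Perm O) (q : Q) (x : ℕ → ZMod 2) (n i : ℕ) :
    ∀ d j : ℕ, i < j → j + d = n →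
    psi ε R φ q x n j (st R q (flp x {i}) j) = pa ε R φ q x n j +
      ∑ j' ∈ Ico j (n + 1), ind (sen R q x j' i) *
        (pa ε R φ q x n (j' + 1) - pa ε R φ q x n j') := by
  intro d
  induction d with
  | zero =>
    intro j hij hj
    have hjn : j = n := by omega
    subst hjn
    by_cases h : sen R q x j i
    · rw [psi_end ε R φ q x h, sum_Ico_succ_top (le_refl j), Ico_self, sum_empty, zero_add,
        ind_true h, pa_end]
      ring
    · exact psi_flip_off ε R φ q x hij le_rfl h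
  | succ d ih =>
    intro j hij hj
    by_cases h : sen R q x j i
    · have hjn : j < n := by omega
      have h1 : R j (x j) (st R q (flp x {i}) j) = st R q (flp x {i}) (j + 1) := by
        have h2 : flp x {i} j = x j := by
          apply flp_apply_of_notMem
          rw [mem_singleton]
          omega
        rw [st, h2]
      rw [psi_off ε R φ q x hjn h, h1, ih (j + 1) (by omega) (by omega),
        sum_eq_sum_Ico_succ_bot (by omega : j < n + 1), ind_true h]
      ring
    · exact psi_flip_off ε R φ q x hij (by omega) h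

private lemma sum_ind_sens (R : ℕ → ZMod 2 → Q → Q) (q : Q) (x : ℕ → ZMod 2) (j : ℕ) :
    ∑ i ∈ range j, ind (sen R q x j i) = ((sens R q x j).card : ℝ) := by
  classical
  unfold sens ind
  rw [card_filter]
  push_cast
  exact sum_congr rfl fun i _ => by congr

theorem potential {ε : ℝ} (h0 : 0 ≤ ε) (h1 : ε ≤ 1) (R : ℕ → ZMod 2 → Q → Q)
    (φ : ℕ → ZMod 2 → Q → Equiv.Perm O) (q : Q) (x : ℕ → ZMod 2) (n Λ : ℕ)
    (hΛ : ε * Λ ≤ 1 / 2) (hs : ∀ j ≤ n, (sens R q x j).card ≤ Λ) :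
    ε * ∑ i ∈ range n, dx ε R φ q x n i ≤ 2 * (Fintype.card O : ℝ) ^ 2 := by
  refine pot_real n Λ ε ((Fintype.card O : ℝ) ^ 2) (pa ε R φ q x n) (dx ε R φ q x n)
    (fun j i => sen R q x j i) h0 hΛ ?_ ?_ ?_ ?_ ?_ ?_
  · intro i hi
    have h2 := psi_on ε R φ q x hi
    have h3 : R i (x i + 1) (st R q x i) = st R q (flp x {i}) (i + 1) := by
      have h4 : flp x {i} i = x i + 1 := flp_apply_of_mem (mem_singleton_self i)
      have h5 : st R q (flp x {i}) i = st R q x i := by
        refine st_congr R q q (x := flp x {i}) (y := x) (Nat.zero_le i) rfl ?_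
        intro j _ hj
        apply flp_apply_of_notMem
        rw [mem_singleton]
        omega
      rw [st, h4, h5]
    rw [h3, psi_flip ε R φ q x n i (n - (i + 1)) (i + 1) (by omega) (by omega),
      ← pa_of_le ε R φ q x (by omega : i ≤ n), ← pa_of_le ε R φ q x (by omega : i + 1 ≤ n)] at h2
    linarith
  · intro i _
    exact dx_nonneg h0 h1 R φ q x n i
  · intro j hj
    rw [sum_ind_sens R q x j]
    exact_mod_cast hs j hj
  · rw [pa_of_le ε R φ q x (Nat.zero_le n)]
    exact psi_nonneg h0 h1 R φ q x n 0 _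
  · rw [pa_of_le ε R φ q x le_rfl, pa_end]
    exact psi_le h0 h1 R φ q x n n _
  · rw [pa_end]

end

end Helper4.GA
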