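import Pool.Agent.Helper4.GA.Avg
import Pool.Agent.Helper4.GA.Potential
import Pool.Agent.Helper4.GA.Cpl

set_option autoImplicit false

/-!
The sum of the tests of the first kind for truly random bits.

Proof sketch. `pb_nt`: for `t < n` let `F r x = ∑ o, gx ε L (ez x) (n - 1 - t) (t + 1) (L t (ez x t) (r, o), L t (ez x t + 1) (r, o))`
(`L = prg R φ`); `dx ε R φ q (ez x) n t = F (st R q (ez x) t) x`, so by `mean_prefix`
`mean dx = ∑ r, pb t r * mean (F r)`. By `mean_split` for the bit `t` and `nm_mean`: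
`mean (F r) = ∑ o, ∑ b, 1/2 * nm (1 - 2 ε) L (n - 1 - t) (t + 1) (L t b (r, o), L t (b + 1) (r, o))`, and
`nt (1 - 2 ε) L n t r o = ε * ∑ b, 1/2 * nm ..` (`wz (1 - 2 ε) (b, b') = ε / 2` for `b' = b + 1`; for `b' = b` the states are
equal and `nm = 0`). `S1_le`: sum over `t`; for `x` not in `bad R q n Λ` use `potential` (`ez x` and `ext0 x` are
the same function), for `x` in `bad` each `dx ≤ card O`, `ε ≤ 1`; the fraction of `bad` is at most `1 / 2 ^ N`.
-/

namespace Helper4.GA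

open Finset Helper4.RC

section

variable {Q O : Type} [Fintype Q] [Fintype O]

omit [Fintype Q] [Fintype O] in
private lemma s1_self (z : ℝ) (L : ℕ → ZMod 2 → Q × O → Q × O) (d : ℕ) :
    ∀ (i : ℕ) (u : Q × O), nm z L d i (u, u) = 0 := by
  induction d with
  | zero =>
    intro i u
    exact ind_false fun h => h rfl
  | succ d ih =>
    intro i u
    show ∑ y, wz z y * nm z L d (i + 1) (cpl L i y (u, u)) = 0
    refine sum_eq_zero fun y _ => ?_
    have h1 : cpl L i y (u, u) = (L i y.1 u, L i y.1 u) := if_neg fun h => h.2 rfl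
    rw [h1, ih, mul_zero]

omit [Fintype Q] [Fintype O] in
private lemma s1_nt (ε : ℝ) (L : ℕ → ZMod 2 → Q × O → Q × O) (n t : ℕ) (r : Q) (o : O) :
    nt (1 - 2 * ε) L n t r o = ε * ∑ b, 1 / 2 *
      nm (1 - 2 * ε) L (n - 1 - t) (t + 1) (L t b (r, o), L t (b + 1) (r, o)) := by
  unfold nt
  rw [Fintype.sum_prod_type, mul_sum]
  refine sum_congr rfl fun b _ => ?_
  rw [← Equiv.sum_comp (Equiv.addLeft b)]
  have h2 : ∀ f : ZMod 2 → ℝ, ∑ e, f e = f 0 + f 1 := fun f => Fin.sum_univ_two f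
  rw [h2]
  show wz (1 - 2 * ε) (b, b + 0) *
      nm (1 - 2 * ε) L (n - 1 - t) (t + 1) (L t b (r, o), L t (b + 0) (r, o)) +
      wz (1 - 2 * ε) (b, b + 1) *
      nm (1 - 2 * ε) L (n - 1 - t) (t + 1) (L t b (r, o), L t (b + 1) (r, o)) = _
  rw [add_zero, s1_self, mul_zero, zero_add]
  have h3 : wz (1 - 2 * ε) (b, b + 1) = ε * (1 / 2) := by
    unfold wz
    rw [if_neg (show ¬ b = b + 1 by revert b; decide)]
    ring
  rw [h3]
  ring

private lemma s1_sum {Ω I : Type} [Fintype Ω] [Fintype I] (f : I → Ω → ℝ) :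
    (mean fun ω => ∑ i, f i ω) = ∑ i, mean (f i) := by
  unfold mean
  rw [sum_comm, sum_div]

private lemma s1_ez {n : ℕ} (x : Fin n → ZMod 2) {i : ℕ} (hi : i < n) :
    ez x i = x ⟨i, hi⟩ := dif_pos hi

private lemma s1_ez_upd {n : ℕ} (x : Fin n → ZMod 2) (j : Fin n) (c : ZMod 2) {i : ℕ}
    (hi : i ≠ j) : ez (Function.update x j c) i = ez x i := by
  unfold ez
  split_ifs with h
  · rw [Function.update_of_ne]
    intro hh
    exact hi (congrArg Fin.val hh)
  · rfl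

omit [Fintype Q] in
private lemma s1_mean (ε : ℝ) (L : ℕ → ZMod 2 → Q × O → Q × O) (n t : ℕ) (ht : t < n) (r : Q) :
    (mean fun x : Fin n → ZMod 2 => ∑ o, gx ε L (ez x) (n - 1 - t) (t + 1)
      (L t (ez x t) (r, o), L t (ez x t + 1) (r, o))) =
    ∑ b, 1 / 2 * ∑ o,
      nm (1 - 2 * ε) L (n - 1 - t) (t + 1) (L t b (r, o), L t (b + 1) (r, o)) := by
  have h1 := mean_split (⟨t, ht⟩ : Fin n) (fun x b => ∑ o, gx ε L (ez x) (n - 1 - t) (t + 1)
      (L t b (r, o), L t (b + 1) (r, o))) (fun x b c => sum_congr rfl fun o _ => by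
        rw [gx_upd ε L x (⟨t, ht⟩ : Fin n) c (n - 1 - t) (t + 1) (Nat.lt_succ_self t)])
  have h2 : (mean fun x : Fin n → ZMod 2 => ∑ o, gx ε L (ez x) (n - 1 - t) (t + 1)
      (L t (ez x t) (r, o), L t (ez x t + 1) (r, o))) =
      mean fun x : Fin n → ZMod 2 => ∑ o, gx ε L (ez x) (n - 1 - t) (t + 1)
      (L t (x ⟨t, ht⟩) (r, o), L t (x ⟨t, ht⟩ + 1) (r, o)) := by
    congr 1
    funext x
    rw [s1_ez x ht]
  rw [h2, h1]
  refine sum_congr rfl fun b _ => ?_
  congr 1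
  rw [s1_sum]
  exact sum_congr rfl fun o _ => (nm_mean ε L n (n - 1 - t) (t + 1) (by omega) _).symm

theorem pb_nt {ε : ℝ} (h0 : 0 ≤ ε) (h1 : ε ≤ 1) (R : ℕ → ZMod 2 → Q → Q)
    (φ : ℕ → ZMod 2 → Q → Equiv.Perm O) (q : Q) (n t : ℕ) (ht : t < n) :
    ∑ r, ∑ o, pb R q t r * nt (1 - 2 * ε) (prg R φ) n t r o =
      ε * mean fun x : Fin n → ZMod 2 => dx ε R φ q (ez x) n t := by
  have h2 : (mean fun x : Fin n → ZMod 2 => dx ε R φ q (ez x) n t) =
      ∑ r, pb R q t r * ∑ b, 1 / 2 * ∑ o, nm (1 - 2 * ε) (prg R φ) (n - 1 - t) (t + 1)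
        (prg R φ t b (r, o), prg R φ t (b + 1) (r, o)) := by
    have h3 := mean_prefix R q (n := n) t ht.le
      (fun r x => ∑ o, gx ε (prg R φ) (ez x) (n - 1 - t) (t + 1)
        (prg R φ t (ez x t) (r, o), prg R φ t (ez x t + 1) (r, o)))
      (by
        intro r x i c hi
        refine sum_congr rfl fun o _ => ?_
        rw [s1_ez_upd x i c (by omega), gx_upd ε (prg R φ) x i c (n - 1 - t) (t + 1) (by omega)])
    refine Eq.trans h3 (sum_congr rfl fun r _ => ?_)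
    congr 1
    exact s1_mean ε (prg R φ) n t ht r
  rw [h2, mul_sum]
  refine sum_congr rfl fun r _ => ?_
  simp only [s1_nt]
  rw [← mul_sum, ← mul_sum, sum_comm]
  have h4 : ∀ b : ZMod 2, ∑ o, 1 / 2 * nm (1 - 2 * ε) (prg R φ) (n - 1 - t) (t + 1)
      (prg R φ t b (r, o), prg R φ t (b + 1) (r, o)) = 1 / 2 * ∑ o,
      nm (1 - 2 * ε) (prg R φ) (n - 1 - t) (t + 1)
      (prg R φ t b (r, o), prg R φ t (b + 1) (r, o)) := fun b => (mul_sum _ _ _).symm
  simp only [h4]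
  ring

theorem S1_le {ε : ℝ} (h0 : 0 ≤ ε) (h1 : ε ≤ 1) (R : ℕ → ZMod 2 → Q → Q)
    (φ : ℕ → ZMod 2 → Q → Equiv.Perm O) (q : Q) (n Λ N : ℕ) (hΛ : ε * Λ ≤ 1 / 2)
    (hb : (bad R q n Λ).card * 2 ^ N ≤ 2 ^ n) :
    ∑ t ∈ range n, ∑ r, ∑ o, pb R q t r * nt (1 - 2 * ε) (prg R φ) n t r o ≤
      2 * (Fintype.card O : ℝ) ^ 2 + n * Fintype.card O / 2 ^ N := by
  classical
  have h2 : ∑ t ∈ range n, ∑ r, ∑ o, pb R q t r * nt (1 - 2 * ε) (prg R φ) n t r o =
      mean fun x : Fin n → ZMod 2 => ε * ∑ t ∈ range n, dx ε R φ q (ez x) n t := by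
    rw [sum_congr rfl fun t ht => pb_nt h0 h1 R φ q n t (mem_range.1 ht)]
    unfold mean
    rw [← mul_sum, ← mul_sum, ← sum_div, sum_comm, mul_div_assoc]
  have hO : (0 : ℝ) ≤ Fintype.card O := Nat.cast_nonneg _
  have h3 : ∀ x : Fin n → ZMod 2, ε * ∑ t ∈ range n, dx ε R φ q (ez x) n t ≤
      2 * (Fintype.card O : ℝ) ^ 2 + n * Fintype.card O * (if x ∈ bad R q n Λ then 1 else 0) := by
    intro x
    split_ifs with hx
    · have h4 : ∑ t ∈ range n, dx ε R φ q (ez x) n t ≤ n * Fintype.card O := by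
        calc _ ≤ ∑ _t ∈ range n, (Fintype.card O : ℝ) :=
              sum_le_sum fun t _ => dx_le h0 h1 R φ q (ez x) n t
          _ = n * Fintype.card O := by rw [sum_const, card_range, nsmul_eq_mul]
      have h5 : 0 ≤ ∑ t ∈ range n, dx ε R φ q (ez x) n t :=
        sum_nonneg fun t _ => dx_nonneg h0 h1 R φ q (ez x) n t
      have h6 : ε * ∑ t ∈ range n, dx ε R φ q (ez x) n t ≤
          1 * ∑ t ∈ range n, dx ε R φ q (ez x) n t := mul_le_mul_of_nonneg_right h1 h5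
      have h7 : 0 ≤ 2 * (Fintype.card O : ℝ) ^ 2 := by positivity
      linarith
    · rw [mul_zero, add_zero]
      refine potential h0 h1 R φ q (ez x) n Λ hΛ fun j hj => ?_
      by_contra hc
      apply hx
      unfold bad
      rw [mem_filter]
      exact ⟨mem_univ _, j, hj, not_le.1 hc⟩
  have h8 : (∑ x : Fin n → ZMod 2, (if x ∈ bad R q n Λ then (1 : ℝ) else 0)) =
      (bad R q n Λ).card := by
    rw [sum_boole]
    congr 2
    ext x
    simp
  have h9 : (Fintype.card (Fin n → ZMod 2) : ℝ) = 2 ^ n := by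
    rw [Fintype.card_fun, ZMod.card, Fintype.card_fin]
    push_cast
    rfl
  have h10 : (0 : ℝ) < 2 ^ n := by positivity
  have h11 : (0 : ℝ) < 2 ^ N := by positivity
  have hb' : ((bad R q n Λ).card : ℝ) * 2 ^ N ≤ 2 ^ n := by exact_mod_cast hb
  have h12 : ((bad R q n Λ).card : ℝ) / 2 ^ n ≤ 1 / 2 ^ N := by
    rw [div_le_div_iff₀ h10 h11, one_mul]
    exact hb'
  rw [h2]
  unfold mean
  calc (∑ x : Fin n → ZMod 2, ε * ∑ t ∈ range n, dx ε R φ q (ez x) n t) /
        Fintype.card (Fin n → ZMod 2) ≤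
      (∑ x : Fin n → ZMod 2, (2 * (Fintype.card O : ℝ) ^ 2 + n * Fintype.card O *
        (if x ∈ bad R q n Λ then 1 else 0))) / Fintype.card (Fin n → ZMod 2) :=
        div_le_div_of_nonneg_right (sum_le_sum fun x _ => h3 x) (Nat.cast_nonneg _)
    _ = 2 * (Fintype.card O : ℝ) ^ 2 +
        n * Fintype.card O * ((bad R q n Λ).card / 2 ^ n) := by
        have h13 : (∑ x : Fin n → ZMod 2, (2 * (Fintype.card O : ℝ) ^ 2 + n * Fintype.card O *
            (if x ∈ bad R q n Λ then 1 else 0))) = 2 ^ n * (2 * (Fintype.card O : ℝ) ^ 2) +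
            n * Fintype.card O * (bad R q n Λ).card := by
          rw [sum_add_distrib, sum_const, card_univ, nsmul_eq_mul, h9, ← h8, mul_sum]
        rw [h13, h9]
        field_simp
    _ ≤ 2 * (Fintype.card O : ℝ) ^ 2 + n * Fintype.card O * (1 / 2 ^ N) := by
        have := mul_le_mul_of_nonneg_left h12 (mul_nonneg (Nat.cast_nonneg n) hO)
        linarith
    _ = _ := by ring

end

end Helper4.GA
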