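import Pool.Agent.Helper4.GA.LastE
import Pool.Agent.Helper4.GA.Fixed

set_option autoImplicit false

/-!
Sources whose next bit is nearly independent of the state of a program, and their sum with a
small bias string.

Proof sketch. `H1_le`: for every fixed `θ` the program `L' i b = L i (b + ez (str θ) i)` reads `Y ω` as `L` reads
`str θ + Y ω` (induction on `t` for prefixes); `sg (a + b) = sg a * sg b`, `|sg| = 1`; `nb` for `L'`, then the mean over `θ`
(`mean_prod` in RC/Prog.lean; the order of `Θ × Ω` can be exchanged). `H2_le`: for every fixed `ω` use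
`last_shift` with `y = Y ω`, then the mean over `ω`.
-/

namespace Helper4.GA

open Finset Helper4.RC

/-- The bit `t` of the source `Y` is nearly independent of the state of a program before it. -/
def Next {Ω : Type} [Fintype Ω] {n : ℕ} (Y : Ω → Fin n → ZMod 2) (ν : ℝ) : Prop :=
  ∀ (V : Type) [Fintype V] (L : ℕ → ZMod 2 → V → V) (q : V) (t : Fin n) (v : V),
    |mean fun ω => ind (endSt L q t (fun i => Y ω (Fin.castLE t.2.le i)) = v) * sg (Y ω t)| ≤
      Fintype.card V * ν

private lemma sg_add' (a b : ZMod 2) : sg (a + b) = sg a * sg b := by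
  have key : ∀ a b : ZMod 2, (a = 0 ∨ a = 1) ∧ (b = 0 ∨ b = 1) := by decide
  have e : (1 : ZMod 2) + 1 = 0 := by decide
  have e1 : (1 : ZMod 2) ≠ 0 := by decide
  unfold sg
  obtain ⟨ha, hb⟩ := key a b
  rcases ha with rfl | rfl <;> rcases hb with rfl | rfl <;> simp [e, e1]

private lemma abs_sg' (a : ZMod 2) : |sg a| = 1 := by
  unfold sg
  split_ifs <;> norm_num

private lemma src_prod {Θ Ω : Type} [Fintype Θ] [Fintype Ω] (f : Θ × Ω → ℝ) :
    mean f = mean fun θ => mean fun ω => f (θ, ω) := by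
  unfold mean
  rw [Fintype.sum_prod_type, Fintype.card_prod, Nat.cast_mul, ← Finset.sum_div, div_div,
    mul_comm (Fintype.card Θ : ℝ)]

private lemma src_prod_swap {Θ Ω : Type} [Fintype Θ] [Fintype Ω] (f : Θ × Ω → ℝ) :
    mean f = mean fun ω => mean fun θ => f (θ, ω) := by
  unfold mean
  rw [Fintype.sum_prod_type, Finset.sum_comm, Fintype.card_prod, Nat.cast_mul, ← Finset.sum_div,
    div_div]

private lemma src_abs_le {Θ : Type} [Fintype Θ] [Nonempty Θ] (f : Θ → ℝ) {B : ℝ}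
    (h : ∀ θ, |f θ| ≤ B) : |mean f| ≤ B := by
  unfold mean
  have hc : (0 : ℝ) < Fintype.card Θ := by exact_mod_cast Fintype.card_pos
  rw [abs_div, abs_of_pos hc, div_le_iff₀ hc]
  calc |∑ x, f x| ≤ ∑ x, |f x| := Finset.abs_sum_le_sum_abs _ _
    _ ≤ ∑ _x : Θ, B := Finset.sum_le_sum fun x _ => h x
    _ = B * Fintype.card Θ := by
        rw [Finset.sum_const, Finset.card_univ, nsmul_eq_mul, mul_comm]

private lemma src_sub_const {Θ : Type} [Fintype Θ] [Nonempty Θ] (f : Θ → ℝ) (a : ℝ) :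
    mean f - a = mean fun θ => f θ - a := by
  unfold mean
  have hc : (Fintype.card Θ : ℝ) ≠ 0 := Nat.cast_ne_zero.2 Fintype.card_ne_zero
  rw [Finset.sum_sub_distrib, Finset.sum_const, Finset.card_univ, nsmul_eq_mul, sub_div,
    mul_div_cancel_left₀ _ hc]

private lemma src_mul {Θ : Type} [Fintype Θ] (a : ℝ) (f : Θ → ℝ) :
    (mean fun θ => a * f θ) = a * mean f := by
  unfold mean
  rw [← Finset.mul_sum, mul_div_assoc]

private lemma endSt_shift {V : Type} (L : ℕ → ZMod 2 → V → V) (s : ℕ → ZMod 2) (q : V) (t : ℕ)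
    (x : Fin t → ZMod 2) :
    endSt (fun i b => L i (b + s i)) q t x = endSt L q t fun i => s i + x i := by
  induction t with
  | zero => rfl
  | succ t ih =>
    rw [endSt, endSt, ih, add_comm]
    rfl

theorem H1_le {Θ Ω : Type} [Fintype Θ] [Nonempty Θ] [Fintype Ω] [Nonempty Ω] {n : ℕ}
    (str : Θ → Fin n → ZMod 2) (Y : Ω → Fin n → ZMod 2) (ν : ℝ) (hν : 0 ≤ ν) (hY : Next Y ν)
    {V : Type} [Fintype V] (L : ℕ → ZMod 2 → V → V) (q : V) (t : Fin n) (v : V) :
    |mean fun ω : Θ × Ω =>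
      ind (endSt L q t (fun i => (str ω.1 + Y ω.2) (Fin.castLE t.2.le i)) = v) *
        sg ((str ω.1 + Y ω.2) t)| ≤ Fintype.card V * ν := by
  rw [src_prod]
  refine src_abs_le _ fun θ => ?_
  have h := hY V (fun i b => L i (b + ez (str θ) i)) q t v
  have e1 : (mean fun ω => ind (endSt L q t
      (fun i => (str θ + Y ω) (Fin.castLE t.2.le i)) = v) * sg ((str θ + Y ω) t)) =
      sg (str θ t) * mean fun ω => ind (endSt (fun i b => L i (b + ez (str θ) i)) q t
        (fun i => Y ω (Fin.castLE t.2.le i)) = v) * sg (Y ω t) := by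
    rw [← src_mul]
    unfold mean
    congr 1
    refine Finset.sum_congr rfl fun ω _ => ?_
    beta_reduce
    rw [endSt_shift, Pi.add_apply, sg_add']
    have e2 : (fun i : Fin (t : ℕ) => ez (str θ) i + Y ω (Fin.castLE t.2.le i)) =
        fun i => (str θ + Y ω) (Fin.castLE t.2.le i) := by
      funext i
      rw [Pi.add_apply]
      unfold ez
      rw [dif_pos (i.2.trans t.2)]
      rfl
    rw [e2]
    ring
  rw [e1, abs_mul, abs_sg', one_mul]
  exact h

theorem H2_le {Θ Ω : Type} [Fintype Θ] [Nonempty Θ] [Fintype Ω] [Nonempty Ω]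
    (m w n Λ N k : ℕ) (hΛ : 1 ≤ Λ) (hk : 1 ≤ k)
    (hs : ∀ t ≤ n, ∀ (c : ℕ → ZMod 2 → Instr m w) (q : Fin m → Fin w),
      (bad (run c) q t Λ).card * 2 ^ N ≤ 2 ^ t)
    (hN : k * (6 * (2 * Λ + n * (w ^ m) ^ 2)) ^ k * (2 * n) ≤ 2 ^ N)
    (str : Θ → Fin n → ZMod 2) (δ : ℝ) (hδ : 0 ≤ δ) (hstr : Biased str δ)
    (Y : Ω → Fin n → ZMod 2) (c : ℕ → ZMod 2 → Instr m w) (q : Fin m → Fin w) (t : Fin n)
    (v : Fin m → Fin w) :
    |(mean fun ω : Θ × Ω =>
      ind (endSt (run c) q t (fun i => (str ω.1 + Y ω.2) (Fin.castLE t.2.le i)) = v)) -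
      pb (run c) q t v| ≤ eb c q n Λ k δ := by
  rw [src_prod_swap, src_sub_const]
  refine src_abs_le _ fun ω => ?_
  exact last_shift m w n Λ N k hΛ hk hs hN str δ hδ hstr c q (Y ω) t t.2.le v

end Helper4.GA
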