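import Pool.Agent.Helper4.GA.CplDefs

set_option autoImplicit false

/-!
The error of a source as a sum over the steps.

Proof sketch. For `t ≤ n` let `u_t ω = endSt L q t (fun i => X ω (castLE i))` and
`S t = mean fun ω => fut L (1/2) acc (n - t) t (u_t ω)`; `S n` is the mean of `acc` at the end and `S 0 = fut .. n 0 q` the
true mean (`mean_fut`). For `t < n`: `u_(t+1) = L t (X_t) u_t`, `fut (n - t) t u = 1/2 * (g (L t 0 u) + g (L t 1 u))` with
`g = fut .. (n - 1 - t) (t + 1)`, and `g (L t b u) - 1/2 * (g (L t 0 u) + g (L t 1 u)) = sg b * 1/2 * (g (L t 0 u) - g (L t 1 u))`;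
write it as a sum over `u` with `ind (u_t ω = u)` (`sum_ind_eq`). Telescope (`Finset.sum_range_sub`).
-/

namespace Helper4.GA

open Finset Helper4.RC

private def xe {n : ℕ} (x : Fin n → ZMod 2) : ℕ → ZMod 2 :=
  fun i => if h : i < n then x ⟨i, h⟩ else 0

private def st {V : Type} (L : ℕ → ZMod 2 → V → V) (q : V) (x : ℕ → ZMod 2) (m : ℕ) : V :=
  endSt L q m (fun i : Fin m => x i)

private lemma st_succ {V : Type} (L : ℕ → ZMod 2 → V → V) (q : V) (x : ℕ → ZMod 2) (m : ℕ) :
    st L q x (m + 1) = L m (x m) (st L q x m) := rfl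

private lemma st_eq {V : Type} (L : ℕ → ZMod 2 → V → V) (q : V) {n m : ℕ} (x : Fin n → ZMod 2)
    (h : m ≤ n) : st L q (xe x) m = endSt L q m (fun i => x (Fin.castLE h i)) := by
  unfold st
  congr 1
  funext i
  unfold xe
  rw [dif_pos (lt_of_lt_of_le i.2 h)]
  rfl

private lemma tel_step {V : Type} (L : ℕ → ZMod 2 → V → V) (acc : V → ℝ) (n t : ℕ) (ht : t < n)
    (b : ZMod 2) (v : V) :
    fut L (fun _ => 1 / 2) acc (n - (t + 1)) (t + 1) (L t b v) -
      fut L (fun _ => 1 / 2) acc (n - t) t v =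
    sg b * (1 / 2 * (fut L (fun _ => 1 / 2) acc (n - 1 - t) (t + 1) (L t 0 v) -
        fut L (fun _ => 1 / 2) acc (n - 1 - t) (t + 1) (L t 1 v))) := by
  have e1 : n - (t + 1) = n - 1 - t := by omega
  have e2' : n - t = (n - 1 - t) + 1 := by omega
  rw [e1, e2', fut_succ]
  have h2 : ∑ y : ZMod 2, (1 / 2 : ℝ) * fut L (fun _ => 1 / 2) acc (n - 1 - t) (t + 1) (L t y v) =
      1 / 2 * fut L (fun _ => 1 / 2) acc (n - 1 - t) (t + 1) (L t 0 v) +
      1 / 2 * fut L (fun _ => 1 / 2) acc (n - 1 - t) (t + 1) (L t 1 v) :=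
    Fin.sum_univ_two _
  rw [h2]
  have hb : b = 0 ∨ b = 1 := by
    revert b
    decide
  rcases hb with rfl | rfl
  · rw [show sg (0 : ZMod 2) = 1 by simp [sg]]
    ring
  · rw [show sg (1 : ZMod 2) = -1 by simp [sg]]
    ring

section

variable {V Ω : Type} [Fintype V] [Fintype Ω] [Nonempty Ω]

theorem telescope (L : ℕ → ZMod 2 → V → V) (q : V) (acc : V → ℝ) (n : ℕ)
    (X : Ω → Fin n → ZMod 2) :
    (mean fun ω => acc (endSt L q n (X ω))) -
      (mean fun x : Fin n → ZMod 2 => acc (endSt L q n x)) =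
    ∑ t : Fin n, ∑ u,
      (mean fun ω => ind (endSt L q t (fun i => X ω (Fin.castLE t.2.le i)) = u) * sg (X ω t)) *
      (1 / 2 * (fut L (fun _ => 1 / 2) acc (n - 1 - t) (t + 1) (L t 0 u) -
        fut L (fun _ => 1 / 2) acc (n - 1 - t) (t + 1) (L t 1 u))) := by
  classical
  have hc : (Fintype.card Ω : ℝ) ≠ 0 := by
    exact_mod_cast Fintype.card_ne_zero
  -- the value of one source point
  have point : ∀ ω : Ω, ∀ m ≤ n,
      fut L (fun _ => 1 / 2) acc (n - m) m (st L q (xe (X ω)) m) -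
        fut L (fun _ => 1 / 2) acc n 0 q =
      ∑ t ∈ Finset.range m, sg (xe (X ω) t) *
        (1 / 2 * (fut L (fun _ => 1 / 2) acc (n - 1 - t) (t + 1) (L t 0 (st L q (xe (X ω)) t)) -
          fut L (fun _ => 1 / 2) acc (n - 1 - t) (t + 1) (L t 1 (st L q (xe (X ω)) t)))) := by
    intro ω m
    induction m with
    | zero =>
      intro _
      rw [Finset.range_zero, Finset.sum_empty, Nat.sub_zero]
      exact sub_self _
    | succ m ih =>
      intro hm
      rw [Finset.sum_range_succ, ← ih (by omega), ← tel_step L acc n m (by omega), st_succ]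
      ring
  have hn : ∀ ω : Ω, acc (endSt L q n (X ω)) - fut L (fun _ => 1 / 2) acc n 0 q =
      ∑ t : Fin n, ∑ u, ind (endSt L q t (fun i => X ω (Fin.castLE t.2.le i)) = u) * sg (X ω t) *
        (1 / 2 * (fut L (fun _ => 1 / 2) acc (n - 1 - t) (t + 1) (L t 0 u) -
        fut L (fun _ => 1 / 2) acc (n - 1 - t) (t + 1) (L t 1 u))) := by
    intro ω
    have h := point ω n le_rfl
    rw [Nat.sub_self] at h
    have h0 : fut L (fun _ => 1 / 2) acc 0 n (st L q (xe (X ω)) n) = acc (endSt L q n (X ω)) := by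
      show acc (st L q (xe (X ω)) n) = acc (endSt L q n (X ω))
      rw [st_eq L q (X ω) le_rfl]
      rfl
    rw [h0] at h
    rw [h, ← Fin.sum_univ_eq_sum_range (fun t => sg (xe (X ω) t) *
        (1 / 2 * (fut L (fun _ => 1 / 2) acc (n - 1 - t) (t + 1) (L t 0 (st L q (xe (X ω)) t)) -
          fut L (fun _ => 1 / 2) acc (n - 1 - t) (t + 1) (L t 1 (st L q (xe (X ω)) t)))))]
    refine Finset.sum_congr rfl fun t _ => ?_
    have hx : xe (X ω) t = X ω t := by
      unfold xe
      rw [dif_pos t.2]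
    rw [hx, st_eq L q (X ω) t.2.le]
    rw [← sum_ind_eq (endSt L q t (fun i => X ω (Fin.castLE t.2.le i))) (fun u => sg (X ω t) *
        (1 / 2 * (fut L (fun _ => 1 / 2) acc (n - 1 - t) (t + 1) (L t 0 u) -
          fut L (fun _ => 1 / 2) acc (n - 1 - t) (t + 1) (L t 1 u))))]
    exact Finset.sum_congr rfl fun u _ => by ring
  rw [mean_fut]
  have hm : (mean fun ω => acc (endSt L q n (X ω))) - fut L (fun _ => 1 / 2) acc n 0 q =
      mean fun ω => acc (endSt L q n (X ω)) - fut L (fun _ => 1 / 2) acc n 0 q := by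
    unfold mean
    rw [Finset.sum_sub_distrib, Finset.sum_const, Finset.card_univ, nsmul_eq_mul]
    field_simp
  rw [hm]
  unfold mean
  simp_rw [hn]
  rw [Finset.sum_comm, Finset.sum_div]
  refine Finset.sum_congr rfl fun t _ => ?_
  rw [Finset.sum_comm, Finset.sum_div]
  refine Finset.sum_congr rfl fun u _ => ?_
  rw [← Finset.sum_mul]
  ring

end

end Helper4.GA
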