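import Pool.Agent.Helper4.RC.Pair
import Pool.Agent.Helper4.RC.Lay
import Pool.Agent.Helper4.GA.Fut

set_option autoImplicit false

/-!
Programs reading pairs of correlated bits, and restrictions of programs: the definitions.

Hints. `endSt_rstb`: induction on `t` (compare `prog_restr` in RC/Prog.lean; `ez D t = D ⟨t, _⟩` for `t < n`).
`endSt_rstbl`: induction on `r` for all `L` (compare `lay_prog` in RC/Prog.lean). `endSt_rst`: as `endSt_rstb`.
-/

namespace Helper4.GA

open Finset Helper4.RC

section

variable {A V Θ : Type} {n : ℕ}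

/-- The restriction of a family of letters indexed by the time and a bit (for example of the
transition maps of a program): the bit `b` at the time `i` becomes `D i + T i * b`. -/
def rstb (D T : Fin n → ZMod 2) (L : ℕ → ZMod 2 → A) : ℕ → ZMod 2 → A :=
  fun i b => L i (ez D i + ez T i * b)

/-- The restriction of a family of letters indexed by the time and a pair of bits. -/
def rst (D T : Fin n → ZMod 2) (P : ℕ → ZMod 2 × ZMod 2 → A) : ℕ → ZMod 2 × ZMod 2 → A :=
  fun i y => P i (ez D i + ez T i * y.1, ez D i + ez T i * y.2)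

/-- The `r` levels of restrictions of a family of letters indexed by the time and a bit. -/
def rstbl (str : Θ → Fin n → ZMod 2) :
    (r : ℕ) → (Fin r → Θ × Θ) → (ℕ → ZMod 2 → A) → ℕ → ZMod 2 → A
  | 0, _, L => L
  | r + 1, ρ, L => rstbl str r (fun j => ρ j.succ) (rstb (str (ρ 0).1) (str (ρ 0).2) L)

/-- The `r` levels of restrictions of a family of letters indexed by the time and a pair of bits. -/
def rstl (str : Θ → Fin n → ZMod 2) :
    (r : ℕ) → (Fin r → Θ × Θ) → (ℕ → ZMod 2 × ZMod 2 → A) → ℕ → ZMod 2 × ZMod 2 → A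
  | 0, _, P => P
  | r + 1, ρ, P => rstl str r (fun j => ρ j.succ) (rst (str (ρ 0).1) (str (ρ 0).2) P)

/-- The mean value of `G` at the end of the program `P` reading `z`-correlated pairs of bits. -/
noncomputable def tz (z : ℝ) (n : ℕ) (P : ℕ → ZMod 2 × ZMod 2 → V → V) (q : V) (G : V → ℝ) : ℝ :=
  fut P (wz z) G n 0 q

private lemma tz_ez {t : ℕ} (D : Fin n → ZMod 2) (ht : t + 1 ≤ n) :
    ez D t = D (Fin.castLE ht (Fin.last t)) := by
  have htn : t < n := ht
  unfold ez
  rw [dif_pos htn]
  rfl

/-- Restricting the input and restricting the program is the same, for all prefixes. -/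
theorem endSt_rstb (D T : Fin n → ZMod 2) (L : ℕ → ZMod 2 → V → V) (q : V) (t : ℕ) (ht : t ≤ n)
    (x : Fin t → ZMod 2) :
    endSt L q t (fun i => D (Fin.castLE ht i) + T (Fin.castLE ht i) * x i) =
      endSt (rstb D T L) q t x := by
  induction t with
  | zero => rfl
  | succ t ih =>
    have h1 := ih (Nat.le_of_succ_le ht) fun i => x i.castSucc
    rw [endSt, endSt]
    have h2 : (endSt L q t fun i : Fin t =>
        D (Fin.castLE ht i.castSucc) + T (Fin.castLE ht i.castSucc) * x i.castSucc) =
        endSt (rstb D T L) q t fun i => x i.castSucc := h1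
    rw [h2]
    show L t (D (Fin.castLE ht (Fin.last t)) +
      T (Fin.castLE ht (Fin.last t)) * x (Fin.last t)) _ =
      L t (ez D t + ez T t * x (Fin.last t)) _
    rw [tz_ez D ht, tz_ez T ht]

theorem endSt_rst (D T : Fin n → ZMod 2) (P : ℕ → ZMod 2 × ZMod 2 → V → V) (q : V) (t : ℕ)
    (ht : t ≤ n) (x : Fin t → ZMod 2 × ZMod 2) :
    endSt P q t (fun i => (D (Fin.castLE ht i) + T (Fin.castLE ht i) * (x i).1,
      D (Fin.castLE ht i) + T (Fin.castLE ht i) * (x i).2)) = endSt (rst D T P) q t x := by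
  induction t with
  | zero => rfl
  | succ t ih =>
    have h1 := ih (Nat.le_of_succ_le ht) fun i => x i.castSucc
    rw [endSt, endSt]
    have h2 : (endSt P q t fun i : Fin t =>
        (D (Fin.castLE ht i.castSucc) + T (Fin.castLE ht i.castSucc) * (x i.castSucc).1,
          D (Fin.castLE ht i.castSucc) + T (Fin.castLE ht i.castSucc) * (x i.castSucc).2)) =
        endSt (rst D T P) q t fun i => x i.castSucc := h1
    rw [h2]
    show P t (D (Fin.castLE ht (Fin.last t)) +
      T (Fin.castLE ht (Fin.last t)) * (x (Fin.last t)).1,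
      D (Fin.castLE ht (Fin.last t)) + T (Fin.castLE ht (Fin.last t)) * (x (Fin.last t)).2) _ =
      P t (ez D t + ez T t * (x (Fin.last t)).1, ez D t + ez T t * (x (Fin.last t)).2) _
    rw [tz_ez D ht, tz_ez T ht]

theorem endSt_rstbl (str : Θ → Fin n → ZMod 2) (r : ℕ) (ρ : Fin r → Θ × Θ)
    (L : ℕ → ZMod 2 → V → V) (q : V) (t : ℕ) (ht : t ≤ n) (x : Fin t → ZMod 2) :
    endSt L q t (lay (fun θ i => str θ (Fin.castLE ht i)) r ρ x) =
      endSt (rstbl str r ρ L) q t x := by
  induction r generalizing L with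
  | zero => rfl
  | succ r ih =>
    rw [rstbl, ← ih (fun j => ρ j.succ) (rstb (str (ρ 0).1) (str (ρ 0).2) L),
      ← endSt_rstb (str (ρ 0).1) (str (ρ 0).2) L q t ht]
    rfl

theorem endSt_rstbl_full (str : Θ → Fin n → ZMod 2) (r : ℕ) (ρ : Fin r → Θ × Θ)
    (L : ℕ → ZMod 2 → V → V) (q : V) (x : Fin n → ZMod 2) :
    endSt L q n (lay str r ρ x) = endSt (rstbl str r ρ L) q n x :=
  endSt_rstbl str r ρ L q n le_rfl x

end

end Helper4.GA
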