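import Pool.Agent.Helper4.GA.TzDefs
import Pool.Agent.Helper4.RC.Tensor

set_option autoImplicit false

/-!
The site inequality for all noise levels `z ∈ [0, 1]`, and the mean value after a restriction.

Hints. `site_pair2`: as `site_pair` in RC/Pair.lean (copy the private lemmas), with `3/2` in place of `7/4`
and `q = (1 - z)/4 ≤ 1/4`: the difference of the sides is
`(q (1 - q) - (3/2) q^2) (a₀ - a₁)^2 + (1 - q - 3/4) b₀^2 + q b₁^2 ≥ 0`.
`phi_eq_tz`: `Phi` is a sum over words; by `fut_word` the right side is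
`∑ x, pw (wz z) x * G (endSt (rst D T P) q n x)`, and `endSt (rst D T P) q n x =
endSt P q n fun i => (D i + T i * (x i).1, D i + T i * (x i).2)` (induction, for prefixes); the identity of the two
sums is the private lemma `corr` in RC/Stab.lean (copy it). Here `ez D i = D i` for `i : Fin n`.
-/

namespace Helper4.GA

open Finset Helper4.RC

private lemma sum2t (f : ZMod 2 → ℝ) : ∑ t, f t = f 0 + f 1 := Fin.sum_univ_two f

private lemma sum4t (f : ZMod 2 × ZMod 2 → ℝ) :
    ∑ y, f y = f (0, 0) + f (0, 1) + f (1, 0) + f (1, 1) := by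
  rw [Fintype.sum_prod_type, sum2t, sum2t, sum2t]
  ring

private lemma sg0t : sg 0 = 1 := if_pos rfl

private lemma sg1t : sg 1 = -1 := if_neg (by decide)

private lemma two_casest (t : ZMod 2) : t = 0 ∨ t = 1 := by
  revert t
  decide

private lemma one_net : ¬ ((1 : ZMod 2) = 0) := by decide

private lemma zero_net : ¬ ((0 : ZMod 2) = 1) := by decide

private lemma card4t : (Fintype.card (ZMod 2 × ZMod 2) : ℝ) = 4 := by
  have h : Fintype.card (ZMod 2 × ZMod 2) = 4 := by decide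
  rw [h]
  norm_num

private lemma add11t : (1 : ZMod 2) + 1 = 0 := by decide

private lemma klvt (z : ℝ) (κ y : ZMod 2 × ZMod 2) :
    kl e4 (cz z) κ y = (cz z (0, 0) y * e4 κ (0, 0) + cz z (0, 1) y * e4 κ (0, 1) +
      cz z (1, 0) y * e4 κ (1, 0) + cz z (1, 1) y * e4 κ (1, 1)) / 4 := by
  unfold kl
  rw [sum4t, card4t]

private lemma e4_00t (a b : ZMod 2) : e4 (0, 0) (a, b) = 1 := by
  simp [e4, sg]

private lemma e4_01t (a b : ZMod 2) : e4 (0, 1) (a, b) = sg b := by
  simp [e4]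

private lemma e4_10t (a b : ZMod 2) : e4 (1, 0) (a, b) = sg a := by
  simp [e4]

private lemma e4_11t (a b : ZMod 2) : e4 (1, 1) (a, b) = sg (a + b) := by
  simp [e4]

private lemma cz_0t (z : ℝ) (a x x' : ZMod 2) :
    cz z (a, 0) (x, x') = if x = a ∧ x' = a then 1 else 0 := by
  simp [cz]

private lemma cz_1t (z : ℝ) (a x x' : ZMod 2) :
    cz z (a, 1) (x, x') = if x = x' then (1 + z) / 4 else (1 - z) / 4 := by
  simp [cz, wz]

theorem site_pair2 (z : ℝ) (h0 : 0 ≤ z) (h1 : z ≤ 1) (h : ZMod 2 × ZMod 2 → ℝ) :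
    ∑ κ, (1 + ind (nz κ) * (3 / 2 - 1)) * (∑ y, kl e4 (cz z) κ y * h y) ^ 2 ≤
      ∑ y, kl e4 (cz z) 0 y * h y ^ 2 := by
  have i00 : ind (nz ((0, 0) : ZMod 2 × ZMod 2)) = 0 := ind_false (fun hh => hh rfl)
  have i01 : ind (nz ((0, 1) : ZMod 2 × ZMod 2)) = 1 := ind_true (by unfold nz; decide)
  have i10 : ind (nz ((1, 0) : ZMod 2 × ZMod 2)) = 1 := ind_true (by unfold nz; decide)
  have i11 : ind (nz ((1, 1) : ZMod 2 × ZMod 2)) = 1 := ind_true (by unfold nz; decide)
  simp only [kl_cz_zero]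
  rw [sum4t, i00, i01, i10, i11]
  simp only [sum4t, klvt, e4_00t, e4_01t, e4_10t, e4_11t, cz_0t, cz_1t, wz]
  simp only [one_net, zero_net, if_true, if_false, and_true, and_false, true_and, false_and,
    and_self, add_zero, zero_add, add11t, sg0t, sg1t]
  generalize h (0, 0) = p
  generalize h (0, 1) = q
  generalize h (1, 0) = r
  generalize h (1, 1) = s
  have hq0 : 0 ≤ (1 - z) / 4 := by linarith
  have hq1 : (1 - z) / 4 ≤ 1 / 4 := by linarith
  have t1 : 0 ≤ ((1 - z) / 4 * (1 - 5 / 2 * ((1 - z) / 4))) * ((p + s) / 2 - (q + r) / 2) ^ 2 :=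
    mul_nonneg (mul_nonneg hq0 (by linarith)) (sq_nonneg _)
  have t2 : 0 ≤ (1 / 4 - (1 - z) / 4) * ((p - s) / 2) ^ 2 :=
    mul_nonneg (by linarith) (sq_nonneg _)
  have t3 : 0 ≤ (1 - z) / 4 * ((q - r) / 2) ^ 2 := mul_nonneg hq0 (sq_nonneg _)
  nlinarith [t1, t2, t3]

private lemma site_ct (z : ℝ) (d t : ZMod 2) (G : ZMod 2 × ZMod 2 → ℝ) :
    ∑ a, cz z (d, t) a * G a = ∑ x, wz z x * G (d + t * x.1, d + t * x.2) := by
  rw [sum4t, sum4t]
  rcases two_casest d with rfl | rfl <;> rcases two_casest t with rfl | rfl <;>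
    simp [cz, wz, add11t] <;> ring

private lemma corrt {n : ℕ} (z : ℝ) (F : (Fin n → ZMod 2 × ZMod 2) → ℝ) (D T : Fin n → ZMod 2) :
    ∑ y : Fin n → ZMod 2 × ZMod 2, (∏ i, cz z (D i, T i) (y i)) * F y =
      ∑ x : Fin n → ZMod 2 × ZMod 2,
        pw (wz z) x * F fun i => (D i + T i * (x i).1, D i + T i * (x i).2) := by
  induction n with
  | zero =>
    rw [Fintype.sum_subsingleton _ (0 : Fin 0 → ZMod 2 × ZMod 2),
      Fintype.sum_subsingleton _ (0 : Fin 0 → ZMod 2 × ZMod 2)]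
    simp only [pw, Finset.univ_eq_empty, Finset.prod_empty, one_mul]
    congr 1
    funext i
    exact i.elim0
  | succ n ih =>
    rw [sum_cn, sum_cn]
    have e1 : ∀ a : ZMod 2 × ZMod 2, ∀ y : Fin n → ZMod 2 × ZMod 2,
        (∏ i, cz z (D i, T i) (cn a y i)) * F (cn a y) =
          cz z (D 0, T 0) a * ((∏ i : Fin n, cz z (D i.succ, T i.succ) (y i)) * F (cn a y)) := by
      intro a y
      rw [Fin.prod_univ_succ]
      simp only [cn_zero, cn_succ]
      ring
    simp only [e1, ← Finset.mul_sum]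
    have e3 : ∀ a : ZMod 2 × ZMod 2,
        ∑ y : Fin n → ZMod 2 × ZMod 2,
          (∏ i : Fin n, cz z (D i.succ, T i.succ) (y i)) * F (cn a y) =
        ∑ x : Fin n → ZMod 2 × ZMod 2, pw (wz z) x *
          F (cn a fun i => (D i.succ + T i.succ * (x i).1, D i.succ + T i.succ * (x i).2)) :=
      fun a => ih (fun y => F (cn a y)) (fun i => D i.succ) (fun i => T i.succ)
    simp only [e3]
    have e4' : ∀ a : ZMod 2 × ZMod 2, ∀ x : Fin n → ZMod 2 × ZMod 2,
        (fun i => (D i + T i * (cn a x i).1, D i + T i * (cn a x i).2)) =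
          cn (D 0 + T 0 * a.1, D 0 + T 0 * a.2)
            (fun i : Fin n => (D i.succ + T i.succ * (x i).1, D i.succ + T i.succ * (x i).2)) := by
      intro a x
      funext i
      refine Fin.cases ?_ (fun j => ?_) i
      · rfl
      · rfl
    simp only [e4', pw_cn, mul_assoc, ← Finset.mul_sum]
    exact site_ct z (D 0) (T 0) fun b => ∑ x : Fin n → ZMod 2 × ZMod 2, pw (wz z) x *
      F (cn b fun i => (D i.succ + T i.succ * (x i).1, D i.succ + T i.succ * (x i).2))

theorem phi_eq_tz {V : Type} (z : ℝ) (n : ℕ) (P : ℕ → ZMod 2 × ZMod 2 → V → V) (q : V)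
    (G : V → ℝ) (D T : Fin n → ZMod 2) :
    Phi (cz z) P q G n (fun i => (ez D i, ez T i)) = tz z n (rst D T P) q G := by
  have hez : ∀ (X : Fin n → ZMod 2) (i : Fin n), ez X (i : ℕ) = X i := by
    intro X i
    unfold ez
    rw [dif_pos i.isLt]
  unfold Phi tz
  rw [fut_word]
  simp only [hez]
  rw [corrt z (fun y => G (endSt P q n y)) D T]
  refine Finset.sum_congr rfl fun x _ => ?_
  have h := endSt_rst D T P q n le_rfl x
  rw [← h]
  rfl

end Helper4.GA
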