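import Pool.Agent.Helper4.GA.TzSite
import Pool.Agent.Helper4.GA.GrowK
import Pool.Agent.Helper4.RC.FK

set_option autoImplicit false

/-!
One level of restrictions for programs reading pairs of bits.

Proof sketch. (See RC/Bounds.lean, `W_pair_le`, and RC/PairStep.lean, `pair_step`.) `W2_le`: `growthK` with
`kl_letters isChar_e4 (isKer_cz z ..)`, `κ₀ = 0`, `c = 3` (`sum_ind_nz`, card `4`); `dist ≤ 1`, and
`j * (3 * (Q + 2 * n * K)) ^ j * R ≤ k * (3 * (Q + 2 * n * K)) ^ k * R ≤ 1 ≤ (3 * Q) ^ k`. `step2`: `fk` with `e4`,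
`cz z`, the program `P`, `Ω = Θ × Θ` and the symbols `fun i => (ez (str ab.1) i, ez (str ab.2) i)` (`biasedN_pair`);
`phi_eq_tz`; the true mean is `∑ v, dist P q (kl e4 (cz z) 0) n v * G v = tz ((1 + z) / 2) n P q G` (`kl_cz_zero`, `fut_eq`).
`lev ≤ (2/3)^k` by `lev_le` with `lam = 3/2` and `site_pair2`.
-/

namespace Helper4.GA

open Finset Helper4.RC

/-- The error of one level, for programs with `K` states. -/
noncomputable def eps2 (K n Q : ℝ) (k : ℕ) (δ : ℝ) : ℝ :=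
  δ * (k * K * (2 * (3 * Q) ^ k)) + n * K * √((2 / 3) ^ k + δ * (2 * (3 * Q) ^ k) ^ 2)

section

variable {V Θ : Type} [Fintype V] [Fintype Θ] [Nonempty Θ]

theorem W2_le (P : ℕ → ZMod 2 × ZMod 2 → V → V) (q : V) (n k : ℕ) (Q R : ℝ) (hQ : 1 ≤ Q)
    (hR : 0 ≤ R) (hKB : KB V (Fintype.card V) n Q R)
    (hN : k * (3 * (Q + 2 * n * Fintype.card V)) ^ k * R ≤ 1) (z : ℝ) (h0 : -1 ≤ z)
    (h1 : z ≤ 1) (j : ℕ) (hj : j ≤ k) (t : ℕ) (ht : t ≤ n) (v : V) :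
    W P q (kl e4 (cz z)) nz j t v ≤ 2 * (3 * Q) ^ k := by
  have hL := kl_letters isChar_e4 (isKer_cz z h0 h1)
  have hcard : (Fintype.card (ZMod 2 × ZMod 2) : ℝ) = 4 := by
    rw [Fintype.card_prod, ZMod.card]; norm_num
  have hc : ∑ κ : ZMod 2 × ZMod 2, ind (nz κ) ≤ 3 := by
    rw [sum_ind_nz, hcard]; norm_num
  have hg := growthK P q hL 0 (fun _ => Iff.rfl) n Q R 3 hQ hR (by norm_num) hc hKB j t ht v
  have hd := dist_le_one P q hL.p_nonneg hL.p_sum t v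
  have hn0 : (0 : ℝ) ≤ n := Nat.cast_nonneg _
  have hV0 : (0 : ℝ) ≤ Fintype.card V := Nat.cast_nonneg _
  have hnV : (0 : ℝ) ≤ 2 * n * Fintype.card V := by positivity
  have ha : (1 : ℝ) ≤ 3 * Q := by linarith
  have hB : (1 : ℝ) ≤ 3 * (Q + 2 * n * Fintype.card V) := by linarith
  have h1' : (3 * Q) ^ j ≤ (3 * Q) ^ k := pow_le_pow_right₀ ha hj
  have h3 : (1 : ℝ) ≤ (3 * Q) ^ k := one_le_pow₀ ha
  have h2 : (3 * Q) ^ j * dist P q (kl e4 (cz z) 0) t v ≤ (3 * Q) ^ k := by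
    calc (3 * Q) ^ j * dist P q (kl e4 (cz z) 0) t v ≤ (3 * Q) ^ j * 1 :=
          mul_le_mul_of_nonneg_left hd (by positivity)
      _ ≤ (3 * Q) ^ k := by rw [mul_one]; exact h1'
  have h4 : (3 * (Q + 2 * n * (Fintype.card V : ℝ))) ^ j ≤
      (3 * (Q + 2 * n * (Fintype.card V : ℝ))) ^ k := pow_le_pow_right₀ hB hj
  have h5 : (j : ℝ) ≤ k := by exact_mod_cast hj
  have h6 : (j : ℝ) * (3 * (Q + 2 * n * (Fintype.card V : ℝ))) ^ j ≤
      k * (3 * (Q + 2 * n * (Fintype.card V : ℝ))) ^ k :=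
    mul_le_mul h5 h4 (by positivity) (by positivity)
  have h7 : (j : ℝ) * (3 * (Q + 2 * n * (Fintype.card V : ℝ))) ^ j * R ≤ 1 :=
    (mul_le_mul_of_nonneg_right h6 hR).trans hN
  linarith

theorem step2 (P : ℕ → ZMod 2 × ZMod 2 → V → V) (q : V) (G : V → ℝ) (hG : ∀ v, |G v| ≤ 1)
    (n k : ℕ) (hk : 1 ≤ k) (Q R : ℝ) (hQ : 1 ≤ Q) (hR : 0 ≤ R)
    (hKB : KB V (Fintype.card V) n Q R)
    (hN : k * (3 * (Q + 2 * n * Fintype.card V)) ^ k * R ≤ 1)
    (str : Θ → Fin n → ZMod 2) (δ : ℝ) (hδ : 0 ≤ δ) (hstr : Biased str δ)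
    (z : ℝ) (h0 : 0 ≤ z) (h1 : z ≤ 1) :
    |(mean fun ab : Θ × Θ => tz z n (rst (str ab.1) (str ab.2) P) q G) -
      tz ((1 + z) / 2) n P q G| ≤ eps2 (Fintype.card V) n Q k δ := by
  have hz0 : -1 ≤ z := by linarith
  have hL := kl_letters isChar_e4 (isKer_cz z hz0 h1)
  have hfk := fk isChar_e4 (isKer_cz z hz0 h1) P q G hG k hk n hδ (biasedN_pair hδ hstr)
  have hA : ∀ ab : Θ × Θ, Phi (cz z) P q G n
      (fun i => (ez (str ab.1) i, ez (str ab.2) i)) =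
      tz z n (rst (str ab.1) (str ab.2) P) q G := fun ab =>
    phi_eq_tz z n P q G (str ab.1) (str ab.2)
  have hB : ∑ v, dist P q (kl e4 (cz z) 0) n v * G v = tz ((1 + z) / 2) n P q G := by
    have hp : kl e4 (cz z) 0 = wz ((1 + z) / 2) := funext fun y => kl_cz_zero z y
    unfold tz
    rw [hp, fut_eq]
  rw [hB] at hfk
  simp only [hA] at hfk
  refine hfk.trans ?_
  have hW : ∀ j ≤ k, ∀ t ≤ n, ∀ v : V, W P q (kl e4 (cz z)) nz j t v ≤ 2 * (3 * Q) ^ k :=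
    fun j hj t ht v => W2_le P q n k Q R hQ hR hKB hN z hz0 h1 j hj t ht v
  have hW0 : ∀ (j t : ℕ) (v : V), 0 ≤ W P q (kl e4 (cz z)) nz j t v :=
    fun j t v => Finset.sum_nonneg fun χ _ => by split_ifs <;> positivity
  have hlev : ∀ (t : ℕ) (v : V),
      lev P q (kl e4 (cz z)) nz k t v ≤ (2 / 3) ^ k := fun t v => by
    have h3 := lev_le P q (kl e4 (cz z) 0) (kl e4 (cz z)) nz (3 / 2) (by norm_num)
      hL.p_nonneg hL.p_sum (site_pair2 z h0 h1) k t v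
    have h4 : (2 / 3 : ℝ) ^ k * (3 / 2) ^ k = 1 := by
      rw [← mul_pow]
      norm_num
    have h5 : (0 : ℝ) ≤ (2 / 3) ^ k := by positivity
    calc lev P q (kl e4 (cz z)) nz k t v
        = (2 / 3 : ℝ) ^ k * ((3 / 2) ^ k * lev P q (kl e4 (cz z)) nz k t v) := by
          rw [← mul_assoc, h4, one_mul]
      _ ≤ (2 / 3 : ℝ) ^ k * 1 := mul_le_mul_of_nonneg_left h3 h5
      _ = _ := mul_one _
  have hBp : (0 : ℝ) ≤ 2 * (3 * Q) ^ k := by positivity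
  unfold eps2
  refine add_le_add (mul_le_mul_of_nonneg_left ?_ hδ) ?_
  · calc ∑ j ∈ Ico 1 k, ∑ v, W P q (kl e4 (cz z)) nz j n v
        ≤ ∑ _j ∈ Ico 1 k, ∑ _v : V, 2 * (3 * Q) ^ k :=
          Finset.sum_le_sum fun j hj => Finset.sum_le_sum fun v _ =>
            hW j (Finset.mem_Ico.1 hj).2.le n le_rfl v
      _ = ((k - 1 : ℕ) : ℝ) * ((Fintype.card V : ℝ) * (2 * (3 * Q) ^ k)) := by
          rw [Finset.sum_const, Finset.sum_const, Nat.card_Ico, Finset.card_univ, nsmul_eq_mul,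
            nsmul_eq_mul]
      _ ≤ (k : ℝ) * ((Fintype.card V : ℝ) * (2 * (3 * Q) ^ k)) := by
          refine mul_le_mul_of_nonneg_right ?_ (by positivity)
          exact_mod_cast Nat.sub_le k 1
      _ = _ := by ring
  · calc ∑ t ∈ range n, ∑ v, √(lev P q (kl e4 (cz z)) nz k (t + 1) v +
          δ * (W P q (kl e4 (cz z)) nz k (t + 1) v) ^ 2)
        ≤ ∑ _t ∈ range n, ∑ _v : V, √((2 / 3 : ℝ) ^ k + δ * (2 * (3 * Q) ^ k) ^ 2) := by
          refine Finset.sum_le_sum fun t ht => Finset.sum_le_sum fun v _ => ?_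
          refine Real.sqrt_le_sqrt (add_le_add (hlev _ v) (mul_le_mul_of_nonneg_left ?_ hδ))
          exact pow_le_pow_left₀ (hW0 _ _ _)
            (hW k le_rfl (t + 1) (Nat.succ_le_of_lt (Finset.mem_range.1 ht)) v) 2
      _ = _ := by
          rw [Finset.sum_const, Finset.sum_const, Finset.card_range, Finset.card_univ,
            nsmul_eq_mul, nsmul_eq_mul]
          ring

end

end Helper4.GA
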